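import Pool.Agent.H.MP_cd3d06_an.L.DDefs

/-! MP_cd3d06_an, module DBasic: properness, smoothness, derivative and determinant of `h` -/

open Polynomial Metric Set Filter Topology MeasureTheory
open scoped ComplexConjugate

namespace Pool.Agent.HZ

private lemma eval_bound (r : ℂ[X]) {N : ℕ} (hN : r.natDegree ≤ N) {z : ℂ} (hz : 1 ≤ ‖z‖) :
    ‖r.eval z‖ ≤ (∑ i ∈ Finset.range (N + 1), ‖r.coeff i‖) * ‖z‖ ^ N := by
  rw [Polynomial.eval_eq_sum_range' (Nat.lt_succ_of_le hN), Finset.sum_mul]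
  refine (norm_sum_le _ _).trans (Finset.sum_le_sum fun i hi => ?_)
  rw [norm_mul, norm_pow]
  have hi' : i ≤ N := Nat.lt_succ_iff.mp (Finset.mem_range.mp hi)
  exact mul_le_mul_of_nonneg_left (pow_le_pow_right₀ hz hi') (norm_nonneg _)

private lemma contDiff_poly (r : ℂ[X]) : ContDiff ℝ ⊤ (fun z : ℂ => r.eval z) := by
  have h : ContDiff ℂ ⊤ (fun z : ℂ => r.eval z) := by
    simpa only [Polynomial.coe_aeval_eq_eval] using Polynomial.contDiff_aeval (𝕜 := ℂ) r ⊤
  exact h.restrict_scalars ℝ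

/-- quantitative properness -/
theorem hp_lower {p q : ℂ[X]} (hpq : q.natDegree < p.natDegree) : ∃ c C : ℝ, 0 < c ∧ 0 < C ∧
    ∀ z : ℂ, C ≤ ‖z‖ → c * ‖z‖ ^ p.natDegree ≤ ‖hp p q z‖ := by
  set n := p.natDegree with hn
  obtain ⟨k, hk⟩ : ∃ k, n = k + 1 := ⟨n - 1, by omega⟩
  have hp0 : p ≠ 0 := by
    rintro rfl
    simp at hn
    omega
  have ha : 0 < ‖p.leadingCoeff‖ := norm_pos_iff.mpr (leadingCoeff_ne_zero.mpr hp0)
  set a := p.leadingCoeff with ha'
  set S1 := ∑ i ∈ Finset.range (k + 1), ‖p.eraseLead.coeff i‖ with hS1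
  set S2 := ∑ i ∈ Finset.range (k + 1), ‖q.coeff i‖ with hS2
  have hS1n : 0 ≤ S1 := Finset.sum_nonneg fun _ _ => norm_nonneg _
  have hS2n : 0 ≤ S2 := Finset.sum_nonneg fun _ _ => norm_nonneg _
  refine ⟨‖a‖ / 2, max 1 (2 * (S1 + S2) / ‖a‖), by positivity, by positivity, fun z hz => ?_⟩
  have hz1 : 1 ≤ ‖z‖ := (le_max_left _ _).trans hz
  have hz2 : 2 * (S1 + S2) / ‖a‖ ≤ ‖z‖ := (le_max_right _ _).trans hz
  have hz2' : 2 * (S1 + S2) ≤ ‖z‖ * ‖a‖ := (div_le_iff₀ ha).mp hz2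
  have h1 : ‖p.eraseLead.eval z‖ ≤ S1 * ‖z‖ ^ k := by
    refine eval_bound _ ?_ hz1
    have := p.eraseLead_natDegree_le
    omega
  have h2 : ‖q.eval z‖ ≤ S2 * ‖z‖ ^ k := eval_bound _ (by omega) hz1
  have h3 : p.eval z = p.eraseLead.eval z + a * z ^ n := by
    have h30 := congrArg (fun r => r.eval z) p.eraseLead_add_C_mul_X_pow
    simp only [eval_add, eval_mul, eval_C, eval_pow, eval_X] at h30
    rw [← h30]
  have h4 : a * z ^ n = hp p q z - (p.eraseLead.eval z + conj (q.eval z)) := by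
    rw [hp, h3]; ring
  have h5 : ‖a‖ * ‖z‖ ^ n ≤ ‖hp p q z‖ + (S1 * ‖z‖ ^ k + S2 * ‖z‖ ^ k) := by
    rw [← norm_pow, ← norm_mul, h4]
    refine (norm_sub_le _ _).trans (add_le_add_right ?_ _)
    refine (norm_add_le _ _).trans (add_le_add h1 ?_)
    rwa [RCLike.norm_conj]
  have h6 : (S1 + S2) * ‖z‖ ^ k ≤ ‖a‖ / 2 * ‖z‖ ^ n := by
    rw [hk, pow_succ]
    have : 0 ≤ ‖z‖ ^ k := by positivity
    nlinarith
  nlinarith

theorem hp_tendsto {p q : ℂ[X]} (hpq : q.natDegree < p.natDegree) :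
    Tendsto (fun z => ‖hp p q z‖) (cocompact ℂ) atTop := by
  obtain ⟨c, C, hc, hC, h⟩ := hp_lower hpq
  have hn : p.natDegree ≠ 0 := by omega
  have h1 : Tendsto (fun z : ℂ => c * ‖z‖ ^ p.natDegree) (cocompact ℂ) atTop :=
    Tendsto.const_mul_atTop hc ((tendsto_pow_atTop hn).comp tendsto_norm_cocompact_atTop)
  refine tendsto_atTop_mono' _ ?_ h1
  filter_upwards [(tendsto_norm_cocompact_atTop (E := ℂ)).eventually_ge_atTop C] with z hz
  exact h z hz

/-- the real derivative `v ↦ p'(z) v + conj (q'(z) v)` -/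
noncomputable def dh (p q : ℂ[X]) (z : ℂ) : ℂ →L[ℝ] ℂ :=
  ((derivative p).eval z) • (ContinuousLinearMap.id ℝ ℂ) +
    Complex.conjCLE.toContinuousLinearMap.comp
      (((derivative q).eval z) • (ContinuousLinearMap.id ℝ ℂ))

theorem dh_apply (p q : ℂ[X]) (z v : ℂ) :
    dh p q z v = (derivative p).eval z * v + conj ((derivative q).eval z * v) := by
  simp [dh]

theorem hasStrictFDerivAt_hp (p q : ℂ[X]) (z : ℂ) : HasStrictFDerivAt (hp p q) (dh p q z) z := by
  have h1 := ((p.hasStrictDerivAt z).hasStrictFDerivAt).restrictScalars ℝ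
  have h2 := ((q.hasStrictDerivAt z).hasStrictFDerivAt).restrictScalars ℝ
  have h3 := (Complex.conjCLE.toContinuousLinearMap.hasStrictFDerivAt (x := q.eval z)).comp z h2
  have h4 := h1.add h3
  refine (h4.congr_fderiv ?_)
  ext v
  simp [dh, mul_comm]

theorem det_dh (p q : ℂ[X]) (z : ℂ) : (dh p q z).det = jac p q z := by
  have h0 : (dh p q z).det = LinearMap.det (dh p q z : ℂ →ₗ[ℝ] ℂ) := rfl
  rw [h0, ← LinearMap.det_toMatrix Complex.basisOneI, Matrix.det_fin_two]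
  simp only [LinearMap.toMatrix_apply, jac]
  simp [dh_apply, ← Complex.normSq_eq_norm_sq, Complex.normSq_apply]
  ring

theorem contDiff_hp (p q : ℂ[X]) : ContDiff ℝ ⊤ (hp p q) := by
  have h1 : ContDiff ℝ ⊤ (fun z : ℂ => p.eval z) := contDiff_poly p
  have h2 : ContDiff ℝ ⊤ (fun z : ℂ => q.eval z) := contDiff_poly q
  exact h1.add (Complex.conjCLE.contDiff.comp h2)

theorem contDiff_jac (p q : ℂ[X]) : ContDiff ℝ ⊤ (jac p q) := by
  have h1 : ContDiff ℝ ⊤ (fun z : ℂ => (derivative p).eval z) :=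
    contDiff_poly _
  have h2 : ContDiff ℝ ⊤ (fun z : ℂ => (derivative q).eval z) :=
    contDiff_poly _
  exact (h1.norm_sq ℝ).sub (h2.norm_sq ℝ)

/-- regular zeros are isolated and there are finitely many of them -/
theorem finite_zeros_of_reg {p q : ℂ[X]} (hpq : q.natDegree < p.natDegree) (hreg : Reg p q) :
    {z | hp p q z = 0}.Finite := by
  obtain ⟨c, C, hc, hC, h⟩ := hp_lower hpq
  have hcont : Continuous (hp p q) := (contDiff_hp p q).continuous
  have hclosed : IsClosed {z | hp p q z = 0} := isClosed_eq hcont continuous_const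
  have hsub : {z | hp p q z = 0} ⊆ closedBall (0 : ℂ) C := by
    intro z hz
    rw [mem_closedBall_zero_iff]
    by_contra hlt
    push Not at hlt
    have h1 := h z hlt.le
    have hz' : hp p q z = 0 := hz
    rw [hz', norm_zero] at h1
    have : 0 < c * ‖z‖ ^ p.natDegree := by
      have : 0 < ‖z‖ := hC.trans hlt
      positivity
    linarith
  have hcomp : IsCompact {z | hp p q z = 0} :=
    (isCompact_closedBall (0 : ℂ) C).of_isClosed_subset hclosed hsub
  by_contra hinf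
  obtain ⟨z, hz, hacc⟩ := Set.Infinite.exists_accPt_of_subset_isCompact hinf hcomp subset_rfl
  have hne := hreg z hz
  have hfd : HasFDerivAt (hp p q) (dh p q z) z := (hasStrictFDerivAt_hp p q z).hasFDerivAt
  have hev : ∀ᶠ w in 𝓝[≠] z, hp p q w ≠ 0 := by
    have hpos : 0 < |‖(derivative p).eval z‖ - ‖(derivative q).eval z‖| :=
      abs_pos.mpr (sub_ne_zero.mpr hne)
    refine hfd.eventually_ne
      ⟨NNReal.mk (|‖(derivative p).eval z‖ - ‖(derivative q).eval z‖|⁻¹) (by positivity),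
        AddMonoidHomClass.antilipschitz_of_bound _ fun v => ?_⟩
    rw [dh_apply, NNReal.coe_mk, inv_mul_eq_div, le_div_iff₀ hpos]
    set A := (derivative p).eval z
    set B := (derivative q).eval z
    have e1 : ‖conj (B * v)‖ = ‖B‖ * ‖v‖ := by rw [RCLike.norm_conj, norm_mul]
    have e2 : ‖A * v‖ = ‖A‖ * ‖v‖ := norm_mul _ _
    have e3 : |‖A * v‖ - ‖conj (B * v)‖| ≤ ‖A * v + conj (B * v)‖ := by
      have := abs_norm_sub_norm_le (A * v) (-conj (B * v))
      rwa [norm_neg, sub_neg_eq_add] at this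
    rw [e1, e2, ← sub_mul, abs_mul, abs_of_nonneg (norm_nonneg v)] at e3
    linarith [mul_comm ‖v‖ (|‖A‖ - ‖B‖|)]
  rw [accPt_iff_frequently_nhdsNE] at hacc
  exact hacc (hev.mono fun w hw hw' => hw hw')

end Pool.Agent.HZ
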