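import Pool.Agent.H.MP_cd3d06_an.L.Basic

/-! MP_cd3d06_an, module Select: the deepest point with a large logarithmic derivative -/

open Polynomial Metric Set Filter Topology
open scoped ComplexConjugate

namespace Pool.Agent.HZ

private theorem Lin.shift {p q : ℂ[X]} {x : ℂ} (X : Lin p q x) (v : ℂ) :
    ∃ v' : ℂ, v'.re = v.re ∧ v'.im ∈ Icc 0 (2 * Real.pi) ∧ ∀ c, X.ld c v' = X.ld c v := by
  have hpi := Real.two_pi_pos
  set n : ℤ := ⌊v.im / (2 * Real.pi)⌋ with hn
  refine ⟨v - n * (2 * Real.pi * Complex.I), by simp, ?_, fun c => ?_⟩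
  · have h1 : (v - n * (2 * Real.pi * Complex.I)).im = v.im - n * (2 * Real.pi) := by simp
    rw [h1]
    have h2 : (n : ℝ) ≤ v.im / (2 * Real.pi) := Int.floor_le _
    have h3 : v.im / (2 * Real.pi) < n + 1 := Int.lt_floor_add_one _
    rw [le_div_iff₀ hpi] at h2
    rw [div_lt_iff₀ hpi] at h3
    constructor
    · linarith
    · linarith
  · unfold ld
    have : Complex.exp (v - n * (2 * Real.pi * Complex.I)) = Complex.exp v := by
      rw [Complex.exp_sub, Complex.exp_int_mul_two_pi_mul_I, div_one]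
    rw [this]

theorem Lin.select {p q : ℂ[X]} {x : ℂ} (X : Lin p q x) {y G : ℝ} (hy : X.om < y) (hG : 0 < G)
    (h : ¬ X.Bound y G) : ∃ c v₀ : ℂ, (derivative q).eval c = 0 ∧ v₀.re ≤ -y ∧
      ‖X.ld c v₀‖ = G ∧ X.Bound (-v₀.re) G := by
  classical
  have hq0 : derivative q ≠ 0 := by
    intro h0
    apply X.hq 0 (mem_ball_self X.lam_pos)
    rw [h0]
    simp
  obtain ⟨y', hy', hB'⟩ := X.bound_lim (half_pos hG)
  have hlow : ∀ c v : ℂ, (derivative q).eval c = 0 → G ≤ ‖X.ld c v‖ → -y' < v.re := by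
    intro c v hc hv
    by_contra hcon
    have := hB' c hc v (not_lt.mp hcon)
    linarith
  set K : Set ℂ := Icc (-y') (-y) ×ℂ Icc 0 (2 * Real.pi) with hK
  have hKc : IsCompact K := isCompact_Icc.reProdIm isCompact_Icc
  have hcont : ∀ c : ℂ, (derivative q).eval c = 0 → ContinuousOn (fun v => ‖X.ld c v‖) K := by
    intro c hc
    refine ((X.ld_differentiableOn hc).continuousOn.mono ?_).norm
    intro v hv
    have h1 : v.re ∈ Icc (-y') (-y) := hv.1
    show v.re < -X.om
    linarith [h1.2]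
  set E : Set ℂ := ⋃ c ∈ (derivative q).roots.toFinset, K ∩ (fun v => ‖X.ld c v‖) ⁻¹' Ici G with hE
  have hEc : IsCompact E := by
    refine (derivative q).roots.toFinset.isCompact_biUnion fun c hc => ?_
    rw [Multiset.mem_toFinset, mem_roots hq0] at hc
    exact hKc.of_isClosed_subset
      ((hcont c hc).preimage_isClosed_of_isClosed hKc.isClosed isClosed_Ici) inter_subset_left
  have hmemE : ∀ v, v ∈ E ↔ ∃ c, (derivative q).eval c = 0 ∧ v ∈ K ∧ G ≤ ‖X.ld c v‖ := by
    intro v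
    simp only [hE, mem_iUnion, Multiset.mem_toFinset, mem_roots hq0, IsRoot.def, exists_prop]
    rfl
  have hin : ∀ c v : ℂ, (derivative q).eval c = 0 → v.re ≤ -y → G ≤ ‖X.ld c v‖ →
      ∃ v' ∈ E, v'.re = v.re := by
    intro c v hc hv hG'
    obtain ⟨v', h1, h2, h3⟩ := X.shift v
    refine ⟨v', (hmemE v').2 ⟨c, hc, ⟨⟨?_, ?_⟩, h2⟩, ?_⟩, h1⟩
    · show -y' ≤ v'.re
      rw [h1]
      exact (hlow c v hc hG').le
    · show v'.re ≤ -y
      rw [h1]; exact hv
    · rw [h3]; exact hG'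
  have hne : E.Nonempty := by
    unfold Bound at h
    push Not at h
    obtain ⟨c, hc, v, hv, hGv⟩ := h
    obtain ⟨v', hv', -⟩ := hin c v hc hv hGv.le
    exact ⟨v', hv'⟩
  obtain ⟨v₀, hv₀, hmin⟩ := hEc.exists_isMinOn hne Complex.continuous_re.continuousOn
  obtain ⟨c, hc, hvK, hcG⟩ := (hmemE v₀).1 hv₀
  have hv₀y : v₀.re ≤ -y := hvK.1.2
  have hlt : ∀ c', (derivative q).eval c' = 0 → ∀ v : ℂ, v.re < v₀.re → ‖X.ld c' v‖ < G := by
    intro c' hc' v hv
    by_contra hcon
    obtain ⟨v', hv', hre⟩ := hin c' v hc' (by linarith) (not_lt.mp hcon)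
    have h1 : v₀.re ≤ v'.re := hmin hv'
    linarith
  have hB : X.Bound (-v₀.re) G := by
    intro c' hc' v hv
    rw [neg_neg] at hv
    have hvom : v.re < -X.om := by linarith
    have hca : ContinuousAt (X.ld c') v := by
      apply ((X.ld_differentiableOn hc').continuousOn).continuousAt
      exact (isOpen_lt Complex.continuous_re continuous_const).mem_nhds hvom
    have h1 : Tendsto (fun s : ℝ => v - (s : ℂ)) (𝓝[>] 0) (𝓝 v) := by
      have : Tendsto (fun s : ℝ => v - (s : ℂ)) (𝓝 0) (𝓝 (v - ((0 : ℝ) : ℂ))) :=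
        (continuous_const.sub Complex.continuous_ofReal).tendsto 0
      rw [Complex.ofReal_zero, sub_zero] at this
      exact this.mono_left nhdsWithin_le_nhds
    have h2 : Tendsto (fun s : ℝ => ‖X.ld c' (v - (s : ℂ))‖) (𝓝[>] 0) (𝓝 ‖X.ld c' v‖) :=
      (hca.tendsto.comp h1).norm
    refine le_of_tendsto h2 ?_
    filter_upwards [self_mem_nhdsWithin] with s hs
    refine (hlt c' hc' _ ?_).le
    have : (v - (s : ℂ)).re = v.re - s := by simp
    rw [this]
    have : (0 : ℝ) < s := hs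
    linarith
  refine ⟨c, v₀, hc, hv₀y, le_antisymm (hB c hc v₀ (by simp)) hcG, hB⟩

end Pool.Agent.HZ
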