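import Pool.Agent.H.MP_cd3d06_an.L.Growth
import Pool.Agent.H.MP_cd3d06_an.L.Select

/-! MP_cd3d06_an, module ClassA1: multipliers away from 1: good or exceptional -/

open Polynomial Metric Set Filter Topology
open scoped ComplexConjugate

namespace Pool.Agent.HZ

namespace ClassA1

variable {p q : ℂ[X]} {x : ℂ} (X : Lin p q x)

/-- the logarithmic derivative of `ψ - c` in the original coordinate is differentiable -/
theorem dl_differentiableOn {c : ℂ} (hc : (derivative q).eval c = 0) :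
    DifferentiableOn ℂ (fun t => deriv X.psi t / (X.psi t - c)) (ball 0 X.lam) := by
  have h1 : DifferentiableOn ℂ X.psi (ball 0 X.lam) :=
    X.diff.mono (ball_subset_ball X.lam_lt.le)
  have h2 : DifferentiableOn ℂ (deriv X.psi) (ball 0 X.lam) := h1.deriv isOpen_ball
  refine h2.div (h1.sub_const c) ?_
  intro t ht h0
  apply X.hq t ht
  rw [sub_eq_zero.mp h0]
  exact hc

theorem bound_dl {X : Lin p q x} {y G : ℝ} (hy : X.om < y) (h : X.Bound y G)
    {c : ℂ} (hc : (derivative q).eval c = 0) {t : ℂ} (ht : ‖t‖ ≤ Real.exp (-y)) :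
    ‖deriv X.psi t / (X.psi t - c)‖ ≤ G * Real.exp y := by
  have key : ∀ s : ℂ, s ≠ 0 → ‖s‖ ≤ Real.exp (-y) →
      ‖deriv X.psi s / (X.psi s - c)‖ ≤ G * Real.exp y := by
    intro s hs0 hs
    have hpos : 0 < ‖s‖ := norm_pos_iff.mpr hs0
    have hexp : Complex.exp (Complex.log s) = s := Complex.exp_log hs0
    have hre : (Complex.log s).re = Real.log ‖s‖ := Complex.log_re s
    have hle : (Complex.log s).re ≤ -y := by
      rw [hre]
      exact (Real.log_le_iff_le_exp hpos).mpr hs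
    have h1 := Lin.Bound.schwarz hy h hc hle
    unfold Lin.ld at h1
    rw [hexp, hre, Real.exp_add, Real.exp_log hpos, mul_div_assoc, norm_mul] at h1
    have h2 : ‖s‖ * ‖deriv X.psi s / (X.psi s - c)‖ ≤ ‖s‖ * (G * Real.exp y) := by
      calc _ ≤ _ := h1
        _ = _ := by ring
    exact le_of_mul_le_mul_left h2 hpos
  by_cases h0 : t = 0
  · subst h0
    have hlam : Real.exp (-y) < X.lam := by
      rw [← X.exp_neg_om]
      exact Real.exp_lt_exp.mpr (by linarith)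
    have hc0 : ContinuousAt (fun t => ‖deriv X.psi t / (X.psi t - c)‖) 0 := by
      have := (dl_differentiableOn X hc).continuousOn.continuousAt
        (isOpen_ball.mem_nhds (mem_ball_self X.lam_pos))
      exact this.norm
    have ht1 : Tendsto (fun t => ‖deriv X.psi t / (X.psi t - c)‖) (𝓝[≠] 0)
        (𝓝 ‖deriv X.psi 0 / (X.psi 0 - c)‖) := hc0.tendsto.mono_left nhdsWithin_le_nhds
    refine le_of_tendsto ht1 ?_
    have hev : ∀ᶠ s : ℂ in 𝓝[≠] 0, ‖s‖ ≤ Real.exp (-y) := by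
      have : ∀ᶠ s : ℂ in 𝓝 0, ‖s‖ ≤ Real.exp (-y) := by
        filter_upwards [ball_mem_nhds (0 : ℂ) (Real.exp_pos (-y))] with s hs
        exact (mem_ball_zero_iff.mp hs).le
      exact this.filter_mono nhdsWithin_le_nhds
    filter_upwards [hev, self_mem_nhdsWithin] with s hs hs0
    exact key s hs0 hs
  · exact key t h0 ht

/-- Case 1: a small bound gives `Good` -/
theorem good_of_bound {X : Lin p q x} {K : ℕ} (hm : 1 ≤ q.natDegree) (hK : 2 ≤ K)
    (h : X.Bound (K * X.om) (1 / (4 * q.natDegree))) : X.Good K := by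
  intro v hv c hc
  have hom := X.om_pos
  have hm' : (1 : ℝ) ≤ q.natDegree := by exact_mod_cast hm
  have hK' : (2 : ℝ) ≤ K := by exact_mod_cast hK
  have hy : X.om < K * X.om := by nlinarith
  obtain ⟨L, hL, hexp⟩ := X.exists_L hc
  set r : ℝ := Real.exp (-(K * X.om)) with hr
  have hrlam : r < X.lam := by
    rw [← X.exp_neg_om]
    exact Real.exp_lt_exp.mpr (by linarith)
  set t : ℂ := Complex.exp v with ht
  have htn : ‖t‖ ≤ r := by
    rw [ht, Complex.norm_exp]
    exact Real.exp_le_exp.mpr hv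
  set t' : ℂ := Complex.exp (v - 2 * X.om) with ht'
  have hlt : X.lam < 1 := X.lam_lt
  have hlp : 0 < X.lam := X.lam_pos
  have ht't : t' = (X.lam ^ 2 : ℝ) * t := by
    rw [ht', ht, sub_eq_add_neg, Complex.exp_add, mul_comm]
    congr 1
    rw [← X.exp_neg_om, ← Real.exp_nat_mul]
    push_cast
    congr 1
    ring
  have ht'n : ‖t'‖ ≤ r := by
    rw [ht't, norm_mul, Complex.norm_real, Real.norm_of_nonneg (by positivity)]
    have : X.lam ^ 2 ≤ 1 := by nlinarith
    calc X.lam ^ 2 * ‖t‖ ≤ 1 * ‖t‖ := by gcongr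
      _ ≤ r := by linarith
  have hdist : ‖t' - t‖ ≤ r := by
    have : t' - t = ((X.lam ^ 2 - 1 : ℝ) : ℂ) * t := by
      rw [ht't]; push_cast; ring
    rw [this, norm_mul, Complex.norm_real, Real.norm_eq_abs]
    have h1 : |X.lam ^ 2 - 1| ≤ 1 := by
      rw [abs_le]; constructor <;> nlinarith
    calc |X.lam ^ 2 - 1| * ‖t‖ ≤ 1 * ‖t‖ := by gcongr
      _ ≤ r := by linarith
  have hsub : closedBall (0 : ℂ) r ⊆ ball 0 X.lam := closedBall_subset_ball hrlam
  have hd : ‖L t' - L t‖ ≤ (1 / (4 * q.natDegree) * Real.exp (K * X.om)) * ‖t' - t‖ := by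
    refine (convex_closedBall (0 : ℂ) r).norm_image_sub_le_of_norm_hasDerivWithin_le
      (f' := fun s => deriv X.psi s / (X.psi s - c)) ?_ ?_ ?_ ?_
    · intro s hs
      exact (hL s (hsub hs)).hasDerivWithinAt
    · intro s hs
      exact bound_dl hy h hc (by simpa using hs)
    · simpa using htn
    · simpa using ht'n
  have hd2 : ‖L t' - L t‖ ≤ 1 / (4 * q.natDegree) := by
    calc ‖L t' - L t‖ ≤ (1 / (4 * q.natDegree) * Real.exp (K * X.om)) * ‖t' - t‖ := hd
      _ ≤ (1 / (4 * q.natDegree) * Real.exp (K * X.om)) * r := by gcongr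
      _ = 1 / (4 * q.natDegree) := by
        rw [mul_assoc, hr, ← Real.exp_add]
        simp
  have hd1 : ‖L t' - L t‖ ≤ 1 := by
    refine hd2.trans ?_
    rw [div_le_one (by positivity)]
    linarith
  have hf : X.f v - c = Complex.exp (L t) := by
    rw [hexp t (hsub (by simpa using htn))]
    rfl
  have hf' : X.f (v - 2 * X.om) - c = Complex.exp (L t') := by
    rw [hexp t' (hsub (by simpa using ht'n))]
    rfl
  have hdiff : X.f (v - 2 * X.om) - X.f v = (X.f v - c) * (Complex.exp (L t' - L t) - 1) := by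
    have : X.f (v - 2 * X.om) - X.f v = (X.f (v - 2 * X.om) - c) - (X.f v - c) := by ring
    rw [this, hf', hf, mul_sub, ← Complex.exp_add]
    congr 2
    · ring
    · ring
  rw [hdiff, norm_mul, mul_comm]
  refine mul_le_mul_of_nonneg_right ?_ (norm_nonneg _)
  calc ‖Complex.exp (L t' - L t) - 1‖ ≤ 2 * ‖L t' - L t‖ := Complex.norm_exp_sub_one_le hd1
    _ ≤ 2 * (1 / (4 * q.natDegree)) := by gcongr
    _ = 1 / (2 * q.natDegree) := by
      field_simp
      norm_num

/-- iterating the growth lemma -/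
theorem iterate_growth {X : Lin p q x} {ω₀ y₀ : ℝ} (hω : 0 < ω₀) (hom : ω₀ ≤ X.om)
    (hm : 1 ≤ q.natDegree) {K : ℕ} (hK : 4 ≤ K) (hy : K * X.om ≤ y₀) (h : X.Bound y₀ 1) :
    ∀ j : ℕ, j ≤ K →
      X.Bound (y₀ - j * X.om / 2) ((96 * Real.pi * (2 / ω₀ + 8 * q.natDegree + 1)) ^ j) := by
  have hm' : (1 : ℝ) ≤ q.natDegree := by exact_mod_cast hm
  have hK' : (4 : ℝ) ≤ K := by exact_mod_cast hK
  have hpos := X.om_pos
  set CA : ℝ := 96 * Real.pi * (2 / ω₀ + 8 * q.natDegree + 1) with hCA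
  have hpi := Real.pi_gt_three
  have h1 : (1 : ℝ) ≤ 2 / ω₀ + 8 * q.natDegree + 1 := by
    have : 0 ≤ 2 / ω₀ := by positivity
    linarith
  have hCA1 : 1 ≤ CA := by
    rw [hCA]
    nlinarith
  intro j
  induction j with
  | zero =>
    intro _
    simpa using h
  | succ j ih =>
    intro hj
    have hj' : (j : ℝ) + 1 ≤ K := by exact_mod_cast hj
    have hb := ih (by omega)
    have h2 := X.growth hm (G := CA ^ j) (by positivity)
      (y := y₀ - j * X.om / 2) (by nlinarith) hb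
    refine Lin.Bound.mono h2 ?_ ?_
    · push_cast
      linarith
    · have hC1 : (1 : ℝ) ≤ CA ^ j := one_le_pow₀ hCA1
      have h3 : 2 / X.om ≤ 2 / ω₀ * CA ^ j := by
        calc 2 / X.om ≤ 2 / ω₀ := by gcongr
          _ = 2 / ω₀ * 1 := by ring
          _ ≤ 2 / ω₀ * CA ^ j := by gcongr
      calc 96 * Real.pi * (2 / X.om + 8 * q.natDegree * CA ^ j + 1)
          ≤ 96 * Real.pi * (2 / ω₀ * CA ^ j + 8 * q.natDegree * CA ^ j + CA ^ j) := by gcongr
        _ = CA ^ (j + 1) := by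
          rw [pow_succ, hCA]
          ring

/-- the choice of `K` -/
theorem choose_K (a b d w : ℝ) (hd : 0 < d) (hw : 0 < w) : ∃ K : ℕ, 4 ≤ K ∧
    a * K + b < d * Real.exp (K * w) := by
  obtain ⟨N, hN⟩ := exists_nat_gt (2 * (|a| + |b|) / (d * w ^ 2))
  refine ⟨N + 4, by omega, ?_⟩
  set K : ℝ := ((N + 4 : ℕ) : ℝ) with hK
  have hK1 : (1 : ℝ) ≤ K := by
    rw [hK]; push_cast
    have : (0 : ℝ) ≤ N := Nat.cast_nonneg N
    linarith
  have hKN : 2 * (|a| + |b|) / (d * w ^ 2) < K := by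
    refine hN.trans ?_
    rw [hK]; push_cast; linarith
  have h1 : 2 * (|a| + |b|) < K * (d * w ^ 2) := by
    rwa [div_lt_iff₀ (by positivity)] at hKN
  have h2 : (K * w) ^ 2 / 2 < Real.exp (K * w) := by
    have := Real.quadratic_le_exp_of_nonneg (x := K * w) (by positivity)
    nlinarith [mul_pos (lt_of_lt_of_le one_pos hK1) hw]
  have h3 : a * K + b ≤ (|a| + |b|) * K := by
    have ha := le_abs_self a
    have hb := le_abs_self b
    have hb0 := abs_nonneg b
    nlinarith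
  calc a * K + b ≤ (|a| + |b|) * K := h3
    _ ≤ (K * (d * w ^ 2) / 2) * K := by
      have : |a| + |b| ≤ K * (d * w ^ 2) / 2 := by linarith
      gcongr
    _ = d * ((K * w) ^ 2 / 2) := by ring
    _ < d * Real.exp (K * w) := by gcongr

/-- Case 2 -/
theorem exc_of_large {X : Lin p q x} {ω₀ M ε : ℝ} (hω : 0 < ω₀) (hom : ω₀ ≤ X.om) (hε : 0 < ε)
    (hm : 1 ≤ q.natDegree) {K : ℕ} (hK : 4 ≤ K) {c v₀ : ℂ} (hc : (derivative q).eval c = 0)
    (hv : v₀.re ≤ -(K * X.om)) (hl : ‖X.ld c v₀‖ = 1 / (4 * q.natDegree))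
    (hB : X.Bound (-v₀.re) (1 / (4 * q.natDegree)))
    (hlarge : 2 * (Real.log (4 * q.natDegree) +
        K * Real.log (96 * Real.pi * (2 / ω₀ + 8 * q.natDegree + 1))) *
          (4 * q.natDegree * max M 1 + 1) + min 1 (ε / 2) * (1 + (4 * q.natDegree * max M 1 + 1))
        < min 1 (ε / 2) * Real.exp (K * (ω₀ / 2))) : X.Exc c M ε := by
  have hm' : (1 : ℝ) ≤ q.natDegree := by exact_mod_cast hm
  have hK' : (4 : ℝ) ≤ K := by exact_mod_cast hK
  have hpos := X.om_pos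
  set κ : ℝ := 1 / (4 * q.natDegree) with hκ
  have hκ0 : 0 < κ := by positivity
  have hκ1 : κ ≤ 1 := by
    rw [hκ, div_le_one (by positivity)]; linarith
  set CA : ℝ := 96 * Real.pi * (2 / ω₀ + 8 * q.natDegree + 1) with hCA
  have hpi := Real.pi_gt_three
  have hCA1 : 1 ≤ CA := by
    have h1 : (1 : ℝ) ≤ 2 / ω₀ + 8 * q.natDegree + 1 := by
      have : 0 ≤ 2 / ω₀ := by positivity
      linarith
    rw [hCA]
    nlinarith
  set M1 : ℝ := max M 1 with hM1
  have hM1' : 1 ≤ M1 := le_max_right _ _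
  set B : ℝ := 4 * q.natDegree * M1 + 1 with hBdef
  have hB1 : 1 ≤ B := by
    rw [hBdef]
    have : 0 ≤ 4 * (q.natDegree : ℝ) * M1 := by positivity
    linarith
  set b : ℝ := Real.log (4 * q.natDegree) + K * Real.log CA with hb
  have hb0 : 0 < b := by
    have h1 : 0 < Real.log (4 * q.natDegree) := Real.log_pos (by linarith)
    have h2 : 0 ≤ Real.log CA := Real.log_nonneg hCA1
    have h3 : 0 ≤ K * Real.log CA := by positivity
    linarith
  set d : ℝ := min 1 (ε / 2) with hd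
  have hd0 : 0 < d := lt_min one_pos (by positivity)
  -- the bound on the larger disc
  have hbound : X.Bound (-v₀.re - K * X.om / 2) (CA ^ K) :=
    iterate_growth hω hom hm hK (by linarith) (hB.mono le_rfl hκ1) K le_rfl
  set yK : ℝ := -v₀.re - K * X.om / 2 with hyK
  have hyKom : X.om < yK := by rw [hyK]; nlinarith
  set rK : ℝ := Real.exp (-yK) with hrK
  have hrlam : rK < X.lam := by
    rw [← X.exp_neg_om]
    exact Real.exp_lt_exp.mpr (by linarith)
  set t₀ : ℂ := Complex.exp v₀ with ht₀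
  have ht₀n : ‖t₀‖ = Real.exp v₀.re := by rw [ht₀, Complex.norm_exp]
  have ht₀pos : 0 < ‖t₀‖ := by rw [ht₀n]; exact Real.exp_pos _
  set D : ℂ → ℂ := fun t => deriv X.psi t / (X.psi t - c) with hD
  have hDdiff : DifferentiableOn ℂ D (ball 0 X.lam) := dl_differentiableOn X hc
  have hDbd : ∀ t : ℂ, ‖t‖ ≤ rK → ‖D t‖ ≤ CA ^ K * Real.exp yK := fun t ht =>
    bound_dl hyKom hbound hc ht
  set A : ℂ := D t₀ with hA
  have hAt : ‖t₀‖ * ‖A‖ = κ := by
    rw [← hl, ← norm_mul]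
    unfold Lin.ld
    rw [hA, hD, mul_div_assoc]
  have hApos : 0 < ‖A‖ := by
    by_contra h
    have : ‖A‖ = 0 := le_antisymm (not_lt.mp h) (norm_nonneg _)
    rw [this, mul_zero] at hAt
    linarith
  have hA0 : A ≠ 0 := norm_pos_iff.mp hApos
  have hE : Real.exp (K * (ω₀ / 2)) ≤ Real.exp (K * X.om / 2) :=
    Real.exp_le_exp.mpr (by nlinarith)
  set E : ℝ := Real.exp (K * X.om / 2) with hEdef
  have hrKt : rK = ‖t₀‖ * E := by
    rw [hrK, ht₀n, hEdef, ← Real.exp_add, hyK]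
    congr 1
    ring
  have hlarge' : 2 * b * B + d * (1 + B) < d * E :=
    hlarge.trans_le (by gcongr)
  have hEB : 1 + B < E := by
    have h1 : 0 < 2 * b * B := by positivity
    have h2 : d * (1 + B) < d * E := by linarith
    exact lt_of_mul_lt_mul_left h2 hd0.le
  set ρ : ℝ := rK - ‖t₀‖ with hρ
  have hρ' : ρ = ‖t₀‖ * (E - 1) := by rw [hρ, hrKt]; ring
  have hρ0 : 0 < ρ := by
    rw [hρ']
    exact mul_pos ht₀pos (by linarith)
  have hballs : ball t₀ ρ ⊆ ball 0 rK := by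
    intro t ht
    rw [mem_ball_zero_iff]
    rw [mem_ball, dist_eq_norm] at ht
    calc ‖t‖ = ‖(t - t₀) + t₀‖ := by ring_nf
      _ ≤ ‖t - t₀‖ + ‖t₀‖ := norm_add_le _ _
      _ < ρ + ‖t₀‖ := by linarith
      _ = rK := by rw [hρ]; ring
  have hballs' : ball (0 : ℂ) rK ⊆ ball 0 X.lam := ball_subset_ball hrlam.le
  -- the quotient
  have hDne : ∀ t ∈ ball (0 : ℂ) X.lam, D t ≠ 0 := by
    intro t ht
    refine div_ne_zero (X.psi_deriv_ne (ball_subset_ball X.lam_lt.le ht)) ?_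
    intro h0
    apply X.hq t ht
    rw [sub_eq_zero.mp h0]
    exact hc
  obtain ⟨Λ, hΛ, hΛexp⟩ := exists_log_ball (g := fun t => D t / A) (c := t₀) (r := ρ)
    ((hDdiff.mono (hballs.trans hballs')).div_const A)
    (fun z hz => div_ne_zero (hDne z (hballs' (hballs hz))) hA0)
  -- the normalised logarithm
  set Λ₁ : ℂ → ℂ := fun s => Λ (t₀ + s) - Λ t₀ with hΛ₁
  have hmem : ∀ s ∈ ball (0 : ℂ) ρ, t₀ + s ∈ ball t₀ ρ := by
    intro s hs
    rw [mem_ball_zero_iff] at hs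
    rw [mem_ball, dist_eq_norm]
    simpa using hs
  have hexp1 : ∀ s ∈ ball (0 : ℂ) ρ, Complex.exp (Λ₁ s) = D (t₀ + s) / A := by
    intro s hs
    rw [hΛ₁]
    simp only
    rw [Complex.exp_sub, hΛexp _ (hmem s hs), hΛexp t₀ (mem_ball_self hρ0)]
    have : D t₀ / A = 1 := div_self hA0
    rw [this, div_one]
  have hΛ₁d : DifferentiableOn ℂ Λ₁ (ball 0 ρ) := by
    intro s hs
    have h1 : HasDerivAt (fun s => Λ (t₀ + s)) _ s :=
      HasDerivAt.comp_const_add t₀ s (hΛ (t₀ + s) (hmem s hs))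
    exact (h1.sub_const _).differentiableAt.differentiableWithinAt
  have hΛ₁re : MapsTo Λ₁ (ball 0 ρ) {z | z.re ≤ b} := by
    intro s hs
    have h1 : Real.exp (Λ₁ s).re = ‖D (t₀ + s)‖ / ‖A‖ := by
      rw [← Complex.norm_exp, hexp1 s hs, norm_div]
    have h2 : ‖D (t₀ + s)‖ ≤ CA ^ K * Real.exp yK :=
      hDbd _ (mem_ball_zero_iff.mp (hballs (hmem s hs))).le
    have h3 : Real.exp yK * ‖t₀‖ ≤ 1 := by
      rw [ht₀n, ← Real.exp_add]
      refine Real.exp_le_one_iff.mpr ?_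
      rw [hyK]
      nlinarith
    have h4 : Real.exp (Λ₁ s).re ≤ 4 * q.natDegree * CA ^ K := by
      rw [h1, div_le_iff₀ hApos]
      calc ‖D (t₀ + s)‖ ≤ CA ^ K * Real.exp yK := h2
        _ = CA ^ K * (Real.exp yK * ‖t₀‖) * (4 * q.natDegree) * ‖A‖ := by
            have : ‖t₀‖ * ‖A‖ * (4 * q.natDegree) = 1 := by
              rw [hAt, hκ]
              field_simp
            linear_combination (-(CA ^ K * Real.exp yK)) * this
        _ ≤ CA ^ K * 1 * (4 * q.natDegree) * ‖A‖ := by gcongr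
        _ = 4 * q.natDegree * CA ^ K * ‖A‖ := by ring
    have h5 : (Λ₁ s).re ≤ Real.log (4 * q.natDegree * CA ^ K) :=
      (Real.le_log_iff_exp_le (by positivity)).mpr h4
    rw [Real.log_mul (by positivity) (by positivity), Real.log_pow] at h5
    exact h5
  have hΛbd : ∀ s ∈ ball (0 : ℂ) ρ, ‖Λ₁ s‖ ≤ 2 * b * ‖s‖ / (ρ - ‖s‖) := fun s hs =>
    Complex.borelCaratheodory_zero hb0 hΛ₁d hΛ₁re hρ0 hs (by simp [hΛ₁])
  -- derivative estimate
  have hder : ∀ t : ℂ, ‖A * t‖ ≤ M1 → t ∈ ball (0 : ℂ) rK ∧ ‖D t - A‖ ≤ ε * ‖A‖ := by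
    intro t ht
    rw [norm_mul] at ht
    have h1 : ‖t‖ ≤ 4 * q.natDegree * M1 * ‖t₀‖ := by
      have h2 : ‖t‖ * κ ≤ M1 * ‖t₀‖ := by
        rw [← hAt]
        calc ‖t‖ * (‖t₀‖ * ‖A‖) = (‖A‖ * ‖t‖) * ‖t₀‖ := by ring
          _ ≤ M1 * ‖t₀‖ := by gcongr
      calc ‖t‖ = (‖t‖ * κ) * (4 * q.natDegree) := by
            rw [hκ]; field_simp
        _ ≤ (M1 * ‖t₀‖) * (4 * q.natDegree) := by gcongr
        _ = 4 * q.natDegree * M1 * ‖t₀‖ := by ring
    set s : ℂ := t - t₀ with hs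
    have hsn : ‖s‖ ≤ B * ‖t₀‖ := by
      calc ‖s‖ ≤ ‖t‖ + ‖t₀‖ := norm_sub_le _ _
        _ ≤ B * ‖t₀‖ := by rw [hBdef]; linarith
    have hsρ : ‖s‖ < ρ := by
      rw [hρ']
      calc ‖s‖ ≤ B * ‖t₀‖ := hsn
        _ < ‖t₀‖ * (E - 1) := by nlinarith
    have hsb : s ∈ ball (0 : ℂ) ρ := mem_ball_zero_iff.mpr hsρ
    have hts : t₀ + s = t := by rw [hs]; ring
    have h3 : ‖Λ₁ s‖ ≤ d := by
      refine (hΛbd s hsb).trans ?_
      rw [div_le_iff₀ (by linarith)]
      have h4 : 2 * b * ‖s‖ ≤ 2 * b * (B * ‖t₀‖) := by gcongr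
      have h5 : d * (ρ - B * ‖t₀‖) ≤ d * (ρ - ‖s‖) := by gcongr
      have h6 : 2 * b * (B * ‖t₀‖) ≤ d * (ρ - B * ‖t₀‖) := by
        rw [hρ']
        have : 2 * b * B ≤ d * (E - 1 - B) := by linarith
        calc 2 * b * (B * ‖t₀‖) = (2 * b * B) * ‖t₀‖ := by ring
          _ ≤ (d * (E - 1 - B)) * ‖t₀‖ := by gcongr
          _ = _ := by ring
      linarith
    have h4 : ‖Complex.exp (Λ₁ s) - 1‖ ≤ ε := by
      calc ‖Complex.exp (Λ₁ s) - 1‖ ≤ 2 * ‖Λ₁ s‖ :=
            Complex.norm_exp_sub_one_le (h3.trans (min_le_left _ _))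
        _ ≤ 2 * d := by gcongr
        _ ≤ 2 * (ε / 2) := by gcongr; exact min_le_right _ _
        _ = ε := by ring
    refine ⟨hts ▸ hballs (hmem s hsb), ?_⟩
    have h5 : D t - A = (Complex.exp (Λ₁ s) - 1) * A := by
      rw [hexp1 s hsb, hts]
      field_simp
    rw [h5, norm_mul]
    gcongr
  -- the logarithm of psi - c
  obtain ⟨L, hL, hLexp⟩ := X.exists_L hc
  have hx : x ≠ c := by
    intro h0
    apply X.hq 0 (mem_ball_self X.lam_pos)
    rw [X.zero, h0]
    exact hc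
  refine ⟨A, hA0, ?_, fun t => L t - L 0, ?_, by simp, ?_⟩
  · -- M < ‖A‖ * lam
    have h1 : ‖A‖ * X.lam * ‖t₀‖ = κ * X.lam := by rw [← hAt]; ring
    have h2 : ‖t₀‖ * E ≤ X.lam := by rw [← hrKt]; exact hrlam.le
    have h3 : M * ‖t₀‖ < ‖A‖ * X.lam * ‖t₀‖ := by
      rw [h1]
      have h4 : 4 * q.natDegree * M < E := by
        have : 4 * q.natDegree * M ≤ 4 * q.natDegree * M1 := by
          gcongr; exact le_max_left _ _
        linarith
      have h5 : M < κ * E := by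
        rw [hκ, div_mul_eq_mul_div, lt_div_iff₀ (by positivity)]
        linarith
      calc M * ‖t₀‖ < (κ * E) * ‖t₀‖ := by gcongr
        _ = κ * (‖t₀‖ * E) := by ring
        _ ≤ κ * X.lam := by gcongr
    exact lt_of_mul_lt_mul_right h3 ht₀pos.le
  · intro t ht
    exact ((hL t ht).sub_const _).differentiableAt.differentiableWithinAt
  · intro t ht
    have htM : ‖A * t‖ ≤ M1 := ht.trans (le_max_left _ _)
    have htb : t ∈ ball (0 : ℂ) X.lam := hballs' (hder t htM).1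
    constructor
    · rw [Complex.exp_sub, hLexp t htb, hLexp 0 (mem_ball_self X.lam_pos), X.zero]
      field_simp [sub_ne_zero.mpr hx]
      ring
    · set S : Set ℂ := {s : ℂ | ‖A * s‖ ≤ M1} with hS
      have hconv : Convex ℝ S := by
        have : S = closedBall (0 : ℂ) (M1 / ‖A‖) := by
          ext s
          rw [hS, mem_ofPred_eq, mem_closedBall_zero_iff, norm_mul, le_div_iff₀ hApos, mul_comm]
        rw [this]
        exact convex_closedBall _ _
      have h0S : (0 : ℂ) ∈ S := by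
        simp only [hS, mem_ofPred_eq, mul_zero, norm_zero]
        linarith
      have htS : t ∈ S := htM
      have h1 : ‖(L t - A * t) - (L 0 - A * 0)‖ ≤ (ε * ‖A‖) * ‖t - 0‖ := by
        refine hconv.norm_image_sub_le_of_norm_hasDerivWithin_le
          (f := fun s => L s - A * s) (f' := fun s => D s - A) ?_ ?_ h0S htS
        · intro s hs
          have h2 : HasDerivAt (fun s : ℂ => A * s) A s := by
            simpa using (hasDerivAt_id s).const_mul A
          exact ((hL s (hballs' (hder s hs).1)).sub h2).hasDerivWithinAt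
        · intro s hs
          exact (hder s hs).2
      rw [norm_mul]
      calc ‖L t - L 0 - A * t‖ = ‖(L t - A * t) - (L 0 - A * 0)‖ := by congr 1; ring
        _ ≤ (ε * ‖A‖) * ‖t - 0‖ := h1
        _ = ε * (‖A‖ * ‖t‖) := by rw [sub_zero]; ring

end ClassA1

theorem classA1 (m : ℕ) (hm : 1 ≤ m) (ω₀ : ℝ) (hω : 0 < ω₀) (M ε : ℝ) (hε : 0 < ε) :
    ∃ K : ℕ, ∀ (p q : ℂ[X]) (x : ℂ), q.natDegree = m → ∀ X : Lin p q x, ω₀ ≤ X.om →
      X.Good K ∨ ∃ c : ℂ, (derivative q).eval c = 0 ∧ X.Exc c M ε := by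
  have hd0 : 0 < min 1 (ε / 2) := lt_min one_pos (by positivity)
  obtain ⟨K, hK4, hK⟩ := ClassA1.choose_K
    (2 * Real.log (96 * Real.pi * (2 / ω₀ + 8 * m + 1)) * (4 * m * max M 1 + 1))
    (2 * Real.log (4 * m) * (4 * m * max M 1 + 1) +
      min 1 (ε / 2) * (1 + (4 * m * max M 1 + 1)))
    (min 1 (ε / 2)) (ω₀ / 2) hd0 (by positivity)
  refine ⟨K, ?_⟩
  intro p q x hq X hom
  subst hq
  by_cases h : X.Bound (K * X.om) (1 / (4 * q.natDegree))
  · exact Or.inl (ClassA1.good_of_bound hm (by omega) h)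
  · right
    have hm' : (1 : ℝ) ≤ q.natDegree := by exact_mod_cast hm
    have hK' : (4 : ℝ) ≤ K := by exact_mod_cast hK4
    have hpos := X.om_pos
    obtain ⟨c, v₀, hc, hv, hl, hB⟩ := X.select (y := K * X.om) (G := 1 / (4 * q.natDegree))
      (by nlinarith) (by positivity) h
    refine ⟨c, hc, ClassA1.exc_of_large hω hom hε hm hK4 hc hv hl hB ?_⟩
    calc _ = _ := by ring
      _ < _ := hK

end Pool.Agent.HZ
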