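import Mathlib

/-! MP_cd3d06_an, module PolyA: injectivity of polynomials away from the critical points -/

open Polynomial Metric Set Filter Topology
open scoped ComplexConjugate

namespace Pool.Agent.HZ

/-- comparison of the products `∏ (u - c)` and `∏ (w - c)` -/
private theorem prod_ratio {u w : ℂ} {κ : ℝ} (hκ0 : 0 ≤ κ) (s : Multiset ℂ) :
    (∀ c ∈ s, ‖u - w‖ ≤ κ * ‖w - c‖) →
    ‖(s.map (fun c => u - c)).prod - (s.map (fun c => w - c)).prod‖ ≤
      ((1 + κ) ^ (Multiset.card s) - 1) * ‖(s.map (fun c => w - c)).prod‖ := by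
  induction s using Multiset.induction_on with
  | empty => simp
  | cons a s ih =>
    intro h
    have ha := h a (Multiset.mem_cons_self a s)
    have hs := ih (fun c hc => h c (Multiset.mem_cons_of_mem hc))
    simp only [Multiset.map_cons, Multiset.prod_cons, Multiset.card_cons]
    set P := (s.map (fun c => u - c)).prod
    set Q := (s.map (fun c => w - c)).prod
    set k := Multiset.card s
    have h1 : ‖u - a‖ ≤ (1 + κ) * ‖w - a‖ := by
      calc ‖u - a‖ = ‖(u - w) + (w - a)‖ := by ring_nf
        _ ≤ ‖u - w‖ + ‖w - a‖ := norm_add_le _ _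
        _ ≤ κ * ‖w - a‖ + ‖w - a‖ := by gcongr
        _ = _ := by ring
    have h2 : (u - a) * P - (w - a) * Q = (u - a) * (P - Q) + (u - w) * Q := by ring
    rw [h2, norm_mul (w - a) Q]
    calc ‖(u - a) * (P - Q) + (u - w) * Q‖ ≤ ‖u - a‖ * ‖P - Q‖ + ‖u - w‖ * ‖Q‖ := by
          refine (norm_add_le _ _).trans ?_
          rw [norm_mul, norm_mul]
      _ ≤ ((1 + κ) * ‖w - a‖) * (((1 + κ) ^ k - 1) * ‖Q‖) + (κ * ‖w - a‖) * ‖Q‖ := by
          gcongr
      _ = _ := by ring

private theorem exp_sub_one_le {x : ℝ} (h0 : 0 ≤ x) (h1 : x ≤ 1 / 2) :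
    Real.exp x - 1 ≤ 4 / 3 * x := by
  have hhalf : Real.exp (1 / 2) ≤ 5 / 3 := by
    have h2 : Real.exp (1 / 2) ^ 2 = Real.exp 1 := by
      rw [← Real.exp_nat_mul]; norm_num
    have h3 := Real.exp_one_lt_d9
    nlinarith [Real.exp_pos (1 / 2)]
  have hc := convexOn_exp.2 (mem_univ (0 : ℝ)) (mem_univ (1 / 2 : ℝ))
    (show 0 ≤ 1 - 2 * x by linarith) (show 0 ≤ 2 * x by linarith) (by ring)
  simp only [smul_eq_mul, mul_zero, zero_add, Real.exp_zero, mul_one] at hc
  have h4 : 2 * x * (1 / 2) = x := by ring
  rw [h4] at hc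
  nlinarith

/-- the derivative of `q` is almost constant on discs which are small compared with the distance to
the critical points -/
theorem deriv_ratio {q : ℂ[X]} {w u : ℂ} {κ : ℝ} (hκ0 : 0 ≤ κ) (hκ : κ * q.natDegree ≤ 1 / 2)
    (h : ∀ c, (derivative q).eval c = 0 → ‖u - w‖ ≤ κ * ‖w - c‖) :
    ‖(derivative q).eval u - (derivative q).eval w‖ ≤
      4 / 3 * (κ * q.natDegree) * ‖(derivative q).eval w‖ := by
  by_cases h0 : derivative q = 0
  · simp [h0]
  have hprod : ∀ z : ℂ, (derivative q).eval z =
      (derivative q).leadingCoeff * ((derivative q).roots.map (fun c => z - c)).prod := by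
    intro z
    conv_lhs => rw [(IsAlgClosed.splits (derivative q)).eq_prod_roots]
    rw [eval_mul, eval_C, eval_multiset_prod, Multiset.map_map]
    simp
  have hroots : ∀ c ∈ (derivative q).roots, ‖u - w‖ ≤ κ * ‖w - c‖ := by
    intro c hc
    exact h c ((mem_roots h0).mp hc)
  have key := prod_ratio hκ0 (derivative q).roots hroots
  have hcard : Multiset.card (derivative q).roots ≤ q.natDegree :=
    (card_roots' _).trans ((natDegree_derivative_le q).trans (Nat.sub_le _ _))
  have hpow : (1 + κ) ^ (Multiset.card (derivative q).roots) - 1 ≤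
      4 / 3 * (κ * q.natDegree) := by
    have h1 : (1 + κ) ^ (Multiset.card (derivative q).roots) ≤ (1 + κ) ^ q.natDegree :=
      pow_le_pow_right₀ (by linarith) hcard
    have h2 : (1 + κ) ^ q.natDegree ≤ Real.exp (κ * q.natDegree) := by
      rw [mul_comm, Real.exp_nat_mul]
      gcongr
      rw [add_comm]
      exact Real.add_one_le_exp κ
    have h3 := exp_sub_one_le (x := κ * q.natDegree) (by positivity) hκ
    linarith
  rw [hprod u, hprod w, ← mul_sub, norm_mul, norm_mul]
  calc _ ≤ ‖(derivative q).leadingCoeff‖ *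
        (((1 + κ) ^ (Multiset.card (derivative q).roots) - 1) *
          ‖((derivative q).roots.map (fun c => w - c)).prod‖) := by gcongr
    _ ≤ ‖(derivative q).leadingCoeff‖ *
        ((4 / 3 * (κ * q.natDegree)) *
          ‖((derivative q).roots.map (fun c => w - c)).prod‖) := by gcongr
    _ = _ := by ring

/-- Lemma A -/
theorem lemA {q : ℂ[X]} (hq : 1 ≤ q.natDegree) {w z z' : ℂ}
    (hz : ∀ c, (derivative q).eval c = 0 → ‖z - w‖ ≤ 1 / (2 * q.natDegree) * ‖w - c‖)
    (hz' : ∀ c, (derivative q).eval c = 0 → ‖z' - w‖ ≤ 1 / (2 * q.natDegree) * ‖w - c‖)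
    (h : q.eval z = q.eval z') : z = z' := by
  by_cases hw : (derivative q).eval w = 0
  · have h1 : z = w := by
      have := hz w hw
      simp only [sub_self, norm_zero, mul_zero, norm_le_zero_iff] at this
      exact sub_eq_zero.mp this
    have h2 : z' = w := by
      have := hz' w hw
      simp only [sub_self, norm_zero, mul_zero, norm_le_zero_iff] at this
      exact sub_eq_zero.mp this
    rw [h1, h2]
  have hm : (1 : ℝ) ≤ q.natDegree := by exact_mod_cast hq
  set D : Set ℂ := {u | ∀ c, (derivative q).eval c = 0 →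
    ‖u - w‖ ≤ 1 / (2 * q.natDegree) * ‖w - c‖} with hD
  have hconv : Convex ℝ D := by
    have : D = ⋂ c : ℂ, ⋂ _ : (derivative q).eval c = 0,
        closedBall w (1 / (2 * q.natDegree) * ‖w - c‖) := by
      ext u
      simp only [hD, mem_iInter, mem_closedBall, dist_eq_norm, mem_ofPred_eq]
    rw [this]
    exact convex_iInter fun c => convex_iInter fun _ => convex_closedBall _ _
  have hκ : 1 / (2 * (q.natDegree : ℝ)) * q.natDegree = 1 / 2 := by field_simp
  have key : ‖(q.eval z - (derivative q).eval w * z) - (q.eval z' - (derivative q).eval w * z')‖ ≤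
      (2 / 3 * ‖(derivative q).eval w‖) * ‖z - z'‖ := by
    refine hconv.norm_image_sub_le_of_norm_hasDerivWithin_le
      (f := fun u => q.eval u - (derivative q).eval w * u)
      (f' := fun u => (derivative q).eval u - (derivative q).eval w) ?_ ?_ hz' hz
    · intro u _
      have h2 : HasDerivAt (fun s : ℂ => (derivative q).eval w * s) ((derivative q).eval w) u := by
        simpa using (hasDerivAt_id u).const_mul ((derivative q).eval w)
      exact ((q.hasDerivAt u).sub h2).hasDerivWithinAt
    · intro u hu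
      have h3 := deriv_ratio (q := q) (w := w) (u := u) (κ := 1 / (2 * q.natDegree))
        (by positivity) hκ.le hu
      refine h3.trans (le_of_eq ?_)
      rw [hκ]
      ring
  have h4 : (q.eval z - (derivative q).eval w * z) - (q.eval z' - (derivative q).eval w * z') =
      -((derivative q).eval w * (z - z')) := by
    rw [h]; ring
  rw [h4, norm_neg, norm_mul] at key
  have hpos : 0 < ‖(derivative q).eval w‖ := norm_pos_iff.mpr hw
  have h5 : ‖z - z'‖ ≤ 0 := by
    by_contra hcon
    push Not at hcon
    nlinarith [mul_pos hpos hcon]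
  exact sub_eq_zero.mp (norm_le_zero_iff.mp h5)

end Pool.Agent.HZ
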