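import Pool.Agent.H.MP_cd3d06_an.L.Basic
import Pool.Agent.H.MP_cd3d06_an.L.PolyA

/-! MP_cd3d06_an, module CountGood: number of good attracting zeros -/

open Polynomial Metric Set Filter Topology
open scoped ComplexConjugate

namespace Pool.Agent.HZ

namespace CountGood

/-- chains of length `l + 1` starting in `A` and following `R` (reversed lists) -/
noncomputable def chains (A : Finset ℂ) (R : ℂ → Finset ℂ) : ℕ → Finset (List ℂ)
  | 0 => A.image fun a => [a]
  | l + 1 => (chains A R l).biUnion fun L => (R (L.headD 0)).image fun b => b :: L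

theorem card_chains (A : Finset ℂ) (R : ℂ → Finset ℂ) (m : ℕ) (hR : ∀ c, (R c).card ≤ m) (l : ℕ) :
    (chains A R l).card ≤ A.card * m ^ l := by
  induction l with
  | zero => simpa [chains] using Finset.card_image_le (s := A) (f := fun a => [a])
  | succ l ih =>
    calc (chains A R (l + 1)).card
        ≤ (chains A R l).card * m := by
          apply Finset.card_biUnion_le_card_mul
          intro L _
          exact Finset.card_image_le.trans (hR _)
      _ ≤ A.card * m ^ l * m := Nat.mul_le_mul_right _ ih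
      _ = A.card * m ^ (l + 1) := by ring

/-- the reversed list of the first `l + 1` terms -/
def lst (c : ℕ → ℂ) : ℕ → List ℂ
  | 0 => [c 0]
  | l + 1 => c (l + 1) :: lst c l

theorem lst_headD (c : ℕ → ℂ) (l : ℕ) : (lst c l).headD 0 = c l := by
  cases l <;> simp [lst]

theorem lst_mem (A : Finset ℂ) (R : ℂ → Finset ℂ) (c : ℕ → ℂ) (h0 : c 0 ∈ A)
    (h : ∀ k, c (k + 1) ∈ R (c k)) (l : ℕ) : lst c l ∈ chains A R l := by
  induction l with
  | zero => simp [lst, chains, h0]
  | succ l ih =>
    simp only [lst, chains, Finset.mem_biUnion, Finset.mem_image]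
    exact ⟨lst c l, ih, c (l + 1), by rw [lst_headD]; exact h l, rfl⟩

theorem lst_eq {c c' : ℕ → ℂ} {l : ℕ} (h : lst c l = lst c' l) : ∀ i ≤ l, c i = c' i := by
  induction l with
  | zero =>
    intro i hi
    have : i = 0 := by omega
    subst this
    simpa [lst] using h
  | succ l ih =>
    simp only [lst, List.cons.injEq] at h
    intro i hi
    rcases Nat.lt_or_ge i (l + 1) with h1 | h1
    · exact ih h.2 i (by omega)
    · have : i = l + 1 := by omega
      subst this
      exact h.1

theorem derivative_ne_zero_of_natDegree {q : ℂ[X]} (hq : 1 ≤ q.natDegree) : derivative q ≠ 0 := by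
  intro h
  have := derivative_eq_zero.mp h
  omega

/-- the solutions of `q z = - conj (p c)` -/
noncomputable def R (p q : ℂ[X]) (c : ℂ) : Finset ℂ := (q - C (- conj (p.eval c))).roots.toFinset

theorem mem_R {p q : ℂ[X]} (hq : 1 ≤ q.natDegree) {c z : ℂ} (h : p.eval c = - conj (q.eval z)) :
    z ∈ R p q c := by
  have hne : q - C (- conj (p.eval c)) ≠ 0 := by
    intro h0
    have h1 := natDegree_sub_C (p := q) (a := - conj (p.eval c))
    rw [h0] at h1
    simp at h1
    omega
  rw [R, Multiset.mem_toFinset, mem_roots hne, IsRoot.def, h]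
  simp

theorem card_R (p q : ℂ[X]) (c : ℂ) : (R p q c).card ≤ q.natDegree := by
  calc (R p q c).card ≤ Multiset.card (q - C (- conj (p.eval c))).roots :=
        Multiset.toFinset_card_le _
    _ ≤ (q - C (- conj (p.eval c))).natDegree := card_roots' _
    _ = q.natDegree := natDegree_sub_C

/-- the possible first values -/
noncomputable def A (p q : ℂ[X]) : Finset ℂ :=
  ((derivative p).roots.toFinset.biUnion fun c => R p q c) ∪ (derivative q).roots.toFinset

theorem card_A {p q : ℂ[X]} (hq : 1 ≤ q.natDegree) (hp : 1 ≤ p.natDegree) :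
    (A p q).card ≤ p.natDegree * q.natDegree := by
  have h1 : ((derivative p).roots.toFinset).card ≤ p.natDegree - 1 := by
    calc ((derivative p).roots.toFinset).card ≤ Multiset.card (derivative p).roots :=
          Multiset.toFinset_card_le _
      _ ≤ (derivative p).natDegree := card_roots' _
      _ ≤ p.natDegree - 1 := natDegree_derivative_le _
  have h2 : ((derivative q).roots.toFinset).card ≤ q.natDegree - 1 := by
    calc ((derivative q).roots.toFinset).card ≤ Multiset.card (derivative q).roots :=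
          Multiset.toFinset_card_le _
      _ ≤ (derivative q).natDegree := card_roots' _
      _ ≤ q.natDegree - 1 := natDegree_derivative_le _
  calc (A p q).card ≤ ((derivative p).roots.toFinset.biUnion fun c => R p q c).card +
        ((derivative q).roots.toFinset).card := Finset.card_union_le _ _
    _ ≤ ((derivative p).roots.toFinset).card * q.natDegree + (q.natDegree - 1) := by
        gcongr
        exact Finset.card_biUnion_le_card_mul _ _ _ fun c _ => card_R p q c
    _ ≤ (p.natDegree - 1) * q.natDegree + (q.natDegree - 1) := by gcongr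
    _ ≤ p.natDegree * q.natDegree := by
        obtain ⟨a, ha⟩ : ∃ a, p.natDegree = a + 1 := ⟨p.natDegree - 1, by omega⟩
        rw [ha, Nat.add_sub_cancel, Nat.add_mul, Nat.one_mul]
        omega

theorem S_iter_re {p q : ℂ[X]} {x : ℂ} (X : Lin p q x) (v : ℂ) (hv : v.re = 0) (k : ℕ) :
    (X.S^[k] v).re = -(k * X.om) := by
  induction k with
  | zero => simp [hv]
  | succ k ih =>
    rw [Function.iterate_succ_apply', X.S_re, ih]
    push_cast
    ring

/-- the orbit data of a good attracting zero -/
theorem exists_seq (p q : ℂ[X]) (hq : 1 ≤ q.natDegree) (hp : 1 ≤ p.natDegree) (K : ℕ) {x : ℂ}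
    (X : Lin p q x) (hX : X.Good K) : ∃ c : ℕ → ℂ, c 0 ∈ A p q ∧
      (∀ k, p.eval (c k) = - conj (q.eval (c (k + 1)))) ∧
      (∀ k, K ≤ k → ∀ d, (derivative q).eval d = 0 →
        ‖c (k + 2) - c k‖ ≤ 1 / (2 * q.natDegree) * ‖c k - d‖) ∧
      Tendsto c atTop (𝓝 x) := by
  obtain ⟨t₀, ht₀, hb⟩ := X.bdry
  have ht0 : t₀ ≠ 0 := by
    intro h
    rw [h] at ht₀
    simp at ht₀
  have hom := X.om_pos
  set v : ℂ := Complex.log t₀ with hvdef
  have hv : v.re = 0 := by rw [hvdef, Complex.log_re, ht₀, Real.log_one]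
  have hexp : Complex.exp v = t₀ := Complex.exp_log ht0
  have hS1 : X.f (X.S v) = X.psi (X.lam * conj t₀) := by
    have h1 : Complex.exp (X.S v) = X.lam * conj t₀ := by
      unfold Lin.S
      rw [Complex.exp_sub, Complex.exp_conj, hexp]
      have h2 : Complex.exp (X.om : ℂ) = ((X.lam⁻¹ : ℝ) : ℂ) := by
        rw [← X.exp_neg_om, Real.exp_neg, inv_inv, Complex.ofReal_exp]
      rw [h2]
      push_cast
      rw [div_inv_eq_mul, mul_comm]
    rw [Lin.f, h1]
  have hre : ∀ k : ℕ, (X.S^[k + 1] v).re = -((k + 1 : ℕ) * X.om) := fun k => S_iter_re X v hv (k + 1)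
  refine ⟨fun k => X.f (X.S^[k + 1] v), ?_, ?_, ?_, ?_⟩
  · show X.f (X.S^[0 + 1] v) ∈ A p q
    rw [zero_add, Function.iterate_one, hS1, A, Finset.mem_union, Finset.mem_biUnion]
    rcases hb with ⟨c₀, hc₀, hpc⟩ | hb
    · left
      refine ⟨c₀, ?_, mem_R hq hpc⟩
      rw [Multiset.mem_toFinset, mem_roots (derivative_ne_zero_of_natDegree hp)]
      exact hc₀
    · right
      rw [Multiset.mem_toFinset, mem_roots (derivative_ne_zero_of_natDegree hq)]
      exact hb
  · intro k
    have h1 : (X.S^[k + 1] v).re < 0 := by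
      rw [hre]
      have : (0 : ℝ) < ((k + 1 : ℕ) : ℝ) * X.om := by positivity
      linarith
    have h2 := X.fe_f h1
    have h3 : X.S^[k + 1 + 1] v = X.S (X.S^[k + 1] v) := Function.iterate_succ_apply' _ _ _
    simp only [h3]
    exact h2
  · intro k hk d hd
    have h1 : (X.S^[k + 1] v).re ≤ -(K * X.om) := by
      rw [hre]
      have h2 : (K : ℝ) ≤ ((k + 1 : ℕ) : ℝ) := by exact_mod_cast (by omega : K ≤ k + 1)
      have := mul_le_mul_of_nonneg_right h2 hom.le
      linarith
    have h2 := hX _ h1 d hd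
    have h3 : X.S^[k + 2 + 1] v = X.S^[k + 1] v - 2 * X.om := by
      rw [← X.S_S, ← Function.iterate_succ_apply' X.S, ← Function.iterate_succ_apply' X.S]
    simp only [h3]
    exact h2
  · have hcont : ContinuousAt X.psi 0 :=
      (X.diff.differentiableAt (isOpen_ball.mem_nhds (mem_ball_self one_pos))).continuousAt
    have h1 : Tendsto (fun k : ℕ => Complex.exp (X.S^[k + 1] v)) atTop (𝓝 0) := by
      rw [tendsto_zero_iff_norm_tendsto_zero]
      have h2 : ∀ k : ℕ, ‖Complex.exp (X.S^[k + 1] v)‖ = Real.exp (-(((k + 1 : ℕ) : ℝ) * X.om)) := by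
        intro k
        rw [Complex.norm_exp, hre]
      simp only [h2]
      have h3 : Tendsto (fun k : ℕ => ((k + 1 : ℕ) : ℝ) * X.om) atTop atTop := by
        apply Tendsto.atTop_mul_const hom
        exact tendsto_natCast_atTop_atTop.comp (tendsto_add_atTop_nat 1)
      exact Real.tendsto_exp_neg_atTop_nhds_zero.comp h3
    have h4 := hcont.tendsto.comp h1
    rw [X.zero] at h4
    exact h4

end CountGood

open CountGood in
theorem count_good (p q : ℂ[X]) (hq : 1 ≤ q.natDegree) (hp : 1 ≤ p.natDegree) (K : ℕ) :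
    {x : ℂ | ∃ X : Lin p q x, X.Good K}.Finite ∧
      {x : ℂ | ∃ X : Lin p q x, X.Good K}.ncard ≤ p.natDegree * q.natDegree ^ (K + 2) := by
  classical
  set E := {x : ℂ | ∃ X : Lin p q x, X.Good K} with hE
  have key : ∀ x : ℂ, ∃ c : ℕ → ℂ, x ∈ E → (c 0 ∈ A p q ∧
      (∀ k, p.eval (c k) = - conj (q.eval (c (k + 1)))) ∧
      (∀ k, K ≤ k → ∀ d, (derivative q).eval d = 0 →
        ‖c (k + 2) - c k‖ ≤ 1 / (2 * q.natDegree) * ‖c k - d‖) ∧
      Tendsto c atTop (𝓝 x)) := by
    intro x
    by_cases hx : x ∈ E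
    · obtain ⟨X, hX⟩ := hx
      obtain ⟨c, hc⟩ := exists_seq p q hq hp K X hX
      exact ⟨c, fun _ => hc⟩
    · exact ⟨fun _ => 0, fun h => absurd h hx⟩
  choose c hc using key
  set F : ℂ → List ℂ := fun x => lst (c x) (K + 1) with hF
  have hmaps : ∀ x ∈ E, F x ∈ (chains (A p q) (R p q) (K + 1) : Set (List ℂ)) := by
    intro x hx
    obtain ⟨h0, h1, -, -⟩ := hc x hx
    exact lst_mem _ _ _ h0 (fun k => mem_R hq (h1 k)) _
  have hinj : InjOn F E := by
    intro x hx y hy hxy
    obtain ⟨-, h1, h2, h3⟩ := hc x hx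
    obtain ⟨-, h1', h2', h3'⟩ := hc y hy
    have h4 := lst_eq hxy
    have h5 : ∀ k, c x k = c y k := by
      intro k
      induction k using Nat.strong_induction_on with
      | _ k ih =>
        rcases Nat.lt_or_ge k (K + 2) with hk | hk
        · exact h4 k (by omega)
        · obtain ⟨j, rfl⟩ : ∃ j, k = j + 2 := ⟨k - 2, by omega⟩
          have e0 : c x j = c y j := ih j (by omega)
          have e1 : c x (j + 1) = c y (j + 1) := ih (j + 1) (by omega)
          apply lemA hq (w := c x j)
          · exact h2 j (by omega)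
          · rw [e0]
            exact h2' j (by omega)
          · have a1 := h1 (j + 1)
            have a2 := h1' (j + 1)
            rw [e1, a2, neg_inj] at a1
            exact ((starRingEnd ℂ).injective a1).symm
    have h6 : c x = c y := funext h5
    rw [h6] at h3
    exact tendsto_nhds_unique h3 h3'
  have hfin : (chains (A p q) (R p q) (K + 1) : Set (List ℂ)).Finite := Finset.finite_toSet _
  refine ⟨Set.Finite.of_injOn hmaps hinj hfin, ?_⟩
  calc E.ncard ≤ (chains (A p q) (R p q) (K + 1) : Set (List ℂ)).ncard :=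
        Set.ncard_le_ncard_of_injOn F hmaps hinj hfin
    _ = (chains (A p q) (R p q) (K + 1)).card := Set.ncard_coe_finset _
    _ ≤ (A p q).card * q.natDegree ^ (K + 1) := card_chains _ _ _ (card_R p q) _
    _ ≤ (p.natDegree * q.natDegree) * q.natDegree ^ (K + 1) :=
        Nat.mul_le_mul_right _ (card_A hq hp)
    _ = p.natDegree * q.natDegree ^ (K + 2) := by ring

end Pool.Agent.HZ
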