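import Pool.Agent.H.MP_cd3d06_an.L.Defs

/-! MP_cd3d06_an, module Extend: analytic continuation of solutions of `p(ψ) = G` -/

open Polynomial Metric Set Filter Topology
open scoped ComplexConjugate

namespace Pool.Agent.HZ

private lemma ext_hasDerivAt (p : ℂ[X]) (z : ℂ) :
    HasDerivAt (fun z => p.eval z) ((derivative p).eval z) z := p.hasDerivAt z

/-- quantitative injectivity -/
private lemma ext_lower {p : ℂ[X]} {z0 : ℂ} {δ d0 : ℝ}
    (hz0 : δ ≤ ‖(derivative p).eval z0‖)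
    (hclose : ∀ z ∈ closedBall z0 d0, ‖(derivative p).eval z - (derivative p).eval z0‖ ≤ δ / 4)
    {z z' : ℂ} (hz : z ∈ closedBall z0 d0) (hz' : z' ∈ closedBall z0 d0) :
    3 / 4 * δ * ‖z - z'‖ ≤ ‖p.eval z - p.eval z'‖ := by
  have hd : ∀ w ∈ closedBall z0 d0,
      HasDerivWithinAt (fun w => p.eval w - (derivative p).eval z0 * w)
        ((derivative p).eval w - (derivative p).eval z0) (closedBall z0 d0) w := by
    intro w _
    have h2 : HasDerivAt (fun w : ℂ => (derivative p).eval z0 * w) ((derivative p).eval z0) w := by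
      have := (hasDerivAt_id w).const_mul ((derivative p).eval z0)
      rw [mul_one] at this
      exact this
    exact ((ext_hasDerivAt p w).sub h2).hasDerivWithinAt
  have h1 := (convex_closedBall z0 d0).norm_image_sub_le_of_norm_hasDerivWithin_le hd hclose hz' hz
  have h2 : ‖(derivative p).eval z0 * (z - z')‖ ≤ ‖p.eval z - p.eval z'‖ + δ / 4 * ‖z - z'‖ := by
    have : (derivative p).eval z0 * (z - z') = (p.eval z - p.eval z') -
        ((p.eval z - (derivative p).eval z0 * z) - (p.eval z' - (derivative p).eval z0 * z')) := by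
      ring
    rw [this]
    exact (norm_sub_le _ _).trans (add_le_add le_rfl h1)
  rw [norm_mul] at h2
  have h3 : δ * ‖z - z'‖ ≤ ‖(derivative p).eval z0‖ * ‖z - z'‖ :=
    mul_le_mul_of_nonneg_right hz0 (norm_nonneg _)
  nlinarith

/-- quantitative surjectivity -/
private lemma ext_surj {p : ℂ[X]} {z0 : ℂ} {δ d0 : ℝ} (hδ : 0 < δ) (hd0 : 0 < d0)
    (hz0 : δ ≤ ‖(derivative p).eval z0‖)
    (hclose : ∀ z ∈ closedBall z0 d0, ‖(derivative p).eval z - (derivative p).eval z0‖ ≤ δ / 4)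
    {w : ℂ} (hw : ‖w - p.eval z0‖ < δ * d0 / 8) : ∃ z ∈ ball z0 d0, p.eval z = w := by
  have hr : 0 < d0 / 2 := by linarith
  have hz00 : z0 ∈ closedBall z0 d0 := mem_closedBall_self hd0.le
  have hlow : ∀ z ∈ closedBall z0 d0, 3 / 4 * δ * ‖z - z0‖ ≤ ‖p.eval z - p.eval z0‖ :=
    fun z hz => ext_lower hz0 hclose hz hz00
  have hfreq : ∃ᶠ z in 𝓝 z0, p.eval z ≠ p.eval z0 := by
    have : ∀ᶠ z in 𝓝[≠] z0, p.eval z ≠ p.eval z0 := by
      have hmem : ∀ᶠ z in 𝓝[≠] z0, z ∈ closedBall z0 d0 :=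
        nhdsWithin_le_nhds (closedBall_mem_nhds z0 hd0)
      filter_upwards [hmem, self_mem_nhdsWithin] with z hz hne heq
      have h1 := hlow z hz
      rw [heq, sub_self, norm_zero] at h1
      have h2 : 0 < ‖z - z0‖ := norm_pos_iff.2 (sub_ne_zero.2 hne)
      have : 0 < 3 / 4 * δ * ‖z - z0‖ := by positivity
      linarith
    exact this.frequently.filter_mono nhdsWithin_le_nhds
  have hdc : DiffContOnCl ℂ (fun z => p.eval z) (ball z0 (d0 / 2)) :=
    p.differentiable.diffContOnCl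
  have h := hdc.ball_subset_image_closedBall hr (ε := 3 / 8 * δ * d0) (fun z hz => ?_) hfreq
  · have hwm : w ∈ ball (p.eval z0) (3 / 8 * δ * d0 / 2) := by
      rw [mem_ball, dist_eq_norm]
      refine hw.trans_le ?_
      nlinarith [mul_pos hδ hd0]
    obtain ⟨z, hz, hzw⟩ := h hwm
    refine ⟨z, ?_, hzw⟩
    rw [mem_closedBall] at hz
    rw [mem_ball]
    linarith
  · rw [mem_sphere, dist_eq_norm] at hz
    have h1 := hlow z (by rw [mem_closedBall, dist_eq_norm, hz]; linarith)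
    rw [hz] at h1
    calc 3 / 8 * δ * d0 = 3 / 4 * δ * (d0 / 2) := by ring
      _ ≤ _ := h1

/-- extension of `ψ` to a larger disc -/
theorem extend {p : ℂ[X]} (hp : 1 ≤ p.natDegree) {psi G : ℂ → ℂ} {R R₂ : ℝ} (hR : 0 < R)
    (hR₂ : R < R₂) (hψ : DifferentiableOn ℂ psi (ball 0 R)) (hG : DifferentiableOn ℂ G (ball 0 R₂))
    (h : ∀ t ∈ ball (0 : ℂ) R, p.eval (psi t) = G t)
    (hδ : ∃ δ > 0, ∀ t ∈ ball (0 : ℂ) R, δ ≤ ‖(derivative p).eval (psi t)‖) :
    ∃ R' : ℝ, R < R' ∧ R' ≤ R₂ ∧ ∃ psi' : ℂ → ℂ, DifferentiableOn ℂ psi' (ball 0 R') ∧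
      (∀ t ∈ ball (0 : ℂ) R, psi' t = psi t) ∧ (∀ t ∈ ball (0 : ℂ) R', p.eval (psi' t) = G t) ∧
      ∀ t ∈ ball (0 : ℂ) R', (derivative p).eval (psi' t) ≠ 0 := by
  obtain ⟨δ, hδ0, hδ⟩ := hδ
  set ρ : ℝ := (R + R₂) / 2 with hρ
  have hRρ : R < ρ := by rw [hρ]; linarith
  have hρR₂ : ρ < R₂ := by rw [hρ]; linarith
  have hsub : closedBall (0 : ℂ) ρ ⊆ ball 0 R₂ := closedBall_subset_ball hρR₂
  have hGc : ContinuousOn G (closedBall 0 ρ) := hG.continuousOn.mono hsub
  -- bound for G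
  obtain ⟨B0, hB0⟩ := (isCompact_closedBall (0 : ℂ) ρ).exists_bound_of_continuousOn hGc
  -- properness
  obtain ⟨B, hB⟩ : ∃ B : ℝ, ∀ z : ℂ, ‖p.eval z‖ ≤ B0 → ‖z‖ ≤ B := by
    have hdeg : 0 < p.degree := Polynomial.natDegree_pos_iff_degree_pos.1 hp
    have ht : Tendsto (fun z : ℂ => ‖p.eval z‖) (cocompact ℂ) atTop :=
      p.tendsto_norm_atTop hdeg tendsto_norm_cocompact_atTop
    have he : ∀ᶠ z in cocompact ℂ, B0 < ‖p.eval z‖ := ht.eventually_gt_atTop B0
    rw [← Metric.cobounded_eq_cocompact, ← comap_norm_atTop, eventually_comap] at he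
    obtain ⟨B, hB⟩ := eventually_atTop.1 he
    refine ⟨B, fun z hz => ?_⟩
    by_contra hcon
    have := hB ‖z‖ (not_le.1 hcon).le z rfl
    linarith
  have hpsiB : ∀ t ∈ ball (0 : ℂ) R, ‖psi t‖ ≤ B := by
    intro t ht
    apply hB
    rw [h t ht]
    exact hB0 t (ball_subset_closedBall (ball_subset_ball hRρ.le ht))
  -- uniform continuity of p'
  obtain ⟨d1, hd1, hd1'⟩ : ∃ d1 > 0, ∀ a ∈ closedBall (0 : ℂ) (B + 1),
      ∀ b ∈ closedBall (0 : ℂ) (B + 1), dist a b < d1 →
        dist ((derivative p).eval a) ((derivative p).eval b) < δ / 4 := by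
    have hc : ContinuousOn (fun z => (derivative p).eval z) (closedBall (0 : ℂ) (B + 1)) :=
      (derivative p).continuous.continuousOn
    have := (isCompact_closedBall (0 : ℂ) (B + 1)).uniformContinuousOn_of_continuous hc
    exact (Metric.uniformContinuousOn_iff.1 this) (δ / 4) (by linarith)
  set d0 : ℝ := min (d1 / 2) (1 / 2) with hd0def
  have hd0 : 0 < d0 := lt_min (by linarith) (by norm_num)
  have hd0d1 : d0 < d1 := (min_le_left _ _).trans_lt (by linarith)
  have hd01 : d0 ≤ 1 / 2 := min_le_right _ _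
  have hclose : ∀ z0 : ℂ, ‖z0‖ ≤ B → ∀ z ∈ closedBall z0 d0,
      ‖(derivative p).eval z - (derivative p).eval z0‖ ≤ δ / 4 := by
    intro z0 hz0 z hz
    rw [mem_closedBall, dist_eq_norm] at hz
    rw [← dist_eq_norm]
    refine (hd1' z ?_ z0 ?_ ?_).le
    · rw [mem_closedBall_zero_iff]
      calc ‖z‖ = ‖(z - z0) + z0‖ := by ring_nf
        _ ≤ ‖z - z0‖ + ‖z0‖ := norm_add_le _ _
        _ ≤ B + 1 := by linarith
    · rw [mem_closedBall_zero_iff]; linarith
    · rw [dist_eq_norm]; linarith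
  -- derivative of G bounded
  obtain ⟨M1, hM1⟩ : ∃ M1 : ℝ, ∀ t ∈ closedBall (0 : ℂ) ρ, ‖deriv G t‖ ≤ M1 :=
    (isCompact_closedBall (0 : ℂ) ρ).exists_bound_of_continuousOn
      (((hG.deriv isOpen_ball).continuousOn).mono hsub)
  have hM10 : 0 ≤ M1 := (norm_nonneg _).trans (hM1 0 (mem_closedBall_self (by linarith)))
  set Lam : ℝ := M1 / δ with hLam
  have hLam0 : 0 ≤ Lam := div_nonneg hM10 hδ0.le
  have hlip : ∀ t ∈ ball (0 : ℂ) R, ∀ t' ∈ ball (0 : ℂ) R, ‖psi t - psi t'‖ ≤ Lam * ‖t - t'‖ := by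
    intro t ht t' ht'
    refine (convex_ball (0 : ℂ) R).norm_image_sub_le_of_norm_deriv_le (𝕜 := ℂ) (f := psi)
      (fun s hs => hψ.differentiableAt (isOpen_ball.mem_nhds hs)) (fun s hs => ?_) ht' ht
    have hps : HasDerivAt psi (deriv psi s) s :=
      (hψ.differentiableAt (isOpen_ball.mem_nhds hs)).hasDerivAt
    have h1 : HasDerivAt (fun t => p.eval (psi t)) ((derivative p).eval (psi s) * deriv psi s) s :=
      (ext_hasDerivAt p (psi s)).comp s hps
    have h2 : HasDerivAt G ((derivative p).eval (psi s) * deriv psi s) s := by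
      refine h1.congr_of_eventuallyEq ?_
      filter_upwards [isOpen_ball.mem_nhds hs] with u hu
      exact (h u hu).symm
    have h3 := hM1 s (ball_subset_closedBall (ball_subset_ball hRρ.le hs))
    rw [h2.deriv, norm_mul] at h3
    rw [hLam, le_div_iff₀ hδ0]
    calc ‖deriv psi s‖ * δ ≤ ‖deriv psi s‖ * ‖(derivative p).eval (psi s)‖ :=
          mul_le_mul_of_nonneg_left (hδ s hs) (norm_nonneg _)
      _ ≤ M1 := by rw [mul_comm]; exact h3
  -- uniform continuity of G
  obtain ⟨η, hη, hη'⟩ : ∃ η > 0, ∀ a ∈ closedBall (0 : ℂ) ρ, ∀ b ∈ closedBall (0 : ℂ) ρ,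
      dist a b < η → dist (G a) (G b) < δ * d0 / 8 := by
    have := (isCompact_closedBall (0 : ℂ) ρ).uniformContinuousOn_of_continuous hGc
    exact (Metric.uniformContinuousOn_iff.1 this) (δ * d0 / 8) (by positivity)
  set e : ℝ := min (min (η / 2) (ρ - R)) (d0 / (2 * (Lam + 1))) with he
  have he0 : 0 < e := by
    refine lt_min (lt_min (by linarith) (by linarith)) ?_
    positivity
  have heη : e < η := ((min_le_left _ _).trans (min_le_left _ _)).trans_lt (by linarith)
  have heρ : e ≤ ρ - R := (min_le_left _ _).trans (min_le_right _ _)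
  have heL : Lam * e < d0 := by
    have h1 : e ≤ d0 / (2 * (Lam + 1)) := min_le_right _ _
    rw [le_div_iff₀ (by positivity)] at h1
    nlinarith
  set R' : ℝ := R + e with hR'
  have hRR' : R < R' := by rw [hR']; linarith
  have hR'0 : 0 < R' := hR.trans hRR'
  have hR'ρ : R' ≤ ρ := by rw [hR']; linarith
  -- the contraction
  set c : ℝ := R / R' with hc
  have hc0 : 0 < c := div_pos hR hR'0
  have hc1 : c < 1 := (div_lt_one hR'0).2 hRR'
  have hcR' : c * R' = R := by rw [hc]; field_simp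
  have hmem : ∀ t ∈ ball (0 : ℂ) R', (c : ℂ) * t ∈ ball (0 : ℂ) R := by
    intro t ht
    rw [mem_ball_zero_iff] at ht ⊢
    rw [norm_mul, Complex.norm_real, Real.norm_eq_abs, abs_of_pos hc0]
    calc c * ‖t‖ < c * R' := mul_lt_mul_of_pos_left ht hc0
      _ = R := hcR'
  have hdist : ∀ t ∈ ball (0 : ℂ) R', ‖t - (c : ℂ) * t‖ ≤ e := by
    intro t ht
    rw [mem_ball_zero_iff] at ht
    have : t - (c : ℂ) * t = ((1 - c : ℝ) : ℂ) * t := by push_cast; ring
    rw [this, norm_mul, Complex.norm_real, Real.norm_eq_abs, abs_of_pos (by linarith)]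
    calc (1 - c) * ‖t‖ ≤ (1 - c) * R' := mul_le_mul_of_nonneg_left ht.le (by linarith)
      _ = R' - c * R' := by ring
      _ = e := by rw [hcR', hR']; ring
  have hex : ∀ t ∈ ball (0 : ℂ) R', ∃ z ∈ ball (psi ((c : ℂ) * t)) d0, p.eval z = G t := by
    intro t ht
    have ht' := hmem t ht
    refine ext_surj hδ0 hd0 (hδ _ ht') (hclose _ (hpsiB _ ht')) ?_
    rw [h _ ht', ← dist_eq_norm]
    refine hη' t ?_ _ ?_ ?_
    · exact ball_subset_closedBall (ball_subset_ball hR'ρ ht)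
    · exact ball_subset_closedBall (ball_subset_ball hRρ.le ht')
    · rw [dist_eq_norm]
      exact (hdist t ht).trans_lt heη
  choose! psi' hpsi'1 hpsi'2 using hex
  have hlow : ∀ t ∈ ball (0 : ℂ) R', ∀ z ∈ closedBall (psi ((c : ℂ) * t)) d0,
      ∀ z' ∈ closedBall (psi ((c : ℂ) * t)) d0,
      3 / 4 * δ * ‖z - z'‖ ≤ ‖p.eval z - p.eval z'‖ := by
    intro t ht z hz z' hz'
    exact ext_lower (hδ _ (hmem t ht)) (hclose _ (hpsiB _ (hmem t ht))) hz hz'
  have hne : ∀ t ∈ ball (0 : ℂ) R', (derivative p).eval (psi' t) ≠ 0 := by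
    intro t ht h0
    have h1 := hclose _ (hpsiB _ (hmem t ht)) (psi' t) (ball_subset_closedBall (hpsi'1 t ht))
    rw [h0, zero_sub, norm_neg] at h1
    have h2 := hδ _ (hmem t ht)
    linarith
  refine ⟨R', hRR', hR'ρ.trans hρR₂.le, psi', ?_, ?_, hpsi'2, hne⟩
  · -- differentiability
    intro t1 ht1
    refine DifferentiableAt.differentiableWithinAt ?_
    -- continuity
    have hpc : ContinuousAt (fun t : ℂ => psi ((c : ℂ) * t)) t1 := by
      have h1 : ContinuousAt psi ((c : ℂ) * t1) :=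
        (hψ.differentiableAt (isOpen_ball.mem_nhds (hmem t1 ht1))).continuousAt
      exact ContinuousAt.comp (f := fun t : ℂ => (c : ℂ) * t) h1 (by fun_prop)
    have hev : ∀ᶠ t in 𝓝 t1, psi' t1 ∈ ball (psi ((c : ℂ) * t)) d0 := by
      have h1 : ContinuousAt (fun t : ℂ => dist (psi' t1) (psi ((c : ℂ) * t))) t1 :=
        continuousAt_const.dist hpc
      have h2 : dist (psi' t1) (psi ((c : ℂ) * t1)) < d0 := hpsi'1 t1 ht1
      filter_upwards [h1.eventually (gt_mem_nhds h2)] with t ht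
      exact ht
    have hGd : DifferentiableAt ℂ G t1 :=
      hG.differentiableAt (isOpen_ball.mem_nhds
        (ball_subset_ball (hR'ρ.trans hρR₂.le) ht1))
    have hbd : ∀ᶠ t in 𝓝 t1, dist (psi' t) (psi' t1) ≤ (3 / 4 * δ)⁻¹ * dist (G t) (G t1) := by
      filter_upwards [hev, isOpen_ball.mem_nhds ht1] with t h1 h2
      have h3 := hlow t h2 (psi' t) (ball_subset_closedBall (hpsi'1 t h2)) (psi' t1)
        (ball_subset_closedBall h1)
      rw [hpsi'2 t h2, hpsi'2 t1 ht1] at h3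
      rw [dist_eq_norm, dist_eq_norm, inv_mul_eq_div, le_div_iff₀ (by positivity)]
      linarith
    have hcont : ContinuousAt psi' t1 := by
      rw [ContinuousAt, tendsto_iff_dist_tendsto_zero]
      have h1 : Tendsto (fun t => (3 / 4 * δ)⁻¹ * dist (G t) (G t1)) (𝓝 t1) (𝓝 0) := by
        have := (tendsto_iff_dist_tendsto_zero.1 hGd.continuousAt).const_mul (3 / 4 * δ)⁻¹
        simpa using this
      exact squeeze_zero' (Eventually.of_forall fun t => dist_nonneg) hbd h1
    have hsd : HasStrictDerivAt (fun z => p.eval z) ((derivative p).eval (psi' t1)) (psi' t1) :=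
      p.hasStrictDerivAt _
    have hinv := hsd.to_localInverse (hne t1 ht1)
    have hleft := hsd.eventually_left_inverse (hne t1 ht1)
    have hcomp : DifferentiableAt ℂ (fun t => hsd.localInverse _ _ _ (hne t1 ht1) (G t)) t1 := by
      have h1 : DifferentiableAt ℂ (hsd.localInverse _ _ _ (hne t1 ht1)) (G t1) := by
        have := hinv.hasDerivAt.differentiableAt
        rwa [hpsi'2 t1 ht1] at this
      exact h1.comp t1 hGd
    refine hcomp.congr_of_eventuallyEq ?_
    filter_upwards [hcont.eventually hleft, isOpen_ball.mem_nhds ht1] with t h1 h2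
    rw [← hpsi'2 t h2]
    exact h1.symm
  · -- agreement
    intro t ht
    have ht' : t ∈ ball (0 : ℂ) R' := ball_subset_ball hRR'.le ht
    have h1 : psi t ∈ closedBall (psi ((c : ℂ) * t)) d0 := by
      rw [mem_closedBall, dist_eq_norm]
      refine (hlip t ht _ (hmem t ht')).trans ?_
      refine (mul_le_mul_of_nonneg_left (hdist t ht') hLam0).trans heL.le
    have h2 := hlow t ht' (psi' t) (ball_subset_closedBall (hpsi'1 t ht')) (psi t) h1
    rw [hpsi'2 t ht', h t ht, sub_self, norm_zero] at h2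
    have h3 : ‖psi' t - psi t‖ ≤ 0 := by
      by_contra hcon
      have : 0 < 3 / 4 * δ * ‖psi' t - psi t‖ := by
        have := not_le.1 hcon
        positivity
      linarith
    exact sub_eq_zero.1 (norm_le_zero_iff.1 h3)

end Pool.Agent.HZ
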