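import Pool.Agent.H.MP_cd3d06_an.L.Koenigs
import Pool.Agent.H.MP_cd3d06_an.L.Extend

/-! MP_cd3d06_an, module Exists: existence of the maximal linearizer -/

open Polynomial Metric Set Filter Topology
open scoped ComplexConjugate

namespace Pool.Agent.HZ

namespace ExistsLin

/-- `p` dominates `q` -/
private theorem dom {p q : ℂ[X]} (hpq : q.natDegree < p.natDegree) :
    ∃ B : ℝ, 0 < B ∧ ∀ z w : ℂ, B < ‖z‖ → ‖w‖ ≤ ‖z‖ → ‖q.eval w‖ < ‖p.eval z‖ := by
  obtain ⟨k, hk⟩ : ∃ k, p.natDegree = k + 1 := ⟨p.natDegree - 1, by omega⟩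
  set S : ℝ := ∑ i ∈ Finset.range (k + 1), (‖p.coeff i‖ + ‖q.coeff i‖) with hS
  have hS0 : 0 ≤ S := Finset.sum_nonneg fun i _ => by positivity
  set a : ℝ := ‖p.coeff (k + 1)‖ with ha
  have ha0 : 0 < a := by
    rw [ha, norm_pos_iff, ← hk]
    have : p ≠ 0 := by rintro rfl; simp at hk
    simpa using this
  refine ⟨1 + S / a, by positivity, fun z w hz hw => ?_⟩
  have hz1 : 1 < ‖z‖ := by
    have : 0 ≤ S / a := by positivity
    linarith
  have hz2 : S < a * ‖z‖ := by
    have : S / a < ‖z‖ := by linarith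
    rw [div_lt_iff₀ ha0] at this
    linarith
  have hpow : ∀ i ∈ Finset.range (k + 1), ‖z‖ ^ i ≤ ‖z‖ ^ k := fun i hi =>
    pow_le_pow_right₀ hz1.le (by simpa [Nat.lt_succ_iff] using hi)
  have h1 : p.eval z = (∑ i ∈ Finset.range (k + 1), p.coeff i * z ^ i) + p.coeff (k + 1) * z ^ (k + 1) := by
    rw [eval_eq_sum_range, hk, Finset.sum_range_succ]
  have h2 : q.eval w = ∑ i ∈ Finset.range (k + 1), q.coeff i * w ^ i :=
    eval_eq_sum_range' (by omega) w
  have h3 : ‖∑ i ∈ Finset.range (k + 1), p.coeff i * z ^ i‖ ≤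
      (∑ i ∈ Finset.range (k + 1), ‖p.coeff i‖) * ‖z‖ ^ k := by
    rw [Finset.sum_mul]
    refine (norm_sum_le _ _).trans (Finset.sum_le_sum fun i hi => ?_)
    rw [norm_mul, norm_pow]
    exact mul_le_mul_of_nonneg_left (hpow i hi) (norm_nonneg _)
  have h4 : ‖q.eval w‖ ≤ (∑ i ∈ Finset.range (k + 1), ‖q.coeff i‖) * ‖z‖ ^ k := by
    rw [h2, Finset.sum_mul]
    refine (norm_sum_le _ _).trans (Finset.sum_le_sum fun i hi => ?_)
    rw [norm_mul, norm_pow]
    exact mul_le_mul_of_nonneg_left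
      ((pow_le_pow_left₀ (norm_nonneg _) hw i).trans (hpow i hi)) (norm_nonneg _)
  have h5 : a * ‖z‖ ^ (k + 1) - (∑ i ∈ Finset.range (k + 1), ‖p.coeff i‖) * ‖z‖ ^ k ≤ ‖p.eval z‖ := by
    rw [h1]
    have h6 : ‖p.coeff (k + 1) * z ^ (k + 1)‖ = a * ‖z‖ ^ (k + 1) := by
      rw [norm_mul, norm_pow]
    have h7 := norm_sub_norm_le (p.coeff (k + 1) * z ^ (k + 1))
      (-(∑ i ∈ Finset.range (k + 1), p.coeff i * z ^ i))
    rw [norm_neg, sub_neg_eq_add, h6, add_comm (p.coeff (k + 1) * z ^ (k + 1))] at h7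
    linarith
  have h8 : S * ‖z‖ ^ k < a * ‖z‖ * ‖z‖ ^ k :=
    mul_lt_mul_of_pos_right hz2 (pow_pos (by linarith) _)
  have h9 : S = (∑ i ∈ Finset.range (k + 1), ‖p.coeff i‖) +
      ∑ i ∈ Finset.range (k + 1), ‖q.coeff i‖ := by
    rw [hS, Finset.sum_add_distrib]
  rw [h9, add_mul] at h8
  have h10 : a * ‖z‖ ^ (k + 1) = a * ‖z‖ * ‖z‖ ^ k := by ring
  linarith

/-- uniqueness -/
private theorem uniq {f g : ℂ → ℂ} {R : ℝ} (hR : 0 < R) (hf : DifferentiableOn ℂ f (ball 0 R))
    (hg : DifferentiableOn ℂ g (ball 0 R)) (h : f =ᶠ[𝓝 0] g) : EqOn f g (ball 0 R) :=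
  (hf.analyticOnNhd isOpen_ball).eqOn_of_preconnected_of_eventuallyEq
    (hg.analyticOnNhd isOpen_ball) (convex_ball 0 R).isPreconnected (mem_ball_self hR) h

/-- admissible radii -/
private structure Adm (p q : ℂ[X]) (lam : ℝ) (psi0 : ℂ → ℂ) (R : ℝ) (psi : ℂ → ℂ) : Prop where
  pos : 0 < R
  diff : DifferentiableOn ℂ psi (ball 0 R)
  germ : psi =ᶠ[𝓝 0] psi0
  fe : ∀ t ∈ ball (0 : ℂ) R, p.eval (psi t) = - conj (q.eval (psi (lam * conj t)))
  hp : ∀ t ∈ ball (0 : ℂ) R, (derivative p).eval (psi t) ≠ 0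
  hq : ∀ t ∈ ball (0 : ℂ) (lam * R), (derivative q).eval (psi t) ≠ 0

private theorem norm_S {lam : ℝ} (h : 0 < lam) (t : ℂ) : ‖(lam : ℂ) * conj t‖ = lam * ‖t‖ := by
  rw [norm_mul, Complex.norm_real, Real.norm_eq_abs, abs_of_pos h]
  congr 1
  exact RCLike.norm_conj t

variable {p q : ℂ[X]} {lam : ℝ} {psi0 : ℂ → ℂ}

private theorem Adm.bdd {R : ℝ} {psi : ℂ → ℂ} (h : Adm p q lam psi0 R psi) (h0 : 0 < lam)
    (h1 : lam < 1) {B : ℝ}
    (hB : ∀ z w : ℂ, B < ‖z‖ → ‖w‖ ≤ ‖z‖ → ‖q.eval w‖ < ‖p.eval z‖) :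
    ∀ t ∈ ball (0 : ℂ) R, ‖psi t‖ ≤ B := by
  intro t ht
  by_contra hcon
  push Not at hcon
  have htR : ‖t‖ < R := by simpa using ht
  have hsub : closedBall (0 : ℂ) ‖t‖ ⊆ ball 0 R := closedBall_subset_ball htR
  obtain ⟨t1, ht1, hmax⟩ := (isCompact_closedBall (0 : ℂ) ‖t‖).exists_isMaxOn
    ⟨0, mem_closedBall_self (norm_nonneg t)⟩ ((h.diff.continuousOn.mono hsub).norm)
  have hm : ∀ s ∈ closedBall (0 : ℂ) ‖t‖, ‖psi s‖ ≤ ‖psi t1‖ := fun s hs => hmax hs
  have h2 : B < ‖psi t1‖ := hcon.trans_le (hm t (by simp))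
  have ht1' : ‖t1‖ ≤ ‖t‖ := by simpa using ht1
  have h3 : ‖psi (lam * conj t1)‖ ≤ ‖psi t1‖ := by
    apply hm
    rw [mem_closedBall_zero_iff, norm_S h0]
    nlinarith [norm_nonneg t1]
  have h4 := hB _ _ h2 h3
  rw [h.fe t1 (hsub ht1), norm_neg, RCLike.norm_conj] at h4
  exact lt_irrefl _ h4

private theorem Adm.le {R : ℝ} {psi : ℂ → ℂ} (h : Adm p q lam psi0 R psi) (h0 : 0 < lam)
    (h1 : lam < 1) {B : ℝ}
    (hB : ∀ z w : ℂ, B < ‖z‖ → ‖w‖ ≤ ‖z‖ → ‖q.eval w‖ < ‖p.eval z‖) (hd : deriv psi0 0 ≠ 0) :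
    R ≤ 2 * B / ‖deriv psi0 0‖ := by
  have hb := h.bdd h0 h1 hB
  have hR := h.pos
  have h2 : ‖deriv psi 0‖ ≤ B / (R / 2) := by
    apply Complex.norm_deriv_le_of_forall_mem_sphere_norm_le (by linarith)
    · apply DifferentiableOn.diffContOnCl
      refine h.diff.mono ?_
      exact closure_ball_subset_closedBall.trans (closedBall_subset_ball (by linarith))
    · intro z hz
      apply hb
      have : ‖z‖ = R / 2 := by simpa using hz
      rw [mem_ball_zero_iff]; linarith
  rw [h.germ.deriv_eq] at h2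
  have h3 : 0 < ‖deriv psi0 0‖ := norm_pos_iff.mpr hd
  rw [le_div_iff₀ h3]
  rw [le_div_iff₀ (by linarith)] at h2
  linarith

private theorem Adm.agree {R R' : ℝ} {psi psi' : ℂ → ℂ} (h : Adm p q lam psi0 R psi)
    (h' : Adm p q lam psi0 R' psi') {t : ℂ} (ht : ‖t‖ < R) (ht' : ‖t‖ < R') : psi t = psi' t := by
  have hmin : 0 < min R R' := lt_min h.pos h'.pos
  apply uniq hmin (h.diff.mono (ball_subset_ball (min_le_left _ _)))
    (h'.diff.mono (ball_subset_ball (min_le_right _ _))) (h.germ.trans h'.germ.symm)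
  rw [mem_ball_zero_iff]
  exact lt_min ht ht'

/-- gluing -/
private theorem glue (h0 : 0 < lam) (h1 : lam < 1) (hne : ∃ R psi, Adm p q lam psi0 R psi)
    (hbdd : BddAbove {R | ∃ psi, Adm p q lam psi0 R psi}) :
    ∃ psi, Adm p q lam psi0 (sSup {R | ∃ psi, Adm p q lam psi0 R psi}) psi := by
  classical
  set 𝒜 := {R | ∃ psi, Adm p q lam psi0 R psi} with h𝒜
  obtain ⟨R0, ps0, hA0⟩ := hne
  have hR0 : R0 ≤ sSup 𝒜 := le_csSup hbdd ⟨ps0, hA0⟩
  have hex : ∀ s : ℝ, s < sSup 𝒜 → ∃ R psi, Adm p q lam psi0 R psi ∧ s < R := by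
    intro s hs
    have hne' : 𝒜.Nonempty := ⟨R0, ps0, hA0⟩
    obtain ⟨R, ⟨psi, hR⟩, hsR⟩ := exists_lt_of_lt_csSup hne' hs
    exact ⟨R, psi, hR, hsR⟩
  have hex2 : ∀ t : ℂ, ∃ v : ℂ, ∀ R psi, Adm p q lam psi0 R psi → ‖t‖ < R → psi t = v := by
    intro t
    by_cases ht : ∃ R psi, Adm p q lam psi0 R psi ∧ ‖t‖ < R
    · obtain ⟨R, psi, hR, htR⟩ := ht
      exact ⟨psi t, fun R' psi' hR' ht' => hR'.agree hR ht' htR⟩
    · exact ⟨0, fun R psi h h' => (ht ⟨R, psi, h, h'⟩).elim⟩
  choose F hF using hex2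
  refine ⟨F, ⟨hA0.pos.trans_le hR0, ?_, ?_, ?_, ?_, ?_⟩⟩
  · intro t ht
    rw [mem_ball_zero_iff] at ht
    obtain ⟨R, psi, hR, htR⟩ := hex _ ht
    have h2 : psi =ᶠ[𝓝 t] F := by
      filter_upwards [isOpen_ball.mem_nhds (show t ∈ ball (0 : ℂ) R by simpa using htR)] with s hs
      exact hF s R psi hR (by simpa using hs)
    exact ((hR.diff.differentiableAt (isOpen_ball.mem_nhds
      (show t ∈ ball (0 : ℂ) R by simpa using htR))).congr_of_eventuallyEq h2.symm).differentiableWithinAt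
  · refine EventuallyEq.trans ?_ hA0.germ
    filter_upwards [isOpen_ball.mem_nhds (mem_ball_self hA0.pos)] with s hs
    exact (hF s R0 ps0 hA0 (by simpa using hs)).symm
  · intro t ht
    rw [mem_ball_zero_iff] at ht
    obtain ⟨R, psi, hR, htR⟩ := hex _ ht
    rw [← hF t R psi hR htR, ← hF _ R psi hR, hR.fe t (by simpa using htR)]
    rw [norm_S h0]
    nlinarith [norm_nonneg t]
  · intro t ht
    rw [mem_ball_zero_iff] at ht
    obtain ⟨R, psi, hR, htR⟩ := hex _ ht
    rw [← hF t R psi hR htR]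
    exact hR.hp t (by simpa using htR)
  · intro t ht
    rw [mem_ball_zero_iff] at ht
    obtain ⟨R, psi, hR, htR⟩ := hex (‖t‖ / lam) (by rw [div_lt_iff₀ h0]; linarith)
    rw [div_lt_iff₀ h0] at htR
    have h2 : ‖t‖ < R := by nlinarith [norm_nonneg t, hR.pos]
    rw [← hF t R psi hR h2]
    exact hR.hq t (by rw [mem_ball_zero_iff]; linarith)

/-- the conjugated function -/
private theorem diffG {f : ℂ → ℂ} {R : ℝ} (h0 : 0 < lam) (q : ℂ[X])
    (hf : DifferentiableOn ℂ f (ball 0 R)) :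
    DifferentiableOn ℂ (fun t => - conj (q.eval (f (lam * conj t)))) (ball 0 (R / lam)) := by
  intro t ht
  rw [mem_ball_zero_iff, lt_div_iff₀ h0] at ht
  have h1 : DifferentiableAt ℂ (fun s => q.eval (f (lam * s))) (conj t) := by
    have h2 : DifferentiableAt ℂ f (lam * conj t) := by
      apply hf.differentiableAt (isOpen_ball.mem_nhds _)
      rw [mem_ball_zero_iff, norm_S h0]
      linarith
    have h3 : DifferentiableAt ℂ (fun s : ℂ => f (lam * s)) (conj t) :=
      DifferentiableAt.comp (conj t) h2 (by fun_prop)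
    exact DifferentiableAt.comp (g := fun z => q.eval z) (conj t) q.differentiable.differentiableAt h3
  have h4 := h1.conj_conj
  rw [Complex.conj_conj] at h4
  exact h4.neg.differentiableWithinAt

/-- if nothing goes wrong, the radius is not maximal -/
private theorem enlarge (hpn : 1 ≤ p.natDegree) (h0 : 0 < lam) (h1 : lam < 1) {R : ℝ} {psi : ℂ → ℂ}
    (h : Adm p q lam psi0 R psi)
    (ha : ∃ δ > 0, ∀ t ∈ ball (0 : ℂ) R, δ ≤ ‖(derivative p).eval (psi t)‖)
    (hb : ∀ t ∈ closedBall (0 : ℂ) (lam * R), (derivative q).eval (psi t) ≠ 0) :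
    ∃ R', R < R' ∧ ∃ psi', Adm p q lam psi0 R' psi' := by
  have hR := h.pos
  have hR2 : R < R / lam := by rw [lt_div_iff₀ h0]; nlinarith
  obtain ⟨R', hR', hR'2, psi', hd', hag, hG', hp'⟩ := extend hpn hR hR2 h.diff (diffG h0 q h.diff)
    h.fe ha
  have hlR : lam * R < R := by nlinarith
  have hopen : IsOpen (ball (0 : ℂ) R' ∩ {t | (derivative q).eval (psi' t) ≠ 0}) := by
    have hc : ContinuousOn (fun t => (derivative q).eval (psi' t)) (ball 0 R') :=
      (derivative q).continuous.comp_continuousOn hd'.continuousOn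
    exact hc.isOpen_inter_preimage isOpen_ball isOpen_compl_singleton
  have hsub : closedBall (0 : ℂ) (lam * R) ⊆
      ball (0 : ℂ) R' ∩ {t | (derivative q).eval (psi' t) ≠ 0} := by
    intro t ht
    have htR : t ∈ ball (0 : ℂ) R := closedBall_subset_ball hlR ht
    refine ⟨ball_subset_ball hR'.le htR, ?_⟩
    show (derivative q).eval (psi' t) ≠ 0
    rw [hag t htR]
    exact hb t ht
  obtain ⟨δ, hδ, hthick⟩ := (isCompact_closedBall (0 : ℂ) (lam * R)).exists_thickening_subset_open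
    hopen hsub
  rw [thickening_closedBall hδ (by positivity)] at hthick
  have hδl : 0 < δ / lam := by positivity
  refine ⟨min R' (R + δ / lam), lt_min hR' (by linarith), psi', ⟨?_, ?_, ?_, ?_, ?_, ?_⟩⟩
  · exact lt_min (hR.trans hR') (by positivity)
  · exact hd'.mono (ball_subset_ball (min_le_left _ _))
  · refine EventuallyEq.trans ?_ h.germ
    filter_upwards [isOpen_ball.mem_nhds (mem_ball_self hR)] with s hs
    exact hag s hs
  · intro t ht
    have ht' : t ∈ ball (0 : ℂ) R' := ball_subset_ball (min_le_left _ _) ht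
    rw [hG' t ht']
    have ht2 : ‖t‖ < R' := by simpa using ht'
    have h3 : (lam : ℂ) * conj t ∈ ball (0 : ℂ) R := by
      rw [mem_ball_zero_iff, norm_S h0]
      have : ‖t‖ < R / lam := ht2.trans_le hR'2
      rw [lt_div_iff₀ h0] at this
      linarith
    rw [hag _ h3]
  · intro t ht
    exact hp' t (ball_subset_ball (min_le_left _ _) ht)
  · intro t ht
    have h3 : t ∈ ball (0 : ℂ) (δ + lam * R) := by
      rw [mem_ball_zero_iff] at ht ⊢
      have h4 : lam * min R' (R + δ / lam) ≤ lam * (R + δ / lam) :=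
        mul_le_mul_of_nonneg_left (min_le_right _ _) h0.le
      have h5 : lam * (R + δ / lam) = lam * R + δ := by field_simp
      linarith
    exact (hthick h3).2

end ExistsLin

open ExistsLin in
theorem exists_lin {p q : ℂ[X]} (hpq : q.natDegree < p.natDegree) (hq : 1 ≤ q.natDegree) {x : ℂ}
    (hx : p.eval x = - conj (q.eval x)) (hp : (derivative p).eval x ≠ 0)
    (hlt : ‖(derivative p).eval x‖ < ‖(derivative q).eval x‖) : Nonempty (Lin p q x) := by
  obtain ⟨lam, h0, h1, r, hr, psi0, hd0, hx0, hd, hfe0⟩ := exists_germ hx hp hlt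
  obtain ⟨B, hB0, hB⟩ := dom hpq
  have hqx : (derivative q).eval x ≠ 0 := by
    intro h
    rw [h, norm_zero] at hlt
    exact absurd hlt (not_lt.mpr (norm_nonneg _))
  have hne : ∃ R psi, Adm p q lam psi0 R psi := by
    have hc : ContinuousAt psi0 0 :=
      (hd0.differentiableAt (isOpen_ball.mem_nhds (mem_ball_self hr))).continuousAt
    have e1 : ∀ᶠ t in 𝓝 (0 : ℂ), (derivative p).eval (psi0 t) ≠ 0 := by
      have : ContinuousAt (fun t => (derivative p).eval (psi0 t)) 0 :=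
        (derivative p).continuous.continuousAt.comp hc
      exact this.eventually_ne (by rw [hx0]; exact hp)
    have e2 : ∀ᶠ t in 𝓝 (0 : ℂ), (derivative q).eval (psi0 t) ≠ 0 := by
      have : ContinuousAt (fun t => (derivative q).eval (psi0 t)) 0 :=
        (derivative q).continuous.continuousAt.comp hc
      exact this.eventually_ne (by rw [hx0]; exact hqx)
    obtain ⟨ε, hε, hball⟩ := Metric.eventually_nhds_iff_ball.mp (e1.and e2)
    refine ⟨min r ε, psi0, ⟨lt_min hr hε, hd0.mono (ball_subset_ball (min_le_left _ _)),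
      EventuallyEq.rfl, ?_, ?_, ?_⟩⟩
    · intro t ht
      exact hfe0 t (ball_subset_ball (min_le_left _ _) ht)
    · intro t ht
      exact (hball t (ball_subset_ball (min_le_right _ _) ht)).1
    · intro t ht
      refine (hball t ?_).2
      rw [mem_ball_zero_iff] at ht ⊢
      have : 0 < min r ε := lt_min hr hε
      have : min r ε ≤ ε := min_le_right _ _
      nlinarith
  have hbdd : BddAbove {R | ∃ psi, Adm p q lam psi0 R psi} := by
    refine ⟨2 * B / ‖deriv psi0 0‖, ?_⟩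
    rintro R ⟨psi, hR⟩
    exact hR.le h0 h1 hB hd
  obtain ⟨psi, hA⟩ := glue h0 h1 hne hbdd
  set R := sSup {R | ∃ psi, Adm p q lam psi0 R psi} with hRdef
  have hR := hA.pos
  have hbd := hA.bdd h0 h1 hB
  have hlR : lam * R < R := by nlinarith
  have hpn : 1 ≤ p.natDegree := by omega
  -- the boundary point
  have hkey : ∃ t₀ : ℂ, ‖t₀‖ = R ∧
    ((∃ c₀ : ℂ, (derivative p).eval c₀ = 0 ∧
        p.eval c₀ = - conj (q.eval (psi (lam * conj t₀)))) ∨
      (derivative q).eval (psi (lam * conj t₀)) = 0) := by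
    by_cases hb : ∀ t ∈ closedBall (0 : ℂ) (lam * R), (derivative q).eval (psi t) ≠ 0
    · by_cases ha : ∃ δ > 0, ∀ t ∈ ball (0 : ℂ) R, δ ≤ ‖(derivative p).eval (psi t)‖
      · exfalso
        obtain ⟨R', hR', psi', hA'⟩ := enlarge hpn h0 h1 hA ha hb
        exact absurd (le_csSup hbdd ⟨psi', hA'⟩) (not_le.mpr hR')
      · push Not at ha
        have hseq : ∀ n : ℕ, ∃ t ∈ ball (0 : ℂ) R, ‖(derivative p).eval (psi t)‖ < 1 / ((n : ℝ) + 1) :=
          fun n => ha _ (by positivity)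
        choose t ht htn using hseq
        have hK : IsCompact (closedBall (0 : ℂ) R ×ˢ closedBall (0 : ℂ) B) :=
          (isCompact_closedBall _ _).prod (isCompact_closedBall _ _)
        obtain ⟨⟨t0, c0⟩, hmem, φ, hφ, hlim⟩ := hK.tendsto_subseq (x := fun n => (t n, psi (t n)))
          (fun n => ⟨ball_subset_closedBall (ht n), by
            rw [mem_closedBall_zero_iff]; exact hbd _ (ht n)⟩)
        have hl1 : Tendsto (fun n => t (φ n)) atTop (𝓝 t0) :=
          (continuous_fst.tendsto _).comp hlim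
        have hl2 : Tendsto (fun n => psi (t (φ n))) atTop (𝓝 c0) :=
          (continuous_snd.tendsto _).comp hlim
        have hpc : (derivative p).eval c0 = 0 := by
          have h3 : Tendsto (fun n => (derivative p).eval (psi (t (φ n)))) atTop
              (𝓝 ((derivative p).eval c0)) := ((derivative p).continuous.tendsto _).comp hl2
          have h4 : Tendsto (fun n => (derivative p).eval (psi (t (φ n)))) atTop (𝓝 0) := by
            apply squeeze_zero_norm (fun n => (htn (φ n)).le)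
            exact tendsto_one_div_add_atTop_nhds_zero_nat.comp hφ.tendsto_atTop
          exact tendsto_nhds_unique h3 h4
        have ht0 : ‖t0‖ ≤ R := by simpa using hmem.1
        have ht0' : ‖t0‖ = R := by
          refine le_antisymm ht0 (not_lt.mp fun hlt' => ?_)
          have hin : t0 ∈ ball (0 : ℂ) R := by simpa using hlt'
          have hc : ContinuousAt psi t0 :=
            (hA.diff.differentiableAt (isOpen_ball.mem_nhds hin)).continuousAt
          have h5 : psi t0 = c0 := tendsto_nhds_unique (hc.tendsto.comp hl1) hl2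
          exact hA.hp t0 hin (by rw [h5]; exact hpc)
        refine ⟨t0, ht0', Or.inl ⟨c0, hpc, ?_⟩⟩
        have h6 : Tendsto (fun n => p.eval (psi (t (φ n)))) atTop (𝓝 (p.eval c0)) :=
          (p.continuous.tendsto _).comp hl2
        have h7 : Tendsto (fun n => - conj (q.eval (psi (lam * conj (t (φ n)))))) atTop
            (𝓝 (- conj (q.eval (psi (lam * conj t0))))) := by
          have hin : (lam : ℂ) * conj t0 ∈ ball (0 : ℂ) R := by
            rw [mem_ball_zero_iff, norm_S h0, ht0']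
            exact hlR
          have hc : ContinuousAt psi (lam * conj t0) :=
            (hA.diff.differentiableAt (isOpen_ball.mem_nhds hin)).continuousAt
          have h8 : Tendsto (fun n => (lam : ℂ) * conj (t (φ n))) atTop (𝓝 (lam * conj t0)) :=
            ((Complex.continuous_conj.tendsto _).comp hl1).const_mul _
          have h9 := (q.continuous.tendsto _).comp (hc.tendsto.comp h8)
          exact ((Complex.continuous_conj.tendsto _).comp h9).neg
        refine tendsto_nhds_unique h6 (h7.congr fun n => ?_)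
        exact (hA.fe _ (ht (φ n))).symm
    · push Not at hb
      obtain ⟨t1, ht1, hq1⟩ := hb
      have h2 : ‖t1‖ = lam * R := by
        refine le_antisymm (by simpa using ht1) (not_lt.mp fun hlt' => ?_)
        exact hA.hq t1 (by simpa using hlt') hq1
      refine ⟨conj t1 / lam, ?_, Or.inr ?_⟩
      · rw [norm_div, RCLike.norm_conj, h2, Complex.norm_real, Real.norm_eq_abs, abs_of_pos h0]
        field_simp
      · have h3 : (lam : ℂ) * conj (conj t1 / lam) = t1 := by
          have : (lam : ℂ) ≠ 0 := by exact_mod_cast h0.ne'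
          rw [map_div₀, Complex.conj_conj, Complex.conj_ofReal]
          field_simp
        rw [h3]
        exact hq1
  obtain ⟨t₀, ht₀, halt⟩ := hkey
  have hRC : (R : ℂ) ≠ 0 := by exact_mod_cast hR.ne'
  have hsc : ∀ t : ℂ, ∀ s : ℝ, t ∈ ball (0 : ℂ) s → (R : ℂ) * t ∈ ball (0 : ℂ) (s * R) := by
    intro t s ht
    rw [mem_ball_zero_iff] at ht ⊢
    rw [norm_mul, Complex.norm_real, Real.norm_eq_abs, abs_of_pos hR]
    nlinarith
  have hcm : ∀ t : ℂ, (R : ℂ) * (lam * conj t) = lam * conj ((R : ℂ) * t) := by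
    intro t
    rw [map_mul, Complex.conj_ofReal]; ring
  have hdiffR : ∀ t ∈ ball (0 : ℂ) 1, DifferentiableAt ℂ psi (R * t) := by
    intro t ht
    exact hA.diff.differentiableAt (isOpen_ball.mem_nhds (by simpa using hsc t 1 ht))
  refine ⟨⟨lam, fun t => psi (R * t), h0, h1, ?_, ?_, ?_, ?_, ?_, ?_, ?_⟩⟩
  · intro t ht
    exact (DifferentiableAt.comp t (hdiffR t ht) (by fun_prop)).differentiableWithinAt
  · simp only [mul_zero]
    rw [hA.germ.eq_of_nhds, hx0]
  · have h2 : HasDerivAt (fun t : ℂ => psi (R * t)) (deriv psi 0 * R) 0 := by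
      have h3 : HasDerivAt psi (deriv psi 0) ((R : ℂ) * 0) := by
        rw [mul_zero]
        exact (hA.diff.differentiableAt (isOpen_ball.mem_nhds (mem_ball_self hR))).hasDerivAt
      have h4 : HasDerivAt (fun t : ℂ => (R : ℂ) * t) (R : ℂ) 0 := by
        simpa using (hasDerivAt_id (0 : ℂ)).const_mul (R : ℂ)
      exact h3.comp (0 : ℂ) h4
    rw [h2.deriv, hA.germ.deriv_eq]
    exact mul_ne_zero hd hRC
  · intro t ht
    rw [hA.fe _ (by simpa using hsc t 1 ht), hcm]
  · intro t ht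
    exact hA.hp _ (by simpa using hsc t 1 ht)
  · intro t ht
    exact hA.hq _ (by simpa using hsc t lam ht)
  · refine ⟨t₀ / R, ?_, ?_⟩
    · rw [norm_div, ht₀, Complex.norm_real, Real.norm_eq_abs, abs_of_pos hR]
      field_simp
    · simp only [hcm]
      have : (R : ℂ) * (t₀ / R) = t₀ := by field_simp
      rw [this]
      exact halt

end Pool.Agent.HZ
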