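import Pool.Agent.H.MP_cd3d06_an.L.Defs

/-! MP_cd3d06_an, module QMon: polynomials without critical points in an annulus are almost monomials -/

open Polynomial Metric Set Filter Topology
open scoped ComplexConjugate

namespace Pool.Agent.HZ

/-- a product over points outside a wide annulus is almost a monomial on a smaller annulus -/
private theorem prod_near (r M M' : ℝ) (hr : 0 < r) (S : Multiset ℂ)
    (hS : ∀ a ∈ S, ‖a‖ ≤ Real.exp (-M') * r ∨ Real.exp M' * r ≤ ‖a‖) :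
    ∃ D : ℂ, D ≠ 0 ∧ ∃ k : ℕ, k ≤ Multiset.card S ∧ ((0 : ℂ) ∈ S → 1 ≤ k) ∧
      ∀ z s : ℂ, Real.exp (-M) * r ≤ ‖z‖ → ‖z‖ ≤ Real.exp M * r → ‖s‖ ≤ ‖z‖ →
        ‖(S.map (fun a => s - a)).prod - D * s ^ k‖
          ≤ ‖D‖ * ‖z‖ ^ k * ((1 + Real.exp (M - M')) ^ (Multiset.card S) - 1) := by
  induction S using Multiset.induction_on with
  | empty => exact ⟨1, one_ne_zero, 0, by simp, by simp, by intros; simp⟩
  | cons a S ih =>
    obtain ⟨D, hD, k, hk, hk0, h⟩ := ih (fun b hb => hS b (Multiset.mem_cons_of_mem hb))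
    obtain ⟨δ, hδ⟩ : ∃ δ : ℝ, δ = Real.exp (M - M') := ⟨_, rfl⟩
    have hδ0 : 0 < δ := by rw [hδ]; exact Real.exp_pos _
    rw [← hδ] at h ⊢
    by_cases ha : ‖a‖ ≤ Real.exp (-M') * r
    · refine ⟨D, hD, k + 1, by simpa using hk, fun _ => by omega, ?_⟩
      intro z s hz1 hz2 hs
      have h1 := h z s hz1 hz2 hs
      have haz : ‖a‖ ≤ δ * ‖z‖ := by
        refine ha.trans ?_
        have : Real.exp (-M') = δ * Real.exp (-M) := by
          rw [hδ, ← Real.exp_add]; congr 1; ring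
        rw [this, mul_assoc]
        gcongr
      rw [Multiset.map_cons, Multiset.prod_cons, Multiset.card_cons]
      obtain ⟨Pi, hPi⟩ : ∃ Pi : ℂ, Pi = (S.map (fun a => s - a)).prod := ⟨_, rfl⟩
      obtain ⟨N, hN⟩ : ∃ N : ℕ, N = Multiset.card S := ⟨_, rfl⟩
      rw [← hPi, ← hN] at h1 ⊢
      have e1 : (s - a) * Pi - D * s ^ (k + 1) = (s - a) * (Pi - D * s ^ k) + (-a) * (D * s ^ k) := by
        ring
      have e2 : ‖s - a‖ ≤ (1 + δ) * ‖z‖ := by
        refine (norm_sub_le _ _).trans ?_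
        linarith
      have hpos : 0 ≤ ‖D‖ * ‖z‖ ^ k * ((1 + δ) ^ N - 1) := (norm_nonneg _).trans h1
      rw [e1]
      calc ‖(s - a) * (Pi - D * s ^ k) + (-a) * (D * s ^ k)‖
          ≤ ‖s - a‖ * ‖Pi - D * s ^ k‖ + ‖a‖ * (‖D‖ * ‖s‖ ^ k) := by
            refine (norm_add_le _ _).trans ?_
            rw [norm_mul, norm_mul, norm_neg, norm_mul, norm_pow]
        _ ≤ ((1 + δ) * ‖z‖) * (‖D‖ * ‖z‖ ^ k * ((1 + δ) ^ N - 1))
            + (δ * ‖z‖) * (‖D‖ * ‖z‖ ^ k) := by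
            gcongr
        _ = ‖D‖ * ‖z‖ ^ (k + 1) * ((1 + δ) ^ (N + 1) - 1) := by ring
    · have hout : Real.exp M' * r ≤ ‖a‖ := (hS a (Multiset.mem_cons_self a S)).resolve_left ha
      have ha0 : a ≠ 0 := by
        rintro rfl
        exact ha (by rw [norm_zero]; positivity)
      refine ⟨(-a) * D, mul_ne_zero (neg_ne_zero.2 ha0) hD, k, by
        rw [Multiset.card_cons]; omega, fun h0 => ?_, ?_⟩
      · rcases Multiset.mem_cons.1 h0 with h0 | h0
        · exact absurd h0.symm ha0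
        · exact hk0 h0
      intro z s hz1 hz2 hs
      have h1 := h z s hz1 hz2 hs
      have haz : ‖z‖ ≤ δ * ‖a‖ := by
        refine hz2.trans ?_
        have : Real.exp M = δ * Real.exp M' := by
          rw [hδ, ← Real.exp_add]; congr 1; ring
        rw [this, mul_assoc]
        gcongr
      rw [Multiset.map_cons, Multiset.prod_cons, Multiset.card_cons]
      obtain ⟨Pi, hPi⟩ : ∃ Pi : ℂ, Pi = (S.map (fun a => s - a)).prod := ⟨_, rfl⟩
      obtain ⟨N, hN⟩ : ∃ N : ℕ, N = Multiset.card S := ⟨_, rfl⟩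
      rw [← hPi, ← hN] at h1 ⊢
      have e1 : (s - a) * Pi - (-a) * D * s ^ k = s * Pi + (-a) * (Pi - D * s ^ k) := by
        ring
      have hPin : ‖Pi‖ ≤ ‖D‖ * ‖z‖ ^ k * (1 + δ) ^ N := by
        have h2 : ‖Pi‖ ≤ ‖Pi - D * s ^ k‖ + ‖D * s ^ k‖ := by
          have := norm_add_le (Pi - D * s ^ k) (D * s ^ k)
          simpa using this
        have h3 : ‖D * s ^ k‖ ≤ ‖D‖ * ‖z‖ ^ k := by
          rw [norm_mul, norm_pow]; gcongr
        nlinarith
      rw [e1]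
      calc ‖s * Pi + (-a) * (Pi - D * s ^ k)‖
          ≤ ‖s‖ * ‖Pi‖ + ‖a‖ * ‖Pi - D * s ^ k‖ := by
            refine (norm_add_le _ _).trans ?_
            rw [norm_mul, norm_mul, norm_neg]
        _ ≤ (δ * ‖a‖) * (‖D‖ * ‖z‖ ^ k * (1 + δ) ^ N)
            + ‖a‖ * (‖D‖ * ‖z‖ ^ k * ((1 + δ) ^ N - 1)) := by
            gcongr
            exact hs.trans haz
        _ = ‖(-a) * D‖ * ‖z‖ ^ k * ((1 + δ) ^ (N + 1) - 1) := by
            rw [norm_mul, norm_neg]; ring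

private theorem exists_delta (m : ℕ) (M ε : ℝ) (hε : 0 < ε) : ∃ M' : ℝ, M ≤ M' ∧ 0 ≤ M' ∧
    m * ((1 + Real.exp (M - M')) ^ m - 1) ≤ ε := by
  have h1 : Tendsto (fun M' : ℝ => (m : ℝ) * ((1 + Real.exp (M - M')) ^ m - 1)) atTop (𝓝 0) := by
    have h2 : Tendsto (fun M' : ℝ => Real.exp (M - M')) atTop (𝓝 0) := by
      refine Real.tendsto_exp_atBot.comp ?_
      exact tendsto_const_nhds.add_atBot tendsto_neg_atTop_atBot
    have h3 := ((tendsto_const_nhds (x := (1 : ℝ))).add h2).pow m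
    have h4 := (h3.sub (tendsto_const_nhds (x := (1 : ℝ)))).const_mul (m : ℝ)
    simpa using h4
  obtain ⟨M', h2, h3, h4⟩ := ((h1.eventually (ge_mem_nhds hε)).and
    ((eventually_ge_atTop M).and (eventually_ge_atTop 0))).exists
  exact ⟨M', h3, h4, h2⟩

theorem q_mon (m : ℕ) (M ε : ℝ) (hε : 0 < ε) : ∃ M' : ℝ, M ≤ M' ∧ ∀ Q : ℂ[X], Q.natDegree = m →
    Q.eval 0 = 0 → (derivative Q).eval 0 = 0 → ∀ r : ℝ, 0 < r →
      (∀ z : ℂ, Real.exp (-M') * r ≤ ‖z‖ → ‖z‖ ≤ Real.exp M' * r → (derivative Q).eval z ≠ 0) →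
      ∃ k : ℕ, 2 ≤ k ∧ k ≤ m ∧ MonAnn Q r M ε k := by
  obtain ⟨M', hM', hM'0, hM'ε⟩ := exists_delta m M ε hε
  refine ⟨M', hM', ?_⟩
  intro Q hQm hQ0 hQ'0 r hr hann
  have hne : derivative Q ≠ 0 := by
    intro h0
    refine hann (r : ℂ) ?_ ?_ (by rw [h0, eval_zero])
    · rw [Complex.norm_real, Real.norm_eq_abs, abs_of_pos hr]
      have : Real.exp (-M') ≤ 1 := Real.exp_le_one_iff.2 (by linarith)
      nlinarith
    · rw [Complex.norm_real, Real.norm_eq_abs, abs_of_pos hr]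
      have : 1 ≤ Real.exp M' := Real.one_le_exp hM'0
      nlinarith
  have hsplit : (derivative Q).Splits := IsAlgClosed.splits _
  have hprod := hsplit.eq_prod_roots
  obtain ⟨b, hb⟩ : ∃ b : ℂ, b = (derivative Q).leadingCoeff := ⟨_, rfl⟩
  have hb0 : b ≠ 0 := by rw [hb]; exact leadingCoeff_ne_zero.2 hne
  have heval : ∀ s : ℂ, (derivative Q).eval s
      = b * ((derivative Q).roots.map (fun a => s - a)).prod := by
    intro s
    conv_lhs => rw [hprod]
    rw [eval_mul, eval_C, eval_multiset_prod, Multiset.map_map, ← hb]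
    simp
  have hcard : Multiset.card (derivative Q).roots + 1 ≤ m ∧ (0 : ℂ) ∈ (derivative Q).roots := by
    have h0mem : (0 : ℂ) ∈ (derivative Q).roots := (mem_roots hne).2 hQ'0
    refine ⟨?_, h0mem⟩
    have h1 : Multiset.card (derivative Q).roots ≤ (derivative Q).natDegree := card_roots' _
    have h2 := natDegree_derivative_le Q
    have h3 : 0 < Multiset.card (derivative Q).roots := Multiset.card_pos_iff_exists_mem.2 ⟨0, h0mem⟩
    omega
  obtain ⟨D, hD, κ, hκ, hκ0, h⟩ := prod_near r M M' hr (derivative Q).roots (by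
    intro a ha
    by_contra hcon
    push Not at hcon
    exact hann a hcon.1.le hcon.2.le ((mem_roots hne).1 ha))
  have hκ1 : 1 ≤ κ := hκ0 hcard.2
  refine ⟨κ + 1, by omega, by omega, b * D / (κ + 1 : ℕ), ?_, ?_⟩
  · exact div_ne_zero (mul_ne_zero hb0 hD) (by exact_mod_cast Nat.succ_ne_zero κ)
  intro z hz1 hz2
  obtain ⟨N, hN⟩ : ∃ N : ℕ, N = Multiset.card (derivative Q).roots := ⟨_, rfl⟩
  obtain ⟨δ, hδ⟩ : ∃ δ : ℝ, δ = Real.exp (M - M') := ⟨_, rfl⟩
  have hδ0 : 0 < δ := by rw [hδ]; exact Real.exp_pos _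
  rw [← hδ] at hM'ε h
  rw [← hN] at h hκ hcard
  have hκ' : ((κ + 1 : ℕ) : ℂ) ≠ 0 := by exact_mod_cast Nat.succ_ne_zero κ
  have hmv := (convex_closedBall (0 : ℂ) ‖z‖).norm_image_sub_le_of_norm_hasDerivWithin_le
    (f := fun s => Q.eval s - b * D / (κ + 1 : ℕ) * s ^ (κ + 1))
    (f' := fun s => (derivative Q).eval s - b * D * s ^ κ)
    (C := ‖b * D‖ * ‖z‖ ^ κ * ((1 + δ) ^ N - 1)) (x := 0) (y := z) (by
      intro s hs
      refine HasDerivAt.hasDerivWithinAt ?_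
      have h1 := (Q.hasDerivAt s).sub ((hasDerivAt_pow (κ + 1) s).const_mul (b * D / (κ + 1 : ℕ)))
      refine h1.congr_deriv ?_
      simp only [Nat.add_sub_cancel]
      field_simp) (by
      intro s hs
      rw [mem_closedBall_zero_iff] at hs
      rw [heval s, show b * ((derivative Q).roots.map (fun a => s - a)).prod - b * D * s ^ κ
        = b * (((derivative Q).roots.map (fun a => s - a)).prod - D * s ^ κ) by ring, norm_mul,
        norm_mul, mul_assoc, mul_assoc]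
      refine mul_le_mul_of_nonneg_left ?_ (norm_nonneg _)
      rw [← mul_assoc]
      exact h z s hz1 hz2 hs) (by simp) (by simp)
  simp only [hQ0, zero_pow (Nat.succ_ne_zero κ), mul_zero, sub_zero] at hmv
  refine hmv.trans ?_
  have hz0 : 0 ≤ ‖z‖ := norm_nonneg z
  have h3 : ‖b * D / (κ + 1 : ℕ) * z ^ (κ + 1)‖ = ‖b * D‖ / (κ + 1) * ‖z‖ ^ (κ + 1) := by
    rw [norm_mul, norm_div, norm_pow, Complex.norm_natCast]; push_cast; ring
  rw [h3]
  have h4 : ((κ : ℝ) + 1) * ((1 + δ) ^ N - 1) ≤ ε := by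
    have h5 : ((κ : ℝ) + 1) ≤ m := by
      have : κ + 1 ≤ m := by omega
      exact_mod_cast this
    have h6 : (1 + δ) ^ N ≤ (1 + δ) ^ m := pow_le_pow_right₀ (by linarith) (by omega)
    have h7 : (1 : ℝ) ≤ (1 + δ) ^ N := one_le_pow₀ (by linarith)
    calc ((κ : ℝ) + 1) * ((1 + δ) ^ N - 1) ≤ m * ((1 + δ) ^ m - 1) := by
          apply mul_le_mul h5 (by linarith) (by linarith) (by positivity)
      _ ≤ ε := hM'ε
  calc ‖b * D‖ * ‖z‖ ^ κ * ((1 + δ) ^ N - 1) * ‖z‖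
      = (((κ : ℝ) + 1) * ((1 + δ) ^ N - 1)) * (‖b * D‖ / (κ + 1) * ‖z‖ ^ (κ + 1)) := by
        field_simp
        ring
    _ ≤ ε * (‖b * D‖ / (κ + 1) * ‖z‖ ^ (κ + 1)) := by gcongr

end Pool.Agent.HZ
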