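import Pool.Agent.H.MP_cd3d06_an.L.ExcFacts
import Pool.Agent.H.MP_cd3d06_an.L.QMon

/-! MP_cd3d06_an, module PMon: exceptional points: both polynomials are almost monomials -/

open Polynomial Metric Set Filter Topology
open scoped ComplexConjugate

namespace Pool.Agent.HZ

private theorem exp_mul_near {w e : ℂ} {a b : ℝ} (hw : ‖w‖ ≤ a) (ha : a ≤ 1) (he : ‖e‖ ≤ b) :
    ‖Complex.exp w * (1 + e) - 1‖ ≤ 2 * a + b + 2 * a * b := by
  have h1 : ‖Complex.exp w - 1‖ ≤ 2 * a :=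
    (Complex.norm_exp_sub_one_le (hw.trans ha)).trans (by linarith)
  have h2 : Complex.exp w * (1 + e) - 1
      = (Complex.exp w - 1) + e + (Complex.exp w - 1) * e := by ring
  rw [h2]
  have h3 : ‖(Complex.exp w - 1) * e‖ ≤ 2 * a * b := by
    rw [norm_mul]
    exact mul_le_mul h1 he (norm_nonneg _) ((norm_nonneg _).trans h1)
  have h4 := norm_add_le ((Complex.exp w - 1) + e) ((Complex.exp w - 1) * e)
  have h5 := norm_add_le (Complex.exp w - 1) e
  linarith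

private theorem near_int {β : ℂ} {u : ℝ} (hu : u ≤ 1 / 2)
    (h : ‖Complex.exp (2 * Real.pi * Complex.I * β) - 1‖ ≤ u) :
    ∃ j : ℤ, ‖β - j‖ ≤ u / 4 := by
  obtain ⟨s, hs⟩ : ∃ s : ℂ, s = Complex.exp (2 * Real.pi * Complex.I * β) - 1 := ⟨_, rfl⟩
  rw [← hs] at h
  have hs1 : 1 + s = Complex.exp (2 * Real.pi * Complex.I * β) := by rw [hs]; ring
  have h1 : Complex.exp (Complex.log (1 + s)) = Complex.exp (2 * Real.pi * Complex.I * β) := by
    rw [Complex.exp_log]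
    · exact hs1
    · rw [hs1]; exact Complex.exp_ne_zero _
  obtain ⟨n, hn⟩ := Complex.exp_eq_exp_iff_exists_int.1 h1
  refine ⟨-n, ?_⟩
  have h2 : 2 * Real.pi * Complex.I * (β - ((-n : ℤ) : ℂ)) = Complex.log (1 + s) := by
    rw [hn]; push_cast; ring
  have h3 : ‖Complex.log (1 + s)‖ ≤ 3 / 2 * ‖s‖ :=
    Complex.norm_log_one_add_half_le_self (h.trans hu)
  have h4 : 2 * Real.pi * ‖β - ((-n : ℤ) : ℂ)‖ = ‖Complex.log (1 + s)‖ := by
    rw [← h2, norm_mul, norm_mul, norm_mul, Complex.norm_I, Complex.norm_real, Real.norm_eq_abs,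
      abs_of_pos Real.pi_pos]
    simp
  have := Real.pi_gt_three
  nlinarith [norm_nonneg (β - ((-n : ℤ) : ℂ))]

/-- points of an annulus are `y exp ζ` -/
private theorem exists_log_annulus {y z : ℂ} {M : ℝ} (hy : y ≠ 0)
    (h1 : Real.exp (-M) * ‖y‖ ≤ ‖z‖) (h2 : ‖z‖ ≤ Real.exp M * ‖y‖) :
    ∃ ζ : ℂ, z = y * Complex.exp ζ ∧ ‖ζ‖ < M + 4 ∧ ‖z‖ = ‖y‖ * Real.exp ζ.re := by
  have hy0 : 0 < ‖y‖ := norm_pos_iff.2 hy
  have hz0 : 0 < ‖z‖ := lt_of_lt_of_le (by positivity) h1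
  have hz : z ≠ 0 := norm_pos_iff.1 hz0
  have hzy : z / y ≠ 0 := div_ne_zero hz hy
  refine ⟨Complex.log (z / y), ?_, ?_, ?_⟩
  · rw [Complex.exp_log hzy]; field_simp
  · have h3 : (Complex.log (z / y)).re = Real.log (‖z‖ / ‖y‖) := by
      rw [Complex.log_re, norm_div]
    have h4 : |(Complex.log (z / y)).re| ≤ M := by
      rw [h3, abs_le]
      constructor
      · rw [Real.le_log_iff_exp_le (by positivity), le_div_iff₀ hy0]; exact h1
      · rw [Real.log_le_iff_le_exp (by positivity), div_le_iff₀ hy0]; exact h2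
    have h5 : |(Complex.log (z / y)).im| ≤ Real.pi := by
      rw [Complex.log_im]; exact Complex.abs_arg_le_pi _
    have h6 := Complex.norm_le_abs_re_add_abs_im (Complex.log (z / y))
    have := Real.pi_lt_four
    linarith
  · rw [Complex.log_re, Real.exp_log (by rw [norm_div]; positivity), norm_div]
    field_simp

private theorem core {P : ℂ[X]} {y u β : ℂ} {M₃ e₃ e₄ M : ℝ} {k : ℕ} (hy : y ≠ 0) (hu : u ≠ 0)
    (hM3 : 10 ≤ M₃) (hM : M + 4 ≤ M₃) (he30 : 0 < e₃) (he4 : e₃ * (1 + 4 * M₃) ≤ e₄)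
    (he4' : e₄ ≤ 1 / 4) (hβ1 : ‖β‖ + e₃ < k) (hβ0 : e₃ < ‖β‖)
    (h : ∀ ζ : ℂ, ‖ζ‖ < M₃ → ‖P.eval (y * Complex.exp ζ) - u * Complex.exp (β * ζ)‖
      ≤ e₃ * ‖u * Complex.exp (β * ζ)‖) :
    ∃ j : ℕ, 1 ≤ j ∧ j < k ∧ MonAnn P ‖y‖ M e₄ j := by
  have hy0 : 0 < ‖y‖ := norm_pos_iff.2 hy
  have hu0 : 0 < ‖u‖ := norm_pos_iff.2 hu
  have he3 : e₃ ≤ 1 / 100 := by nlinarith
  have he3M : e₃ * M₃ ≤ 1 := by nlinarith
  have h0 : ‖P.eval y - u‖ ≤ e₃ * ‖u‖ := by
    have := h 0 (by simp; linarith)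
    simpa using this
  obtain ⟨j, hj⟩ : ∃ j : ℤ, ‖β - j‖ ≤ e₃ := by
    have h1 := h (2 * Real.pi * Complex.I) (by
      rw [norm_mul, norm_mul, Complex.norm_I, Complex.norm_real, Real.norm_eq_abs,
        abs_of_pos Real.pi_pos]
      have := Real.pi_lt_four
      simp
      linarith)
    rw [Complex.exp_two_pi_mul_I, mul_one, mul_comm β] at h1
    obtain ⟨E, hE⟩ : ∃ E : ℂ, E = Complex.exp (2 * Real.pi * Complex.I * β) := ⟨_, rfl⟩
    rw [← hE, norm_mul] at h1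
    have h2 : ‖u‖ * ‖E - 1‖ ≤ e₃ * ‖u‖ + e₃ * (‖u‖ * ‖E‖) := by
      rw [← norm_mul]
      have h3 : u * (E - 1) = (P.eval y - u) - (P.eval y - u * E) := by ring
      rw [h3]
      exact (norm_sub_le _ _).trans (add_le_add h0 h1)
    have h3 : ‖E - 1‖ ≤ e₃ + e₃ * ‖E‖ := by
      have : ‖u‖ * ‖E - 1‖ ≤ ‖u‖ * (e₃ + e₃ * ‖E‖) := by linarith
      exact le_of_mul_le_mul_left this hu0
    have h4 : ‖E‖ ≤ 1 + ‖E - 1‖ := by
      have := norm_add_le (1 : ℂ) (E - 1)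
      simpa using this
    have h5 : ‖E - 1‖ ≤ 3 * e₃ := by
      nlinarith [norm_nonneg (E - 1), norm_nonneg E]
    rw [hE] at h5
    obtain ⟨j, hj⟩ := near_int (u := 3 * e₃) (by linarith) h5
    exact ⟨j, by linarith⟩
  have hC : ∀ ζ : ℂ, ‖ζ‖ < M₃ → ‖P.eval (y * Complex.exp ζ) - u * Complex.exp (j * ζ)‖
      ≤ e₄ * ‖u * Complex.exp (j * ζ)‖ := by
    intro ζ hζ
    have h1 := h ζ hζ
    have hne : u * Complex.exp (β * ζ) ≠ 0 := mul_ne_zero hu (Complex.exp_ne_zero _)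
    obtain ⟨e, he⟩ : ∃ e : ℂ, e = (P.eval (y * Complex.exp ζ) - u * Complex.exp (β * ζ))
      / (u * Complex.exp (β * ζ)) := ⟨_, rfl⟩
    have he' : P.eval (y * Complex.exp ζ) = u * Complex.exp (β * ζ) * (1 + e) := by
      rw [he]; field_simp; ring
    have hen : ‖e‖ ≤ e₃ := by
      rw [he, norm_div, div_le_iff₀ (norm_pos_iff.2 hne)]; exact h1
    have h2 : P.eval (y * Complex.exp ζ) - u * Complex.exp (j * ζ)
        = u * Complex.exp (j * ζ) * (Complex.exp ((β - j) * ζ) * (1 + e) - 1) := by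
      rw [he', show β * ζ = j * ζ + (β - j) * ζ by ring, Complex.exp_add]; ring
    rw [h2, norm_mul, mul_comm e₄]
    refine mul_le_mul_of_nonneg_left ?_ (norm_nonneg _)
    have h3 : ‖(β - j) * ζ‖ ≤ e₃ * M₃ := by
      rw [norm_mul]
      exact mul_le_mul hj hζ.le (norm_nonneg _) he30.le
    refine (exp_mul_near h3 he3M hen).trans ?_
    nlinarith
  have hjk : (j : ℝ) < k := by
    have h1 : ‖(j : ℂ)‖ ≤ ‖β‖ + e₃ := by
      have : (j : ℂ) = β - (β - j) := by ring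
      rw [this]
      refine (norm_sub_le _ _).trans ?_
      linarith
    rw [Complex.norm_intCast] at h1
    exact lt_of_le_of_lt (le_abs_self _) (lt_of_le_of_lt h1 hβ1)
  have hj0 : j ≠ 0 := by
    rintro rfl
    simp at hj
    linarith
  have hjpos : 0 < j := by
    by_contra hcon
    have hj1 : j ≤ -1 := by omega
    have hj1' : (j : ℝ) ≤ -1 := by exact_mod_cast hj1
    have hb : ‖P.eval y‖ ≤ (1 + e₄) * (‖u‖ * Real.exp (-2)) := by
      refine Complex.norm_le_of_forall_mem_frontier_norm_le (f := fun z => P.eval z)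
        (U := ball (0 : ℂ) (‖y‖ * Real.exp 2)) isBounded_ball
        (P.differentiable.diffContOnCl) ?_ ?_
      · intro z hz
        rw [frontier_ball (0 : ℂ) (by positivity), mem_sphere_zero_iff_norm] at hz
        obtain ⟨ζ, hζ, hζn, hζr⟩ := exists_log_annulus (z := z) (M := 2) hy
          (by rw [hz, mul_comm]; gcongr; norm_num) (by rw [hz, mul_comm])
        have hre : ζ.re = 2 := by
          rw [hz] at hζr
          have := mul_left_cancel₀ hy0.ne' hζr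
          exact (Real.exp_injective this).symm
        have h1 := hC ζ (by linarith)
        rw [← hζ] at h1
        have h2 : ‖u * Complex.exp (j * ζ)‖ ≤ ‖u‖ * Real.exp (-2) := by
          rw [norm_mul, Complex.norm_exp]
          gcongr
          have : ((j : ℂ) * ζ).re = j * ζ.re := by simp
          rw [this, hre]; linarith
        have h3 : ‖P.eval z‖ ≤ ‖P.eval z - u * Complex.exp (j * ζ)‖ + ‖u * Complex.exp (j * ζ)‖ := by
          have := norm_add_le (P.eval z - u * Complex.exp (j * ζ)) (u * Complex.exp (j * ζ))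
          simpa using this
        have he40 : 0 ≤ e₄ := by nlinarith
        calc ‖P.eval z‖ ≤ (1 + e₄) * ‖u * Complex.exp (j * ζ)‖ := by linarith
          _ ≤ _ := by gcongr
      · rw [closure_ball (0 : ℂ) (by positivity), mem_closedBall_zero_iff]
        have : 1 ≤ Real.exp 2 := Real.one_le_exp (by norm_num)
        nlinarith
    have hlow : (1 - e₃) * ‖u‖ ≤ ‖P.eval y‖ := by
      have := norm_sub_norm_le u (P.eval y)
      rw [norm_sub_rev] at this
      linarith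
    have hexp : Real.exp (-2) ≤ 1 / 4 := by
      rw [Real.exp_neg, inv_le_comm₀ (Real.exp_pos _) (by norm_num)]
      have := Real.add_one_le_exp (1 : ℝ)
      have h2 : Real.exp 2 = Real.exp 1 * Real.exp 1 := by rw [← Real.exp_add]; norm_num
      rw [h2]; norm_num; nlinarith
    nlinarith [mul_pos hu0 (Real.exp_pos (-2))]
  lift j to ℕ using hjpos.le
  refine ⟨j, by exact_mod_cast hjpos, by exact_mod_cast hjk, u / y ^ j,
    div_ne_zero hu (pow_ne_zero _ hy), ?_⟩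
  intro z hz1 hz2
  obtain ⟨ζ, hζ, hζn, -⟩ := exists_log_annulus hy hz1 hz2
  have h1 := hC ζ (by linarith)
  have h2 : u / y ^ j * z ^ j = u * Complex.exp ((j : ℤ) * ζ) := by
    rw [hζ, mul_pow, ← Complex.exp_nat_mul]
    field_simp
    push_cast
    ring_nf
  rw [h2, hζ]
  exact h1

theorem p_mon (m : ℕ) (lam₀ lam₁ M ε : ℝ) (h0 : 0 < lam₀) (h1 : lam₁ < 1) (hε : 0 < ε) :
    ∃ M' ε' : ℝ, 20 ≤ M' ∧ 0 < ε' ∧ ε' ≤ 1 / 100 ∧ ∀ (p q : ℂ[X]) (x : ℂ), q.natDegree = m →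
      ∀ X : Lin p q x, lam₀ ≤ X.lam → X.lam ≤ lam₁ → ∀ c : ℂ, (derivative q).eval c = 0 →
        X.Exc c M' ε' → ∃ j k : ℕ, 1 ≤ j ∧ j < k ∧ k ≤ m ∧
          MonAnn (trP p q c) ‖x - c‖ M ε j ∧ MonAnn (trQ q c) ‖x - c‖ M ε k := by
  obtain ⟨M₃, hM₃⟩ : ∃ M₃ : ℝ, M₃ = max M 2 + 8 := ⟨_, rfl⟩
  have hM3a : 10 ≤ M₃ := by rw [hM₃]; linarith [le_max_right M 2]
  have hM3b : M + 4 ≤ M₃ := by rw [hM₃]; linarith [le_max_left M 2]
  obtain ⟨M₂, hM₂⟩ : ∃ M₂ : ℝ, M₂ = 4 / 3 * M₃ := ⟨_, rfl⟩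
  have hM2a : 10 ≤ M₂ := by linarith
  obtain ⟨e₄, he₄⟩ : ∃ e₄ : ℝ, e₄ = min ε (1 / 4) := ⟨_, rfl⟩
  have he40 : 0 < e₄ := by rw [he₄]; positivity
  have he4a : e₄ ≤ ε := he₄ ▸ min_le_left _ _
  have he4b : e₄ ≤ 1 / 4 := he₄ ▸ min_le_right _ _
  obtain ⟨e₃, he₃⟩ : ∃ e₃ : ℝ, e₃ = min (e₄ / (1 + 4 * M₃)) (min ((1 - lam₁) / 2) lam₀) := ⟨_, rfl⟩
  have he30 : 0 < e₃ := by
    rw [he₃]
    refine lt_min (by positivity) (lt_min (by linarith) h0)
  have he3a : e₃ * (1 + 4 * M₃) ≤ e₄ := by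
    have : e₃ ≤ e₄ / (1 + 4 * M₃) := he₃ ▸ min_le_left _ _
    rwa [le_div_iff₀ (by positivity)] at this
  have he3b : e₃ ≤ (1 - lam₁) / 2 := he₃ ▸ (min_le_right _ _).trans (min_le_left _ _)
  have he3c : e₃ ≤ lam₀ := he₃ ▸ (min_le_right _ _).trans (min_le_right _ _)
  have he3d : e₃ ≤ 1 / 100 := by nlinarith
  obtain ⟨e₂, he₂⟩ : ∃ e₂ : ℝ, e₂ = e₃ / 4 := ⟨_, rfl⟩
  have he20 : 0 < e₂ := by rw [he₂]; positivity
  obtain ⟨M'', hM''1, hM''2⟩ := q_mon m (2 * M₂) e₂ he20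
  obtain ⟨ε', hε'⟩ : ∃ ε' : ℝ, ε' = min (e₃ / (16 * (m + 1) * M₂)) (1 / 100) := ⟨_, rfl⟩
  have hε'0 : 0 < ε' := by rw [hε']; positivity
  have hε'1 : ε' ≤ 1 / 100 := hε' ▸ min_le_right _ _
  have hε'2 : 2 * (m * (ε' * M₂)) ≤ e₃ / 8 := by
    have h2 : ε' ≤ e₃ / (16 * (m + 1) * M₂) := hε' ▸ min_le_left _ _
    rw [le_div_iff₀ (by positivity)] at h2
    have h3 : 0 ≤ ε' * M₂ := by positivity
    nlinarith
  refine ⟨8 * M'' + 20, ε', by nlinarith, hε'0, hε'1, ?_⟩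
  intro p q x hq X hl0 hl1 c hc hX
  have hy : x - c ≠ 0 := by
    refine sub_ne_zero.2 fun hxc => ?_
    refine X.hq 0 (mem_ball_self X.lam_pos) ?_
    rw [X.zero, hxc, hc]
  have hy0 : 0 < ‖x - c‖ := norm_pos_iff.2 hy
  -- the polynomial `Q`
  have hQdeg : (trQ q c).natDegree = m := by
    have h2 : (trQ q c) = (q.comp (Polynomial.X + C c)) - C (q.eval c) := rfl
    rw [h2, natDegree_sub_C, natDegree_comp]
    simp [hq]
  have hQ0 : (trQ q c).eval 0 = 0 := by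
    simp [trQ, eval_comp]
  have hQ' : ∀ z : ℂ, (derivative (trQ q c)).eval z = (derivative q).eval (z + c) := by
    intro z
    simp [trQ, derivative_comp, eval_comp]
  obtain ⟨k, hk2, hkm, hkQ⟩ := hM''2 (trQ q c) hQdeg hQ0 (by rw [hQ', zero_add, hc]) ‖x - c‖ hy0 (by
    intro z hz1 hz2
    rw [hQ']
    refine hX.no_crit (by nlinarith) (by linarith) ?_ ?_ hc
    · rw [add_sub_cancel_right]
      refine le_trans ?_ hz1
      gcongr
      linarith
    · rw [add_sub_cancel_right]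
      refine hz2.trans ?_
      gcongr
      linarith)
  have hkQ' := hkQ
  obtain ⟨a, ha, haQ⟩ := hkQ
  obtain ⟨A, hA, hMA, L, hLd, hL0, hL⟩ := hX
  have hA0 : 0 < ‖A‖ := norm_pos_iff.2 hA
  have hlam := X.lam_pos
  have hlam1 := X.lam_lt
  have htl : ∀ t : ℂ, ‖A * t‖ ≤ 8 * M'' + 20 → ‖t‖ < X.lam := by
    intro t ht
    rw [norm_mul] at ht
    have : ‖A‖ * ‖t‖ < ‖A‖ * X.lam := lt_of_le_of_lt ht hMA
    exact lt_of_mul_lt_mul_left this hA0.le
  have hLdiff : ∀ t : ℂ, ‖A * t‖ ≤ 8 * M'' + 20 → DifferentiableAt ℂ L t := by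
    intro t ht
    exact hLd.differentiableAt (isOpen_ball.mem_nhds (mem_ball_zero_iff.2 (htl t ht)))
  obtain ⟨β, hβ⟩ : ∃ β : ℂ, β = k * X.lam * conj A / A := ⟨_, rfl⟩
  have hβn : ‖β‖ = k * X.lam := by
    rw [hβ, norm_div, norm_mul, norm_mul, Complex.norm_natCast, Complex.norm_real,
      Real.norm_eq_abs, abs_of_pos hlam, RCLike.norm_conj]
    field_simp
  have hk2' : (2 : ℝ) ≤ k := by exact_mod_cast hk2
  have hkm' : (k : ℝ) ≤ m := by exact_mod_cast hkm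
  obtain ⟨u, hu⟩ : ∃ u : ℂ, u = - conj (a * (x - c) ^ k) := ⟨_, rfl⟩
  have hu0 : u ≠ 0 := by
    rw [hu, neg_ne_zero, Ne, map_eq_zero]
    exact mul_ne_zero ha (pow_ne_zero _ hy)
  obtain ⟨j, hj1, hjk, hjP⟩ := core (P := trP p q c) (β := β) (k := k) (M := M) hy hu0 hM3a hM3b he30
    he3a he4b (by rw [hβn]; nlinarith) (by rw [hβn]; nlinarith) (by
      intro ζ hζ
      obtain ⟨t, ht1, ht2⟩ := surj_near_linear (M := 8 * M'' + 20) (ε := ε') hA (by linarith) hLdiff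
        (fun t ht => (hL t ht).2) (w := ζ) (by linarith)
      have ht3 : ‖A * t‖ ≤ M₂ := by linarith
      have ht4 : ‖A * t‖ ≤ 8 * M'' + 20 := by linarith
      obtain ⟨s, hs⟩ : ∃ s : ℂ, s = X.lam * conj t := ⟨_, rfl⟩
      have hs1 : ‖A * s‖ ≤ M₂ := by
        rw [hs, norm_mul, norm_mul, Complex.norm_real, Real.norm_eq_abs, abs_of_pos hlam,
          RCLike.norm_conj]
        rw [norm_mul] at ht3
        nlinarith [mul_nonneg (norm_nonneg A) (norm_nonneg t)]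
      have hs2 : ‖A * s‖ ≤ 8 * M'' + 20 := by linarith
      have ht5 : t ∈ ball (0 : ℂ) 1 := mem_ball_zero_iff.2 ((htl t ht4).trans hlam1)
      have hfe := X.fe t ht5
      rw [← hs, (hL t ht4).1, (hL s hs2).1, ht2] at hfe
      have hPQ : (trP p q c).eval ((x - c) * Complex.exp ζ)
          = - conj ((trQ q c).eval ((x - c) * Complex.exp (L s))) := by
        simp only [trP, trQ, eval_add, eval_sub, eval_comp, eval_X, eval_C, map_sub]
        rw [add_comm ((x - c) * Complex.exp ζ), hfe, add_comm ((x - c) * Complex.exp (L s))]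
        ring
      obtain ⟨δs, hδs⟩ : ∃ δs : ℂ, δs = L s - A * s := ⟨_, rfl⟩
      obtain ⟨δt, hδt⟩ : ∃ δt : ℂ, δt = L t - A * t := ⟨_, rfl⟩
      have hδs1 : ‖δs‖ ≤ ε' * M₂ := by
        rw [hδs]; exact ((hL s hs2).2).trans (by gcongr)
      have hδt1 : ‖δt‖ ≤ ε' * M₂ := by
        rw [hδt]; exact ((hL t ht4).2).trans (by gcongr)
      have hLs : ‖L s‖ ≤ 2 * M₂ := by
        have h2 : L s = A * s + δs := by rw [hδs]; ring
        rw [h2]
        refine (norm_add_le _ _).trans ?_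
        nlinarith
      have hnz : ‖(x - c) * Complex.exp (L s)‖ = Real.exp (L s).re * ‖x - c‖ := by
        rw [norm_mul, Complex.norm_exp, mul_comm]
      have hre := abs_le.1 ((Complex.abs_re_le_norm (L s)).trans hLs)
      have hQs := haQ ((x - c) * Complex.exp (L s)) (by
        rw [hnz]; gcongr; linarith [hre.1]) (by rw [hnz]; gcongr; linarith [hre.2])
      -- rewrite
      obtain ⟨w, hw⟩ : ∃ w : ℂ, w = k * conj δs - β * δt := ⟨_, rfl⟩
      have hexp : - conj (a * ((x - c) * Complex.exp (L s)) ^ k)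
          = u * Complex.exp (β * ζ) * Complex.exp w := by
        rw [mul_assoc, ← Complex.exp_add, hu, mul_pow, ← Complex.exp_nat_mul, ← mul_assoc, map_mul,
          ← Complex.exp_conj, ← neg_mul]
        congr 2
        rw [hw, map_mul, ← ht2, show L s = A * s + δs by rw [hδs]; ring,
          show L t = A * t + δt by rw [hδt]; ring, hs, hβ]
        simp only [map_add, map_mul, Complex.conj_conj, Complex.conj_ofReal, map_natCast]
        field_simp
        ring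
      have hwn : ‖w‖ ≤ e₃ / 8 := by
        rw [hw]
        refine (norm_sub_le _ _).trans ?_
        rw [norm_mul, norm_mul, RCLike.norm_conj, Complex.norm_natCast, hβn]
        have h3 : (k : ℝ) * ‖δs‖ ≤ m * (ε' * M₂) := by gcongr
        have h4 : (k : ℝ) * X.lam * ‖δt‖ ≤ m * (ε' * M₂) := by
          have : (k : ℝ) * X.lam ≤ m := by nlinarith
          gcongr
        linarith
      have hne : a * ((x - c) * Complex.exp (L s)) ^ k ≠ 0 :=
        mul_ne_zero ha (pow_ne_zero _ (mul_ne_zero hy (Complex.exp_ne_zero _)))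
      obtain ⟨e, he⟩ : ∃ e : ℂ, e = ((trQ q c).eval ((x - c) * Complex.exp (L s))
        - a * ((x - c) * Complex.exp (L s)) ^ k) / (a * ((x - c) * Complex.exp (L s)) ^ k) :=
        ⟨_, rfl⟩
      have hen : ‖e‖ ≤ e₂ := by
        rw [he, norm_div, div_le_iff₀ (norm_pos_iff.2 hne)]; exact hQs
      have hQe : (trQ q c).eval ((x - c) * Complex.exp (L s))
          = a * ((x - c) * Complex.exp (L s)) ^ k * (1 + e) := by
        rw [he]; field_simp; ring
      rw [hPQ, hQe, map_mul, ← neg_mul, hexp]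
      have h5 : u * Complex.exp (β * ζ) * Complex.exp w * conj (1 + e) - u * Complex.exp (β * ζ)
          = u * Complex.exp (β * ζ) * (Complex.exp w * (1 + conj e) - 1) := by
        rw [map_add, map_one]; ring
      rw [h5, norm_mul, mul_comm e₃]
      refine mul_le_mul_of_nonneg_left ?_ (norm_nonneg _)
      refine (exp_mul_near hwn (by linarith) (e := conj e) (b := e₂)
        (by rw [RCLike.norm_conj]; exact hen)).trans ?_
      rw [he₂]
      nlinarith)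
  refine ⟨j, k, hj1, hjk, hkm, ?_, ?_⟩
  · obtain ⟨b, hb, hbP⟩ := hjP
    refine ⟨b, hb, fun z hz1 hz2 => (hbP z hz1 hz2).trans ?_⟩
    gcongr
  · refine ⟨a, ha, fun z hz1 hz2 => (haQ z ?_ ?_).trans ?_⟩
    · refine le_trans ?_ hz1
      gcongr
      linarith
    · refine hz2.trans ?_
      gcongr
      linarith
    · have : e₂ ≤ ε := by nlinarith
      gcongr

end Pool.Agent.HZ
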