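import Pool.Agent.H.MP_cd3d06_an.L.XScale

/-! MP_cd3d06_an, module XCount: number of exceptional zeros of a given type -/

open Polynomial Metric Set Filter Topology
open scoped ComplexConjugate

namespace Pool.Agent.HZ

theorem xcount_mono {P : ℂ[X]} {r M ε M' ε' : ℝ} {j : ℕ} (hr : 0 ≤ r) (hM : M ≤ M')
    (hε : ε' ≤ ε) (h : MonAnn P r M' ε' j) : MonAnn P r M ε j := by
  obtain ⟨a, ha, h⟩ := h
  refine ⟨a, ha, fun z h1 h2 => ?_⟩
  have h3 : Real.exp (-M') * r ≤ Real.exp (-M) * r :=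
    mul_le_mul_of_nonneg_right (Real.exp_le_exp.2 (by linarith)) hr
  have h4 : Real.exp M * r ≤ Real.exp M' * r :=
    mul_le_mul_of_nonneg_right (Real.exp_le_exp.2 hM) hr
  exact (h z (h3.trans h1) (h2.trans h4)).trans
    (mul_le_mul_of_nonneg_right hε (norm_nonneg _))

theorem xcount_lip {e : ℂ → ℂ} {w : ℂ} {ρ C : ℝ} (hρ : 0 < ρ) (he : Differentiable ℂ e)
    (hb : ∀ z ∈ closedBall w (2 * ρ), ‖e z‖ ≤ C) {z z' : ℂ} (hz : z ∈ closedBall w ρ)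
    (hz' : z' ∈ closedBall w ρ) : ‖e z - e z'‖ ≤ C / ρ * ‖z - z'‖ := by
  have hd : ∀ x ∈ closedBall w ρ, ‖deriv e x‖ ≤ C / ρ := by
    intro x hx
    apply Complex.norm_deriv_le_of_forall_mem_sphere_norm_le hρ he.diffContOnCl
    intro z hz
    apply hb
    rw [mem_closedBall] at hx ⊢
    rw [mem_sphere] at hz
    calc dist z w ≤ dist z x + dist x w := dist_triangle _ _ _
      _ ≤ 2 * ρ := by linarith
  exact (convex_closedBall w ρ).norm_image_sub_le_of_norm_deriv_le (fun x _ => he x) hd hz' hz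

theorem xcount_pw (n : ℕ) (w d : ℂ) : ‖(w + d) ^ n - w ^ n‖ ≤ (‖w‖ + ‖d‖) ^ n - ‖w‖ ^ n := by
  induction n with
  | zero => simp
  | succ n ih =>
    have e : (w + d) ^ (n + 1) - w ^ (n + 1) = (w + d) * ((w + d) ^ n - w ^ n) + d * w ^ n := by
      ring
    rw [e]
    calc ‖(w + d) * ((w + d) ^ n - w ^ n) + d * w ^ n‖
        ≤ ‖(w + d) * ((w + d) ^ n - w ^ n)‖ + ‖d * w ^ n‖ := norm_add_le _ _
      _ = ‖w + d‖ * ‖(w + d) ^ n - w ^ n‖ + ‖d‖ * ‖w‖ ^ n := by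
          rw [norm_mul, norm_mul, norm_pow]
      _ ≤ (‖w‖ + ‖d‖) * ((‖w‖ + ‖d‖) ^ n - ‖w‖ ^ n) + ‖d‖ * ‖w‖ ^ n := by
          have h1 := norm_add_le w d
          have h2 : 0 ≤ ‖w‖ + ‖d‖ := by positivity
          have := mul_le_mul h1 ih (norm_nonneg _) h2
          linarith
      _ = (‖w‖ + ‖d‖) ^ (n + 1) - ‖w‖ ^ (n + 1) := by ring

/-- approximation of the difference quotients -/
theorem xcount_approx {P : ℂ[X]} {a w : ℂ} {n m : ℕ} {τ ε : ℝ} (hw : w ≠ 0) (hn : 1 ≤ n)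
    (hnm : n ≤ m) (hτ0 : 0 ≤ τ) (hτ : τ ≤ 1 / 8) (hε : 0 ≤ ε)
    (hP : ∀ z ∈ closedBall w (2 * (‖w‖ / 8)), ‖P.eval z - a * z ^ n‖ ≤ ε * ‖a * z ^ n‖)
    {z z' : ℂ} (hz : z ∈ closedBall w (τ * ‖w‖)) (hz' : z' ∈ closedBall w (τ * ‖w‖)) :
    ‖w‖ * ‖(P.eval z - P.eval z') - a * (n * w ^ (n - 1)) * (z - z')‖ ≤
      (n * ((1 + τ) ^ m - 1) + 8 * ε * (5 / 4) ^ m) * (‖a‖ * ‖w‖ ^ n) * ‖z - z'‖ := by
  have hW : 0 < ‖w‖ := norm_pos_iff.2 hw
  have hsub : closedBall w (τ * ‖w‖) ⊆ closedBall w (‖w‖ / 8) :=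
    closedBall_subset_closedBall (by nlinarith)
  -- the error term
  have hC : ∀ z ∈ closedBall w (2 * (‖w‖ / 8)), ‖P.eval z - a * z ^ n‖ ≤
      ε * (‖a‖ * ((5 / 4) ^ m * ‖w‖ ^ n)) := by
    intro z hz
    refine (hP z hz).trans (mul_le_mul_of_nonneg_left ?_ hε)
    rw [norm_mul, norm_pow]
    refine mul_le_mul_of_nonneg_left ?_ (norm_nonneg _)
    have h1 : ‖z‖ ≤ 5 / 4 * ‖w‖ := by
      rw [mem_closedBall, dist_eq_norm] at hz
      have := norm_add_le (z - w) w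
      rw [sub_add_cancel] at this
      linarith
    calc ‖z‖ ^ n ≤ (5 / 4 * ‖w‖) ^ n := pow_le_pow_left₀ (norm_nonneg _) h1 n
      _ = (5 / 4) ^ n * ‖w‖ ^ n := by rw [mul_pow]
      _ ≤ (5 / 4) ^ m * ‖w‖ ^ n := by
          apply mul_le_mul_of_nonneg_right _ (by positivity)
          exact pow_le_pow_right₀ (by norm_num) hnm
  have hdiff : Differentiable ℂ (fun z : ℂ => P.eval z - a * z ^ n) := by
    fun_prop
  have hE := xcount_lip (e := fun z : ℂ => P.eval z - a * z ^ n) (by positivity) hdiff hC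
    (hsub hz) (hsub hz')
  -- the power
  have hG : ‖(z ^ n - (n * w ^ (n - 1)) * z) - (z' ^ n - (n * w ^ (n - 1)) * z')‖ ≤
      (n * (((1 + τ) ^ m - 1) * ‖w‖ ^ (n - 1))) * ‖z - z'‖ := by
    have hd : ∀ x : ℂ, HasDerivAt (fun z : ℂ => z ^ n - (n * w ^ (n - 1)) * z)
        (n * x ^ (n - 1) - n * w ^ (n - 1)) x := by
      intro x
      have h1 := hasDerivAt_pow n x
      have h2 := (hasDerivAt_id x).const_mul ((n : ℂ) * w ^ (n - 1))
      have h3 := h1.sub h2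
      rw [mul_one] at h3
      exact h3
    refine (convex_closedBall w (τ * ‖w‖)).norm_image_sub_le_of_norm_hasDerivWithin_le
      (f := fun z : ℂ => z ^ n - (n * w ^ (n - 1)) * z)
      (fun x _ => (hd x).hasDerivWithinAt) ?_ hz' hz
    intro x hx
    have e1 : (n : ℂ) * x ^ (n - 1) - n * w ^ (n - 1) = n * ((w + (x - w)) ^ (n - 1) - w ^ (n - 1)) := by
      rw [add_sub_cancel]; ring
    rw [e1, norm_mul, Complex.norm_natCast]
    refine mul_le_mul_of_nonneg_left ((xcount_pw _ _ _).trans ?_) (Nat.cast_nonneg _)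
    rw [mem_closedBall, dist_eq_norm] at hx
    have h2 : (‖w‖ + ‖x - w‖) ^ (n - 1) ≤ ((1 + τ) * ‖w‖) ^ (n - 1) :=
      pow_le_pow_left₀ (by positivity) (by linarith) _
    rw [mul_pow] at h2
    have h3 : (1 + τ) ^ (n - 1) ≤ (1 + τ) ^ m := pow_le_pow_right₀ (by linarith) (by omega)
    have h4 : 0 ≤ ‖w‖ ^ (n - 1) := by positivity
    nlinarith
  have e2 : (P.eval z - P.eval z') - a * (n * w ^ (n - 1)) * (z - z') =
      ((P.eval z - a * z ^ n) - (P.eval z' - a * z' ^ n)) +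
      a * ((z ^ n - (n * w ^ (n - 1)) * z) - (z' ^ n - (n * w ^ (n - 1)) * z')) := by ring
  have hE' : ‖(P.eval z - a * z ^ n) - (P.eval z' - a * z' ^ n)‖ ≤
      ε * (‖a‖ * ((5 / 4) ^ m * ‖w‖ ^ n)) / (‖w‖ / 8) * ‖z - z'‖ := hE
  have hWn : ‖w‖ ^ n = ‖w‖ * ‖w‖ ^ (n - 1) := by
    rw [← pow_succ']; congr 1; omega
  rw [e2]
  calc ‖w‖ * ‖((P.eval z - a * z ^ n) - (P.eval z' - a * z' ^ n)) +
      a * ((z ^ n - (n * w ^ (n - 1)) * z) - (z' ^ n - (n * w ^ (n - 1)) * z'))‖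
      ≤ ‖w‖ * (ε * (‖a‖ * ((5 / 4) ^ m * ‖w‖ ^ n)) / (‖w‖ / 8) * ‖z - z'‖ +
        ‖a‖ * ((n * (((1 + τ) ^ m - 1) * ‖w‖ ^ (n - 1))) * ‖z - z'‖)) := by
        refine mul_le_mul_of_nonneg_left ((norm_add_le _ _).trans (add_le_add hE' ?_)) hW.le
        rw [norm_mul]
        exact mul_le_mul_of_nonneg_left hG (norm_nonneg _)
    _ = (n * ((1 + τ) ^ m - 1) + 8 * ε * (5 / 4) ^ m) * (‖a‖ * ‖w‖ ^ n) * ‖z - z'‖ := by
        rw [hWn]
        field_simp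
        ring


theorem xcount_sep {P Q : ℂ[X]} {a b w : ℂ} {j k m : ℕ} {τ ε : ℝ} (hw : w ≠ 0)
    (hb : b ≠ 0) (hj : 1 ≤ j) (hjk : j < k) (hkm : k ≤ m) (hτ0 : 0 ≤ τ)
    (hτ : τ ≤ 1 / 8) (hε : 0 ≤ ε) (hε1 : ε * m ≤ 1 / 24) (hη : ((1 + τ) ^ m - 1) * m ≤ 1 / 8)
    (hs : 8 * ε * (5 / 4) ^ m ≤ 1 / 16)
    (hab : ‖a‖ * ‖w‖ ^ j * (1 - ε) ≤ ‖b‖ * ‖w‖ ^ k * (1 + ε))
    (hP : ∀ z ∈ closedBall w (2 * (‖w‖ / 8)), ‖P.eval z - a * z ^ j‖ ≤ ε * ‖a * z ^ j‖)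
    (hQ : ∀ z ∈ closedBall w (2 * (‖w‖ / 8)), ‖Q.eval z - b * z ^ k‖ ≤ ε * ‖b * z ^ k‖)
    {z z' : ℂ} (hz : z ∈ closedBall w (τ * ‖w‖)) (hz' : z' ∈ closedBall w (τ * ‖w‖))
    (h0 : P.eval z + conj (Q.eval z) = 0) (h0' : P.eval z' + conj (Q.eval z') = 0) :
    z = z' := by
  by_contra hne
  have hD : 0 < ‖z - z'‖ := norm_pos_iff.2 (sub_ne_zero.2 hne)
  have hW : 0 < ‖w‖ := norm_pos_iff.2 hw
  have h1 := xcount_approx (m := m) hw hj (by omega) hτ0 hτ hε hP hz hz'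
  have h2 := xcount_approx (m := m) hw (by omega) hkm hτ0 hτ hε hQ hz hz'
  have h3 : ‖P.eval z - P.eval z'‖ = ‖Q.eval z - Q.eval z'‖ := by
    have : P.eval z - P.eval z' = - conj (Q.eval z - Q.eval z') := by
      rw [map_sub]; linear_combination h0 - h0'
    rw [this, norm_neg, RCLike.norm_conj]
  set D := ‖z - z'‖ with hDdef
  set α := ‖a‖ * ‖w‖ ^ j with hα
  set β := ‖b‖ * ‖w‖ ^ k with hβ
  have hα0 : 0 ≤ α := by positivity
  have hβ0 : 0 < β := by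
    have := norm_pos_iff.2 hb
    positivity
  have h4 : ∀ (c : ℂ) (n : ℕ), 1 ≤ n →
      ‖w‖ * ‖c * (n * w ^ (n - 1)) * (z - z')‖ = n * (‖c‖ * ‖w‖ ^ n) * D := by
    intro c n hn
    have hWn : ‖w‖ ^ n = ‖w‖ * ‖w‖ ^ (n - 1) := by
      rw [← pow_succ']; congr 1; omega
    rw [norm_mul, norm_mul, norm_mul, norm_pow, Complex.norm_natCast, hWn]
    ring
  have h5 := h4 a j hj
  have h6 := h4 b k (by omega)
  have h7 : ‖P.eval z - P.eval z'‖ ≤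
      ‖(P.eval z - P.eval z') - a * (j * w ^ (j - 1)) * (z - z')‖ +
      ‖a * (j * w ^ (j - 1)) * (z - z')‖ := by
    have := norm_add_le ((P.eval z - P.eval z') - a * (j * w ^ (j - 1)) * (z - z'))
      (a * (j * w ^ (j - 1)) * (z - z'))
    rwa [sub_add_cancel] at this
  have h8 : ‖b * (k * w ^ (k - 1)) * (z - z')‖ ≤ ‖Q.eval z - Q.eval z'‖ +
      ‖(Q.eval z - Q.eval z') - b * (k * w ^ (k - 1)) * (z - z')‖ := by
    have := norm_sub_le (Q.eval z - Q.eval z')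
      ((Q.eval z - Q.eval z') - b * (k * w ^ (k - 1)) * (z - z'))
    rwa [sub_sub_cancel] at this
  rw [← h3] at h8
  have h9 : ‖w‖ * ‖b * (k * w ^ (k - 1)) * (z - z')‖ ≤
      ‖w‖ * ‖(P.eval z - P.eval z') - a * (j * w ^ (j - 1)) * (z - z')‖ +
      ‖w‖ * ‖a * (j * w ^ (j - 1)) * (z - z')‖ +
      ‖w‖ * ‖(Q.eval z - Q.eval z') - b * (k * w ^ (k - 1)) * (z - z')‖ := by
    rw [← mul_add, ← mul_add]
    exact mul_le_mul_of_nonneg_left (h8.trans (by linarith)) hW.le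
  rw [h5, h6] at h9
  have hj' : (j : ℝ) ≤ m := by exact_mod_cast (by omega : j ≤ m)
  have hk' : (k : ℝ) ≤ m := by exact_mod_cast hkm
  have hη0 : 0 ≤ (1 + τ) ^ m - 1 := by
    have := one_le_pow₀ (a := 1 + τ) (n := m) (by linarith)
    linarith
  have hjη : (j : ℝ) * ((1 + τ) ^ m - 1) ≤ 1 / 8 := by nlinarith
  have hkη : (k : ℝ) * ((1 + τ) ^ m - 1) ≤ 1 / 8 := by nlinarith
  have h10 : (j * ((1 + τ) ^ m - 1) + 8 * ε * (5 / 4) ^ m) * α * D ≤ 3 / 16 * α * D := by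
    apply mul_le_mul_of_nonneg_right _ hD.le
    apply mul_le_mul_of_nonneg_right _ hα0
    linarith
  have h11 : (k * ((1 + τ) ^ m - 1) + 8 * ε * (5 / 4) ^ m) * β * D ≤ 3 / 16 * β * D := by
    apply mul_le_mul_of_nonneg_right _ hD.le
    apply mul_le_mul_of_nonneg_right _ hβ0.le
    linarith
  have h12 : (k : ℝ) * β * D ≤ (3 / 16 * α + j * α + 3 / 16 * β) * D := by nlinarith
  have h13 : (k : ℝ) * β ≤ 3 / 16 * α + j * α + 3 / 16 * β := le_of_mul_le_mul_right h12 hD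
  have hjk' : (j : ℝ) + 1 ≤ k := by exact_mod_cast hjk
  have hj0 : (1 : ℝ) ≤ j := by exact_mod_cast hj
  have hεm : ε * k ≤ 1 / 24 := (mul_le_mul_of_nonneg_left hk' hε).trans hε1
  have hεj : ε * j ≤ 1 / 24 := (mul_le_mul_of_nonneg_left hj' hε).trans hε1
  have hε2 : ε ≤ 1 / 24 := by nlinarith
  -- (k - 3/16)(1-ε) β ≤ (j + 3/16)(1-ε) α ≤ (j + 3/16)(1+ε) β
  have h14 : (k - 3 / 16) * (1 - ε) * β ≤ (j + 3 / 16) * (1 + ε) * β := by
    have e1 : ((k : ℝ) - 3 / 16) * β ≤ (j + 3 / 16) * α := by linarith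
    have e2 := mul_le_mul_of_nonneg_right e1 (by linarith : (0 : ℝ) ≤ 1 - ε)
    have e3 := mul_le_mul_of_nonneg_left hab (by linarith : (0 : ℝ) ≤ j + 3 / 16)
    nlinarith
  have h15 := le_of_mul_le_mul_right h14 hβ0
  nlinarith

theorem xcount_root {u : ℂ} {N : ℕ} (hN : 0 < N) {τ : ℝ} (hτ : 0 < τ)
    (h : ‖u ^ N - 1‖ ≤ τ ^ N) :
    ∃ ζ ∈ nthRootsFinset N (1 : ℂ), ‖u - ζ‖ ≤ τ := by
  by_contra hcon
  push Not at hcon
  have hprim := Complex.isPrimitiveRoot_exp N hN.ne'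
  have hp := X_pow_sub_one_eq_prod hN hprim
  have h1 : u ^ N - 1 = ∏ ζ ∈ nthRootsFinset N (1 : ℂ), (u - ζ) := by
    have := congrArg (Polynomial.eval u) hp
    simpa [eval_prod] using this
  have hcard : (nthRootsFinset N (1 : ℂ)).card = N := hprim.card_nthRootsFinset
  have hne : (nthRootsFinset N (1 : ℂ)).Nonempty := by
    rw [← Finset.card_pos, hcard]; exact hN
  rw [h1, norm_prod] at h
  have h2 : ∏ _ζ ∈ nthRootsFinset N (1 : ℂ), τ < ∏ ζ ∈ nthRootsFinset N (1 : ℂ), ‖u - ζ‖ :=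
    Finset.prod_lt_prod_of_nonempty (fun _ _ => hτ) (fun ζ hζ => hcon ζ hζ) hne
  rw [Finset.prod_const, hcard] at h2
  linarith

theorem xcount_AB {P Q : ℂ[X]} {a b x : ℂ} {j k : ℕ} {ε : ℝ}
    (hPx : ‖P.eval x - a * x ^ j‖ ≤ ε * ‖a * x ^ j‖)
    (hQx : ‖Q.eval x - b * x ^ k‖ ≤ ε * ‖b * x ^ k‖)
    (h0x : P.eval x + conj (Q.eval x) = 0) :
    ‖a * x ^ j + conj (b * x ^ k)‖ ≤ ε * (‖a * x ^ j‖ + ‖b * x ^ k‖) := by
  have e : a * x ^ j + conj (b * x ^ k) =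
      -((P.eval x - a * x ^ j) + conj (Q.eval x - b * x ^ k)) := by
    rw [map_sub]; linear_combination h0x
  rw [e, norm_neg]
  calc ‖(P.eval x - a * x ^ j) + conj (Q.eval x - b * x ^ k)‖ ≤
      ‖P.eval x - a * x ^ j‖ + ‖conj (Q.eval x - b * x ^ k)‖ := norm_add_le _ _
    _ ≤ ε * (‖a * x ^ j‖ + ‖b * x ^ k‖) := by
      rw [RCLike.norm_conj]; linarith

theorem xcount_near {P Q : ℂ[X]} {a b x y : ℂ} {j k m : ℕ} {δ ε t : ℝ} (hx : x ≠ 0)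
    (ha : a ≠ 0) (hkm : k ≤ m) (hjk : j < k) (hε : 0 ≤ ε) (hε3 : ε ≤ 1 / 3)
    (hδ : 0 ≤ δ) (h2 : Real.exp (2 * m * δ) ≤ 1 + t) (ht0 : 0 ≤ t) (ht : t ≤ 1)
    (h24 : 24 * ε ≤ t)
    (hPx : ‖P.eval x - a * x ^ j‖ ≤ ε * ‖a * x ^ j‖)
    (hQx : ‖Q.eval x - b * x ^ k‖ ≤ ε * ‖b * x ^ k‖)
    (hPy : ‖P.eval y - a * y ^ j‖ ≤ ε * ‖a * y ^ j‖)
    (hQy : ‖Q.eval y - b * y ^ k‖ ≤ ε * ‖b * y ^ k‖)
    (h0x : P.eval x + conj (Q.eval x) = 0) (h0y : P.eval y + conj (Q.eval y) = 0)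
    (hyx : ‖y‖ ≤ Real.exp δ * ‖x‖) (hxy : ‖x‖ ≤ Real.exp δ * ‖y‖) :
    ‖(y / x) ^ (j + k) - 1‖ ≤ 2 * t := by
  have hX : 0 < ‖x‖ := norm_pos_iff.2 hx
  obtain ⟨u, hu⟩ : ∃ u, u = y / x := ⟨_, rfl⟩
  have hy : y = u * x := by rw [hu]; field_simp
  rw [← hu]
  have hA := xcount_AB hPx hQx h0x
  have hB := xcount_AB hPy hQy h0y
  set A := a * x ^ j with hAdef
  set B := b * x ^ k with hBdef
  have eA : a * y ^ j = A * u ^ j := by rw [hy, hAdef, mul_pow]; ring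
  have eB : b * y ^ k = B * u ^ k := by rw [hy, hBdef, mul_pow]; ring
  rw [eA, eB, norm_mul A, norm_mul B, norm_pow u, norm_pow u, map_mul, map_pow] at hB
  -- size of u
  have hU : ‖u‖ ≤ Real.exp δ := by
    rw [hy, norm_mul] at hyx
    exact le_of_mul_le_mul_right hyx hX
  have hU' : 1 ≤ Real.exp δ * ‖u‖ := by
    rw [hy, norm_mul, ← mul_assoc] at hxy
    have : 1 * ‖x‖ ≤ Real.exp δ * ‖u‖ * ‖x‖ := by rw [one_mul]; exact hxy
    exact le_of_mul_le_mul_right this hX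
  have hpw : ∀ n : ℕ, n ≤ 2 * m → ‖u‖ ^ n ≤ 1 + t := by
    intro n hn
    calc ‖u‖ ^ n ≤ (Real.exp δ) ^ n := pow_le_pow_left₀ (norm_nonneg _) hU n
      _ = Real.exp (n * δ) := (Real.exp_nat_mul _ _).symm
      _ ≤ Real.exp (2 * m * δ) := by
          apply Real.exp_le_exp.2
          apply mul_le_mul_of_nonneg_right _ hδ
          exact_mod_cast hn
      _ ≤ 1 + t := h2
  have hlow : 1 ≤ (1 + t) * ‖u‖ ^ (2 * k) := by
    calc (1 : ℝ) ≤ (Real.exp δ * ‖u‖) ^ (2 * k) := one_le_pow₀ hU'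
      _ = (Real.exp δ) ^ (2 * k) * ‖u‖ ^ (2 * k) := mul_pow _ _ _
      _ ≤ (1 + t) * ‖u‖ ^ (2 * k) := by
          apply mul_le_mul_of_nonneg_right _ (by positivity)
          refine le_trans ?_ h2
          rw [← Real.exp_nat_mul]
          apply Real.exp_le_exp.2
          apply mul_le_mul_of_nonneg_right _ hδ
          push_cast
          have : (k : ℝ) ≤ m := by exact_mod_cast hkm
          linarith
  have hlow' : |‖u‖ ^ (2 * k) - 1| ≤ t := by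
    have h3 := hpw (2 * k) (by omega)
    have h4 : 0 ≤ ‖u‖ ^ (2 * k) := by positivity
    rw [abs_le]
    constructor
    · nlinarith
    · linarith
  have hj2 : ‖u‖ ^ j ≤ 2 := (hpw j (by omega)).trans (by linarith)
  have hk2 : ‖u‖ ^ k ≤ 2 := (hpw k (by omega)).trans (by linarith)
  have hA0 : 0 < ‖A‖ := norm_pos_iff.2 (mul_ne_zero ha (pow_ne_zero _ hx))
  have hBn : ‖B‖ ≤ 2 * ‖A‖ := by
    have h3 : ‖B‖ ≤ ‖A + conj B‖ + ‖A‖ := by
      have := norm_sub_le (A + conj B) A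
      rw [add_sub_cancel_left, RCLike.norm_conj] at this
      exact this
    have h4 : 0 ≤ ‖B‖ := norm_nonneg _
    nlinarith
  have hdiff : ‖A * (u ^ j - (conj u) ^ k)‖ ≤ 12 * ε * ‖A‖ := by
    have e : A * (u ^ j - (conj u) ^ k) =
        (A * u ^ j + conj B * (conj u) ^ k) - (A + conj B) * (conj u) ^ k := by ring
    rw [e]
    calc ‖(A * u ^ j + conj B * (conj u) ^ k) - (A + conj B) * (conj u) ^ k‖
        ≤ ‖A * u ^ j + conj B * (conj u) ^ k‖ + ‖(A + conj B) * (conj u) ^ k‖ :=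
          norm_sub_le _ _
      _ ≤ ε * (‖A‖ * ‖u‖ ^ j + ‖B‖ * ‖u‖ ^ k) + ε * (‖A‖ + ‖B‖) * ‖u‖ ^ k := by
          refine add_le_add hB ?_
          rw [norm_mul, norm_pow, RCLike.norm_conj]
          exact mul_le_mul_of_nonneg_right hA (by positivity)
      _ ≤ ε * (‖A‖ * 2 + ‖B‖ * 2) + ε * (‖A‖ + ‖B‖) * 2 := by
          have h5 : 0 ≤ ‖B‖ := norm_nonneg _
          have h6 : ‖A‖ * ‖u‖ ^ j ≤ ‖A‖ * 2 := mul_le_mul_of_nonneg_left hj2 hA0.le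
          have h7 : ‖B‖ * ‖u‖ ^ k ≤ ‖B‖ * 2 := mul_le_mul_of_nonneg_left hk2 h5
          have h8 : ε * (‖A‖ + ‖B‖) * ‖u‖ ^ k ≤ ε * (‖A‖ + ‖B‖) * 2 :=
            mul_le_mul_of_nonneg_left hk2 (by positivity)
          have h9 : ε * (‖A‖ * ‖u‖ ^ j + ‖B‖ * ‖u‖ ^ k) ≤ ε * (‖A‖ * 2 + ‖B‖ * 2) :=
            mul_le_mul_of_nonneg_left (by linarith) hε
          linarith
      _ ≤ 12 * ε * ‖A‖ := by nlinarith
  have hdiff' : ‖u ^ j - (conj u) ^ k‖ ≤ 12 * ε := by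
    rw [norm_mul, mul_comm] at hdiff
    exact le_of_mul_le_mul_right hdiff hA0
  have huu : (conj u) ^ k * u ^ k = ((‖u‖ ^ (2 * k) : ℝ) : ℂ) := by
    rw [← mul_pow, mul_comm (conj u) u, Complex.mul_conj, Complex.normSq_eq_norm_sq]
    push_cast
    rw [pow_mul]
  have e : u ^ (j + k) - 1 = (u ^ j - (conj u) ^ k) * u ^ k +
      ((‖u‖ ^ (2 * k) - 1 : ℝ) : ℂ) := by
    have : ((‖u‖ ^ (2 * k) - 1 : ℝ) : ℂ) = (conj u) ^ k * u ^ k - 1 := by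
      rw [huu]; push_cast; ring
    rw [this, pow_add]; ring
  rw [e]
  calc ‖(u ^ j - (conj u) ^ k) * u ^ k + ((‖u‖ ^ (2 * k) - 1 : ℝ) : ℂ)‖
      ≤ ‖(u ^ j - (conj u) ^ k) * u ^ k‖ + ‖((‖u‖ ^ (2 * k) - 1 : ℝ) : ℂ)‖ := norm_add_le _ _
    _ ≤ 12 * ε * 2 + t := by
        refine add_le_add ?_ ?_
        · rw [norm_mul, norm_pow]
          exact mul_le_mul hdiff' hk2 (by positivity) (by positivity)
        · rw [Complex.norm_real, Real.norm_eq_abs]; exact hlow'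
    _ ≤ 2 * t := by linarith

theorem x_count (m : ℕ) : ∃ M ε : ℝ, 0 < M ∧ 0 < ε ∧ ∀ (P Q : ℂ[X]) (j k : ℕ),
    1 ≤ j → j < k → k ≤ m →
      {x : ℂ | x ≠ 0 ∧ P.eval x + conj (Q.eval x) = 0 ∧ MonAnn P ‖x‖ M ε j ∧
        MonAnn Q ‖x‖ M ε k}.Finite ∧
      {x : ℂ | x ≠ 0 ∧ P.eval x + conj (Q.eval x) = 0 ∧ MonAnn P ‖x‖ M ε j ∧
        MonAnn Q ‖x‖ M ε k}.ncard ≤ j + k := by
  rcases Nat.eq_zero_or_pos m with hm | hm
  · exact ⟨1, 1, one_pos, one_pos, fun P Q j k h1 h2 h3 => by omega⟩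
  have hm' : (1 : ℝ) ≤ m := by exact_mod_cast hm
  -- choice of τ
  obtain ⟨τ, hτ0, hτ8, hτη⟩ : ∃ τ : ℝ, 0 < τ ∧ τ ≤ 1 / 8 ∧ ((1 + τ) ^ m - 1) * m ≤ 1 / 8 := by
    have hc : ContinuousAt (fun τ : ℝ => ((1 + τ) ^ m - 1) * m) 0 := by fun_prop
    have h0 : (fun τ : ℝ => ((1 + τ) ^ m - 1) * m) 0 < 1 / 8 := by norm_num
    have h1 : ∀ᶠ τ : ℝ in 𝓝 (0 : ℝ), ((1 + τ) ^ m - 1) * m < 1 / 8 := hc.eventually_lt_const h0
    obtain ⟨d, hd, hd'⟩ := Metric.eventually_nhds_iff.1 h1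
    refine ⟨min (1 / 8) (d / 2), by positivity, min_le_left _ _, le_of_lt (hd' ?_)⟩
    rw [Real.dist_eq, sub_zero, abs_of_pos (by positivity)]
    exact lt_of_le_of_lt (min_le_right _ _) (by linarith)
  -- choice of t, δ
  obtain ⟨t, ht⟩ : ∃ t : ℝ, t = τ ^ (2 * m) / 2 := ⟨_, rfl⟩
  have ht0 : 0 < t := by rw [ht]; positivity
  have ht1 : t ≤ 1 := by
    rw [ht]
    have : τ ^ (2 * m) ≤ 1 := pow_le_one₀ hτ0.le (by linarith)
    linarith
  obtain ⟨δ, hδ⟩ : ∃ δ : ℝ, δ = Real.log (1 + t) / (2 * m) := ⟨_, rfl⟩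
  have hlog : 0 < Real.log (1 + t) := Real.log_pos (by linarith)
  have hδ0 : 0 < δ := by rw [hδ]; positivity
  have hδ2 : Real.exp (2 * m * δ) = 1 + t := by
    rw [hδ, mul_div_cancel₀ _ (by positivity), Real.exp_log (by linarith)]
  have hδ1 : δ ≤ 2 := by
    have h1 : Real.log (1 + t) ≤ 1 + t - 1 := Real.log_le_sub_one_of_pos (by linarith)
    have h2 : δ ≤ Real.log (1 + t) := by
      rw [hδ]; apply div_le_self hlog.le; linarith
    linarith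
  obtain ⟨M0, e0, hM0, he0, hsc⟩ := x_scale m δ hδ0
  obtain ⟨ε, hε⟩ : ∃ ε : ℝ, ε = min (min e0 (1 / (24 * m))) (min (1 / (128 * (5 / 4) ^ m)) (t / 24)) :=
    ⟨_, rfl⟩
  have hε0 : 0 < ε := by rw [hε]; positivity
  have hεe : ε ≤ e0 := by rw [hε]; exact (min_le_left _ _).trans (min_le_left _ _)
  have hεm : ε * m ≤ 1 / 24 := by
    have : ε ≤ 1 / (24 * m) := by rw [hε]; exact (min_le_left _ _).trans (min_le_right _ _)
    calc ε * m ≤ 1 / (24 * m) * m := mul_le_mul_of_nonneg_right this (by positivity)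
      _ = 1 / 24 := by field_simp
  have hεs : 8 * ε * (5 / 4) ^ m ≤ 1 / 16 := by
    have : ε ≤ 1 / (128 * (5 / 4) ^ m) := by
      rw [hε]; exact (min_le_right _ _).trans (min_le_left _ _)
    calc 8 * ε * (5 / 4) ^ m ≤ 8 * (1 / (128 * (5 / 4) ^ m)) * (5 / 4) ^ m := by gcongr
      _ = 1 / 16 := by field_simp; norm_num
  have hεt : 24 * ε ≤ t := by
    have : ε ≤ t / 24 := by rw [hε]; exact (min_le_right _ _).trans (min_le_right _ _)
    linarith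
  have hε3 : ε ≤ 1 / 24 := by nlinarith
  obtain ⟨M, hM⟩ : ∃ M : ℝ, M = max M0 2 := ⟨_, rfl⟩
  have hMM0 : M0 ≤ M := by rw [hM]; exact le_max_left _ _
  have hM2 : 2 ≤ M := by rw [hM]; exact le_max_right _ _
  refine ⟨M, ε, by linarith, hε0, fun P Q j k hj hjk hkm => ?_⟩
  set E := {x : ℂ | x ≠ 0 ∧ P.eval x + conj (Q.eval x) = 0 ∧ MonAnn P ‖x‖ M ε j ∧
        MonAnn Q ‖x‖ M ε k} with hE
  rcases E.eq_empty_or_nonempty with hemp | ⟨x, hxE⟩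
  · rw [hemp]; simp
  have hscale : ∀ x ∈ E, ∀ y ∈ E, ‖y‖ ≤ Real.exp δ * ‖x‖ := by
    intro x hx y hy
    exact hsc P Q j k hj hjk hkm x y hx.1 hy.1 hx.2.1 hy.2.1
      (xcount_mono (norm_nonneg _) hMM0 hεe hx.2.2.1) (xcount_mono (norm_nonneg _) hMM0 hεe hx.2.2.2)
      (xcount_mono (norm_nonneg _) hMM0 hεe hy.2.2.1) (xcount_mono (norm_nonneg _) hMM0 hεe hy.2.2.2)
  obtain ⟨hx0, hx00, ⟨a, ha, hPa⟩, ⟨b, hb, hQb⟩⟩ := id hxE
  have hX : 0 < ‖x‖ := norm_pos_iff.2 hx0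
  have hN : 0 < j + k := by omega
  -- the annulus contains everything
  have hann : ∀ z : ℂ, Real.exp (-δ) * ‖x‖ ≤ ‖z‖ → ‖z‖ ≤ Real.exp δ * ‖x‖ →
      Real.exp (-M) * ‖x‖ ≤ ‖z‖ ∧ ‖z‖ ≤ Real.exp M * ‖x‖ := by
    intro z h1 h2
    constructor
    · refine le_trans ?_ h1
      exact mul_le_mul_of_nonneg_right (Real.exp_le_exp.2 (by linarith)) hX.le
    · refine h2.trans ?_
      exact mul_le_mul_of_nonneg_right (Real.exp_le_exp.2 (by linarith)) hX.le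
  have hxann := hann x (by
      have : Real.exp (-δ) ≤ 1 := Real.exp_le_one_iff.2 (by linarith)
      nlinarith) (by
      have : 1 ≤ Real.exp δ := Real.one_le_exp hδ0.le
      nlinarith)
  have hPx := hPa x hxann.1 hxann.2
  have hQx := hQb x hxann.1 hxann.2
  have hroot : ∀ y ∈ E, ∃ ζ ∈ nthRootsFinset (j + k) (1 : ℂ), ‖y / x - ζ‖ ≤ τ := by
    intro y hy
    have h1 := hscale x hxE y hy
    have h2 := hscale y hy x hxE
    have h3 : Real.exp (-δ) * ‖x‖ ≤ ‖y‖ := by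
      rw [Real.exp_neg]
      rw [inv_mul_le_iff₀ (Real.exp_pos _)]
      exact h2
    have hyann := hann y h3 h1
    have h4 := xcount_near hx0 ha hkm hjk hε0.le (by linarith) hδ0.le hδ2.le ht0.le ht1 hεt
      hPx hQx (hPa y hyann.1 hyann.2) (hQb y hyann.1 hyann.2) hx00 hy.2.1 h1 h2
    apply xcount_root hN hτ0
    refine h4.trans ?_
    rw [ht]
    have : τ ^ (2 * m) ≤ τ ^ (j + k) := pow_le_pow_of_le_one hτ0.le (by linarith) (by omega)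
    linarith
  choose! ζ hζ1 hζ2 using hroot
  have hinj : InjOn ζ E := by
    intro y hy y' hy' heq
    have hζ : ζ y ^ (j + k) = 1 := (mem_nthRootsFinset hN _).1 (hζ1 y hy)
    have hζn : ‖ζ y‖ = 1 := Complex.norm_eq_one_of_pow_eq_one hζ hN.ne'
    have hwn : ‖x * ζ y‖ = ‖x‖ := by rw [norm_mul, hζn, mul_one]
    have hw0 : x * ζ y ≠ 0 := by
      rw [← norm_pos_iff, hwn]; exact hX
    have hball : ∀ v ∈ E, ζ v = ζ y → v ∈ closedBall (x * ζ y) (τ * ‖x * ζ y‖) := by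
      intro v hv hvy
      rw [mem_closedBall, dist_eq_norm, hwn]
      have e : v - x * ζ y = (v / x - ζ v) * x := by rw [hvy]; field_simp
      rw [e, norm_mul]
      exact mul_le_mul_of_nonneg_right (hζ2 v hv) hX.le
    have hann2 : ∀ z ∈ closedBall (x * ζ y) (2 * (‖x * ζ y‖ / 8)),
        Real.exp (-M) * ‖x‖ ≤ ‖z‖ ∧ ‖z‖ ≤ Real.exp M * ‖x‖ := by
      intro z hz
      rw [mem_closedBall, dist_eq_norm, hwn] at hz
      have h1 : ‖z‖ ≤ ‖x‖ + 2 * (‖x‖ / 8) := by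
        have := norm_add_le (z - x * ζ y) (x * ζ y)
        rw [sub_add_cancel, hwn] at this
        linarith
      have h2 : ‖x‖ - 2 * (‖x‖ / 8) ≤ ‖z‖ := by
        have := norm_sub_norm_le (x * ζ y) (x * ζ y - z)
        rw [sub_sub_cancel, hwn, norm_sub_rev] at this
        linarith
      have h3 : (3 : ℝ) ≤ Real.exp M := by
        have := Real.add_one_le_exp M
        linarith
      have h4 : Real.exp (-M) ≤ 1 / 3 := by
        rw [Real.exp_neg, inv_eq_one_div]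
        exact one_div_le_one_div_of_le (by norm_num) h3
      constructor <;> nlinarith
    refine xcount_sep (a := a) (b := b) (w := x * ζ y) (m := m) (τ := τ) (ε := ε) hw0 hb hj hjk hkm
      hτ0.le hτ8 hε0.le hεm hτη hεs ?_ (fun z hz => hPa z (hann2 z hz).1 (hann2 z hz).2)
      (fun z hz => hQb z (hann2 z hz).1 (hann2 z hz).2) (hball y hy rfl) (hball y' hy' heq.symm)
      hy.2.1 hy'.2.1
    rw [hwn]
    have hAB := xcount_AB hPx hQx hx00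
    have h3 : ‖a * x ^ j‖ ≤ ‖a * x ^ j + conj (b * x ^ k)‖ + ‖b * x ^ k‖ := by
      have := norm_sub_le (a * x ^ j + conj (b * x ^ k)) (conj (b * x ^ k))
      rw [add_sub_cancel_right, RCLike.norm_conj] at this
      exact this
    rw [norm_mul, norm_pow, norm_mul, norm_pow] at hAB h3
    linarith
  have hmaps : MapsTo ζ E (nthRootsFinset (j + k) (1 : ℂ) : Set ℂ) := fun y hy => hζ1 y hy
  have hfin : E.Finite := Set.Finite.of_injOn hmaps hinj (Finset.finite_toSet _)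
  refine ⟨hfin, ?_⟩
  have hcard := Set.ncard_le_ncard_of_injOn ζ hmaps hinj (Finset.finite_toSet _)
  rw [Set.ncard_coe_finset, (Complex.isPrimitiveRoot_exp (j + k) hN.ne').card_nthRootsFinset] at hcard
  exact hcard

end Pool.Agent.HZ
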