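import Pool.Agent.H.MP_cd3d06_an.L.ClassB
import Pool.Agent.H.MP_cd3d06_an.L.ClassA1
import Pool.Agent.H.MP_cd3d06_an.L.PMon
import Pool.Agent.H.MP_cd3d06_an.L.XCount
import Pool.Agent.H.MP_cd3d06_an.L.CountGood
import Pool.Agent.H.MP_cd3d06_an.L.Exists

/-! MP_cd3d06_an, module Attract: the number of attracting zeros is at most `A n` -/

open Polynomial Metric Set Filter Topology
open scoped ComplexConjugate

namespace Pool.Agent.HZ

theorem Lin.Good.mono {p q : ℂ[X]} {x : ℂ} {X : Lin p q x} {K K' : ℕ} (h : X.Good K)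
    (hK : K ≤ K') : X.Good K' := by
  intro v hv c hc
  refine h v ?_ c hc
  have hω := X.om_pos
  have : (K : ℝ) ≤ K' := by exact_mod_cast hK
  nlinarith

theorem trP_eval (p q : ℂ[X]) (c x : ℂ) : (trP p q c).eval (x - c) = p.eval x + conj (q.eval c) := by
  simp [trP]

theorem trQ_eval (q : ℂ[X]) (c x : ℂ) : (trQ q c).eval (x - c) = q.eval x - q.eval c := by
  simp [trQ]

/-- the set of exceptional points for fixed `c, j, k` -/
def ExcSet (P Q : ℂ[X]) (M ε : ℝ) (j k : ℕ) : Set ℂ :=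
  {x : ℂ | x ≠ 0 ∧ P.eval x + conj (Q.eval x) = 0 ∧ MonAnn P ‖x‖ M ε j ∧ MonAnn Q ‖x‖ M ε k}

theorem ncard_biUnion_le {ι : Type*} (s : Finset ι) (A : ι → Set ℂ) (N : ℕ)
    (h : ∀ i ∈ s, (A i).Finite ∧ (A i).ncard ≤ N) :
    (⋃ i ∈ s, A i).Finite ∧ (⋃ i ∈ s, A i).ncard ≤ s.card * N := by
  classical
  induction s using Finset.induction_on with
  | empty => simp
  | insert a s ha ih =>
    obtain ⟨h1, h2⟩ := ih (fun i hi => h i (Finset.mem_insert_of_mem hi))
    obtain ⟨h3, h4⟩ := h a (Finset.mem_insert_self _ _)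
    rw [Finset.set_biUnion_insert]
    refine ⟨h3.union h1, (ncard_union_le _ _).trans ?_⟩
    rw [Finset.card_insert_of_notMem ha]
    nlinarith

theorem attract (m : ℕ) (hm : 1 ≤ m) : ∃ A : ℕ, ∀ p q : ℂ[X], q.natDegree = m →
    m < p.natDegree →
      {x : ℂ | p.eval x + conj (q.eval x) = 0 ∧
        ‖(derivative p).eval x‖ < ‖(derivative q).eval x‖}.Finite ∧
      {x : ℂ | p.eval x + conj (q.eval x) = 0 ∧
        ‖(derivative p).eval x‖ < ‖(derivative q).eval x‖}.ncard ≤ A * p.natDegree := by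
  classical
  obtain ⟨ω₀, hω₀, KB, hKB⟩ := classB m hm
  obtain ⟨M1, ε1, hM1, hε1, hcount⟩ := x_count m
  have hm' : (1 : ℝ) ≤ m := by exact_mod_cast hm
  obtain ⟨M2, ε2, hM2, hε2, hε2', hpmon⟩ := p_mon m (1 / (100 * m)) (Real.exp (-ω₀)) M1 ε1
    (by positivity) (by rw [Real.exp_lt_one_iff]; linarith) hε1
  obtain ⟨KA, hKA⟩ := classA1 m hm ω₀ hω₀ M2 ε2 hε2
  set K := max KA KB with hK
  refine ⟨1 + m ^ (K + 2) + m * (m + 1) * (m + 1) * (2 * m), ?_⟩
  intro p q hq hpq
  have hp0 : (derivative p) ≠ 0 := by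
    intro h
    have := natDegree_eq_zero_of_derivative_eq_zero h
    omega
  have hq0 : (derivative q) ≠ 0 := by
    intro h
    have := natDegree_eq_zero_of_derivative_eq_zero h
    omega
  -- critical points of `p`
  set S0 : Set ℂ := {x : ℂ | (derivative p).eval x = 0} with hS0
  have hS0f : S0 = ((derivative p).roots.toFinset : Set ℂ) := by
    ext x; simp [hS0, hp0]
  have hS0c : S0.Finite ∧ S0.ncard ≤ p.natDegree := by
    rw [hS0f]
    refine ⟨Finset.finite_toSet _, ?_⟩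
    rw [ncard_coe_finset]
    calc _ ≤ Multiset.card (derivative p).roots := Multiset.toFinset_card_le _
      _ ≤ (derivative p).natDegree := card_roots' _
      _ ≤ p.natDegree := (natDegree_derivative_le p).trans (by omega)
  -- good points
  set S1 : Set ℂ := {x : ℂ | ∃ X : Lin p q x, X.Good K} with hS1
  have hS1c := count_good p q (by omega) (by omega) K
  -- exceptional points
  set S2 : Set ℂ := ⋃ c ∈ (derivative q).roots.toFinset,
    ⋃ jk ∈ (Finset.range (m + 1) ×ˢ Finset.range (m + 1)),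
      (if 1 ≤ jk.1 ∧ jk.1 < jk.2 then
        (fun x => x + c) '' ExcSet (trP p q c) (trQ q c) M1 ε1 jk.1 jk.2 else ∅) with hS2
  have hS2c : S2.Finite ∧ S2.ncard ≤ m * ((m + 1) * (m + 1) * (2 * m)) := by
    have h1 : ∀ c : ℂ, ∀ jk ∈ (Finset.range (m + 1) ×ˢ Finset.range (m + 1)),
        (if 1 ≤ jk.1 ∧ jk.1 < jk.2 then
        (fun x => x + c) '' ExcSet (trP p q c) (trQ q c) M1 ε1 jk.1 jk.2 else ∅ : Set ℂ).Finite ∧
        (if 1 ≤ jk.1 ∧ jk.1 < jk.2 then
        (fun x => x + c) '' ExcSet (trP p q c) (trQ q c) M1 ε1 jk.1 jk.2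
          else ∅ : Set ℂ).ncard ≤ 2 * m := by
      intro c jk hjk
      rw [Finset.mem_product, Finset.mem_range, Finset.mem_range] at hjk
      split_ifs with hh
      · obtain ⟨ha, hb⟩ := hcount (trP p q c) (trQ q c) jk.1 jk.2 hh.1 hh.2 (by omega)
        refine ⟨ha.image _, (ncard_image_le ha).trans (hb.trans (by omega))⟩
      · simp
    have h2 : ∀ c ∈ (derivative q).roots.toFinset,
        (⋃ jk ∈ (Finset.range (m + 1) ×ˢ Finset.range (m + 1)), (if 1 ≤ jk.1 ∧ jk.1 < jk.2 then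
        (fun x => x + c) '' ExcSet (trP p q c) (trQ q c) M1 ε1 jk.1 jk.2
          else ∅ : Set ℂ)).Finite ∧
        (⋃ jk ∈ (Finset.range (m + 1) ×ˢ Finset.range (m + 1)), (if 1 ≤ jk.1 ∧ jk.1 < jk.2 then
        (fun x => x + c) '' ExcSet (trP p q c) (trQ q c) M1 ε1 jk.1 jk.2
          else ∅ : Set ℂ)).ncard ≤ (m + 1) * (m + 1) * (2 * m) := by
      intro c _
      have := ncard_biUnion_le _ _ (2 * m) (h1 c)
      rw [Finset.card_product, Finset.card_range] at this
      exact this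
    have h3 := ncard_biUnion_le _ _ _ h2
    refine ⟨h3.1, h3.2.trans ?_⟩
    apply Nat.mul_le_mul_right
    calc _ ≤ Multiset.card (derivative q).roots := Multiset.toFinset_card_le _
      _ ≤ (derivative q).natDegree := card_roots' _
      _ ≤ m := (natDegree_derivative_le q).trans (by omega)
  -- the inclusion
  have hsub : {x : ℂ | p.eval x + conj (q.eval x) = 0 ∧
        ‖(derivative p).eval x‖ < ‖(derivative q).eval x‖} ⊆ (S0 ∪ S1) ∪ S2 := by
    rintro x ⟨hx, hlt⟩
    by_cases hpx : (derivative p).eval x = 0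
    · exact Or.inl (Or.inl hpx)
    obtain ⟨X⟩ := exists_lin (p := p) (q := q) (x := x) (by omega) (by omega)
      (by linear_combination hx) hpx hlt
    rcases le_total X.om ω₀ with hω | hω
    · exact Or.inl (Or.inr ⟨X, (hKB p q x hq X hω).mono (le_max_right _ _)⟩)
    rcases hKA p q x hq X hω with hg | ⟨c, hc, hexc⟩
    · exact Or.inl (Or.inr ⟨X, hg.mono (le_max_left _ _)⟩)
    right
    have hlam := hexc.small_lam (by omega) hM2 hε2' hc
    rw [hq] at hlam
    have hlam2 : X.lam ≤ Real.exp (-ω₀) := by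
      rw [← X.exp_neg_om]
      exact Real.exp_le_exp.mpr (by linarith)
    obtain ⟨j, k, hj, hjk, hk, hPm, hQm⟩ := hpmon p q x hq X hlam.le hlam2 c hc hexc
    have hxc : x - c ≠ 0 := sub_ne_zero.mpr (X.x_ne hc)
    simp only [hS2, mem_iUnion]
    refine ⟨c, ?_, (j, k), ?_, ?_⟩
    · simp [hq0, hc]
    · simp; omega
    · rw [if_pos ⟨hj, hjk⟩]
      refine ⟨x - c, ⟨hxc, ?_, hPm, hQm⟩, by ring⟩
      rw [trP_eval, trQ_eval, map_sub]
      linear_combination hx
  have hfin : ((S0 ∪ S1) ∪ S2).Finite := (hS0c.1.union hS1c.1).union hS2c.1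
  refine ⟨hfin.subset hsub, (ncard_le_ncard hsub hfin).trans ?_⟩
  have h1 := ncard_union_le (S0 ∪ S1) S2
  have h2 := ncard_union_le S0 S1
  have h3 := hS1c.2
  have h4 := hS0c.2
  have h5 := hS2c.2
  rw [hq] at h3
  have h6 : m * ((m + 1) * (m + 1) * (2 * m)) ≤
      m * (m + 1) * (m + 1) * (2 * m) * p.natDegree := by
    have : 1 ≤ p.natDegree := by omega
    calc m * ((m + 1) * (m + 1) * (2 * m)) = m * (m + 1) * (m + 1) * (2 * m) * 1 := by ring
      _ ≤ _ := Nat.mul_le_mul_left _ this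
  calc _ ≤ p.natDegree + p.natDegree * m ^ (K + 2) + m * (m + 1) * (m + 1) * (2 * m) * p.natDegree := by
        have : S1.ncard ≤ p.natDegree * m ^ (K + 2) := h3
        omega
    _ = _ := by ring

end Pool.Agent.HZ
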