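import Mathlib

/-! MP_cd3d06_an, module Log: analytic logarithms on discs -/

open Polynomial Metric Set Filter Topology
open scoped ComplexConjugate

namespace Pool.Agent.HZ

/-- analytic logarithm of a zero-free function on a disc -/
theorem exists_log_ball {g : ℂ → ℂ} {c : ℂ} {r : ℝ} (hg : DifferentiableOn ℂ g (ball c r))
    (h0 : ∀ z ∈ ball c r, g z ≠ 0) :
    ∃ L : ℂ → ℂ, (∀ z ∈ ball c r, HasDerivAt L (deriv g z / g z) z) ∧
      ∀ z ∈ ball c r, Complex.exp (L z) = g z := by
  rcases le_or_gt r 0 with hr | hr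
  · refine ⟨0, ?_, ?_⟩ <;> intro z hz <;> rw [ball_eq_empty.2 hr] at hz <;>
      exact absurd hz (Set.notMem_empty _)
  have hd : DifferentiableOn ℂ (fun z => deriv g z / g z) (ball c r) :=
    (hg.deriv isOpen_ball).div hg h0
  obtain ⟨L0, hL0⟩ := hd.isExactOn_ball
  have hh : ∀ z ∈ ball c r, HasDerivAt (fun z => g z * Complex.exp (-L0 z)) 0 z := by
    intro z hz
    have h1 := (hg.differentiableAt (isOpen_ball.mem_nhds hz)).hasDerivAt
    have h2 := (hL0 z hz).neg.cexp
    have h3 : HasDerivAt (fun z => g z * Complex.exp (-L0 z)) (deriv g z * Complex.exp (-L0 z)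
      + g z * (Complex.exp (-L0 z) * -(deriv g z / g z))) z := h1.mul h2
    have hz0 := h0 z hz
    refine h3.congr_deriv ?_
    field_simp
    ring
  have hconst : ∀ z ∈ ball c r, g z * Complex.exp (-L0 z) = g c * Complex.exp (-L0 c) := by
    intro z hz
    exact isOpen_ball.is_const_of_deriv_eq_zero (convex_ball c r).isPreconnected
      (fun w hw => (hh w hw).differentiableAt.differentiableWithinAt)
      (fun w hw => (hh w hw).deriv) hz (mem_ball_self hr)
  have hA : g c * Complex.exp (-L0 c) ≠ 0 :=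
    mul_ne_zero (h0 c (mem_ball_self hr)) (Complex.exp_ne_zero _)
  refine ⟨fun z => L0 z + Complex.log (g c * Complex.exp (-L0 c)),
    fun z hz => (hL0 z hz).add_const _, fun z hz => ?_⟩
  simp only []
  rw [Complex.exp_add, Complex.exp_log hA, ← hconst z hz, mul_comm (g z), ← mul_assoc,
    ← Complex.exp_add, add_neg_cancel, Complex.exp_zero, one_mul]

end Pool.Agent.HZ
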