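import Pool.Agent.H.MP_cd3d06_an.L.Defs
import Pool.Agent.H.MP_cd3d06_an.L.Log

/-! MP_cd3d06_an, module Basic: basic facts about the linearizer -/

open Polynomial Metric Set Filter Topology
open scoped ComplexConjugate

namespace Pool.Agent.HZ

namespace Lin

variable {p q : ℂ[X]} {x : ℂ} (X : Lin p q x)

theorem om_pos : 0 < X.om := by
  unfold om
  have := Real.log_neg X.lam_pos X.lam_lt
  linarith

theorem exp_neg_om : Real.exp (-X.om) = X.lam := by
  unfold om
  rw [neg_neg, Real.exp_log X.lam_pos]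

theorem S_re (v : ℂ) : (X.S v).re = v.re - X.om := by
  simp [S]

theorem S_S (v : ℂ) : X.S (X.S v) = v - 2 * X.om := by
  simp only [S, map_sub, Complex.conj_conj, Complex.conj_ofReal]
  ring

theorem S_sub (v w : ℂ) : X.S v - X.S w = conj (v - w) := by
  simp [S]

theorem norm_exp_lt {v : ℂ} {y : ℝ} (hv : v.re < -y) : ‖Complex.exp v‖ < Real.exp (-y) := by
  rw [Complex.norm_exp]
  exact Real.exp_lt_exp.2 hv

private theorem exp_mem {v : ℂ} (hv : v.re < 0) : Complex.exp v ∈ ball (0 : ℂ) 1 := by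
  rw [mem_ball_zero_iff, Complex.norm_exp, ← Real.exp_zero]
  exact Real.exp_lt_exp.2 hv

private theorem exp_mem_lam {v : ℂ} (hv : v.re < -X.om) : Complex.exp v ∈ ball (0 : ℂ) X.lam := by
  rw [mem_ball_zero_iff, Complex.norm_exp, ← X.exp_neg_om]
  exact Real.exp_lt_exp.2 hv

private theorem exp_S (v : ℂ) : Complex.exp (X.S v) = X.lam * conj (Complex.exp v) := by
  unfold S
  rw [Complex.exp_sub, Complex.exp_conj, ← X.exp_neg_om, Real.exp_neg, Complex.ofReal_inv,
    Complex.ofReal_exp]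
  field_simp

/-- the functional equation -/
theorem fe_f {v : ℂ} (hv : v.re < 0) : p.eval (X.f v) = - conj (q.eval (X.f (X.S v))) := by
  unfold f
  rw [X.exp_S]
  exact X.fe _ (exp_mem hv)

theorem f_periodic (v : ℂ) : X.f (v + 2 * Real.pi * Complex.I) = X.f v := by
  unfold f
  rw [Complex.exp_periodic v]

private theorem psi_diffAt {t : ℂ} (ht : t ∈ ball (0 : ℂ) 1) : DifferentiableAt ℂ X.psi t :=
  (X.diff t ht).differentiableAt (isOpen_ball.mem_nhds ht)

private theorem norm_lam_mul (t : ℂ) : ‖(X.lam : ℂ) * conj t‖ = X.lam * ‖t‖ := by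
  rw [norm_mul, RCLike.norm_conj, Complex.norm_real, Real.norm_of_nonneg X.lam_pos.le]

private theorem lam_mem {t : ℂ} (ht : t ∈ ball (0 : ℂ) 1) : (X.lam : ℂ) * conj t ∈ ball (0 : ℂ) X.lam := by
  rw [mem_ball_zero_iff] at ht ⊢
  rw [X.norm_lam_mul]
  exact mul_lt_of_lt_one_right X.lam_pos ht

private theorem deriv_psi_step {t : ℂ} (ht : t ∈ ball (0 : ℂ) 1) (h0 : deriv X.psi t = 0) :
    deriv X.psi (X.lam * conj t) = 0 := by
  set u : ℂ := X.lam * conj t with hu
  have hu1 : u ∈ ball (0 : ℂ) X.lam := X.lam_mem ht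
  have hu2 : u ∈ ball (0 : ℂ) 1 := ball_subset_ball X.lam_lt.le hu1
  -- left hand side
  have hL : HasDerivAt (fun s => p.eval (X.psi s)) ((derivative p).eval (X.psi t) * 0) t := by
    have h1 : HasDerivAt X.psi 0 t := by
      rw [← h0]
      exact (X.psi_diffAt ht).hasDerivAt
    exact (p.hasDerivAt (X.psi t)).comp t h1
  -- right hand side
  have hg : HasDerivAt (fun s => q.eval (X.psi s)) ((derivative q).eval (X.psi u) * deriv X.psi u)
      u := (q.hasDerivAt (X.psi u)).comp u (X.psi_diffAt hu2).hasDerivAt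
  have hc := hg.conj_conj
  have hcu : conj u = X.lam * t := by
    rw [hu, map_mul, Complex.conj_conj, Complex.conj_ofReal]
  rw [hcu] at hc
  have hmul : HasDerivAt (fun s : ℂ => (X.lam : ℂ) * s) (X.lam : ℂ) t := by
    simpa using (hasDerivAt_id t).const_mul (X.lam : ℂ)
  have hR := (hc.comp t hmul).neg
  have heq : (fun s => p.eval (X.psi s)) =ᶠ[𝓝 t]
      (-((conj ∘ (fun s => q.eval (X.psi s)) ∘ conj) ∘ fun s : ℂ => (X.lam : ℂ) * s)) := by
    filter_upwards [isOpen_ball.mem_nhds ht] with s hs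
    rw [X.fe s hs]
    simp only [Pi.neg_apply, Function.comp_apply, map_mul, Complex.conj_ofReal]
  have huniq := (hL.congr_of_eventuallyEq heq.symm).unique hR
  rw [mul_zero] at huniq
  have h2 : conj ((derivative q).eval (X.psi u) * deriv X.psi u) * (X.lam : ℂ) = 0 := by
    rw [← neg_eq_zero]
    exact huniq.symm
  have h3 : (X.lam : ℂ) ≠ 0 := by exact_mod_cast X.lam_pos.ne'
  have h4 : (derivative q).eval (X.psi u) * deriv X.psi u = 0 := by
    have := (mul_eq_zero.1 h2).resolve_right h3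
    rwa [map_eq_zero] at this
  exact (mul_eq_zero.1 h4).resolve_left (X.hq u hu1)

private theorem deriv_psi_diffOn : DifferentiableOn ℂ (deriv X.psi) (ball 0 1) :=
  X.diff.deriv isOpen_ball

theorem psi_deriv_ne {t : ℂ} (ht : t ∈ ball (0 : ℂ) 1) : deriv X.psi t ≠ 0 := by
  intro h0
  have hiter : ∀ k : ℕ, ∃ s : ℂ, s ∈ ball (0 : ℂ) 1 ∧ ‖s‖ ≤ X.lam ^ k ∧ deriv X.psi s = 0 := by
    intro k
    induction k with
    | zero =>
      refine ⟨t, ht, ?_, h0⟩
      rw [pow_zero]
      exact (mem_ball_zero_iff.1 ht).le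
    | succ k ih =>
      obtain ⟨s, hs, hs2, hs3⟩ := ih
      refine ⟨X.lam * conj s, ball_subset_ball X.lam_lt.le (X.lam_mem hs), ?_,
        X.deriv_psi_step hs hs3⟩
      rw [X.norm_lam_mul, pow_succ, mul_comm]
      exact mul_le_mul_of_nonneg_right hs2 X.lam_pos.le
  choose s hs1 hs2 hs3 using hiter
  have hlim : Tendsto s atTop (𝓝 0) := by
    rw [tendsto_zero_iff_norm_tendsto_zero]
    exact squeeze_zero (fun k => norm_nonneg _) hs2
      (tendsto_pow_atTop_nhds_zero_of_lt_one X.lam_pos.le X.lam_lt)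
  have hcont : ContinuousAt (deriv X.psi) 0 :=
    (X.deriv_psi_diffOn.continuousOn).continuousAt (isOpen_ball.mem_nhds (mem_ball_self one_pos))
  have h1 := hcont.tendsto.comp hlim
  have h2 : (deriv X.psi ∘ s) = fun _ => (0 : ℂ) := by
    funext k
    exact hs3 k
  rw [h2] at h1
  exact X.deriv_ne (tendsto_nhds_unique h1 tendsto_const_nhds)

theorem psi_inj : ∃ r > 0, r < 1 ∧ InjOn X.psi (ball 0 r) := by
  have h0 : (0 : ℂ) ∈ ball (0 : ℂ) 1 := mem_ball_self one_pos
  have han : AnalyticAt ℂ X.psi 0 := X.diff.analyticAt (isOpen_ball.mem_nhds h0)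
  have hs : HasStrictDerivAt X.psi (deriv X.psi 0) 0 := han.hasStrictDerivAt
  have he := hs.hasStrictFDerivAt_equiv X.deriv_ne
  set e := he.toOpenPartialHomeomorph X.psi with hedef
  have hmem : (0 : ℂ) ∈ e.source := he.mem_toOpenPartialHomeomorph_source
  have hinj : InjOn X.psi e.source := e.injOn
  obtain ⟨ε, hε, hε2⟩ := Metric.isOpen_iff.1 e.open_source 0 hmem
  refine ⟨min ε (1 / 2), by positivity, ?_, ?_⟩
  · exact lt_of_le_of_lt (min_le_right _ _) (by norm_num)
  · exact hinj.mono ((ball_subset_ball (min_le_left _ _)).trans hε2)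

theorem f_ne {c v : ℂ} (hc : (derivative q).eval c = 0) (hv : v.re < -X.om) : X.f v ≠ c := by
  intro h
  apply X.hq _ (X.exp_mem_lam hv)
  have h' : X.psi (Complex.exp v) = c := h
  rw [h', hc]

private theorem psi_ne {c t : ℂ} (hc : (derivative q).eval c = 0) (ht : t ∈ ball (0 : ℂ) X.lam) :
    X.psi t ≠ c := by
  intro h
  apply X.hq _ ht
  rw [h, hc]

include X in
theorem x_ne {c : ℂ} (hc : (derivative q).eval c = 0) : x ≠ c := by
  have := X.psi_ne hc (mem_ball_self X.lam_pos)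
  rwa [X.zero] at this

theorem f_differentiableAt {v : ℂ} (hv : v.re < 0) : DifferentiableAt ℂ X.f v :=
  (X.psi_diffAt (exp_mem hv)).comp v Complex.differentiableAt_exp

theorem ld_ne {c v : ℂ} (hc : (derivative q).eval c = 0) (hv : v.re < -X.om) : X.ld c v ≠ 0 := by
  unfold ld
  have h1 : Complex.exp v ∈ ball (0 : ℂ) 1 := ball_subset_ball X.lam_lt.le (X.exp_mem_lam hv)
  exact div_ne_zero (mul_ne_zero (Complex.exp_ne_zero _) (X.psi_deriv_ne h1))
    (sub_ne_zero.2 (X.psi_ne hc (X.exp_mem_lam hv)))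

theorem ld_periodic (c v : ℂ) : X.ld c (v + 2 * Real.pi * Complex.I) = X.ld c v := by
  unfold ld
  rw [Complex.exp_periodic v]

/-- `t ψ'(t) / (ψ(t) - c)` -/
private noncomputable def ht (c t : ℂ) : ℂ := t * deriv X.psi t / (X.psi t - c)

private theorem ht_diffOn {c : ℂ} (hc : (derivative q).eval c = 0) :
    DifferentiableOn ℂ (X.ht c) (ball 0 X.lam) := by
  unfold ht
  have hsub : ball (0 : ℂ) X.lam ⊆ ball 0 1 := ball_subset_ball X.lam_lt.le
  refine DifferentiableOn.fun_div (differentiableOn_id.fun_mul (X.deriv_psi_diffOn.mono hsub))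
    ((X.diff.mono hsub).sub_const c) ?_
  intro t ht
  exact sub_ne_zero.2 (X.psi_ne hc ht)

private theorem ld_eq_ht (c v : ℂ) : X.ld c v = X.ht c (Complex.exp v) := rfl

theorem ld_differentiableOn {c : ℂ} (hc : (derivative q).eval c = 0) :
    DifferentiableOn ℂ (X.ld c) {v : ℂ | v.re < -X.om} := by
  have h1 : X.ld c = X.ht c ∘ Complex.exp := rfl
  rw [h1]
  exact (X.ht_diffOn hc).comp Complex.differentiable_exp.differentiableOn
    (fun v hv => X.exp_mem_lam hv)

/-- the logarithm `L` of `ψ - c` on the disc `|t| < λ` -/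
theorem exists_L {c : ℂ} (hc : (derivative q).eval c = 0) : ∃ L : ℂ → ℂ,
    (∀ t ∈ ball (0 : ℂ) X.lam, HasDerivAt L (deriv X.psi t / (X.psi t - c)) t) ∧
      ∀ t ∈ ball (0 : ℂ) X.lam, Complex.exp (L t) = X.psi t - c := by
  have hsub : ball (0 : ℂ) X.lam ⊆ ball 0 1 := ball_subset_ball X.lam_lt.le
  obtain ⟨L, hL1, hL2⟩ := exists_log_ball (g := fun t => X.psi t - c)
    ((X.diff.mono hsub).sub_const c) (fun t ht => sub_ne_zero.2 (X.psi_ne hc ht))
  refine ⟨L, fun t ht => ?_, hL2⟩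
  have := hL1 t ht
  rwa [deriv_sub_const] at this

/-- the logarithm `F` of `f - c` on the half plane `Re v < - ω` -/
theorem exists_F {c : ℂ} (hc : (derivative q).eval c = 0) : ∃ F : ℂ → ℂ,
    (∀ v : ℂ, v.re < -X.om → HasDerivAt F (X.ld c v) v) ∧
    (∀ v : ℂ, v.re < -X.om → Complex.exp (F v) = X.f v - c) ∧
    (∀ v : ℂ, F (v + 2 * Real.pi * Complex.I) = F v) ∧
    ∃ w : ℂ, ∀ v : ℂ, Tendsto (fun l : ℕ => F (v - 2 * l * X.om)) atTop (𝓝 w) := by
  obtain ⟨L, hL1, hL2⟩ := X.exists_L hc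
  refine ⟨fun v => L (Complex.exp v), ?_, ?_, ?_, L 0, ?_⟩
  · intro v hv
    have h1 := (hL1 _ (X.exp_mem_lam hv)).comp v (Complex.hasDerivAt_exp v)
    have h2 : X.ld c v = deriv X.psi (Complex.exp v) / (X.psi (Complex.exp v) - c) *
        Complex.exp v := by
      unfold ld
      ring
    rw [h2]
    exact h1
  · intro v hv
    exact hL2 _ (X.exp_mem_lam hv)
  · intro v
    simp only
    rw [Complex.exp_periodic v]
  · intro v
    have hcont : ContinuousAt L 0 := (hL1 0 (mem_ball_self X.lam_pos)).continuousAt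
    refine hcont.tendsto.comp ?_
    rw [tendsto_zero_iff_norm_tendsto_zero]
    have h1 : ∀ l : ℕ, ‖Complex.exp (v - 2 * l * X.om)‖ = Real.exp v.re * (X.lam ^ 2) ^ l := by
      intro l
      rw [Complex.norm_exp]
      have h2 : (v - 2 * l * X.om).re = v.re + l * (2 * -X.om) := by
        simp
        ring
      rw [h2, Real.exp_add, Real.exp_nat_mul, ← X.exp_neg_om, ← Real.exp_nat_mul (-X.om) 2]
      norm_num
    have h3 : Tendsto (fun l : ℕ => Real.exp v.re * (X.lam ^ 2) ^ l) atTop (𝓝 0) := by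
      have := (tendsto_pow_atTop_nhds_zero_of_lt_one (r := X.lam ^ 2) (by positivity)
        (pow_lt_one₀ X.lam_pos.le X.lam_lt two_ne_zero)).const_mul (Real.exp v.re)
      simpa using this
    refine h3.congr (fun l => ?_)
    exact (h1 l).symm

include X in
private theorem q_deriv_ne_zero : derivative q ≠ 0 := by
  intro h
  apply X.hq 0 (mem_ball_self X.lam_pos)
  rw [h]
  simp

theorem bound_exists {y : ℝ} (hy : X.om < y) : ∃ G : ℝ, 0 ≤ G ∧ X.Bound y G := by
  classical
  have hsub : closedBall (0 : ℂ) (Real.exp (-y)) ⊆ ball 0 X.lam := by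
    apply closedBall_subset_ball
    rw [← X.exp_neg_om]
    exact Real.exp_lt_exp.2 (by linarith)
  have h1 : ∀ c : ℂ, ∃ G : ℝ, 0 ≤ G ∧ ((derivative q).eval c = 0 →
      ∀ t ∈ closedBall (0 : ℂ) (Real.exp (-y)), ‖X.ht c t‖ ≤ G) := by
    intro c
    by_cases hc : (derivative q).eval c = 0
    · obtain ⟨G, hG⟩ := (isCompact_closedBall (0 : ℂ) (Real.exp (-y))).exists_bound_of_continuousOn
        (((X.ht_diffOn hc).continuousOn).mono hsub)
      exact ⟨|G|, abs_nonneg _, fun _ t ht => (hG t ht).trans (le_abs_self G)⟩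
    · exact ⟨0, le_rfl, fun h => (hc h).elim⟩
  choose G hG0 hG using h1
  refine ⟨∑ c ∈ (derivative q).roots.toFinset, G c, Finset.sum_nonneg fun c _ => hG0 c, ?_⟩
  intro c hc v hv
  rw [X.ld_eq_ht]
  have hv' : Complex.exp v ∈ closedBall (0 : ℂ) (Real.exp (-y)) := by
    rw [mem_closedBall_zero_iff, Complex.norm_exp]
    exact Real.exp_le_exp.2 hv
  refine (hG c hc _ hv').trans ?_
  apply Finset.single_le_sum (f := G) (fun c _ => hG0 c)
  rw [Multiset.mem_toFinset, mem_roots X.q_deriv_ne_zero]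
  exact hc

theorem bound_lim {G : ℝ} (hG : 0 < G) : ∃ y : ℝ, X.om < y ∧ X.Bound y G := by
  classical
  have h1 : ∀ᶠ t in 𝓝 (0 : ℂ), ∀ c ∈ (derivative q).roots.toFinset, ‖X.ht c t‖ ≤ G := by
    rw [Filter.eventually_all_finset]
    intro c hc
    rw [Multiset.mem_toFinset, mem_roots X.q_deriv_ne_zero] at hc
    have hcont : ContinuousAt (X.ht c) 0 :=
      ((X.ht_diffOn hc).continuousOn).continuousAt
        (isOpen_ball.mem_nhds (mem_ball_self X.lam_pos))
    have h2 : Tendsto (fun t => ‖X.ht c t‖) (𝓝 0) (𝓝 ‖X.ht c 0‖) := hcont.norm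
    have h3 : ‖X.ht c 0‖ < G := by
      simpa [ht] using hG
    exact (h2.eventually (gt_mem_nhds h3)).mono fun t ht => ht.le
  obtain ⟨r, hr, hr2⟩ := Metric.eventually_nhds_iff.1 h1
  refine ⟨max (-Real.log r + 1) (X.om + 1), ?_, ?_⟩
  · exact lt_of_lt_of_le (by linarith) (le_max_right _ _)
  · intro c hc v hv
    rw [X.ld_eq_ht]
    apply hr2
    · rw [dist_zero_right, Complex.norm_exp, ← Real.exp_log hr]
      apply Real.exp_lt_exp.2
      have := le_max_left (-Real.log r + 1) (X.om + 1)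
      linarith
    · rw [Multiset.mem_toFinset, mem_roots X.q_deriv_ne_zero]
      exact hc

theorem Bound.mono {X : Lin p q x} {y y' G G' : ℝ} (h : X.Bound y G) (hy : y ≤ y')
    (hG : G ≤ G') : X.Bound y' G' := by
  intro c hc v hv
  exact (h c hc v (by linarith)).trans hG

/-- Schwarz: the logarithmic derivative decays exponentially -/
theorem Bound.schwarz {X : Lin p q x} {y G : ℝ} (hy : X.om < y) (h : X.Bound y G) {c : ℂ}
    (hc : (derivative q).eval c = 0) {v : ℂ} (hv : v.re ≤ -y) :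
    ‖X.ld c v‖ ≤ G * Real.exp (v.re + y) := by
  have hG0 : 0 ≤ G := (norm_nonneg _).trans (h c hc (-y : ℝ) (by simp))
  rcases hv.eq_or_lt with hv' | hv'
  · rw [hv', neg_add_cancel, Real.exp_zero, mul_one]
    exact h c hc v hv
  have hsub : ball (0 : ℂ) (Real.exp (-y)) ⊆ ball 0 X.lam := by
    apply ball_subset_ball
    rw [← X.exp_neg_om]
    exact Real.exp_le_exp.2 (by linarith)
  have h0 : X.ht c 0 = 0 := by simp [ht]
  have hmaps : MapsTo (X.ht c) (ball 0 (Real.exp (-y))) (closedBall (X.ht c 0) G) := by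
    intro t ht
    rw [h0, mem_closedBall_zero_iff]
    by_cases ht0 : t = 0
    · subst ht0
      rw [h0, norm_zero]
      exact hG0
    · have h1 := h c hc (Complex.log t) (by
        rw [Complex.log_re]
        rw [mem_ball_zero_iff] at ht
        have := Real.log_le_log (norm_pos_iff.2 ht0) ht.le
        rwa [Real.log_exp] at this)
      rw [X.ld_eq_ht, Complex.exp_log ht0] at h1
      exact h1
  have h2 := Complex.dist_le_div_mul_dist_of_mapsTo_ball ((X.ht_diffOn hc).mono hsub) hmaps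
    (z := Complex.exp v) (by
      rw [mem_ball_zero_iff, Complex.norm_exp]
      exact Real.exp_lt_exp.2 hv')
  rw [h0, dist_zero_right, dist_zero_right, Complex.norm_exp] at h2
  rw [X.ld_eq_ht]
  refine h2.trans (le_of_eq ?_)
  rw [Real.exp_neg, Real.exp_add]
  field_simp

end Lin

end Pool.Agent.HZ
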