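import Mathlib

/-! MP_cd3d06_an, module Bloch: a weak form of Bloch's theorem -/

open Polynomial Metric Set Filter Topology
open scoped ComplexConjugate

namespace Pool.Agent.HZ

/-- A holomorphic function with slowly varying derivative covers a disc. -/
private theorem ball_subset_image_of_deriv_le {g : ℂ → ℂ} {a : ℂ} {r : ℝ}
    (hr : 0 < r) (hg : DifferentiableOn ℂ g (ball a r)) (ha : deriv g a ≠ 0)
    (hle : ∀ z ∈ ball a r, ‖deriv g z‖ ≤ 2 * ‖deriv g a‖) :
    ball (g a) (‖deriv g a‖ * r / 12 / 2) ⊆ g '' ball a r := by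
  have hpos : 0 < ‖deriv g a‖ := norm_pos_iff.mpr ha
  have hgz : ∀ z ∈ ball a r, DifferentiableAt ℂ g z := fun z hz =>
    hg.differentiableAt (isOpen_ball.mem_nhds hz)
  have hdd : DifferentiableOn ℂ (deriv g) (ball a r) := hg.deriv isOpen_ball
  have hmaps : MapsTo (deriv g) (ball a r) (closedBall (deriv g a) (3 * ‖deriv g a‖)) := by
    intro z hz
    rw [mem_closedBall, dist_eq_norm]
    have := hle z hz
    have h2 := norm_sub_le (deriv g z) (deriv g a)
    linarith
  have hschw : ∀ z ∈ ball a r, ‖deriv g z - deriv g a‖ ≤ 3 * ‖deriv g a‖ / r * ‖z - a‖ := by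
    intro z hz
    have := Complex.dist_le_div_mul_dist_of_mapsTo_ball hdd hmaps hz
    simpa [dist_eq_norm] using this
  set ρ : ℝ := r / 6 with hρ
  have hρ0 : 0 < ρ := by positivity
  have hsub : closedBall a ρ ⊆ ball a r := closedBall_subset_ball (by rw [hρ]; linarith)
  have hA : ∀ z ∈ sphere a ρ, ‖g z - g a - deriv g a * (z - a)‖ ≤
      3 * ‖deriv g a‖ / r * ρ * ρ := by
    intro z hz
    have hcv : Convex ℝ (closedBall a ρ) := convex_closedBall a ρ
    have hder : ∀ w ∈ closedBall a ρ,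
        HasDerivWithinAt (fun w => g w - deriv g a * w) (deriv g w - deriv g a)
          (closedBall a ρ) w := by
      intro w hw
      have := ((hgz w (hsub hw)).hasDerivAt.sub ((hasDerivAt_id w).const_mul (deriv g a)))
      simpa using! this.hasDerivWithinAt
    have hbd : ∀ w ∈ closedBall a ρ, ‖deriv g w - deriv g a‖ ≤ 3 * ‖deriv g a‖ / r * ρ := by
      intro w hw
      refine (hschw w (hsub hw)).trans ?_
      have : ‖w - a‖ ≤ ρ := by simpa [dist_eq_norm] using hw
      gcongr
    have h3 := hcv.norm_image_sub_le_of_norm_hasDerivWithin_le hder hbd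
      (mem_closedBall_self hρ0.le) (sphere_subset_closedBall hz)
    have h4 : ‖z - a‖ = ρ := by simpa [dist_eq_norm] using hz
    rw [h4] at h3
    have h5 : g z - deriv g a * z - (g a - deriv g a * a) = g z - g a - deriv g a * (z - a) := by
      ring
    rwa [h5] at h3
  have hlow : ∀ z ∈ sphere a ρ, ‖deriv g a‖ * r / 12 ≤ ‖g z - g a‖ := by
    intro z hz
    have h4 : ‖z - a‖ = ρ := by simpa [dist_eq_norm] using hz
    have h1 := hA z hz
    have h2 : ‖deriv g a * (z - a)‖ ≤ ‖g z - g a‖ + ‖g z - g a - deriv g a * (z - a)‖ := by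
      have := norm_sub_le (g z - g a) (g z - g a - deriv g a * (z - a))
      have h6 : g z - g a - (g z - g a - deriv g a * (z - a)) = deriv g a * (z - a) := by ring
      rwa [h6] at this
    rw [norm_mul, h4] at h2
    have h7 : 3 * ‖deriv g a‖ / r * ρ * ρ = ‖deriv g a‖ * r / 12 := by
      rw [hρ]; field_simp; ring
    rw [h7] at h1
    have h8 : ‖deriv g a‖ * ρ = ‖deriv g a‖ * r / 6 := by rw [hρ]; ring
    rw [h8] at h2
    linarith
  have hfreq : ∃ᶠ z in 𝓝 a, g z ≠ g a := by
    intro hcon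
    have hev : ∀ᶠ z in 𝓝 a, g z = g a := by
      filter_upwards [hcon] with z hz
      simpa using hz
    have : deriv g a = 0 := by
      have h9 : g =ᶠ[𝓝 a] fun _ => g a := hev
      rw [h9.deriv_eq]; simp
    exact ha this
  have hdc : DiffContOnCl ℂ g (ball a ρ) := by
    apply DifferentiableOn.diffContOnCl
    rw [closure_ball a hρ0.ne']
    exact hg.mono hsub
  have := hdc.ball_subset_image_closedBall hρ0 hlow hfreq
  exact this.trans (image_mono hsub)

/-- weak form of the theorem of Bloch -/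
theorem bloch {F : ℂ → ℂ} {u : ℂ} {r : ℝ} (hr : 0 < r) (hF : DifferentiableOn ℂ F (ball u r)) :
    ∃ w : ℂ, ball w (r * ‖deriv F u‖ / 96) ⊆ F '' ball u r := by
  by_cases hu : deriv F u = 0
  · refine ⟨0, ?_⟩
    rw [hu]
    simp
  have hpos : 0 < ‖deriv F u‖ := norm_pos_iff.mpr hu
  set R : ℝ := r / 2 with hR
  have hR0 : 0 < R := by positivity
  have hsubR : closedBall u R ⊆ ball u r := closedBall_subset_ball (by rw [hR]; linarith)
  have hdd : DifferentiableOn ℂ (deriv F) (ball u r) := hF.deriv isOpen_ball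
  have hcont : ContinuousOn (fun z => ‖deriv F z‖ * (R - ‖z - u‖)) (closedBall u R) := by
    have h1 : ContinuousOn (deriv F) (closedBall u R) := hdd.continuousOn.mono hsubR
    exact h1.norm.mul (by fun_prop)
  obtain ⟨p, hp, hpmax⟩ := (isCompact_closedBall u R).exists_isMaxOn
    ⟨u, mem_closedBall_self hR0.le⟩ hcont
  have hM : ‖deriv F u‖ * R ≤ ‖deriv F p‖ * (R - ‖p - u‖) := by
    have := hpmax (mem_closedBall_self (x := u) hR0.le)
    simpa using this
  have hpc : ‖p - u‖ ≤ R := by simpa [dist_eq_norm] using hp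
  have hpos2 : 0 < ‖deriv F p‖ * (R - ‖p - u‖) := lt_of_lt_of_le (by positivity) hM
  have hpR : 0 < R - ‖p - u‖ := by
    rcases (sub_nonneg.mpr hpc).lt_or_eq with h | h
    · exact h
    · rw [← h] at hpos2; simp at hpos2
  have hdp : 0 < ‖deriv F p‖ := by
    rcases (norm_nonneg (deriv F p)).lt_or_eq with h | h
    · exact h
    · rw [← h] at hpos2; simp at hpos2
  set t : ℝ := (R - ‖p - u‖) / 2 with ht
  have ht0 : 0 < t := by positivity
  have hmem : ∀ z ∈ ball p t, z ∈ closedBall u R ∧ t ≤ R - ‖z - u‖ := by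
    intro z hz
    have hzp : ‖z - p‖ < t := by simpa [dist_eq_norm] using hz
    have hzc : ‖z - u‖ ≤ ‖z - p‖ + ‖p - u‖ := by
      have := norm_add_le (z - p) (p - u)
      simpa using this
    have h1 : t ≤ R - ‖z - u‖ := by
      have : R - ‖p - u‖ = 2 * t := by rw [ht]; ring
      linarith
    refine ⟨?_, h1⟩
    rw [mem_closedBall, dist_eq_norm]; linarith
  have hle : ∀ z ∈ ball p t, ‖deriv F z‖ ≤ 2 * ‖deriv F p‖ := by
    intro z hz
    obtain ⟨hzmem, h1⟩ := hmem z hz
    have h2 : ‖deriv F z‖ * (R - ‖z - u‖) ≤ ‖deriv F p‖ * (R - ‖p - u‖) := hpmax hzmem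
    have h3 : ‖deriv F z‖ * t ≤ ‖deriv F p‖ * (2 * t) := by
      calc ‖deriv F z‖ * t ≤ ‖deriv F z‖ * (R - ‖z - u‖) := by gcongr
        _ ≤ _ := h2
        _ = ‖deriv F p‖ * (2 * t) := by rw [ht]; ring
    have h4 : ‖deriv F z‖ * t ≤ (2 * ‖deriv F p‖) * t := by linarith
    exact le_of_mul_le_mul_right h4 ht0
  have hsubt : ball p t ⊆ ball u r := fun z hz => hsubR (hmem z hz).1
  refine ⟨F p, ?_⟩
  have h5 := ball_subset_image_of_deriv_le ht0 (hF.mono hsubt) (norm_pos_iff.mp hdp) hle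
  refine (ball_subset_ball ?_).trans (h5.trans (image_mono hsubt))
  have h6 : ‖deriv F p‖ * t / 12 / 2 = ‖deriv F p‖ * (R - ‖p - u‖) / 48 := by rw [ht]; ring
  rw [h6]
  have h7 : r * ‖deriv F u‖ / 96 = ‖deriv F u‖ * R / 48 := by rw [hR]; ring
  rw [h7]
  linarith

end Pool.Agent.HZ
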