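import Mathlib

/-! MP_cd3d06_an, module Collide: a primitive of an almost exponential function is not injective -/

open Polynomial Metric Set Filter Topology
open scoped ComplexConjugate

namespace Pool.Agent.HZ

private theorem exp_seven_lt : Real.exp 7 < 1100 := by
  have h1 : Real.exp 7 = Real.exp 1 ^ 7 := by
    rw [← Real.exp_nat_mul]; norm_num
  rw [h1]
  have h2 := Real.exp_one_lt_d9
  have h3 : Real.exp 1 ^ 7 < (2.7182818286 : ℝ) ^ 7 :=
    pow_lt_pow_left₀ h2 (Real.exp_pos 1).le (by norm_num)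
  refine h3.trans ?_
  norm_num

/-- normalised form of the collision lemma -/
private theorem collide_aux {W e : ℂ → ℂ} (hW0 : W 0 = 0)
    (hW : ∀ s ∈ ball (0 : ℂ) 8, HasDerivAt W (Complex.exp (s + e s)) s)
    (he : ∀ s ∈ ball (0 : ℂ) 8, ‖e s‖ ≤ 2 / 10 ^ 6) :
    ∃ s : ℂ, ‖s - 2 * Real.pi * Complex.I‖ ≤ 1 / 2 ∧ W s = 0 := by
  have hpi := Real.pi_gt_three
  have hpi2 := Real.pi_lt_d2
  have hsub7 : closedBall (0 : ℂ) 7 ⊆ ball (0 : ℂ) 8 := closedBall_subset_ball (by norm_num)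
  have hcmp : ∀ s ∈ closedBall (0 : ℂ) 7, ‖W s - (Complex.exp s - 1)‖ ≤ 44 / 10 ^ 4 * 7 := by
    intro s hs
    have hder : ∀ w ∈ closedBall (0 : ℂ) 7,
        HasDerivWithinAt (fun w => W w - (Complex.exp w - 1))
          (Complex.exp (w + e w) - Complex.exp w) (closedBall (0 : ℂ) 7) w := by
      intro w hw
      exact ((hW w (hsub7 hw)).sub ((Complex.hasDerivAt_exp w).sub_const 1)).hasDerivWithinAt
    have hbd : ∀ w ∈ closedBall (0 : ℂ) 7,
        ‖Complex.exp (w + e w) - Complex.exp w‖ ≤ 44 / 10 ^ 4 := by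
      intro w hw
      have h1 : Complex.exp (w + e w) - Complex.exp w =
          Complex.exp w * (Complex.exp (e w) - 1) := by
        rw [Complex.exp_add]; ring
      have h2 : ‖Complex.exp w‖ ≤ 1100 := by
        rw [Complex.norm_exp]
        have h3 : w.re ≤ 7 := (Complex.re_le_norm w).trans (by simpa using hw)
        exact ((Real.exp_le_exp.mpr h3).trans exp_seven_lt.le)
      have h4 := he w (hsub7 hw)
      have h5 : ‖Complex.exp (e w) - 1‖ ≤ 2 * ‖e w‖ :=
        Complex.norm_exp_sub_one_le (h4.trans (by norm_num))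
      rw [h1, norm_mul]
      calc ‖Complex.exp w‖ * ‖Complex.exp (e w) - 1‖ ≤ 1100 * (2 * (2 / 10 ^ 6)) := by
            gcongr
            exact h5.trans (by gcongr)
        _ ≤ 44 / 10 ^ 4 := by norm_num
    have h3 := (convex_closedBall (0 : ℂ) 7).norm_image_sub_le_of_norm_hasDerivWithin_le hder hbd
      (mem_closedBall_self (by norm_num)) hs
    have h4 : ‖s - 0‖ ≤ 7 := by simpa using hs
    simp only [hW0, Complex.exp_zero, sub_self, sub_zero] at h3
    simp only [sub_zero] at h4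
    calc _ ≤ _ := h3
      _ ≤ _ := by gcongr
  set c : ℂ := 2 * Real.pi * Complex.I with hc
  have hcn : ‖c‖ = 2 * Real.pi := by
    rw [hc]; simp [abs_of_pos Real.pi_pos]
  have hsubc : closedBall c (1 / 2) ⊆ closedBall (0 : ℂ) 7 := by
    intro z hz
    have h1 : ‖z - c‖ ≤ 1 / 2 := by simpa [dist_eq_norm] using hz
    have h2 : ‖z‖ ≤ ‖z - c‖ + ‖c‖ := by
      have := norm_add_le (z - c) c
      simpa using this
    rw [mem_closedBall, dist_eq_norm, sub_zero]
    rw [hcn] at h2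
    linarith
  have hexpc : Complex.exp c = 1 := by rw [hc]; exact Complex.exp_two_pi_mul_I
  have hWc : ‖W c‖ ≤ 44 / 10 ^ 4 * 7 := by
    have := hcmp c (hsubc (mem_closedBall_self (by norm_num)))
    rw [hexpc] at this
    simpa using this
  have hlow : ∀ z ∈ sphere c (1 / 2), (18 / 100 : ℝ) ≤ ‖W z - W c‖ := by
    intro z hz
    have hzn : ‖z - c‖ = 1 / 2 := by simpa [dist_eq_norm] using hz
    have h1 := hcmp z (hsubc (sphere_subset_closedBall hz))
    have h2 : Complex.exp z = Complex.exp (z - c) := by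
      rw [Complex.exp_sub, hexpc, div_one]
    have h3 := Complex.norm_exp_sub_one_sub_id_le (x := z - c) (by rw [hzn]; norm_num)
    rw [hzn] at h3
    have h4 : ‖z - c‖ ≤ ‖Complex.exp (z - c) - 1‖ + ‖Complex.exp (z - c) - 1 - (z - c)‖ := by
      have := norm_sub_le (Complex.exp (z - c) - 1) (Complex.exp (z - c) - 1 - (z - c))
      have h6 : Complex.exp (z - c) - 1 - (Complex.exp (z - c) - 1 - (z - c)) = z - c := by ring
      rwa [h6] at this
    rw [hzn, ← h2] at h4
    rw [← h2] at h3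
    have h5 : ‖Complex.exp z - 1‖ ≤ ‖W z‖ + ‖W z - (Complex.exp z - 1)‖ := by
      have := norm_sub_le (W z) (W z - (Complex.exp z - 1))
      have h6 : W z - (W z - (Complex.exp z - 1)) = Complex.exp z - 1 := by ring
      rwa [h6] at this
    have h6 : ‖W z‖ ≤ ‖W z - W c‖ + ‖W c‖ := by
      have := norm_add_le (W z - W c) (W c)
      simpa using this
    norm_num at h1 hWc h3 ⊢
    linarith
  have hcball : c ∈ ball (0 : ℂ) 8 := hsub7 (hsubc (mem_closedBall_self (by norm_num)))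
  have hfreq : ∃ᶠ z in 𝓝 c, W z ≠ W c := by
    intro hcon
    have hev : ∀ᶠ z in 𝓝 c, W z = W c := by
      filter_upwards [hcon] with z hz
      simpa using hz
    have h9 : W =ᶠ[𝓝 c] fun _ => W c := hev
    have h10 : deriv W c = 0 := by rw [h9.deriv_eq]; simp
    rw [(hW c hcball).deriv] at h10
    exact Complex.exp_ne_zero _ h10
  have hdc : DiffContOnCl ℂ W (ball c (1 / 2)) := by
    apply DifferentiableOn.diffContOnCl
    rw [closure_ball c (by norm_num)]
    intro z hz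
    exact (hW z (hsub7 (hsubc hz))).differentiableAt.differentiableWithinAt
  have hsubset := hdc.ball_subset_image_closedBall (by norm_num) hlow hfreq
  have h0 : (0 : ℂ) ∈ ball (W c) (18 / 100 / 2) := by
    rw [mem_ball, dist_eq_norm, zero_sub, norm_neg]
    norm_num at hWc ⊢
    linarith
  obtain ⟨s, hs, hs0⟩ := hsubset h0
  exact ⟨s, by simpa [dist_eq_norm] using hs, hs0⟩

theorem collide : ∃ ε₀ : ℝ, 0 < ε₀ ∧ ∀ (a R : ℝ) (b : ℂ) (Φ Λ : ℂ → ℂ), 0 < a → 16 ≤ R * a → b ≠ 0 →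
    (∀ ξ ∈ ball (0 : ℂ) R, HasDerivAt Φ (b * Complex.exp (Λ ξ)) ξ) →
    (∀ ξ ∈ ball (0 : ℂ) R, ‖Λ ξ - a * ξ‖ ≤ ε₀) →
    ∃ ξ ξ' : ℂ, ξ ∈ ball (0 : ℂ) R ∧ ξ' ∈ ball (0 : ℂ) R ∧ ξ.re ≤ 0 ∧ ξ'.re ≤ 0 ∧ ξ ≠ ξ' ∧
      ‖ξ - ξ'‖ ≤ 7 / a ∧ Φ ξ = Φ ξ' := by
  refine ⟨1 / 10 ^ 6, by norm_num, ?_⟩
  intro a R b Φ Λ ha hRa hb hΦ hΛ
  have hac : (a : ℂ) ≠ 0 := by exact_mod_cast ha.ne'
  have hpi := Real.pi_gt_three
  have hpi2 := Real.pi_lt_d2
  set x : ℂ := ((-8 / a : ℝ) : ℂ) with hx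
  have hxn : ‖x‖ = 8 / a := by
    rw [hx, Complex.norm_real, Real.norm_eq_abs, neg_div, abs_neg, abs_of_pos (by positivity)]
  -- points `x + s / a`
  have hin : ∀ s ∈ ball (0 : ℂ) 8, x + s / a ∈ ball (0 : ℂ) R := by
    intro s hs
    have hs' : ‖s‖ < 8 := by simpa using hs
    rw [mem_ball, dist_eq_norm, sub_zero]
    have h1 : ‖x + s / a‖ ≤ 8 / a + ‖s‖ / a := by
      refine (norm_add_le _ _).trans ?_
      rw [hxn, norm_div, Complex.norm_real, Real.norm_eq_abs, abs_of_pos ha]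
    have h2 : 8 / a + ‖s‖ / a < 16 / a := by
      rw [← add_div]
      gcongr
      linarith
    have h3 : 16 / a ≤ R := by
      rw [div_le_iff₀ ha]; exact hRa
    linarith
  have hxR : x ∈ ball (0 : ℂ) R := by
    have := hin 0 (mem_ball_self (by norm_num))
    simpa using this
  set K : ℂ := b * Complex.exp (Λ x) with hK
  have hK0 : K ≠ 0 := mul_ne_zero hb (Complex.exp_ne_zero _)
  set W : ℂ → ℂ := fun s => (Φ (x + s / a) - Φ x) * (a / K) with hWdef
  set e : ℂ → ℂ := fun s => (Λ (x + s / a) - a * (x + s / a)) - (Λ x - a * x) with hedef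
  have hW0 : W 0 = 0 := by simp [hWdef]
  have he : ∀ s ∈ ball (0 : ℂ) 8, ‖e s‖ ≤ 2 / 10 ^ 6 := by
    intro s hs
    have h1 := hΛ _ (hin s hs)
    have h2 := hΛ _ hxR
    have h3 : ‖e s‖ ≤ ‖Λ (x + s / a) - a * (x + s / a)‖ + ‖Λ x - a * x‖ := norm_sub_le _ _
    have h4 : (2 : ℝ) / 10 ^ 6 = 1 / 10 ^ 6 + 1 / 10 ^ 6 := by norm_num
    rw [h4]
    exact h3.trans (add_le_add h1 h2)
  have hW : ∀ s ∈ ball (0 : ℂ) 8, HasDerivAt W (Complex.exp (s + e s)) s := by
    intro s hs
    have h1 := hΦ _ (hin s hs)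
    have h2 : HasDerivAt (fun s : ℂ => x + s / a) (1 / a) s :=
      ((hasDerivAt_id s).div_const (a : ℂ)).const_add x
    have h3 : HasDerivAt (fun s : ℂ => Φ (x + s / a))
        (b * Complex.exp (Λ (x + s / a)) * (1 / a)) s := h1.comp s h2
    have h4 := (h3.sub_const (Φ x)).mul_const ((a : ℂ) / K)
    have h5 : b * Complex.exp (Λ (x + s / a)) * (1 / a) * (a / K) =
        Complex.exp (s + e s) := by
      have h6 : s + e s = Λ (x + s / a) - Λ x := by
        simp only [hedef]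
        field_simp
        ring
      rw [h6, Complex.exp_sub, hK]
      have := Complex.exp_ne_zero (Λ x)
      field_simp
    rw [h5] at h4
    exact h4
  obtain ⟨s, hs, hs0⟩ := collide_aux hW0 hW he
  have hcn : ‖(2 * Real.pi * Complex.I : ℂ)‖ = 2 * Real.pi := by
    simp [abs_of_pos Real.pi_pos]
  have hs7 : ‖s‖ ≤ 7 := by
    have h2 : ‖s‖ ≤ ‖s - 2 * Real.pi * Complex.I‖ + ‖(2 * Real.pi * Complex.I : ℂ)‖ := by
      have := norm_add_le (s - 2 * Real.pi * Complex.I) (2 * Real.pi * Complex.I)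
      simpa using this
    rw [hcn] at h2
    linarith
  have hsne : s ≠ 0 := by
    intro h0
    rw [h0, zero_sub, norm_neg, hcn] at hs
    linarith
  have hs8 : s ∈ ball (0 : ℂ) 8 := by
    rw [mem_ball, dist_eq_norm, sub_zero]; linarith
  have hsa : ‖s / a‖ = ‖s‖ / a := by
    rw [norm_div, Complex.norm_real, Real.norm_eq_abs, abs_of_pos ha]
  refine ⟨x, x + s / a, hxR, hin s hs8, ?_, ?_, ?_, ?_, ?_⟩
  · rw [hx, Complex.ofReal_re, neg_div]
    have : 0 < 8 / a := by positivity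
    linarith
  · have h1 : (s / a).re ≤ 7 / a := by
      refine (Complex.re_le_norm _).trans ?_
      rw [hsa]
      gcongr
    rw [Complex.add_re, hx, Complex.ofReal_re, neg_div]
    have h2 : 7 / a ≤ 8 / a := by gcongr; norm_num
    linarith
  · intro h
    have h1 : s / a = 0 := by
      have := h
      simpa using this
    exact (div_ne_zero hsne hac) h1
  · rw [show x - (x + s / a) = -(s / a) by ring, norm_neg, hsa]
    gcongr
  · have h1 : (Φ (x + s / a) - Φ x) * (a / K) = 0 := hs0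
    have h2 : Φ (x + s / a) - Φ x = 0 := by
      rcases mul_eq_zero.mp h1 with h | h
      · exact h
      · exact absurd h (div_ne_zero hac hK0)
    exact (sub_eq_zero.mp h2).symm

end Pool.Agent.HZ
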