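import Mathlib

/-! MP_cd3d06_an, module NearLin: functions with linearly bounded real part on a large disc are almost linear -/

open Polynomial Metric Set Filter Topology
open scoped ComplexConjugate

namespace Pool.Agent.HZ

private lemma near_linear_core (C s : ℝ) (hC : 1 ≤ C) (hs : 0 < s) (Λ : ℂ → ℂ)
    (hd : DifferentiableOn ℂ Λ (ball 0 s)) (h0 : Λ 0 = 0)
    (hre : ∀ ξ ∈ ball (0 : ℂ) s, (Λ ξ).re ≤ C * s) :
    ∀ ξ ∈ ball (0 : ℂ) (s / 2), ‖Λ ξ - deriv Λ 0 * ξ‖ ≤ 16 * C * ‖ξ‖ ^ 2 / s := by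
  have hs2 : 0 < s / 2 := by linarith
  have hC0 : 0 < C := by linarith
  have hsub : ball (0 : ℂ) (s / 2) ⊆ ball 0 s := ball_subset_ball (by linarith)
  have hbound : ∀ ξ ∈ ball (0 : ℂ) (s / 2), ‖Λ ξ‖ ≤ 2 * C * s := by
    intro ξ hξ
    have h1 := Complex.borelCaratheodory_zero (M := C * s) (by positivity) hd
      (fun x hx => hre x hx) hs (hsub hξ) h0
    have hn : ‖ξ‖ < s / 2 := mem_ball_zero_iff.mp hξ
    refine h1.trans ?_
    rw [div_le_iff₀ (by linarith)]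
    have : 0 ≤ C * s * (s - 2 * ‖ξ‖) := by
      apply mul_nonneg (by positivity); linarith
    nlinarith
  have hd2 : DifferentiableOn ℂ Λ (ball 0 (s / 2)) := hd.mono hsub
  have hdat : DifferentiableAt ℂ Λ 0 := hd.differentiableAt (ball_mem_nhds _ hs)
  have hal : ‖deriv Λ 0‖ ≤ 4 * C := by
    have h1 := Complex.norm_deriv_le_div_of_mapsTo_ball (R₂ := 2 * C * s) hd2
      (fun x hx => by
        rw [h0, mem_closedBall_zero_iff]
        exact hbound x hx) hs2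
    refine h1.trans (le_of_eq ?_)
    field_simp
    ring
  intro ξ hξ
  have hgd : DifferentiableOn ℂ (fun z => Λ z - deriv Λ 0 * z) (ball 0 (s / 2)) := by
    apply hd2.sub
    fun_prop
  have hmaps : MapsTo (fun z => Λ z - deriv Λ 0 * z) (ball 0 (s / 2))
      (closedBall ((fun z => Λ z - deriv Λ 0 * z) 0) (4 * C * s)) := by
    intro x hx
    have hn : ‖x‖ < s / 2 := mem_ball_zero_iff.mp hx
    simp only [h0, mul_zero, sub_zero, mem_closedBall_zero_iff]
    calc ‖Λ x - deriv Λ 0 * x‖ ≤ ‖Λ x‖ + ‖deriv Λ 0 * x‖ := norm_sub_le _ _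
      _ ≤ 2 * C * s + 4 * C * (s / 2) := by
          rw [norm_mul]
          gcongr
          exact hbound x hx
      _ = 4 * C * s := by ring
  have hlit : (fun w => (fun z => Λ z - deriv Λ 0 * z) w - (fun z => Λ z - deriv Λ 0 * z) 0)
      =o[𝓝 (0:ℂ)] fun w => ‖w - 0‖ ^ 1 := by
    have h1 := hdat.hasDerivAt
    rw [hasDerivAt_iff_isLittleO] at h1
    simp only [h0, sub_zero, smul_eq_mul, mul_zero, pow_one] at h1 ⊢
    have h2 := h1.norm_right
    refine h2.congr_left ?_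
    intro x
    ring
  have h := Complex.dist_le_mul_div_pow_of_mapsTo_ball_of_isLittleO (n := 1) hgd hmaps hlit hξ
  simp only [h0, mul_zero, sub_zero, dist_zero_right] at h
  refine h.trans (le_of_eq ?_)
  have hs' : s ≠ 0 := hs.ne'
  rw [div_pow, div_pow]
  field_simp
  norm_num
  ring

theorem near_linear (C R₀ ε : ℝ) (hε : 0 < ε) : ∃ s₀ : ℝ, ∀ s : ℝ, s₀ ≤ s → 0 < s →
    ∀ Λ : ℂ → ℂ, DifferentiableOn ℂ Λ (ball 0 s) → Λ 0 = 0 →
      (∀ ξ ∈ ball (0 : ℂ) s, (Λ ξ).re ≤ C * s) →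
      (∀ ξ ∈ ball (0 : ℂ) s, ξ.re ≤ 0 → (Λ ξ).re ≤ 0) →
      ∃ a : ℝ, 0 ≤ a ∧ ∀ ξ : ℂ, ‖ξ‖ ≤ R₀ → ‖Λ ξ - a * ξ‖ ≤ ε := by
  set K : ℝ := max C 1 with hK
  have hK1 : 1 ≤ K := le_max_right _ _
  have hK0 : 0 < K := by linarith
  refine ⟨2 * (|R₀| + 2) + (32 * K * |R₀| + 16 * K * |R₀| ^ 2) / ε, ?_⟩
  intro s hs0 hs Λ hd h0 hre hneg
  have hA : 0 ≤ (32 * K * |R₀| + 16 * K * |R₀| ^ 2) / ε := by positivity
  have hR0 : 0 ≤ |R₀| := abs_nonneg _
  have hs1 : |R₀| < s / 2 := by linarith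
  have hs4 : 1 < s / 2 := by linarith
  have hre' : ∀ ξ ∈ ball (0 : ℂ) s, (Λ ξ).re ≤ K * s := by
    intro ξ hξ
    refine (hre ξ hξ).trans ?_
    gcongr
    exact le_max_left _ _
  have hcore := near_linear_core K s hK1 hs Λ hd h0 hre'
  set al : ℂ := deriv Λ 0 with hal
  -- evaluation at -1, i, -i
  have hev : ∀ u : ℂ, ‖u‖ = 1 → u.re ≤ 0 → (al * u).re ≤ 16 * K / s := by
    intro u hu hur
    have h1 := hcore u (by rw [mem_ball_zero_iff, hu]; exact hs4)
    have h2 := hneg u (by rw [mem_ball_zero_iff, hu]; linarith) hur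
    rw [hu] at h1
    have h3 : -((Λ u - al * u).re) ≤ ‖Λ u - al * u‖ :=
      (neg_le_abs _).trans (Complex.abs_re_le_norm _)
    rw [Complex.sub_re] at h3
    have h4 : 16 * K * (1:ℝ) ^ 2 / s = 16 * K / s := by ring
    linarith
  have hm1 : -(16 * K / s) ≤ al.re := by
    have := hev (-1) (by simp) (by simp)
    simp at this
    linarith
  have hi1 : al.im ≤ 16 * K / s := by
    have := hev (-Complex.I) (by simp) (by simp)
    simpa using this
  have hi2 : -(16 * K / s) ≤ al.im := by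
    have := hev (Complex.I) (by simp) (by simp)
    simp at this
    linarith
  have hKs : 0 ≤ 16 * K / s := by positivity
  refine ⟨max al.re 0, le_max_right _ _, ?_⟩
  intro ξ hξ
  have hR00 : 0 ≤ R₀ := (norm_nonneg _).trans hξ
  have habs : |R₀| = R₀ := abs_of_nonneg hR00
  have hdiff : ‖al - ((max al.re 0 : ℝ) : ℂ)‖ ≤ 32 * K / s := by
    refine (Complex.norm_le_abs_re_add_abs_im _).trans ?_
    have e1 : (al - ((max al.re 0 : ℝ) : ℂ)).re = al.re - max al.re 0 := by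
      simp
    have e2 : (al - ((max al.re 0 : ℝ) : ℂ)).im = al.im := by
      simp
    rw [e1, e2]
    have h1 : |al.re - max al.re 0| ≤ 16 * K / s := by
      rcases le_total al.re 0 with h | h
      · rw [max_eq_right h, sub_zero, abs_of_nonpos h]; linarith
      · rw [max_eq_left h, sub_self, abs_zero]; exact hKs
    have h2 : |al.im| ≤ 16 * K / s := abs_le.mpr ⟨hi2, hi1⟩
    have h3 : 32 * K / s = 16 * K / s + 16 * K / s := by ring
    linarith
  have hball : ξ ∈ ball (0 : ℂ) (s / 2) := by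
    rw [mem_ball_zero_iff]; linarith
  have h1 := hcore ξ hball
  have hnn : 0 ≤ ‖ξ‖ := norm_nonneg _
  have hsum : ‖Λ ξ - ((max al.re 0 : ℝ) : ℂ) * ξ‖ ≤ 16 * K * R₀ ^ 2 / s + 32 * K / s * R₀ := by
    have e : Λ ξ - ((max al.re 0 : ℝ) : ℂ) * ξ
        = (Λ ξ - al * ξ) + (al - ((max al.re 0 : ℝ) : ℂ)) * ξ := by ring
    rw [e]
    refine (norm_add_le _ _).trans ?_
    rw [norm_mul]
    gcongr
    refine h1.trans ?_
    gcongr
  refine hsum.trans ?_
  rw [habs] at hs0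
  have h5 : (32 * K * R₀ + 16 * K * R₀ ^ 2) / ε ≤ s := by
    rw [habs] at hA
    linarith
  rw [div_le_iff₀ hε] at h5
  have h6 : 16 * K * R₀ ^ 2 / s + 32 * K / s * R₀ = (32 * K * R₀ + 16 * K * R₀ ^ 2) / s := by ring
  rw [h6, div_le_iff₀ hs]
  linarith

end Pool.Agent.HZ
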