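import Pool.Agent.H.MP_cd3d06_an.L.Basic
import Pool.Agent.H.MP_cd3d06_an.L.PolyA

/-! MP_cd3d06_an, module Star: no large region where the logarithmic derivative is almost constant -/

open Polynomial Metric Set Filter Topology
open scoped ComplexConjugate

namespace Pool.Agent.HZ

private theorem star_lin {F g : ℂ → ℂ} {vc A : ℂ} {ρ η : ℝ}
    (hF : ∀ v ∈ ball vc ρ, HasDerivAt F (g v) v)
    (hg : ∀ v ∈ ball vc ρ, ‖g v - A‖ ≤ η * ‖A‖) {v v' : ℂ} (hv : v ∈ ball vc ρ)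
    (hv' : v' ∈ ball vc ρ) :
    ‖F v - F v' - A * (v - v')‖ ≤ η * ‖A‖ * ‖v - v'‖ := by
  have h := (convex_ball vc ρ).norm_image_sub_le_of_norm_hasDerivWithin_le
    (f := fun v => F v - A * v) (f' := fun v => g v - A) (C := η * ‖A‖) (x := v') (y := v)
    (fun z hz => by
      have h1 : HasDerivAt (fun v => F v - A * v) (g z - A * 1) z :=
        (hF z hz).fun_sub ((hasDerivAt_id z).const_mul A)
      rw [mul_one] at h1
      exact h1.hasDerivWithinAt) hg hv' hv
  have e : F v - F v' - A * (v - v') = (F v - A * v) - (F v' - A * v') := by ring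
  rw [e]; exact h

private theorem star_low {F g : ℂ → ℂ} {vc A : ℂ} {ρ η : ℝ} (hη : η ≤ 1 / 10)
    (hF : ∀ v ∈ ball vc ρ, HasDerivAt F (g v) v)
    (hg : ∀ v ∈ ball vc ρ, ‖g v - A‖ ≤ η * ‖A‖) {v v' : ℂ} (hv : v ∈ ball vc ρ)
    (hv' : v' ∈ ball vc ρ) :
    9 / 10 * (‖A‖ * ‖v - v'‖) ≤ ‖F v - F v'‖ := by
  have h := star_lin hF hg hv hv'
  have h2 : ‖A * (v - v')‖ ≤ ‖F v - F v'‖ + ‖F v - F v' - A * (v - v')‖ := by
    have e : A * (v - v') = (F v - F v') - (F v - F v' - A * (v - v')) := by ring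
    calc ‖A * (v - v')‖ = ‖(F v - F v') - (F v - F v' - A * (v - v'))‖ := by rw [← e]
      _ ≤ _ := norm_sub_le _ _
  rw [norm_mul] at h2
  have h3 : η * ‖A‖ * ‖v - v'‖ ≤ 1 / 10 * (‖A‖ * ‖v - v'‖) := by
    rw [mul_assoc]
    exact mul_le_mul_of_nonneg_right hη (by positivity)
  linarith

private theorem star_inv {F g : ℂ → ℂ} {vc A : ℂ} {ρ η : ℝ} (hρ : 0 < ρ) (hA : A ≠ 0)
    (hη : η ≤ 1 / 10) (hF : ∀ v ∈ ball vc ρ, HasDerivAt F (g v) v)
    (hg : ∀ v ∈ ball vc ρ, ‖g v - A‖ ≤ η * ‖A‖) :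
    ∃ G : ℂ → ℂ, DifferentiableOn ℂ G (ball (F vc) (ρ * ‖A‖ / 3)) ∧
      ∀ ξ ∈ ball (F vc) (ρ * ‖A‖ / 3), G ξ ∈ ball vc (2 * ρ / 5) ∧ F (G ξ) = ξ := by
  have hA' : 0 < ‖A‖ := norm_pos_iff.2 hA
  have hvc : vc ∈ ball vc ρ := mem_ball_self hρ
  have hr : 0 < 9 / 10 * ρ := by positivity
  have hcl : closedBall vc (9 / 10 * ρ) ⊆ ball vc ρ := closedBall_subset_ball (by linarith)
  have hd : DiffContOnCl ℂ F (ball vc (9 / 10 * ρ)) := by
    apply DifferentiableOn.diffContOnCl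
    intro z hz
    rw [closure_ball vc hr.ne'] at hz
    exact (hF z (hcl hz)).differentiableAt.differentiableWithinAt
  have hsph : ∀ z ∈ sphere vc (9 / 10 * ρ), 81 / 100 * (ρ * ‖A‖) ≤ ‖F z - F vc‖ := by
    intro z hz
    have h1 := star_low hη hF hg (hcl (sphere_subset_closedBall hz)) hvc
    rw [mem_sphere_iff_norm] at hz
    rw [hz] at h1
    nlinarith
  have hfr : ∃ᶠ z in 𝓝 vc, F z ≠ F vc := by
    have hne : ∀ᶠ z in 𝓝[≠] vc, F z ≠ F vc := by
      have h0 : ∀ᶠ z in 𝓝[≠] vc, z ∈ ball vc ρ :=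
        eventually_nhdsWithin_of_eventually_nhds (ball_mem_nhds vc hρ)
      filter_upwards [h0, self_mem_nhdsWithin] with z hz hz2 h3
      have h1 := star_low hη hF hg hz hvc
      rw [h3, sub_self, norm_zero] at h1
      have h4 : 0 < ‖z - vc‖ := norm_pos_iff.2 (sub_ne_zero.2 hz2)
      have : 0 < ‖A‖ * ‖z - vc‖ := by positivity
      linarith
    exact (hne.frequently).filter_mono nhdsWithin_le_nhds
  have himg := hd.ball_subset_image_closedBall hr hsph hfr
  have hex : ∀ ξ ∈ ball (F vc) (ρ * ‖A‖ / 3), ∃ v ∈ ball vc ρ, F v = ξ := by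
    intro ξ hξ
    have h1 : ξ ∈ ball (F vc) (81 / 100 * (ρ * ‖A‖) / 2) := by
      refine ball_subset_ball ?_ hξ
      have : 0 < ρ * ‖A‖ := by positivity
      linarith
    obtain ⟨v, hv, h2⟩ := himg h1
    exact ⟨v, hcl hv, h2⟩
  classical
  let G : ℂ → ℂ := fun ξ => if h : ξ ∈ ball (F vc) (ρ * ‖A‖ / 3) then (hex ξ h).choose else vc
  have hG : ∀ ξ ∈ ball (F vc) (ρ * ‖A‖ / 3), G ξ ∈ ball vc ρ ∧ F (G ξ) = ξ := by
    intro ξ hξ
    have h1 : G ξ = (hex ξ hξ).choose := dif_pos hξ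
    rw [h1]
    exact (hex ξ hξ).choose_spec
  have hG2 : ∀ ξ ∈ ball (F vc) (ρ * ‖A‖ / 3), ∀ ξ' ∈ ball (F vc) (ρ * ‖A‖ / 3),
      9 / 10 * (‖A‖ * ‖G ξ - G ξ'‖) ≤ ‖ξ - ξ'‖ := by
    intro ξ hξ ξ' hξ'
    have h1 := star_low hη hF hg (hG ξ hξ).1 (hG ξ' hξ').1
    rwa [(hG ξ hξ).2, (hG ξ' hξ').2] at h1
  refine ⟨G, ?_, ?_⟩
  · intro ξ hξ
    have hnh : ball (F vc) (ρ * ‖A‖ / 3) ∈ 𝓝 ξ := isOpen_ball.mem_nhds hξ
    have hcont : ContinuousAt G ξ := by
      unfold ContinuousAt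
      rw [tendsto_iff_norm_sub_tendsto_zero]
      have h1 : Tendsto (fun y : ℂ => ‖y - ξ‖ / (9 / 10 * ‖A‖)) (𝓝 ξ) (𝓝 0) := by
        have : Tendsto (fun y : ℂ => ‖y - ξ‖ / (9 / 10 * ‖A‖)) (𝓝 ξ)
            (𝓝 (‖ξ - ξ‖ / (9 / 10 * ‖A‖))) := by
          apply Continuous.tendsto
          fun_prop
        simpa using this
      refine squeeze_zero' (Eventually.of_forall fun _ => norm_nonneg _) ?_ h1
      filter_upwards [hnh] with y hy
      rw [le_div_iff₀ (by positivity)]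
      have := hG2 y hy ξ hξ
      linarith
    have hgne : g (G ξ) ≠ 0 := by
      intro h0
      have h1 := hg _ (hG ξ hξ).1
      rw [h0, zero_sub, norm_neg] at h1
      nlinarith
    exact (HasDerivAt.of_local_left_inverse hcont (hF _ (hG ξ hξ).1) hgne
      (by filter_upwards [hnh] with y hy using (hG y hy).2)).differentiableAt.differentiableWithinAt
  · intro ξ hξ
    refine ⟨?_, (hG ξ hξ).2⟩
    have h1 := star_low hη hF hg (hG ξ hξ).1 hvc
    rw [(hG ξ hξ).2] at h1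
    rw [mem_ball_iff_norm] at hξ ⊢
    by_contra hcon
    push Not at hcon
    have : ‖A‖ * (2 * ρ / 5) ≤ ‖A‖ * ‖G ξ - vc‖ := mul_le_mul_of_nonneg_left hcon hA'.le
    nlinarith

/-- the possible values of `f` two steps later -/
private theorem star_fin (p q : ℂ[X]) (hq : 1 ≤ q.natDegree) (w : ℂ) : ∃ T : Finset ℂ,
    T.card ≤ q.natDegree ^ 2 ∧ ∀ (x : ℂ) (X : Lin p q x) (v : ℂ), v.re < 0 → X.f v = w →
      X.f (v - 2 * X.om) ∈ T := by
  classical
  have hne : ∀ a : ℂ, q - C a ≠ 0 := by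
    intro a h0
    have : (q - C a).natDegree = q.natDegree := natDegree_sub_C
    rw [h0, natDegree_zero] at this
    omega
  have hmem : ∀ a z : ℂ, q.eval z = a → z ∈ (q - C a).roots.toFinset := by
    intro a z h
    rw [Multiset.mem_toFinset, mem_roots (hne a), IsRoot.def, eval_sub, eval_C, h, sub_self]
  have hcard : ∀ a : ℂ, (q - C a).roots.toFinset.card ≤ q.natDegree := by
    intro a
    calc (q - C a).roots.toFinset.card ≤ Multiset.card (q - C a).roots := Multiset.toFinset_card_le _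
      _ ≤ (q - C a).natDegree := card_roots' _
      _ = q.natDegree := natDegree_sub_C
  refine ⟨((q - C (-conj (p.eval w))).roots.toFinset).biUnion
    (fun z => (q - C (-conj (p.eval z))).roots.toFinset), ?_, ?_⟩
  · calc _ ≤ ((q - C (-conj (p.eval w))).roots.toFinset).card * q.natDegree :=
          Finset.card_biUnion_le_card_mul _ _ _ (fun a _ => hcard _)
      _ ≤ q.natDegree * q.natDegree := Nat.mul_le_mul_right _ (hcard _)
      _ = q.natDegree ^ 2 := by ring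
  · intro x X v hv hw
    have key : ∀ u : ℂ, u.re < 0 → q.eval (X.f (X.S u)) = -conj (p.eval (X.f u)) := by
      intro u hu
      rw [X.fe_f hu]
      simp
    have h1 := key v hv
    have hv2 : (X.S v).re < 0 := by
      rw [X.S_re]
      have := X.om_pos
      linarith
    have h2 := key (X.S v) hv2
    rw [X.S_S] at h2
    rw [hw] at h1
    exact Finset.mem_biUnion.2 ⟨X.f (X.S v), hmem _ _ h1, hmem _ _ h2⟩

private theorem star_id {V : Set ℂ} (hV : IsOpen V) (hc : Convex ℝ V) {a b : ℂ → ℂ}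
    (ha : DifferentiableOn ℂ a V) (hb : DifferentiableOn ℂ b V) {u : ℂ} (hu : u ∈ V)
    (h : ∃ᶠ z in 𝓝[≠] u, a z = b z) : EqOn a b V :=
  (ha.analyticOnNhd hV).eqOn_of_preconnected_of_frequently_eq (hb.analyticOnNhd hV)
    hc.isPreconnected hu h

theorem star (m : ℕ) (hm : 1 ≤ m) : ∃ C η : ℝ, 0 < C ∧ 0 < η ∧
    ∀ (p q : ℂ[X]) (x : ℂ), q.natDegree = m → ∀ X : Lin p q x, ∀ c : ℂ, (derivative q).eval c = 0 →
      ∀ (vc A : ℂ) (ρ : ℝ), (∀ v ∈ ball vc ρ, v.re < -X.om) →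
        (∀ v ∈ ball vc ρ, ‖X.ld c v - A‖ ≤ η * ‖A‖) → C * X.om ≤ ρ → C ≤ ρ * ‖A‖ → False := by
  have hm1 : (1 : ℝ) ≤ m := by exact_mod_cast hm
  have hm2 : (1 : ℝ) ≤ (m : ℝ) ^ 2 := by nlinarith
  refine ⟨100 * (m : ℝ) ^ 2, 1 / (10 * (m : ℝ) ^ 2), by positivity, by positivity, ?_⟩
  intro p q x hqm X c hc vc A ρ hre hld hC1 hC2
  set η : ℝ := 1 / (10 * (m : ℝ) ^ 2) with hηdef
  have hη0 : 0 < η := by positivity
  have hη : η ≤ 1 / 10 := by
    rw [hηdef]
    apply one_div_le_one_div_of_le (by norm_num)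
    linarith
  have hηm : η * (m : ℝ) ^ 2 = 1 / 10 := by
    rw [hηdef]
    field_simp
  have hom := X.om_pos
  have hρA : 0 < ρ * ‖A‖ := by nlinarith
  have hA : A ≠ 0 := by
    intro h0
    rw [h0, norm_zero, mul_zero] at hρA
    exact lt_irrefl _ hρA
  have hA' : 0 < ‖A‖ := norm_pos_iff.2 hA
  have hρ : 0 < ρ := by
    by_contra h0
    push Not at h0
    nlinarith
  have hvc : vc ∈ ball vc ρ := mem_ball_self hρ
  obtain ⟨F, hF, hexp, -, w, hw⟩ := X.exists_F hc
  have hFb : ∀ v ∈ ball vc ρ, HasDerivAt F (X.ld c v) v := fun v hv => hF v (hre v hv)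
  obtain ⟨G, hGd, hG⟩ := star_inv hρ hA hη hFb hld
  set R : ℝ := ρ * ‖A‖ / 3 with hR
  set U : Set ℂ := ball (F vc) R with hU
  have hUo : IsOpen U := isOpen_ball
  have hGb : ∀ ξ ∈ U, G ξ ∈ ball vc ρ := fun ξ hξ =>
    ball_subset_ball (by linarith) (hG ξ hξ).1
  have hGre : ∀ ξ ∈ U, (G ξ).re < -X.om := fun ξ hξ => hre _ (hGb ξ hξ)
  have hom2 : 2 * X.om ≤ ρ / 50 := by nlinarith
  -- the shifted point is in the ball
  have hsh : ∀ ξ ∈ U, G ξ - 2 * X.om ∈ ball vc ρ := by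
    intro ξ hξ
    have h1 := (hG ξ hξ).1
    rw [mem_ball_iff_norm] at h1 ⊢
    have e : G ξ - 2 * X.om - vc = (G ξ - vc) - ((2 * X.om : ℝ) : ℂ) := by push_cast; ring
    rw [e]
    refine (norm_sub_le _ _).trans_lt ?_
    rw [Complex.norm_real, Real.norm_of_nonneg (by linarith)]
    linarith
  have hT3 : ∀ ξ ∈ U, ∀ ξ' ∈ U,
      ‖(F (G ξ - 2 * X.om) - F (G ξ' - 2 * X.om)) - (ξ - ξ')‖ ≤ 3 * η * ‖ξ - ξ'‖ := by
    intro ξ hξ ξ' hξ'
    have h1 := star_lin hFb hld (hsh ξ hξ) (hsh ξ' hξ')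
    have h2 := star_lin hFb hld (hGb ξ hξ) (hGb ξ' hξ')
    have h3 := star_low hη hFb hld (hGb ξ hξ) (hGb ξ' hξ')
    rw [(hG ξ hξ).2, (hG ξ' hξ').2] at h2 h3
    have e1 : G ξ - 2 * X.om - (G ξ' - 2 * X.om) = G ξ - G ξ' := by ring
    rw [e1] at h1
    have e2 : (F (G ξ - 2 * X.om) - F (G ξ' - 2 * X.om)) - (ξ - ξ') =
        (F (G ξ - 2 * X.om) - F (G ξ' - 2 * X.om) - A * (G ξ - G ξ')) -
          (ξ - ξ' - A * (G ξ - G ξ')) := by ring
    rw [e2]
    refine (norm_sub_le _ _).trans ?_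
    have h4 : η * (9 / 10 * (‖A‖ * ‖G ξ - G ξ'‖)) ≤ η * ‖ξ - ξ'‖ :=
      mul_le_mul_of_nonneg_left h3 hη0.le
    have h5 : 0 ≤ η * ‖ξ - ξ'‖ := by positivity
    nlinarith
  -- periods
  set P : ℕ → ℂ := fun N => (N : ℂ) * (2 * Real.pi * Complex.I) with hP
  have hPn : ∀ N : ℕ, N ≤ m ^ 2 → ‖P N‖ ≤ 63 / 10 * (m : ℝ) ^ 2 := by
    intro N hN
    have h1 : ‖P N‖ = N * (2 * Real.pi) := by
      simp only [hP]
      rw [norm_mul, norm_mul, norm_mul, Complex.norm_I, mul_one, Complex.norm_natCast,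
        Complex.norm_real, Real.norm_of_nonneg Real.pi_pos.le]
      simp
    have h2 : (N : ℝ) ≤ (m : ℝ) ^ 2 := by exact_mod_cast hN
    have h3 := Real.pi_lt_d2
    have h4 := Real.pi_pos
    rw [h1]
    have h5 : (0 : ℝ) ≤ N := Nat.cast_nonneg _
    nlinarith
  have hRm : 33 * (m : ℝ) ^ 2 ≤ R := by
    rw [hR]
    linarith
  have hexpP : ∀ (ξ : ℂ) (N : ℕ), Complex.exp (ξ + P N) = Complex.exp ξ := by
    intro ξ N
    exact Complex.exp_eq_exp_iff_exists_int.2 ⟨N, by simp [hP]⟩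
  have hfG : ∀ (ξ : ℂ) (N : ℕ), ξ + P N ∈ U → X.f (G (ξ + P N)) = Complex.exp ξ + c := by
    intro ξ N h
    have h1 := hexp _ (hGre _ h)
    rw [(hG _ h).2, hexpP] at h1
    rw [h1]
    ring
  set u : ℂ := F vc with hu
  have hnear : ∀ (ξ : ℂ) (N : ℕ), ‖ξ - u‖ < 1 → N ≤ m ^ 2 → ξ + P N ∈ U := by
    intro ξ N h1 h2
    rw [hU, mem_ball_iff_norm]
    have e : ξ + P N - u = (ξ - u) + P N := by ring
    rw [e]
    refine (norm_add_le _ _).trans_lt ?_
    have := hPn N h2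
    nlinarith
  -- pigeonhole
  have hpair : ∃ N1 N2 : ℕ, N1 < N2 ∧ N2 ≤ m ^ 2 ∧ ∃ᶠ ξ in 𝓝[≠] u,
      X.f (G (ξ + P N1) - 2 * X.om) = X.f (G (ξ + P N2) - 2 * X.om) := by
    by_contra hcon
    push Not at hcon
    have h1 : ∀ᶠ ξ in 𝓝[≠] u, ∀ N2 ∈ Finset.range (m ^ 2 + 1), ∀ N1 ∈ Finset.range N2,
        X.f (G (ξ + P N1) - 2 * X.om) ≠ X.f (G (ξ + P N2) - 2 * X.om) := by
      rw [Filter.eventually_all_finset]
      intro N2 hN2
      rw [Filter.eventually_all_finset]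
      intro N1 hN1
      rw [Finset.mem_range] at hN1 hN2
      exact hcon N1 N2 hN1 (by omega)
    have h2 : ∀ᶠ ξ in 𝓝[≠] u, ξ ∈ ball u 1 :=
      eventually_nhdsWithin_of_eventually_nhds (ball_mem_nhds u one_pos)
    obtain ⟨ξ, h3, h4⟩ := (h1.and h2).exists
    rw [mem_ball_iff_norm] at h4
    obtain ⟨T, hTc, hT⟩ := star_fin p q (by omega) (Complex.exp ξ + c)
    have hmaps : ∀ N ∈ Finset.range (m ^ 2 + 1), X.f (G (ξ + P N) - 2 * X.om) ∈ T := by
      intro N hN
      rw [Finset.mem_range] at hN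
      have h5 := hnear ξ N h4 (by omega)
      refine hT x X _ ?_ (hfG ξ N h5)
      have := hGre _ h5
      linarith
    have hlt : T.card < (Finset.range (m ^ 2 + 1)).card := by
      rw [Finset.card_range, ← hqm]
      omega
    obtain ⟨a, ha, b, hb, hab, heq⟩ :=
      Finset.exists_ne_map_eq_of_card_lt_of_maps_to hlt hmaps
    rcases lt_or_gt_of_ne hab with h | h
    · exact h3 b hb a (Finset.mem_range.2 h) heq
    · exact h3 a ha b (Finset.mem_range.2 h) heq.symm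
  obtain ⟨N1, N2, h12, h2m, hfr⟩ := hpair
  -- differentiability
  have hsub : ∀ (l : ℕ) (ξ : ℂ), ξ ∈ U → (G ξ - 2 * l * X.om).re < -X.om := by
    intro l ξ hξ
    have h1 := hGre ξ hξ
    have e : (G ξ - 2 * l * X.om : ℂ).re = (G ξ).re - 2 * l * X.om := by
      have : (2 * (l : ℂ) * (X.om : ℂ)) = ((2 * l * X.om : ℝ) : ℂ) := by push_cast; ring
      rw [this, Complex.sub_re, Complex.ofReal_re]
    rw [e]
    have h2 : 0 ≤ 2 * (l : ℝ) * X.om := by positivity
    linarith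
  have hsub1 : ∀ ξ ∈ U, (G ξ - 2 * X.om).re < -X.om := by
    intro ξ hξ
    have := hsub 1 ξ hξ
    simpa using this
  have hD : ∀ l : ℕ, DifferentiableOn ℂ (fun ξ => F (G ξ - 2 * l * X.om)) U := by
    intro l ξ hξ
    have h1 : DifferentiableAt ℂ G ξ := hGd.differentiableAt (hUo.mem_nhds hξ)
    have h2 : DifferentiableAt ℂ F (G ξ - 2 * l * X.om) := (hF _ (hsub l ξ hξ)).differentiableAt
    have h3 : DifferentiableAt ℂ (fun ξ => G ξ - 2 * l * X.om) ξ := h1.sub_const _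
    exact (DifferentiableAt.comp ξ (g := F) (f := fun ξ => G ξ - 2 * l * X.om) h2
      h3).differentiableWithinAt
  have hDs : ∀ (l N : ℕ),
      DifferentiableOn ℂ (fun ξ => F (G (ξ + P N) - 2 * l * X.om)) (ball (u - P N) R) := by
    intro l N
    have h1 : MapsTo (fun ξ => ξ + P N) (ball (u - P N) R) U := by
      intro ξ hξ
      rw [mem_ball_iff_norm] at hξ
      rw [hU, mem_ball_iff_norm]
      have e : ξ + P N - u = ξ - (u - P N) := by ring
      rwa [e]
    exact (hD l).comp (by fun_prop) h1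
  have hDf : ∀ N : ℕ,
      DifferentiableOn ℂ (fun ξ => X.f (G (ξ + P N) - 2 * X.om)) (ball (u - P N) R) := by
    intro N ξ hξ
    have h0 : ξ + P N ∈ U := by
      rw [mem_ball_iff_norm] at hξ
      rw [hU, mem_ball_iff_norm]
      have e : ξ + P N - u = ξ - (u - P N) := by ring
      rwa [e]
    have h1 : DifferentiableAt ℂ G (ξ + P N) := hGd.differentiableAt (hUo.mem_nhds h0)
    have h2 : DifferentiableAt ℂ X.f (G (ξ + P N) - 2 * X.om) := by
      apply X.f_differentiableAt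
      have := hsub1 _ h0
      linarith
    have h3 : DifferentiableAt ℂ (fun ξ => G (ξ + P N) - 2 * X.om) ξ := by
      have h4 : DifferentiableAt ℂ (fun ξ => G (ξ + P N)) ξ :=
        DifferentiableAt.comp ξ (g := G) (f := fun ξ => ξ + P N) h1 (by fun_prop)
      exact h4.sub_const _
    exact (DifferentiableAt.comp ξ (g := X.f) (f := fun ξ => G (ξ + P N) - 2 * X.om) h2
      h3).differentiableWithinAt
  -- identity theorem
  have hid : EqOn (fun ξ => X.f (G (ξ + P N1) - 2 * X.om))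
      (fun ξ => X.f (G (ξ + P N2) - 2 * X.om)) (ball (u - P N1) R ∩ ball (u - P N2) R) := by
    refine star_id (isOpen_ball.inter isOpen_ball) ((convex_ball _ _).inter (convex_ball _ _))
      ((hDf N1).mono inter_subset_left) ((hDf N2).mono inter_subset_right) (u := u) ?_ hfr
    have hb : ∀ N ≤ m ^ 2, u ∈ ball (u - P N) R := by
      intro N hN
      rw [mem_ball_iff_norm]
      have e : u - (u - P N) = P N := by ring
      rw [e]
      have := hPn N hN
      nlinarith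
    exact ⟨hb N1 (by omega), hb N2 h2m⟩
  obtain ⟨N, hN⟩ : ∃ N, N = N2 - N1 := ⟨_, rfl⟩
  have hN1 : 1 ≤ N := by omega
  have hNm : N ≤ m ^ 2 := by omega
  have hPsub : P N2 = P N1 + P N := by
    have : (N2 : ℂ) = (N1 : ℂ) + (N : ℂ) := by
      have : N2 = N1 + N := by omega
      rw [this]
      push_cast
      ring
    simp only [hP]
    rw [this]
    ring
  have hV : ∀ ξ ∈ U, ξ + P N ∈ U →
      X.f (G ξ - 2 * X.om) = X.f (G (ξ + P N) - 2 * X.om) := by
    intro ξ h1 h2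
    rw [hU, mem_ball_iff_norm] at h1 h2
    have h3 : ξ - P N1 ∈ ball (u - P N1) R ∩ ball (u - P N2) R := by
      refine ⟨?_, ?_⟩
      · rw [mem_ball_iff_norm]
        have e : ξ - P N1 - (u - P N1) = ξ - u := by ring
        rwa [e]
      · rw [mem_ball_iff_norm]
        have e : ξ - P N1 - (u - P N2) = ξ + P N - u := by rw [hPsub]; ring
        rwa [e]
    have h4 := hid h3
    simp only at h4
    have e1 : ξ - P N1 + P N1 = ξ := by ring
    have e2 : ξ - P N1 + P N2 = ξ + P N := by rw [hPsub]; ring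
    rwa [e1, e2] at h4
  have hPnorm : ‖P N‖ = N * (2 * Real.pi) := by
    simp only [hP]
    rw [norm_mul, norm_mul, norm_mul, Complex.norm_I, mul_one, Complex.norm_natCast,
      Complex.norm_real, Real.norm_of_nonneg Real.pi_pos.le]
    simp
  -- step one
  have hT1 : ∀ ξ ∈ U, ξ + P N ∈ U →
      F (G (ξ + P N) - 2 * X.om) = F (G ξ - 2 * X.om) + P N := by
    intro ξ h1 h2
    have h3 := hV ξ h1 h2
    have h4 : Complex.exp (F (G (ξ + P N) - 2 * X.om)) = Complex.exp (F (G ξ - 2 * X.om)) := by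
      rw [hexp _ (hsub1 _ h1), hexp _ (hsub1 _ h2), h3]
    obtain ⟨k, hk⟩ := Complex.exp_eq_exp_iff_exists_int.1 h4
    have h5 := hT3 _ h2 _ h1
    have e1 : ξ + P N - ξ = P N := by ring
    rw [e1, hk] at h5
    have e2 : F (G ξ - 2 * X.om) + k * (2 * Real.pi * Complex.I) - F (G ξ - 2 * X.om) - P N =
        ((k - N : ℤ) : ℂ) * (2 * Real.pi * Complex.I) := by
      simp only [hP]
      push_cast
      ring
    rw [e2, norm_mul, norm_mul, norm_mul, Complex.norm_I, mul_one, Complex.norm_intCast,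
      Complex.norm_real, Real.norm_of_nonneg Real.pi_pos.le, hPnorm] at h5
    have h6 : (N : ℝ) ≤ (m : ℝ) ^ 2 := by exact_mod_cast hNm
    have h7 : η * N ≤ 1 / 10 := by
      rw [← hηm]
      exact mul_le_mul_of_nonneg_left h6 hη0.le
    have h8 : |((k - N : ℤ) : ℝ)| < 1 := by
      have hpi := Real.pi_pos
      have h9 : |((k - N : ℤ) : ℝ)| * (2 * Real.pi) ≤ 3 * (η * N) * (2 * Real.pi) := by
        have : ‖(2 : ℂ)‖ = 2 := by simp
        rw [this] at h5
        linarith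
      have h10 : |((k - N : ℤ) : ℝ)| ≤ 3 * (η * N) := le_of_mul_le_mul_right h9 (by positivity)
      linarith
    have h9 : k = N := by
      have h10 : |k - (N : ℤ)| < 1 := by exact_mod_cast h8
      rw [Int.abs_lt_one_iff] at h10
      omega
    rw [hk, h9]
    simp [hP]
  -- all steps
  have hmemV : ∀ ξ, ξ ∈ ball u R ∩ ball (u - P N) R ↔ ξ ∈ U ∧ ξ + P N ∈ U := by
    intro ξ
    have e : ξ + P N - u = ξ - (u - P N) := by ring
    simp only [mem_inter_iff, hU, mem_ball_iff_norm, e]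
  have huU : u ∈ U := mem_ball_self (by nlinarith)
  have huN : u + P N ∈ U := hnear u N (by simp) hNm
  have hall : ∀ l : ℕ, ∀ ξ ∈ U, ξ + P N ∈ U →
      F (G (ξ + P N) - 2 * (l + 1 : ℕ) * X.om) = F (G ξ - 2 * (l + 1 : ℕ) * X.om) + P N := by
    intro l
    induction l with
    | zero =>
      intro ξ h1 h2
      have := hT1 ξ h1 h2
      simpa using this
    | succ l ih =>
      have hTu : F (G u - 2 * X.om) ∈ ball u R ∩ ball (u - P N) R := by
        rw [hmemV]
        have h1 := star_lin hFb hld (hsh u huU) (hGb u huU)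
        rw [(hG u huU).2] at h1
        have e1 : G u - 2 * X.om - G u = -((2 * X.om : ℝ) : ℂ) := by push_cast; ring
        rw [e1, norm_neg, Complex.norm_real, Real.norm_of_nonneg (by linarith)] at h1
        have h2 : ‖F (G u - 2 * X.om) - u‖ ≤ 11 / 10 * (‖A‖ * (2 * X.om)) := by
          have e2 : F (G u - 2 * X.om) - u = (F (G u - 2 * X.om) - u -
            A * -((2 * X.om : ℝ) : ℂ)) + A * -((2 * X.om : ℝ) : ℂ) := by ring
          rw [e2]
          refine (norm_add_le _ _).trans ?_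
          rw [norm_mul, norm_neg, Complex.norm_real, Real.norm_of_nonneg (by linarith)]
          have h3 : η * (‖A‖ * (2 * X.om)) ≤ 1 / 10 * (‖A‖ * (2 * X.om)) :=
            mul_le_mul_of_nonneg_right hη (by positivity)
          linarith
        have h3 : ‖A‖ * (2 * X.om) ≤ ‖A‖ * (ρ / 50) := mul_le_mul_of_nonneg_left hom2 hA'.le
        have h4 := hPn N hNm
        refine ⟨?_, ?_⟩
        · rw [hU, mem_ball_iff_norm]
          refine h2.trans_lt ?_
          rw [hR]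
          nlinarith
        · rw [hU, mem_ball_iff_norm]
          have e : F (G u - 2 * X.om) + P N - u = (F (G u - 2 * X.om) - u) + P N := by ring
          rw [e]
          refine (norm_add_le _ _).trans_lt ?_
          have h5 : 63 / 10 * (m : ℝ) ^ 2 ≤ 63 / 1000 * (ρ * ‖A‖) := by linarith
          rw [hR]
          nlinarith
      have hcT : ContinuousAt (fun ξ => F (G ξ - 2 * X.om)) u := by
        have h1 := (hD 1).differentiableAt (hUo.mem_nhds huU)
        have h2 := h1.continuousAt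
        simpa using h2
      have hev : ∀ᶠ ξ in 𝓝 u, F (G ξ - 2 * X.om) ∈ ball u R ∩ ball (u - P N) R :=
        hcT.eventually_mem ((isOpen_ball.inter isOpen_ball).mem_nhds hTu)
      have hev2 : ∀ᶠ ξ in 𝓝 u, ξ ∈ ball u R ∩ ball (u - P N) R :=
        (isOpen_ball.inter isOpen_ball).mem_nhds ((hmemV u).2 ⟨huU, huN⟩)
      have hGT : ∀ ξ ∈ U, F (G ξ - 2 * X.om) ∈ U → G (F (G ξ - 2 * X.om)) = G ξ - 2 * X.om := by
        intro ξ h1 h2
        have h3 := star_low hη hFb hld (hGb _ h2) (hsh ξ h1)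
        rw [(hG _ h2).2, sub_self, norm_zero] at h3
        have h4 : ‖A‖ * ‖G (F (G ξ - 2 * X.om)) - (G ξ - 2 * X.om)‖ ≤ 0 := by linarith
        have h5 : ‖G (F (G ξ - 2 * X.om)) - (G ξ - 2 * X.om)‖ ≤ 0 := by
          by_contra h6
          push Not at h6
          have : 0 < ‖A‖ * ‖G (F (G ξ - 2 * X.om)) - (G ξ - 2 * X.om)‖ := by positivity
          linarith
        exact sub_eq_zero.1 (norm_le_zero_iff.1 h5)
      have hevq : ∀ᶠ ξ in 𝓝 u, F (G (ξ + P N) - 2 * (l + 1 + 1 : ℕ) * X.om) =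
          F (G ξ - 2 * (l + 1 + 1 : ℕ) * X.om) + P N := by
        filter_upwards [hev, hev2] with ξ h1 h2
        rw [hmemV] at h1 h2
        have h3 := ih _ h1.1 h1.2
        have h4 := hT1 ξ h2.1 h2.2
        have h5 := hGT ξ h2.1 h1.1
        have h6 := hGT (ξ + P N) h2.2 (by rw [h4]; exact h1.2)
        rw [h4] at h6
        rw [h5, h6] at h3
        have e : ∀ v : ℂ, v - 2 * X.om - 2 * (l + 1 : ℕ) * X.om =
            v - 2 * (l + 1 + 1 : ℕ) * X.om := by
          intro v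
          push_cast
          ring
        rwa [e, e] at h3
      have hidl : EqOn (fun ξ => F (G (ξ + P N) - 2 * (l + 1 + 1 : ℕ) * X.om))
          (fun ξ => F (G ξ - 2 * (l + 1 + 1 : ℕ) * X.om) + P N)
          (ball u R ∩ ball (u - P N) R) := by
        refine star_id (isOpen_ball.inter isOpen_ball) ((convex_ball _ _).inter (convex_ball _ _))
          ((hDs (l + 1 + 1) N).mono inter_subset_right)
          (((hD (l + 1 + 1)).add_const (P N)).mono inter_subset_left) (u := u)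
          ((hmemV u).2 ⟨huU, huN⟩) ?_
        exact (eventually_nhdsWithin_of_eventually_nhds hevq).frequently
      intro ξ h1 h2
      exact hidl ((hmemV ξ).2 ⟨h1, h2⟩)
  -- limit
  have hlim1 := (hw (G (u + P N))).comp (tendsto_add_atTop_nat 1)
  have hlim2 := ((hw (G u)).comp (tendsto_add_atTop_nat 1)).add_const (P N)
  have heq : (fun l : ℕ => F (G (u + P N) - 2 * l * X.om)) ∘ (fun a => a + 1) =
      fun l : ℕ => ((fun l : ℕ => F (G u - 2 * l * X.om)) ∘ (fun a => a + 1)) l + P N := by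
    funext l
    exact hall l u huU huN
  rw [heq] at hlim1
  have h1 := tendsto_nhds_unique hlim1 hlim2
  have h2 : P N = 0 := by
    have h3 : w = w + P N := h1
    exact left_eq_add.1 h3
  rw [h2, norm_zero] at hPnorm
  have h3 : (1 : ℝ) ≤ N := by exact_mod_cast hN1
  have h4 := Real.pi_pos
  nlinarith

end Pool.Agent.HZ
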