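import Pool.Agent.H.MP_cd3d06_an.L.Growth
import Pool.Agent.H.MP_cd3d06_an.L.Select
import Pool.Agent.H.MP_cd3d06_an.L.Star
import Pool.Agent.H.MP_cd3d06_an.L.NearLin
import Pool.Agent.H.MP_cd3d06_an.L.Collide

/-! MP_cd3d06_an, module ClassB: multipliers close to 1 -/

open Polynomial Metric Set Filter Topology
open scoped ComplexConjugate

namespace Pool.Agent.HZ

/-- two steps are small if the logarithmic derivative is small compared with `1/ω` -/
theorem Lin.good_of_bound {p q : ℂ[X]} {x : ℂ} (X : Lin p q x) {K : ℕ} (hK : 2 ≤ K) {k1 : ℝ}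
    (hk : 2 * k1 ≤ 1 / (4 * q.natDegree)) (hm : 1 ≤ q.natDegree)
    (hB : X.Bound (K * X.om) (k1 / X.om)) : X.Good K := by
  intro v hv c hc
  have hω := X.om_pos
  have hK' : (2 : ℝ) ≤ K := by exact_mod_cast hK
  obtain ⟨F, hF, hexp, -, -⟩ := X.exists_F hc
  have hlt : ∀ u : ℂ, u.re ≤ -(K * X.om) → u.re < -X.om := by
    intro u hu
    nlinarith
  have hconv : Convex ℝ {u : ℂ | u.re ≤ -(K * X.om)} := convex_halfSpace_re_le _
  have hv2 : (v - 2 * X.om : ℂ).re ≤ -(K * X.om) := by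
    have : (v - 2 * X.om : ℂ).re = v.re - 2 * X.om := by simp
    rw [this]; linarith
  have hmv := hconv.norm_image_sub_le_of_norm_hasDerivWithin_le
    (f := F) (f' := X.ld c) (C := k1 / X.om)
    (fun u hu => (hF u (hlt u hu)).hasDerivWithinAt) (fun u hu => hB c hc u hu)
    (show v ∈ {u : ℂ | u.re ≤ -(K * X.om)} from hv)
    (show (v - 2 * X.om : ℂ) ∈ {u : ℂ | u.re ≤ -(K * X.om)} from hv2)
  have hn : ‖(v - 2 * X.om : ℂ) - v‖ = 2 * X.om := by
    have : (v - 2 * X.om : ℂ) - v = -((2 * X.om : ℝ) : ℂ) := by push_cast; ring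
    rw [this, norm_neg, Complex.norm_real, Real.norm_eq_abs, abs_of_pos (by positivity)]
  rw [hn] at hmv
  have hd : ‖F (v - 2 * X.om) - F v‖ ≤ 2 * k1 := by
    calc ‖F (v - 2 * X.om) - F v‖ ≤ k1 / X.om * (2 * X.om) := hmv
      _ = 2 * k1 := by field_simp
  have hm' : (1 : ℝ) ≤ q.natDegree := by exact_mod_cast hm
  have hk4 : 1 / (4 * (q.natDegree : ℝ)) ≤ 1 / 4 := by
    apply one_div_le_one_div_of_le (by norm_num); linarith
  have hd1 : ‖F (v - 2 * X.om) - F v‖ ≤ 1 := by linarith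
  have hexp2 := Complex.norm_exp_sub_one_le hd1
  have h1 := hexp v (hlt v hv)
  have h2 := hexp (v - 2 * X.om) (hlt _ hv2)
  have h3 : X.f (v - 2 * X.om) - X.f v =
      (X.f v - c) * (Complex.exp (F (v - 2 * X.om) - F v) - 1) := by
    have : X.f (v - 2 * X.om) - c = (X.f v - c) * Complex.exp (F (v - 2 * X.om) - F v) := by
      rw [← h1, ← h2, ← Complex.exp_add]; congr 1; ring
    linear_combination this
  rw [h3, norm_mul, mul_comm]
  apply mul_le_mul_of_nonneg_right _ (norm_nonneg _)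
  calc ‖Complex.exp (F (v - 2 * X.om) - F v) - 1‖ ≤ 2 * ‖F (v - 2 * X.om) - F v‖ := hexp2
    _ ≤ 2 * (1 / (4 * q.natDegree)) := by linarith
    _ = 1 / (2 * q.natDegree) := by
        have : (q.natDegree : ℝ) ≠ 0 := by positivity
        field_simp; norm_num

/-- iterated growth -/
theorem Lin.growth_iter {p q : ℂ[X]} {x : ℂ} (X : Lin p q x) (hm : 1 ≤ q.natDegree)
    (hω : X.om ≤ 1) {y k1 : ℝ} (hk : k1 ≤ 1) {s : ℕ} (hy : (s + 2) * X.om ≤ y)
    (hB : X.Bound y (k1 / X.om)) (j : ℕ) (hj : j ≤ 2 * s) :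
    X.Bound (y - j * (X.om / 2)) ((96 * Real.pi * (3 + 8 * q.natDegree)) ^ j / X.om) := by
  have hω0 := X.om_pos
  have hm' : (1 : ℝ) ≤ q.natDegree := by exact_mod_cast hm
  have hC : 1 ≤ 96 * Real.pi * (3 + 8 * (q.natDegree : ℝ)) := by
    have := Real.pi_gt_three
    nlinarith
  induction j with
  | zero =>
    simp only [Nat.cast_zero, zero_mul, sub_zero, pow_zero]
    exact hB.mono le_rfl (by gcongr)
  | succ j ih =>
    have ih := ih (by omega)
    have hj' : (j : ℝ) + 1 ≤ 2 * s := by exact_mod_cast hj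
    have h2 : 2 * X.om < y - j * (X.om / 2) := by nlinarith
    have hG : 0 ≤ (96 * Real.pi * (3 + 8 * (q.natDegree : ℝ))) ^ j / X.om := by positivity
    have h := X.growth hm hG h2 ih
    refine h.mono (le_of_eq ?_) ?_
    · push_cast; ring
    · set D := (96 * Real.pi * (3 + 8 * (q.natDegree : ℝ))) with hD
      have hDj : 1 ≤ D ^ j := one_le_pow₀ hC
      have key : 96 * Real.pi * (2 / X.om + 8 * q.natDegree * (D ^ j / X.om) + 1) ≤
          96 * Real.pi * ((3 + 8 * q.natDegree) * (D ^ j / X.om)) := by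
        apply mul_le_mul_of_nonneg_left _ (by positivity)
        have e : (2 / X.om + 8 * q.natDegree * (D ^ j / X.om) + 1) =
            (2 + 8 * q.natDegree * D ^ j + X.om) / X.om := by field_simp
        have e2 : (3 + 8 * (q.natDegree : ℝ)) * (D ^ j / X.om) =
            ((3 + 8 * q.natDegree) * D ^ j) / X.om := by ring
        rw [e, e2]
        gcongr
        nlinarith
      calc _ ≤ 96 * Real.pi * ((3 + 8 * q.natDegree) * (D ^ j / X.om)) := key
        _ = D ^ (j + 1) / X.om := by rw [pow_succ, hD]; ring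

/-- the rescaled logarithmic derivative around the deepest large point is nearly exponential -/
theorem Lin.near_exp (m : ℕ) (hm : 1 ≤ m) (k1 R₀ ε : ℝ) (hk0 : 0 < k1) (hk1 : k1 ≤ 1) (hε : 0 < ε) :
    ∃ K : ℕ, 2 ≤ K ∧ ∀ (p q : ℂ[X]) (x : ℂ), q.natDegree = m → ∀ X : Lin p q x, X.om ≤ 1 →
      ∀ c v₀ : ℂ, (derivative q).eval c = 0 → v₀.re ≤ -(K * X.om) → ‖X.ld c v₀‖ = k1 / X.om →
        X.Bound (-v₀.re) (k1 / X.om) → ∃ a : ℝ, 0 ≤ a ∧ ∃ Λ : ℂ → ℂ, ∀ ξ : ℂ, ‖ξ‖ ≤ R₀ →
          (v₀ + X.om * ξ).re < -X.om ∧ X.ld c (v₀ + X.om * ξ) = X.ld c v₀ * Complex.exp (Λ ξ) ∧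
            ‖Λ ξ - a * ξ‖ ≤ ε := by
  set D : ℝ := 96 * Real.pi * (3 + 8 * (m : ℝ)) with hD
  have hm' : (1 : ℝ) ≤ m := by exact_mod_cast hm
  have hD1 : 1 ≤ D := by
    have := Real.pi_gt_three
    nlinarith
  have hlogD : 0 ≤ Real.log D := Real.log_nonneg hD1
  have hlogk : 0 ≤ Real.log (1 / k1) := Real.log_nonneg (by rw [le_div_iff₀ hk0]; linarith)
  obtain ⟨s₀, hs₀⟩ := near_linear (2 * Real.log D + Real.log (1 / k1)) R₀ ε hε
  obtain ⟨s, hs⟩ := exists_nat_ge (max s₀ (max 1 (R₀ + 1)))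
  have hs1 : s₀ ≤ s := le_trans (le_max_left _ _) hs
  have hs2 : (1 : ℝ) ≤ s := le_trans (le_trans (le_max_left _ _) (le_max_right _ _)) hs
  have hs3 : R₀ + 1 ≤ s := le_trans (le_trans (le_max_right _ _) (le_max_right _ _)) hs
  refine ⟨s + 2, by omega, ?_⟩
  intro p q x hq X hω c v₀ hc hv₀ hld hB
  have hω0 := X.om_pos
  have hv₀' : v₀.re ≤ -((s + 2) * X.om) := by
    have : ((s + 2 : ℕ) : ℝ) = s + 2 := by push_cast; ring
    rw [this] at hv₀; exact hv₀
  have hA0 : X.ld c v₀ ≠ 0 := by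
    intro h; rw [h, norm_zero] at hld
    have : 0 < k1 / X.om := by positivity
    linarith
  have hre : ∀ ξ : ℂ, (v₀ + X.om * ξ).re = v₀.re + X.om * ξ.re := by
    intro ξ; simp
  have hdepth : ∀ ξ ∈ ball (0 : ℂ) s, (v₀ + X.om * ξ).re < -X.om := by
    intro ξ hξ
    rw [hre]
    have h1 : ξ.re < s := lt_of_le_of_lt (Complex.re_le_norm ξ) (by simpa using hξ)
    nlinarith
  have hbig := X.growth_iter (by rw [hq]; exact hm) hω hk1 (s := s) (y := -v₀.re) (by linarith)
    hB (2 * s) le_rfl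
  rw [hq] at hbig
  -- the quotient
  set g : ℂ → ℂ := fun ξ => X.ld c (v₀ + X.om * ξ) / X.ld c v₀ with hg
  have hgd : DifferentiableOn ℂ g (ball 0 s) := by
    apply DifferentiableOn.div_const
    refine (X.ld_differentiableOn hc).comp (t := {v : ℂ | v.re < -X.om}) ?_ ?_
    · fun_prop
    · intro ξ hξ; exact hdepth ξ hξ
  have hg0 : ∀ ξ ∈ ball (0 : ℂ) s, g ξ ≠ 0 := by
    intro ξ hξ
    exact div_ne_zero (X.ld_ne hc (hdepth ξ hξ)) hA0
  have hspos : (0 : ℝ) < s := by linarith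
  obtain ⟨L, hL, hLe⟩ := exists_log_ball hgd hg0
  have h0mem : (0 : ℂ) ∈ ball (0 : ℂ) (s : ℝ) := by simpa using hspos
  have hLe0 : Complex.exp (L 0) = 1 := by
    rw [hLe 0 h0mem, hg]; simp [hA0]
  set Λ : ℂ → ℂ := fun ξ => L ξ - L 0 with hΛ
  have hexp : ∀ ξ ∈ ball (0 : ℂ) s, Complex.exp (Λ ξ) = g ξ := by
    intro ξ hξ
    simp only [hΛ]
    rw [Complex.exp_sub, hLe0, hLe ξ hξ, div_one]
  have hΛd : DifferentiableOn ℂ Λ (ball 0 s) := fun ξ hξ =>
    ((hL ξ hξ).differentiableAt.sub_const _).differentiableWithinAt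
  have hnorm : ∀ ξ ∈ ball (0 : ℂ) s, Real.exp (Λ ξ).re = ‖X.ld c (v₀ + X.om * ξ)‖ / (k1 / X.om) := by
    intro ξ hξ
    rw [← Complex.norm_exp, hexp ξ hξ, hg]
    simp only [norm_div, hld]
  have hub : ∀ ξ ∈ ball (0 : ℂ) s, (Λ ξ).re ≤ (2 * Real.log D + Real.log (1 / k1)) * s := by
    intro ξ hξ
    have h1 : ξ.re < s := lt_of_le_of_lt (Complex.re_le_norm ξ) (by simpa using hξ)
    have h2 : ‖X.ld c (v₀ + X.om * ξ)‖ ≤ D ^ (2 * s) / X.om := by
      apply hbig c hc
      rw [hre]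
      push_cast
      nlinarith
    have h3 : Real.exp (Λ ξ).re ≤ D ^ (2 * s) / k1 := by
      rw [hnorm ξ hξ]
      calc ‖X.ld c (v₀ + X.om * ξ)‖ / (k1 / X.om) ≤ (D ^ (2 * s) / X.om) / (k1 / X.om) := by
            gcongr
        _ = D ^ (2 * s) / k1 := by field_simp
    have h4 : (Λ ξ).re ≤ Real.log (D ^ (2 * s) / k1) := by
      rw [Real.le_log_iff_exp_le (by positivity)]; exact h3
    have h5 : Real.log (D ^ (2 * s) / k1) = 2 * s * Real.log D + Real.log (1 / k1) := by
      rw [Real.log_div (by positivity) hk0.ne', Real.log_pow, one_div, Real.log_inv]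
      push_cast; ring
    rw [h5] at h4
    nlinarith
  have hleft : ∀ ξ ∈ ball (0 : ℂ) s, ξ.re ≤ 0 → (Λ ξ).re ≤ 0 := by
    intro ξ hξ hξre
    have h2 : ‖X.ld c (v₀ + X.om * ξ)‖ ≤ k1 / X.om := by
      apply hB c hc
      rw [hre]
      nlinarith
    have h3 : Real.exp (Λ ξ).re ≤ 1 := by
      rw [hnorm ξ hξ]
      exact div_le_one_of_le₀ h2 (by positivity)
    exact Real.exp_le_one_iff.mp h3
  obtain ⟨a, ha, hΛa⟩ := hs₀ s hs1 hspos Λ hΛd (by simp [hΛ]) hub hleft
  refine ⟨a, ha, Λ, fun ξ hξ => ?_⟩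
  have hξ' : ξ ∈ ball (0 : ℂ) s := by
    rw [mem_ball_zero_iff]; linarith
  refine ⟨hdepth ξ hξ', ?_, hΛa ξ hξ⟩
  rw [hexp ξ hξ', hg]
  field_simp

theorem classB (m : ℕ) (hm : 1 ≤ m) : ∃ ω₀ : ℝ, 0 < ω₀ ∧ ∃ K : ℕ, ∀ (p q : ℂ[X]) (x : ℂ),
    q.natDegree = m → ∀ X : Lin p q x, X.om ≤ ω₀ → X.Good K := by
  have hm' : (1 : ℝ) ≤ m := by exact_mod_cast hm
  have hm0 : (0 : ℝ) < m := by linarith
  obtain ⟨Cs, ηs, hCs, hηs, hstar⟩ := star m hm
  obtain ⟨ε₀, hε₀, hcol⟩ := collide
  -- constants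
  set k' : ℝ := 1 / (4 * m) with hk'
  have hk'0 : 0 < k' := by positivity
  set η : ℝ := min ηs 1 / 8 with hη
  have hη0 : 0 < η := by positivity
  have hη1 : η ≤ 1 / 8 := by
    rw [hη]; have := min_le_right ηs 1; linarith
  have hη2 : 8 * η ≤ ηs := by
    rw [hη]; have := min_le_left ηs 1; linarith
  set k1 : ℝ := min (k' / 2) (min (1 / 2) (η * k' / (7 * Cs))) with hk1
  have hk10 : 0 < k1 := by positivity
  have hk1a : 2 * k1 ≤ k' := by
    have := min_le_left (k' / 2) (min (1 / 2) (η * k' / (7 * Cs)))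
    rw [← hk1] at this; linarith
  have hk1b : k1 ≤ 1 / 2 := le_trans (min_le_right _ _) (min_le_left _ _)
  have hk1c : 7 * Cs * k1 ≤ η * k' := by
    have : k1 ≤ η * k' / (7 * Cs) := le_trans (min_le_right _ _) (min_le_right _ _)
    rw [le_div_iff₀ (by positivity)] at this
    linarith
  set a0 : ℝ := η * k1 / Cs with ha0
  have ha00 : 0 < a0 := by positivity
  have hlogk : 0 ≤ Real.log (1 / k1) := Real.log_nonneg (by rw [le_div_iff₀ hk10]; linarith)
  set R₀ : ℝ := max (16 * k' / (7 * k1)) (max (Cs / k1) ((Real.log (1 / k1) + η) / a0)) with hR₀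
  have hRa : 16 * k' / (7 * k1) ≤ R₀ := le_max_left _ _
  have hRb : Cs / k1 ≤ R₀ := le_trans (le_max_left _ _) (le_max_right _ _)
  have hRc : (Real.log (1 / k1) + η) / a0 ≤ R₀ := le_trans (le_max_right _ _) (le_max_right _ _)
  set ε : ℝ := min ε₀ η with hε
  have hεpos : 0 < ε := by positivity
  have hε1 : ε ≤ ε₀ := min_le_left _ _
  have hε2 : ε ≤ η := min_le_right _ _
  obtain ⟨K, hK, hnear⟩ := Lin.near_exp m hm k1 R₀ ε hk10 (by linarith) hεpos
  refine ⟨min 1 (Real.pi * k1 / k'), by positivity, K, ?_⟩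
  intro p q x hq X hω
  have hω1 : X.om ≤ 1 := hω.trans (min_le_left _ _)
  have hω2 : X.om * k' ≤ Real.pi * k1 := by
    have : X.om ≤ Real.pi * k1 / k' := hω.trans (min_le_right _ _)
    rwa [le_div_iff₀ hk'0] at this
  have hω0 := X.om_pos
  have hKω : X.om < K * X.om := by
    have : (2 : ℝ) ≤ K := by exact_mod_cast hK
    nlinarith
  apply X.good_of_bound hK (k1 := k1) (by rw [hq]; exact hk1a) (by rw [hq]; exact hm)
  by_contra hnot
  obtain ⟨c, v₀, hc, hv₀, hld, hB⟩ := X.select hKω (by positivity) hnot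
  obtain ⟨a, ha, Λ, hΛ⟩ := hnear p q x hq X hω1 c v₀ hc hv₀ hld hB
  obtain ⟨F, hF, hFe, -, -⟩ := X.exists_F hc
  have hA0 : X.ld c v₀ ≠ 0 := by
    intro h; rw [h, norm_zero] at hld
    have : 0 < k1 / X.om := by positivity
    linarith
  have hsc : ∀ v : ℂ, v₀ + X.om * ((v - v₀) / X.om) = v := by
    intro v
    have : (X.om : ℂ) ≠ 0 := by exact_mod_cast hω0.ne'
    field_simp; ring
  by_cases hcase : 7 * k1 / k' ≤ a
  · -- collision
    have ha' : 0 < a := lt_of_lt_of_le (by positivity) hcase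
    have h16 : 16 ≤ R₀ * a := by
      calc (16 : ℝ) = (16 * k' / (7 * k1)) * (7 * k1 / k') := by field_simp
        _ ≤ R₀ * a := by gcongr
    have hb : (X.om : ℂ) * X.ld c v₀ ≠ 0 := mul_ne_zero (by exact_mod_cast hω0.ne') hA0
    obtain ⟨ξ, ξ', hξ, hξ', hre, hre', hne, hdist, heq⟩ := hcol a R₀ (X.om * X.ld c v₀)
      (fun ξ => F (v₀ + X.om * ξ)) Λ ha' h16 hb (by
        intro ξ hξ
        rw [mem_ball_zero_iff] at hξ
        obtain ⟨h1, h2, -⟩ := hΛ ξ hξ.le
        have h3 := (hF _ h1)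
        have h4 : HasDerivAt (fun ξ : ℂ => v₀ + X.om * ξ) X.om ξ := by
          have := ((hasDerivAt_id ξ).const_mul (X.om : ℂ)).const_add v₀
          simpa using this
        have h5 := h3.comp ξ h4
        have h6 : X.ld c (v₀ + X.om * ξ) * X.om = X.om * X.ld c v₀ * Complex.exp (Λ ξ) := by
          rw [h2]; ring
        rw [h6] at h5
        exact h5) (by
        intro ξ hξ
        rw [mem_ball_zero_iff] at hξ
        exact ((hΛ ξ hξ.le).2.2).trans hε1)
    rw [mem_ball_zero_iff] at hξ hξ'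
    have hr1 := (hΛ ξ hξ.le).1
    have hr2 := (hΛ ξ' hξ'.le).1
    have hf : X.f (v₀ + X.om * ξ) = X.f (v₀ + X.om * ξ') := by
      have e1 := hFe _ hr1
      have e2 := hFe _ hr2
      rw [heq, e2] at e1
      linear_combination -e1
    have hdv : (v₀ + X.om * ξ) - (v₀ + X.om * ξ') = X.om * (ξ - ξ') := by ring
    have hdn : ‖(v₀ + X.om * ξ) - (v₀ + X.om * ξ')‖ = X.om * ‖ξ - ξ'‖ := by
      rw [hdv, norm_mul, Complex.norm_real, Real.norm_eq_abs, abs_of_pos hω0]
    have h7 : ‖ξ - ξ'‖ * k1 ≤ k' := by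
      have h7a : 7 / a ≤ k' / k1 := by
        rw [div_le_iff₀ hk'0] at hcase
        rw [div_le_div_iff₀ ha' hk10]; linarith
      have := hdist.trans h7a
      rwa [le_div_iff₀ hk10] at this
    obtain ⟨k, hk⟩ := X.lemB (by rw [hq]; exact hm) (y := -v₀.re - X.om) (G := k1 / X.om)
      (by nlinarith) (by rw [sub_add_cancel]; exact hB)
      (v := v₀ + X.om * ξ) (v' := v₀ + X.om * ξ')
      (by simp; nlinarith) (by simp; nlinarith)
      (by rw [hdn, hq]
          calc k1 / X.om * (X.om * ‖ξ - ξ'‖) = ‖ξ - ξ'‖ * k1 := by field_simp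
            _ ≤ 1 / (4 * m) := h7) hf
    have hk2 : X.om * ‖ξ - ξ'‖ = 2 * Real.pi * |(k : ℝ)| := by
      have : (v₀ + X.om * ξ) - (v₀ + X.om * ξ') = -(2 * Real.pi * k * Complex.I) := by
        rw [hk]; ring
      rw [← hdn, this, norm_neg]
      simp only [norm_mul, Complex.norm_I, mul_one, Complex.norm_real, Real.norm_eq_abs,
        Complex.norm_intCast, abs_of_pos Real.pi_pos, Complex.norm_ofNat]
    have hk3 : X.om * ‖ξ - ξ'‖ ≤ Real.pi := by
      have h8 : X.om * ‖ξ - ξ'‖ * k1 ≤ Real.pi * k1 := by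
        calc X.om * ‖ξ - ξ'‖ * k1 = X.om * (‖ξ - ξ'‖ * k1) := by ring
          _ ≤ X.om * k' := by gcongr
          _ ≤ Real.pi * k1 := hω2
      exact le_of_mul_le_mul_right h8 hk10
    have hk0 : k = 0 := by
      by_contra hk0
      have : (1 : ℝ) ≤ |(k : ℝ)| := by
        have : (1 : ℤ) ≤ |k| := Int.one_le_abs hk0
        exact_mod_cast this
      have := Real.pi_pos
      nlinarith
    rw [hk0] at hk2
    simp only [Int.cast_zero, abs_zero, mul_zero, mul_eq_zero, hω0.ne', false_or, norm_eq_zero] at hk2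
    exact hne (sub_eq_zero.mp hk2)
  · push Not at hcase
    by_cases hsmall : a ≤ a0
    · -- star at v₀
      refine hstar p q x hq X c hc v₀ (X.ld c v₀) (Cs * X.om / k1) ?_ ?_ ?_ ?_
      · intro v hv
        have hξ : ‖(v - v₀) / X.om‖ ≤ R₀ := by
          rw [norm_div, Complex.norm_real, Real.norm_eq_abs, abs_of_pos hω0, div_le_iff₀ hω0]
          rw [mem_ball, dist_eq_norm] at hv
          calc ‖v - v₀‖ ≤ Cs * X.om / k1 := hv.le
            _ = Cs / k1 * X.om := by ring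
            _ ≤ R₀ * X.om := by gcongr
        have := (hΛ _ hξ).1
        rwa [hsc] at this
      · intro v hv
        rw [mem_ball, dist_eq_norm] at hv
        have hξ1 : ‖(v - v₀) / X.om‖ ≤ Cs / k1 := by
          rw [norm_div, Complex.norm_real, Real.norm_eq_abs, abs_of_pos hω0, div_le_iff₀ hω0]
          calc ‖v - v₀‖ ≤ Cs * X.om / k1 := hv.le
            _ = Cs / k1 * X.om := by ring
        obtain ⟨-, h2, h3⟩ := hΛ _ (hξ1.trans hRb)
        rw [hsc] at h2
        have h4 : ‖Λ ((v - v₀) / X.om)‖ ≤ 2 * η := by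
          calc ‖Λ ((v - v₀) / X.om)‖ = ‖(Λ ((v - v₀) / X.om) - a * ((v - v₀) / X.om)) +
                a * ((v - v₀) / X.om)‖ := by congr 1; ring
            _ ≤ ‖Λ ((v - v₀) / X.om) - a * ((v - v₀) / X.om)‖ + ‖a * ((v - v₀) / X.om)‖ :=
                norm_add_le _ _
            _ ≤ ε + a * (Cs / k1) := by
                gcongr
                rw [norm_mul, Complex.norm_real, Real.norm_eq_abs, abs_of_nonneg ha]
                gcongr
            _ ≤ η + a0 * (Cs / k1) := by gcongr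
            _ = 2 * η := by rw [ha0]; field_simp; ring
        have h5 := Complex.norm_exp_sub_one_le (x := Λ ((v - v₀) / X.om)) (by linarith)
        have h6 : X.ld c v - X.ld c v₀ = X.ld c v₀ * (Complex.exp (Λ ((v - v₀) / X.om)) - 1) := by
          rw [h2]; ring
        rw [h6, norm_mul, mul_comm]
        gcongr
        linarith
      · rw [mul_div_assoc]
        have : X.om ≤ X.om / k1 := by
          rw [le_div_iff₀ hk10]; nlinarith
        gcongr
      · rw [hld]
        apply le_of_eq; field_simp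
    · -- star further to the right
      push Not at hsmall
      have ha' : 0 < a := ha00.trans hsmall
      set ξc : ℝ := Real.log (1 / k1) / a with hξc
      have hξc0 : 0 ≤ ξc := by positivity
      have haξ : a * ξc = Real.log (1 / k1) := by rw [hξc]; field_simp
      have hexpa : Real.exp (a * ξc) = 1 / k1 := by
        rw [haξ, Real.exp_log (by positivity)]
      have hA : ‖X.ld c v₀ * Complex.exp ((a * ξc : ℝ) : ℂ)‖ = 1 / X.om := by
        rw [norm_mul, hld, Complex.norm_exp, Complex.ofReal_re, hexpa]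
        field_simp
      have hCa : Cs ≤ η / a := by
        rw [le_div_iff₀ ha']
        rw [lt_div_iff₀ hk'0] at hcase
        have : 7 * (Cs * a) * k' ≤ 7 * η * k' := by
          calc 7 * (Cs * a) * k' = 7 * Cs * (a * k') := by ring
            _ ≤ 7 * Cs * (7 * k1) := by gcongr
            _ = 7 * (7 * Cs * k1) := by ring
            _ ≤ 7 * (η * k') := by gcongr
            _ = 7 * η * k' := by ring
        have := le_of_mul_le_mul_right this hk'0
        linarith
      have hkey : ∀ v ∈ ball (v₀ + X.om * ξc) (η * X.om / a),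
          ‖(v - v₀) / X.om - ξc‖ ≤ η / a ∧ ‖(v - v₀) / X.om‖ ≤ R₀ := by
        intro v hv
        rw [mem_ball, dist_eq_norm] at hv
        have h1 : ‖(v - v₀) / X.om - ξc‖ ≤ η / a := by
          have : (v - v₀) / X.om - ξc = (v - (v₀ + X.om * ξc)) / X.om := by
            have : (X.om : ℂ) ≠ 0 := by exact_mod_cast hω0.ne'
            field_simp; ring
          rw [this, norm_div, Complex.norm_real, Real.norm_eq_abs, abs_of_pos hω0,
            div_le_iff₀ hω0]
          calc _ ≤ η * X.om / a := hv.le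
            _ = η / a * X.om := by ring
        refine ⟨h1, ?_⟩
        calc ‖(v - v₀) / X.om‖ = ‖((v - v₀) / X.om - ξc) + ξc‖ := by congr 1; ring
          _ ≤ ‖(v - v₀) / X.om - ξc‖ + ‖(ξc : ℂ)‖ := norm_add_le _ _
          _ ≤ η / a + ξc := by
              gcongr
              rw [Complex.norm_real, Real.norm_eq_abs, abs_of_nonneg hξc0]
          _ = (Real.log (1 / k1) + η) / a := by rw [hξc]; ring
          _ ≤ (Real.log (1 / k1) + η) / a0 := by gcongr
          _ ≤ R₀ := hRc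
      refine hstar p q x hq X c hc (v₀ + X.om * ξc)
        (X.ld c v₀ * Complex.exp ((a * ξc : ℝ) : ℂ)) (η * X.om / a) ?_ ?_ ?_ ?_
      · intro v hv
        have := (hΛ _ (hkey v hv).2).1
        rwa [hsc] at this
      · intro v hv
        obtain ⟨h1, h1'⟩ := hkey v hv
        obtain ⟨-, h2, h3⟩ := hΛ _ h1'
        rw [hsc] at h2
        have h4 : ‖Λ ((v - v₀) / X.om) - (a * ξc : ℝ)‖ ≤ 2 * η := by
          calc ‖Λ ((v - v₀) / X.om) - (a * ξc : ℝ)‖ =
                ‖(Λ ((v - v₀) / X.om) - a * ((v - v₀) / X.om)) +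
                a * ((v - v₀) / X.om - ξc)‖ := by congr 1; push_cast; ring
            _ ≤ ‖Λ ((v - v₀) / X.om) - a * ((v - v₀) / X.om)‖ +
                ‖a * ((v - v₀) / X.om - ξc)‖ := norm_add_le _ _
            _ ≤ ε + a * (η / a) := by
                gcongr
                rw [norm_mul, Complex.norm_real, Real.norm_eq_abs, abs_of_nonneg ha]
                gcongr
            _ ≤ η + η := by
                gcongr
                apply le_of_eq; field_simp
            _ = 2 * η := by ring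
        have h5 := Complex.norm_exp_sub_one_le (x := Λ ((v - v₀) / X.om) - (a * ξc : ℝ))
          (by linarith)
        have h6 : X.ld c v - X.ld c v₀ * Complex.exp ((a * ξc : ℝ) : ℂ) =
            (X.ld c v₀ * Complex.exp ((a * ξc : ℝ) : ℂ)) *
              (Complex.exp (Λ ((v - v₀) / X.om) - (a * ξc : ℝ)) - 1) := by
          rw [h2, Complex.exp_sub]
          have := Complex.exp_ne_zero ((a * ξc : ℝ) : ℂ)
          field_simp
        rw [h6, norm_mul, mul_comm]
        gcongr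
        linarith
      · calc Cs * X.om ≤ η / a * X.om := by gcongr
          _ = η * X.om / a := by ring
      · rw [hA]
        calc Cs ≤ η / a := hCa
          _ = η * X.om / a * (1 / X.om) := by field_simp

end Pool.Agent.HZ
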