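import Pool.Agent.H.MP_cd3d06_an.L.DBasic

/-! MP_cd3d06_an, module DAsymp: evaluation at infinity -/

open Polynomial Metric Set Filter Topology MeasureTheory
open scoped ComplexConjugate

namespace Pool.Agent.HZ

private theorem da_tendsto {P : ℂ[X]} {d : ℕ} (hP : P.natDegree ≤ d) (ζ : ℂ) :
    Tendsto (fun r : ℝ => P.eval ((r : ℂ) * ζ) / (r : ℂ) ^ d) atTop (𝓝 (P.coeff d * ζ ^ d)) := by
  have h1 : (fun r : ℝ => P.eval ((r : ℂ) * ζ) / (r : ℂ) ^ d)
      = fun r : ℝ => ∑ i ∈ Finset.range (d + 1), P.coeff i * ζ ^ i * (((r ^ i / r ^ d : ℝ)) : ℂ) := by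
    funext r
    rw [Polynomial.eval_eq_sum_range' (Nat.lt_succ_of_le hP), Finset.sum_div]
    refine Finset.sum_congr rfl fun i _ => ?_
    push_cast
    rw [mul_pow]
    ring
  rw [h1]
  have h2 : P.coeff d * ζ ^ d
      = ∑ i ∈ Finset.range (d + 1), P.coeff i * ζ ^ i * (((if i = d then 1 else 0 : ℝ)) : ℂ) := by
    rw [Finset.sum_eq_single d]
    · simp
    · intro i _ hi
      simp [hi]
    · intro h
      exact absurd (Finset.mem_range.2 (Nat.lt_succ_self d)) h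
  rw [h2]
  refine tendsto_finsetSum _ fun i hi => ?_
  refine Tendsto.const_mul _ ?_
  refine (Complex.continuous_ofReal.tendsto _).comp ?_
  by_cases hid : i = d
  · subst hid
    simp only [if_true]
    refine tendsto_const_nhds.congr' ?_
    filter_upwards [eventually_gt_atTop (0 : ℝ)] with r hr
    rw [div_self (pow_ne_zero _ hr.ne')]
  · simp only [if_neg hid]
    have : i < d := lt_of_le_of_ne (Nat.lt_succ_iff.1 (Finset.mem_range.1 hi)) hid
    exact tendsto_pow_div_pow_atTop_zero this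

private theorem da_bound {P : ℂ[X]} {d : ℕ} (hP : P.natDegree ≤ d) (K : ℝ) :
    ∃ A : ℝ, 0 ≤ A ∧ ∀ r : ℝ, 1 ≤ r → ∀ ζ : ℂ, ‖ζ‖ ≤ K →
      ‖P.eval ((r : ℂ) * ζ) / (r : ℂ) ^ d‖ ≤ A := by
  refine ⟨∑ i ∈ Finset.range (d + 1), ‖P.coeff i‖ * |K| ^ i,
    Finset.sum_nonneg fun i _ => by positivity, ?_⟩
  intro r hr ζ hζ
  have hK : ‖ζ‖ ≤ |K| := hζ.trans (le_abs_self K)
  have hr0 : 0 < r := by linarith
  rw [Polynomial.eval_eq_sum_range' (Nat.lt_succ_of_le hP), Finset.sum_div]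
  refine (norm_sum_le _ _).trans (Finset.sum_le_sum fun i hi => ?_)
  have hid : i ≤ d := Nat.lt_succ_iff.1 (Finset.mem_range.1 hi)
  rw [norm_div, norm_mul, norm_pow, norm_pow, norm_mul, Complex.norm_real, Real.norm_eq_abs,
    abs_of_pos hr0, div_le_iff₀ (by positivity), mul_pow]
  have h1 : r ^ i ≤ r ^ d := pow_le_pow_right₀ hr hid
  have h2 : ‖ζ‖ ^ i ≤ |K| ^ i := pow_le_pow_left₀ (norm_nonneg _) hK i
  calc ‖P.coeff i‖ * (r ^ i * ‖ζ‖ ^ i) ≤ ‖P.coeff i‖ * (r ^ d * |K| ^ i) := by gcongr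
    _ = ‖P.coeff i‖ * |K| ^ i * r ^ d := by ring

private theorem da_radial (f : ℝ → ℝ) :
    ∫ ζ : ℂ, f ‖ζ‖ = 2 * Real.pi * ∫ y in Ioi (0 : ℝ), y * f y := by
  have h1 := integral_fun_norm_addHaar (volume : Measure ℂ) f
  rw [h1]
  have h2 : (volume : Measure ℂ).real (ball 0 1) = Real.pi := by
    rw [Measure.real, Complex.volume_ball]
    simp
  rw [h2, Complex.finrank_real_complex]
  simp only [Nat.add_one_sub_one, pow_one, smul_eq_mul, nsmul_eq_mul, Nat.cast_ofNat]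
  ring

private theorem da_limit {n : ℕ} (hn : 1 ≤ n) {a : ℝ} (ha : 0 < a) (φ : ℝ → ℝ) :
    ∫ ζ : ℂ, φ (a * ‖ζ‖ ^ (2 * n)) * (a * (n : ℝ) ^ 2 * ‖ζ‖ ^ (2 * (n - 1)))
      = n * ∫ w : ℂ, φ (‖w‖ ^ 2) := by
  have hn0 : (0 : ℝ) < n := by exact_mod_cast hn
  rw [da_radial (fun y => φ (a * y ^ (2 * n)) * (a * (n : ℝ) ^ 2 * y ^ (2 * (n - 1)))),
    da_radial (fun y => φ (y ^ 2))]
  have h1 : ∫ y in Ioi (0 : ℝ), y * φ (y ^ 2) = (1 / 2) * ∫ s in Ioi (0 : ℝ), φ s := by
    have h4 := integral_comp_rpow_Ioi_of_pos (g := φ) (p := 2) (by norm_num)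
    rw [← h4, ← integral_const_mul]
    refine setIntegral_congr_fun measurableSet_Ioi (fun x hx => ?_)
    have : (0 : ℝ) < x := hx
    norm_num
    ring
  have h2 : ∫ y in Ioi (0 : ℝ), y * (φ (a * y ^ (2 * n)) * (a * (n : ℝ) ^ 2 * y ^ (2 * (n - 1))))
      = (n / 2) * ∫ s in Ioi (0 : ℝ), φ s := by
    have h4 := integral_comp_rpow_Ioi_of_pos (g := fun s => φ (a * s)) (p := 2 * (n : ℝ))
      (by positivity)
    have h5 := integral_comp_mul_left_Ioi φ 0 ha
    rw [mul_zero, smul_eq_mul] at h5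
    have h6 : ∫ s in Ioi (0 : ℝ), φ s = a * ∫ s in Ioi (0 : ℝ), φ (a * s) := by
      rw [h5]
      field_simp
    rw [h6, ← h4, ← integral_const_mul, ← integral_const_mul]
    refine setIntegral_congr_fun measurableSet_Ioi (fun x hx => ?_)
    have hx : (0 : ℝ) < x := hx
    have e1 : x ^ (2 * (n : ℝ)) = x ^ (2 * n) := by
      rw [← Real.rpow_natCast]
      push_cast
      rfl
    have e2 : x ^ (2 * (n : ℝ) - 1) = x * x ^ (2 * (n - 1)) := by
      have : (2 * (n : ℝ) - 1) = ((1 + 2 * (n - 1) : ℕ) : ℝ) := by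
        rw [Nat.cast_add, Nat.cast_mul, Nat.cast_sub hn]
        push_cast
        ring
      rw [this, Real.rpow_natCast, pow_add, pow_one]
    simp only [smul_eq_mul]
    rw [e1, e2]
    ring
  rw [h1, h2]
  ring

private theorem da_main {p q : ℂ[X]} (hpq : q.natDegree < p.natDegree) {φ : ℝ → ℝ}
    (hφ : Continuous φ) (hs : HasCompactSupport φ) :
    Tendsto (fun r : ℝ => (∫ z : ℂ, φ (‖hp p q z‖ ^ 2 / (r ^ p.natDegree) ^ 2) * jac p q z)
        / (r ^ p.natDegree) ^ 2) atTop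
      (𝓝 (p.natDegree * ∫ w : ℂ, φ (‖w‖ ^ 2))) := by
  set n := p.natDegree with hn
  have hn1 : 1 ≤ n := by omega
  have hlead : p.coeff n ≠ 0 := by
    intro h
    have : p = 0 := by
      rw [← Polynomial.leadingCoeff_eq_zero]
      exact h
    rw [this] at hn
    simp at hn
    omega
  set a : ℝ := ‖p.coeff n‖ ^ 2 with ha
  have ha0 : 0 < a := by positivity
  have hqn : q.natDegree ≤ n := by omega
  have hqc : q.coeff n = 0 := Polynomial.coeff_eq_zero_of_natDegree_lt hpq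
  have hp' : (derivative p).natDegree ≤ n - 1 := Polynomial.natDegree_derivative_le p
  have hq' : (derivative q).natDegree ≤ n - 1 :=
    (Polynomial.natDegree_derivative_le q).trans (by omega)
  have hp'c : (derivative p).coeff (n - 1) = p.coeff n * n := by
    rw [Polynomial.coeff_derivative, Nat.sub_add_cancel hn1]
    rw [Nat.cast_sub hn1]
    push_cast
    ring
  have hq'c : (derivative q).coeff (n - 1) = 0 := by
    rw [Polynomial.coeff_derivative, Nat.sub_add_cancel hn1, hqc, zero_mul]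
  -- the rescaled integrand
  set F : ℝ → ℂ → ℝ := fun r ζ =>
    φ (‖p.eval ((r : ℂ) * ζ) / (r : ℂ) ^ n + conj (q.eval ((r : ℂ) * ζ) / (r : ℂ) ^ n)‖ ^ 2) *
      (‖(derivative p).eval ((r : ℂ) * ζ) / (r : ℂ) ^ (n - 1)‖ ^ 2
        - ‖(derivative q).eval ((r : ℂ) * ζ) / (r : ℂ) ^ (n - 1)‖ ^ 2) with hF
  have hresc : ∀ r : ℝ, 0 < r → (∫ z : ℂ, φ (‖hp p q z‖ ^ 2 / (r ^ n) ^ 2) * jac p q z)
        / (r ^ n) ^ 2 = ∫ ζ : ℂ, F r ζ := by
    intro r hr
    have h1 := Measure.integral_comp_smul (volume : Measure ℂ)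
      (fun z => φ (‖hp p q z‖ ^ 2 / (r ^ n) ^ 2) * jac p q z) r
    rw [Complex.finrank_real_complex, smul_eq_mul, abs_of_pos (by positivity)] at h1
    have h2 : (∫ z : ℂ, φ (‖hp p q z‖ ^ 2 / (r ^ n) ^ 2) * jac p q z)
        = r ^ 2 * ∫ ζ : ℂ, φ (‖hp p q (r • ζ)‖ ^ 2 / (r ^ n) ^ 2) * jac p q (r • ζ) := by
      rw [h1]
      field_simp
    rw [h2, mul_div_right_comm, ← integral_const_mul]
    refine integral_congr_ae (Eventually.of_forall fun ζ => ?_)
    simp only [hF, hp, jac, Complex.real_smul]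
    have hrc : (r : ℂ) ≠ 0 := by exact_mod_cast hr.ne'
    have e1 : p.eval ((r : ℂ) * ζ) / (r : ℂ) ^ n + conj (q.eval ((r : ℂ) * ζ) / (r : ℂ) ^ n)
        = (p.eval ((r : ℂ) * ζ) + conj (q.eval ((r : ℂ) * ζ))) / (r : ℂ) ^ n := by
      rw [map_div₀, map_pow, Complex.conj_ofReal]
      ring
    have e2 : ∀ w : ℂ, ∀ k : ℕ, ‖w / (r : ℂ) ^ k‖ ^ 2 = ‖w‖ ^ 2 / (r ^ k) ^ 2 := by
      intro w k
      rw [norm_div, norm_pow, Complex.norm_real, Real.norm_eq_abs, abs_of_pos hr, div_pow]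
    rw [e1, e2, e2, e2]
    have e3 : r ^ n = r * r ^ (n - 1) := by
      rw [← pow_succ']
      congr 1
      omega
    have e4 : r ^ 2 / (r ^ n) ^ 2 = 1 / (r ^ (n - 1)) ^ 2 := by
      rw [e3]
      field_simp
    rw [e4]
    ring
  have hlim : n * ∫ w : ℂ, φ (‖w‖ ^ 2)
      = ∫ ζ : ℂ, φ (a * ‖ζ‖ ^ (2 * n)) * (a * (n : ℝ) ^ 2 * ‖ζ‖ ^ (2 * (n - 1))) :=
    (da_limit hn1 ha0 φ).symm
  rw [hlim]
  have hcongr : (fun r : ℝ => ∫ ζ : ℂ, F r ζ) =ᶠ[atTop]
      (fun r : ℝ => (∫ z : ℂ, φ (‖hp p q z‖ ^ 2 / (r ^ n) ^ 2) * jac p q z) / (r ^ n) ^ 2) := by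
    filter_upwards [eventually_gt_atTop (0 : ℝ)] with r hr
    exact (hresc r hr).symm
  refine Tendsto.congr' hcongr ?_
  -- bounds
  obtain ⟨c, C, hc, hC, hlow⟩ := hp_lower hpq
  obtain ⟨Φ, hΦ⟩ := hs.exists_bound_of_continuous hφ
  obtain ⟨S, hS0, hS⟩ : ∃ S : ℝ, 0 ≤ S ∧ ∀ x, φ x ≠ 0 → |x| ≤ S := by
    obtain ⟨S, hS⟩ := hs.isCompact.isBounded.exists_norm_le
    refine ⟨max S 0, le_max_right _ _, fun x hx => ?_⟩
    have := hS x (subset_tsupport φ hx)
    rw [Real.norm_eq_abs] at this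
    exact this.trans (le_max_left _ _)
  set K : ℝ := 1 + (S + 1) / c + C with hK
  obtain ⟨A, hA0, hA⟩ := da_bound hp' K
  obtain ⟨B, hB0, hB⟩ := da_bound hq' K
  have hΦ0 : 0 ≤ Φ := (norm_nonneg _).trans (hΦ 0)
  refine tendsto_integral_filter_of_dominated_convergence
    ((closedBall (0 : ℂ) K).indicator fun _ => Φ * (A ^ 2 + B ^ 2)) ?_ ?_ ?_ ?_
  · refine Eventually.of_forall fun r => Continuous.aestronglyMeasurable ?_
    have hcm : Continuous (fun ζ : ℂ => (r : ℂ) * ζ) := continuous_const.mul continuous_id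
    have c1 := p.continuous.comp hcm
    have c2 := q.continuous.comp hcm
    have c3 := (derivative p).continuous.comp hcm
    have c4 := (derivative q).continuous.comp hcm
    refine (hφ.comp ?_).mul ?_
    · exact (((c1.div_const _).add (Complex.continuous_conj.comp (c2.div_const _))).norm).pow 2
    · exact ((c3.div_const _).norm.pow 2).sub ((c4.div_const _).norm.pow 2)
  · filter_upwards [eventually_ge_atTop (1 : ℝ)] with r hr
    refine Eventually.of_forall fun ζ => ?_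
    have hr0 : 0 < r := by linarith
    by_cases hz : φ (‖p.eval ((r : ℂ) * ζ) / (r : ℂ) ^ n
        + conj (q.eval ((r : ℂ) * ζ) / (r : ℂ) ^ n)‖ ^ 2) = 0
    · simp only [hF]
      rw [hz, zero_mul, norm_zero]
      exact indicator_nonneg (fun _ _ => by positivity) _
    · have h1 := hS _ hz
      have e1 : p.eval ((r : ℂ) * ζ) / (r : ℂ) ^ n + conj (q.eval ((r : ℂ) * ζ) / (r : ℂ) ^ n)
          = hp p q ((r : ℂ) * ζ) / (r : ℂ) ^ n := by
        rw [map_div₀, map_pow, Complex.conj_ofReal, hp]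
        ring
      rw [e1, abs_of_nonneg (by positivity), norm_div, norm_pow, Complex.norm_real,
        Real.norm_eq_abs, abs_of_pos hr0] at h1
      have hx : ‖hp p q ((r : ℂ) * ζ)‖ / r ^ n ≤ S + 1 := by
        by_contra hcon
        push Not at hcon
        have h0 : 0 ≤ ‖hp p q ((r : ℂ) * ζ)‖ / r ^ n := by positivity
        nlinarith
      have hζK : ‖ζ‖ ≤ K := by
        have hnorm : ‖(r : ℂ) * ζ‖ = r * ‖ζ‖ := by
          rw [norm_mul, Complex.norm_real, Real.norm_eq_abs, abs_of_pos hr0]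
        have hSc : 0 ≤ (S + 1) / c := by positivity
        by_cases hCz : C ≤ ‖(r : ℂ) * ζ‖
        · have h2 := hlow _ hCz
          rw [hnorm, mul_pow] at h2
          rw [div_le_iff₀ (by positivity)] at hx
          have h3 : c * (r ^ n * ‖ζ‖ ^ n) ≤ (S + 1) * r ^ n := h2.trans hx
          have h4 : c * ‖ζ‖ ^ n ≤ S + 1 := by
            have hrn : 0 < r ^ n := by positivity
            by_contra hcon
            push Not at hcon
            nlinarith
          have h5 : ‖ζ‖ ^ n ≤ (S + 1) / c := by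
            rw [le_div_iff₀ hc]
            linarith
          by_cases h6 : 1 ≤ ‖ζ‖
          · have h7 : ‖ζ‖ ≤ ‖ζ‖ ^ n := le_self_pow₀ h6 (by omega)
            linarith
          · linarith
        · push Not at hCz
          rw [hnorm] at hCz
          have h8 : ‖ζ‖ ≤ r * ‖ζ‖ := by nlinarith [norm_nonneg ζ]
          linarith
      rw [indicator_of_mem (by simpa [mem_closedBall_zero_iff] using hζK)]
      simp only [hF]
      rw [norm_mul]
      have hA' := hA r hr ζ hζK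
      have hB' := hB r hr ζ hζK
      refine mul_le_mul (hΦ _) ?_ (norm_nonneg _) hΦ0
      rw [Real.norm_eq_abs]
      refine (abs_sub _ _).trans ?_
      rw [abs_of_nonneg (by positivity), abs_of_nonneg (by positivity)]
      gcongr
  · rw [integrable_indicator_iff isClosed_closedBall.measurableSet]
    exact integrableOn_const (by
      exact (isCompact_closedBall (0 : ℂ) K).measure_lt_top.ne)
  · refine Eventually.of_forall fun ζ => ?_
    have t1 := da_tendsto (le_refl n : p.natDegree ≤ n) ζ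
    have t2 := da_tendsto hqn ζ
    have t3 := da_tendsto hp' ζ
    have t4 := da_tendsto hq' ζ
    rw [hqc, zero_mul] at t2
    rw [hp'c] at t3
    rw [hq'c, zero_mul] at t4
    have t5 := (((t1.add ((Complex.continuous_conj.tendsto _).comp t2)).norm).pow 2)
    have t6 := ((hφ.tendsto _).comp t5).mul ((t3.norm.pow 2).sub (t4.norm.pow 2))
    have hval : φ (‖p.coeff n * ζ ^ n + (starRingEnd ℂ) 0‖ ^ 2) *
        (‖p.coeff n * (n : ℂ) * ζ ^ (n - 1)‖ ^ 2 - ‖(0 : ℂ)‖ ^ 2)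
        = φ (a * ‖ζ‖ ^ (2 * n)) * (a * (n : ℝ) ^ 2 * ‖ζ‖ ^ (2 * (n - 1))) := by
      have w1 : ‖p.coeff n * ζ ^ n + (starRingEnd ℂ) 0‖ ^ 2 = a * ‖ζ‖ ^ (2 * n) := by
        rw [map_zero, add_zero, norm_mul, norm_pow, mul_pow, ← pow_mul, mul_comm n 2]
      have w2 : ‖p.coeff n * (n : ℂ) * ζ ^ (n - 1)‖ ^ 2 - ‖(0 : ℂ)‖ ^ 2
          = a * (n : ℝ) ^ 2 * ‖ζ‖ ^ (2 * (n - 1)) := by
        rw [norm_zero, norm_mul, norm_mul, norm_pow, Complex.norm_natCast, mul_pow, mul_pow,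
          ← pow_mul, mul_comm (n - 1) 2]
        ring
      rw [w1, w2]
    rw [← hval]
    exact t6

theorem asymp {p q : ℂ[X]} (hpq : q.natDegree < p.natDegree) {φ : ℝ → ℝ} (hφ : Continuous φ)
    (hs : HasCompactSupport φ) :
    Tendsto (fun R : ℝ => (∫ z : ℂ, φ (‖hp p q z‖ ^ 2 / R ^ 2) * jac p q z) / R ^ 2) atTop
      (𝓝 (p.natDegree * ∫ w : ℂ, φ (‖w‖ ^ 2))) := by
  have hn : (0 : ℝ) < p.natDegree := by
    have : 0 < p.natDegree := by omega
    exact_mod_cast this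
  have h1 : Tendsto (fun R : ℝ => R ^ (1 / (p.natDegree : ℝ))) atTop atTop :=
    tendsto_rpow_atTop (by positivity)
  refine ((da_main hpq hφ hs).comp h1).congr' ?_
  filter_upwards [eventually_gt_atTop (0 : ℝ)] with R hR
  have h2 : (R ^ (1 / (p.natDegree : ℝ))) ^ p.natDegree = R := by
    rw [← Real.rpow_natCast, ← Real.rpow_mul hR.le]
    rw [one_div, inv_mul_cancel₀ hn.ne', Real.rpow_one]
  simp only [Function.comp]
  rw [h2]

end Pool.Agent.HZ
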