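import Mathlib

/-! MP_cd3d06_an, module DDefs: the harmonic polynomial, its Jacobian, the numbers of zeros -/

open Polynomial Metric Set Filter Topology MeasureTheory
open scoped ComplexConjugate

namespace Pool.Agent.HZ

/-- the harmonic polynomial `p(z) + conj (q(z))` -/
noncomputable def hp (p q : ℂ[X]) (z : ℂ) : ℂ := p.eval z + conj (q.eval z)

/-- its Jacobian -/
noncomputable def jac (p q : ℂ[X]) (z : ℂ) : ℝ :=
  ‖(derivative p).eval z‖ ^ 2 - ‖(derivative q).eval z‖ ^ 2

/-- repelling zeros -/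
def Zp (p q : ℂ[X]) : Set ℂ :=
  {z | hp p q z = 0 ∧ ‖(derivative q).eval z‖ < ‖(derivative p).eval z‖}

/-- attracting zeros -/
def Zm (p q : ℂ[X]) : Set ℂ :=
  {z | hp p q z = 0 ∧ ‖(derivative p).eval z‖ < ‖(derivative q).eval z‖}

/-- all zeros are regular -/
def Reg (p q : ℂ[X]) : Prop :=
  ∀ z, hp p q z = 0 → ‖(derivative p).eval z‖ ≠ ‖(derivative q).eval z‖

end Pool.Agent.HZ
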