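import Pool.Agent.H.MP_cd3d06_an.L.DBasic

/-! MP_cd3d06_an, module DIbp: integration by parts -/

open Polynomial Metric Set Filter Topology MeasureTheory
open scoped ComplexConjugate

namespace Pool.Agent.HZ

namespace IbpAux

/-- the integral of a derivative of a `C¹` function with compact support is zero -/
lemma integral_fderiv_zero {P : ℂ → ℝ} (hP : ContDiff ℝ 1 P) (hc : HasCompactSupport P)
    (v : ℂ) : ∫ u, fderiv ℝ P u v = 0 := by
  have h1 : Continuous fun u => fderiv ℝ P u v :=
    (hP.continuous_fderiv (by norm_num)).clm_apply continuous_const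
  have hc1 : HasCompactSupport fun u => fderiv ℝ P u v := hc.fderiv_apply ℝ v
  have hi1 : Integrable (fun u => fderiv ℝ P u v) := h1.integrable_of_hasCompactSupport hc1
  have hi0 : Integrable P := hP.continuous.integrable_of_hasCompactSupport hc
  have := integral_mul_fderiv_eq_neg_fderiv_mul_of_integrable (μ := (volume : Measure ℂ))
    (f := fun _ : ℂ => (1 : ℝ)) (g := P) (v := v) (by simp) (by simpa using hi1)
    (by simpa using hi0) (fun x _ => differentiableAt_const _)
    (fun x _ => (hP.differentiable (by norm_num)).differentiableAt)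
  simpa using this

lemma integrable_fderiv {P : ℂ → ℝ} (hP : ContDiff ℝ 1 P) (hc : HasCompactSupport P)
    (v : ℂ) : Integrable (fun u => fderiv ℝ P u v) := by
  have h1 : Continuous fun u => fderiv ℝ P u v :=
    (hP.continuous_fderiv (by norm_num)).clm_apply continuous_const
  exact h1.integrable_of_hasCompactSupport (hc.fderiv_apply ℝ v)

/-- the derivative of a polynomial along a real line -/
lemma poly_line (r : ℂ[X]) (z v : ℂ) :
    HasDerivAt (fun t : ℝ => r.eval (z + t * v)) ((derivative r).eval z * v) 0 := by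
  have hl : HasDerivAt (fun t : ℝ => z + (t : ℂ) * v) v 0 := by
    have h1 : HasDerivAt (fun t : ℝ => (t : ℂ)) 1 0 := (hasDerivAt_id (0 : ℝ)).ofReal_comp
    simpa using (h1.mul_const v).const_add z
  have hr : HasDerivAt (fun w : ℂ => r.eval w) ((derivative r).eval z) (z + ((0 : ℝ) : ℂ) * v) := by
    simpa using r.hasDerivAt z
  exact HasDerivAt.comp (𝕜 := ℝ) (𝕜' := ℂ) (0 : ℝ) hr hl

lemma conj_line {f : ℝ → ℂ} {f' : ℂ} (hf : HasDerivAt f f' 0) :
    HasDerivAt (fun t => conj (f t)) (conj f') 0 :=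
  Complex.conjCLE.toContinuousLinearMap.hasFDerivAt.comp_hasDerivAt (0 : ℝ) hf

lemma re_line {f : ℝ → ℂ} {f' : ℂ} (hf : HasDerivAt f f' 0) :
    HasDerivAt (fun t => (f t).re) f'.re 0 :=
  Complex.reCLM.hasFDerivAt.comp_hasDerivAt (0 : ℝ) hf

lemma im_line {f : ℝ → ℂ} {f' : ℂ} (hf : HasDerivAt f f' 0) :
    HasDerivAt (fun t => (f t).im) f'.im 0 :=
  Complex.imCLM.hasFDerivAt.comp_hasDerivAt (0 : ℝ) hf

/-- the derivative of `h` along a real line -/
lemma hp_line (p q : ℂ[X]) (z v : ℂ) :
    HasDerivAt (fun t : ℝ => hp p q (z + t * v))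
      ((derivative p).eval z * v + conj ((derivative q).eval z * v)) 0 :=
  (poly_line p z v).add (conj_line (poly_line q z v))

/-- the derivative of `|h|²` along a real line -/
lemma normsq_line (p q : ℂ[X]) (z v : ℂ) :
    HasDerivAt (fun t : ℝ => ‖hp p q (z + t * v)‖ ^ 2)
      (2 * (conj (hp p q z) *
        ((derivative p).eval z * v + conj ((derivative q).eval z * v))).re) 0 := by
  have h := (hp_line p q z v).norm_sq
  have e : (inner ℝ (hp p q (z + ((0 : ℝ) : ℂ) * v))
      ((derivative p).eval z * v + conj ((derivative q).eval z * v)) : ℝ) =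
      (conj (hp p q z) *
        ((derivative p).eval z * v + conj ((derivative q).eval z * v))).re := by
    rw [Complex.inner]
    simp
    ring
  rw [e] at h
  exact h

/-- the first field -/
noncomputable def FA (p q : ℂ[X]) (z : ℂ) : ℂ :=
  conj (hp p q z) * ((derivative p).eval z - conj ((derivative q).eval z))

/-- the second field -/
noncomputable def FB (p q : ℂ[X]) (z : ℂ) : ℂ :=
  conj (hp p q z) * ((derivative p).eval z + conj ((derivative q).eval z))

lemma FA_line (p q : ℂ[X]) (z v : ℂ) :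
    HasDerivAt (fun t : ℝ => FA p q (z + t * v))
      (conj ((derivative p).eval z * v + conj ((derivative q).eval z * v)) *
          ((derivative p).eval z - conj ((derivative q).eval z)) +
        conj (hp p q z) * ((derivative (derivative p)).eval z * v -
          conj ((derivative (derivative q)).eval z * v))) 0 := by
  have h := (conj_line (hp_line p q z v)).mul
    ((poly_line (derivative p) z v).sub (conj_line (poly_line (derivative q) z v)))
  simp only [Pi.sub_apply, Complex.ofReal_zero, zero_mul, add_zero] at h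
  exact h

lemma FB_line (p q : ℂ[X]) (z v : ℂ) :
    HasDerivAt (fun t : ℝ => FB p q (z + t * v))
      (conj ((derivative p).eval z * v + conj ((derivative q).eval z * v)) *
          ((derivative p).eval z + conj ((derivative q).eval z)) +
        conj (hp p q z) * ((derivative (derivative p)).eval z * v +
          conj ((derivative (derivative q)).eval z * v))) 0 := by
  have h := (conj_line (hp_line p q z v)).mul
    ((poly_line (derivative p) z v).add (conj_line (poly_line (derivative q) z v)))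
  simp only [Pi.add_apply, Complex.ofReal_zero, zero_mul, add_zero] at h
  exact h

/-- the first potential -/
noncomputable def PA (p q : ℂ[X]) (φ : ℝ → ℝ) (z : ℂ) : ℝ :=
  φ (‖hp p q z‖ ^ 2) * (FA p q z).re

/-- the second potential -/
noncomputable def PB (p q : ℂ[X]) (φ : ℝ → ℝ) (z : ℂ) : ℝ :=
  φ (‖hp p q z‖ ^ 2) * (FB p q z).im

lemma phi_line (p q : ℂ[X]) {φ : ℝ → ℝ} (hφ : Differentiable ℝ φ) (z v : ℂ) :
    HasDerivAt (fun t : ℝ => φ (‖hp p q (z + t * v)‖ ^ 2))
      (deriv φ (‖hp p q z‖ ^ 2) * (2 * (conj (hp p q z) *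
        ((derivative p).eval z * v + conj ((derivative q).eval z * v))).re)) 0 := by
  have h1 : HasDerivAt φ (deriv φ (‖hp p q z‖ ^ 2)) (‖hp p q (z + ((0 : ℝ) : ℂ) * v)‖ ^ 2) := by
    simpa using (hφ (‖hp p q z‖ ^ 2)).hasDerivAt
  exact h1.comp (0 : ℝ) (normsq_line p q z v)

lemma PA_line (p q : ℂ[X]) {φ : ℝ → ℝ} (hφ : Differentiable ℝ φ) (z v : ℂ) :
    HasDerivAt (fun t : ℝ => PA p q φ (z + t * v))
      (deriv φ (‖hp p q z‖ ^ 2) * (2 * (conj (hp p q z) *
        ((derivative p).eval z * v + conj ((derivative q).eval z * v))).re) * (FA p q z).re +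
       φ (‖hp p q z‖ ^ 2) *
        (conj ((derivative p).eval z * v + conj ((derivative q).eval z * v)) *
          ((derivative p).eval z - conj ((derivative q).eval z)) +
        conj (hp p q z) * ((derivative (derivative p)).eval z * v -
          conj ((derivative (derivative q)).eval z * v))).re) 0 := by
  have h := (phi_line p q hφ z v).mul (re_line (FA_line p q z v))
  simp only [Complex.ofReal_zero, zero_mul, add_zero] at h
  exact h

lemma PB_line (p q : ℂ[X]) {φ : ℝ → ℝ} (hφ : Differentiable ℝ φ) (z v : ℂ) :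
    HasDerivAt (fun t : ℝ => PB p q φ (z + t * v))
      (deriv φ (‖hp p q z‖ ^ 2) * (2 * (conj (hp p q z) *
        ((derivative p).eval z * v + conj ((derivative q).eval z * v))).re) * (FB p q z).im +
       φ (‖hp p q z‖ ^ 2) *
        (conj ((derivative p).eval z * v + conj ((derivative q).eval z * v)) *
          ((derivative p).eval z + conj ((derivative q).eval z)) +
        conj (hp p q z) * ((derivative (derivative p)).eval z * v +
          conj ((derivative (derivative q)).eval z * v))).im) 0 := by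
  have h := (phi_line p q hφ z v).mul (im_line (FB_line p q z v))
  simp only [Complex.ofReal_zero, zero_mul, add_zero] at h
  exact h

lemma contDiff_poly (r : ℂ[X]) : ContDiff ℝ ⊤ (fun z : ℂ => r.eval z) := by
  have : ContDiff ℂ ⊤ (fun z : ℂ => r.eval z) := by
    simpa using (r.contDiff_aeval (𝕜 := ℂ) ⊤)
  exact this.restrict_scalars ℝ

lemma contDiff_conj : ContDiff ℝ ⊤ (fun z : ℂ => conj z) :=
  Complex.conjCLE.toContinuousLinearMap.contDiff

lemma contDiff_phi (p q : ℂ[X]) {φ : ℝ → ℝ} (hφ : ContDiff ℝ 1 φ) :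
    ContDiff ℝ 1 (fun z => φ (‖hp p q z‖ ^ 2)) :=
  hφ.comp (((contDiff_hp p q).of_le le_top).norm_sq ℝ)

lemma contDiff_FA (p q : ℂ[X]) : ContDiff ℝ 1 (FA p q) :=
  ((contDiff_conj.comp (contDiff_hp p q)).mul
    ((contDiff_poly _).sub (contDiff_conj.comp (contDiff_poly _)))).of_le le_top

lemma contDiff_FB (p q : ℂ[X]) : ContDiff ℝ 1 (FB p q) :=
  ((contDiff_conj.comp (contDiff_hp p q)).mul
    ((contDiff_poly _).add (contDiff_conj.comp (contDiff_poly _)))).of_le le_top

lemma contDiff_PA (p q : ℂ[X]) {φ : ℝ → ℝ} (hφ : ContDiff ℝ 1 φ) : ContDiff ℝ 1 (PA p q φ) :=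
  (contDiff_phi p q hφ).mul (Complex.reCLM.contDiff.comp (contDiff_FA p q))

lemma contDiff_PB (p q : ℂ[X]) {φ : ℝ → ℝ} (hφ : ContDiff ℝ 1 φ) : ContDiff ℝ 1 (PB p q φ) :=
  (contDiff_phi p q hφ).mul (Complex.imCLM.contDiff.comp (contDiff_FB p q))

lemma hcs_phi {p q : ℂ[X]} (hpq : q.natDegree < p.natDegree) {φ : ℝ → ℝ}
    (hs : HasCompactSupport φ) : HasCompactSupport (fun z => φ (‖hp p q z‖ ^ 2)) := by
  have ht : Tendsto (fun z => ‖hp p q z‖ ^ 2) (cocompact ℂ) (cocompact ℝ) := by
    have h1 : Tendsto (fun z => ‖hp p q z‖ ^ 2) (cocompact ℂ) atTop :=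
      (tendsto_pow_atTop (by norm_num)).comp (hp_tendsto hpq)
    exact h1.mono_right atTop_le_cocompact
  rw [hasCompactSupport_iff_eventuallyEq] at hs ⊢
  have h2 := ht.eventually (hs.filter_mono (by
    exact le_of_eq (by simp [coclosedCompact_eq_cocompact])))
  rw [coclosedCompact_eq_cocompact]
  exact h2

lemma fderiv_eq_of_line {f : ℂ → ℝ} (hf : Differentiable ℝ f) {z v : ℂ} {d : ℝ}
    (h : HasDerivAt (fun t : ℝ => f (z + t * v)) d 0) : fderiv ℝ f z v = d := by
  have h1 : HasLineDerivAt ℝ f d z v := by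
    unfold HasLineDerivAt
    simpa [Complex.real_smul] using h
  have h2 := (hf z).hasFDerivAt.hasLineDerivAt v
  exact h2.unique h1

lemma key (p q : ℂ[X]) {φ : ℝ → ℝ} (hφ : ContDiff ℝ 1 φ) (z : ℂ) :
    fderiv ℝ (PA p q φ) z 1 - fderiv ℝ (PB p q φ) z Complex.I =
      2 * ((φ (‖hp p q z‖ ^ 2) + ‖hp p q z‖ ^ 2 * deriv φ (‖hp p q z‖ ^ 2)) * jac p q z) := by
  have hd : Differentiable ℝ φ := hφ.differentiable (by norm_num)
  rw [fderiv_eq_of_line ((contDiff_PA p q hφ).differentiable (by norm_num)) (PA_line p q hd z 1),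
    fderiv_eq_of_line ((contDiff_PB p q hφ).differentiable (by norm_num))
      (PB_line p q hd z Complex.I)]
  have e1 : ‖hp p q z‖ ^ 2 = (hp p q z).re ^ 2 + (hp p q z).im ^ 2 := by
    rw [← Complex.normSq_eq_norm_sq, Complex.normSq_apply]; ring
  unfold jac
  rw [← Complex.normSq_eq_norm_sq ((derivative p).eval z),
    ← Complex.normSq_eq_norm_sq ((derivative q).eval z), Complex.normSq_apply,
    Complex.normSq_apply]
  generalize hD : deriv φ (‖hp p q z‖ ^ 2) = D
  generalize hP : φ (‖hp p q z‖ ^ 2) = F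
  rw [e1]
  unfold FA FB
  generalize hp p q z = h
  generalize (derivative p).eval z = P
  generalize (derivative q).eval z = Q
  generalize (derivative (derivative p)).eval z = P'
  generalize (derivative (derivative q)).eval z = Q'
  simp only [Complex.add_re, Complex.add_im, Complex.sub_re, Complex.sub_im, Complex.mul_re,
    Complex.mul_im, Complex.conj_re, Complex.conj_im, Complex.one_re, Complex.one_im,
    Complex.I_re, Complex.I_im]
  ring

end IbpAux

open IbpAux in
/-- integration by parts -/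
theorem ibp {p q : ℂ[X]} (hpq : q.natDegree < p.natDegree) {φ : ℝ → ℝ}
    (hφ : ContDiff ℝ 2 φ) (hs : HasCompactSupport φ) :
    ∫ z : ℂ, (φ (‖hp p q z‖ ^ 2) + ‖hp p q z‖ ^ 2 * deriv φ (‖hp p q z‖ ^ 2)) * jac p q z = 0 := by
  have hφ1 : ContDiff ℝ 1 φ := hφ.of_le (by norm_num)
  have hA := contDiff_PA p q hφ1
  have hB := contDiff_PB p q hφ1
  have hcA : HasCompactSupport (PA p q φ) := (hcs_phi hpq hs).mul_right
  have hcB : HasCompactSupport (PB p q φ) := (hcs_phi hpq hs).mul_right
  have h1 := integral_fderiv_zero hA hcA 1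
  have h2 := integral_fderiv_zero hB hcB Complex.I
  have h3 : ∫ z : ℂ, (fderiv ℝ (PA p q φ) z 1 - fderiv ℝ (PB p q φ) z Complex.I) = 0 := by
    rw [integral_sub (integrable_fderiv hA hcA 1) (integrable_fderiv hB hcB Complex.I), h1, h2,
      sub_zero]
  simp only [key p q hφ1] at h3
  rw [integral_const_mul] at h3
  simpa using h3

end Pool.Agent.HZ
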