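import Pool.Agent.H.MP_cd3d06_an.L.DBasic

/-! MP_cd3d06_an, module DLocal: evaluation near the zeros -/

open Polynomial Metric Set Filter Topology MeasureTheory
open scoped ComplexConjugate

namespace Pool.Agent.HZ

/-- local structure at a regular zero -/
theorem dlocal_nbhd {p q : ℂ[X]} {z : ℂ} (hj : jac p q z ≠ 0) (s : ℝ)
    (hs : jac p q z = s * |jac p q z|) :
    ∃ U : Set ℂ, IsOpen U ∧ z ∈ U ∧ InjOn (hp p q) U ∧
      (∀ u ∈ U, jac p q u = s * |jac p q u|) := by
  have hdet : (dh p q z).det ≠ 0 := by rw [det_dh]; exact hj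
  have hst : HasStrictFDerivAt (hp p q)
      (((dh p q z).toContinuousLinearEquivOfDetNeZero hdet : ℂ ≃L[ℝ] ℂ) : ℂ →L[ℝ] ℂ) z := by
    rw [ContinuousLinearMap.coe_toContinuousLinearEquivOfDetNeZero]
    exact hasStrictFDerivAt_hp p q z
  let e := hst.toOpenPartialHomeomorph (hp p q)
  have he : z ∈ e.source := hst.mem_toOpenPartialHomeomorph_source
  have hcont : Continuous (jac p q) := (contDiff_jac p q).continuous
  rcases lt_or_gt_of_ne hj with hneg | hpos
  · refine ⟨e.source ∩ {u | jac p q u < 0}, e.open_source.inter (isOpen_lt hcont continuous_const),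
      ⟨he, hneg⟩, fun a ha b hb hab => e.injOn ha.1 hb.1 (by simpa [e] using hab), ?_⟩
    intro u hu
    have hs1 : s = -1 := by
      rw [abs_of_neg hneg] at hs
      have : (s + 1) * jac p q z = 0 := by linarith
      rcases mul_eq_zero.mp this with h | h
      · linarith
      · exact absurd h hj
    have hu2 : jac p q u < 0 := hu.2
    rw [abs_of_neg hu2, hs1]; ring
  · refine ⟨e.source ∩ {u | 0 < jac p q u}, e.open_source.inter (isOpen_lt continuous_const hcont),
      ⟨he, hpos⟩, fun a ha b hb hab => e.injOn ha.1 hb.1 (by simpa [e] using hab), ?_⟩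
    intro u hu
    have hs1 : s = 1 := by
      rw [abs_of_pos hpos] at hs
      have : (s - 1) * jac p q z = 0 := by linarith
      rcases mul_eq_zero.mp this with h | h
      · linarith
      · exact absurd h hj
    have hu2 : 0 < jac p q u := hu.2
    rw [abs_of_pos hu2, hs1]; ring

theorem dlocal_image {p q : ℂ[X]} {z : ℂ} (hz : hp p q z = 0) (hj : jac p q z ≠ 0)
    {U : Set ℂ} (hU : IsOpen U) (hzU : z ∈ U) :
    ∃ ρ : ℝ, 0 < ρ ∧ ball (0 : ℂ) ρ ⊆ hp p q '' U := by
  have hdet : (dh p q z).det ≠ 0 := by rw [det_dh]; exact hj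
  have hst : HasStrictFDerivAt (hp p q)
      (((dh p q z).toContinuousLinearEquivOfDetNeZero hdet : ℂ ≃L[ℝ] ℂ) : ℂ →L[ℝ] ℂ) z := by
    rw [ContinuousLinearMap.coe_toContinuousLinearEquivOfDetNeZero]
    exact hasStrictFDerivAt_hp p q z
  have h1 := hst.map_nhds_eq_of_equiv
  have h2 : hp p q '' U ∈ 𝓝 (0 : ℂ) := by
    rw [← hz, ← h1]
    exact image_mem_map (hU.mem_nhds hzU)
  exact Metric.mem_nhds_iff.mp h2

theorem local_eval {p q : ℂ[X]} (hpq : q.natDegree < p.natDegree) (hreg : Reg p q) :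
    ∃ ε : ℝ, 0 < ε ∧ ∀ φ : ℝ → ℝ, Continuous φ → (∀ s, ε ≤ s → φ s = 0) →
      ∫ z : ℂ, φ (‖hp p q z‖ ^ 2) * jac p q z =
        (((Zp p q).ncard : ℝ) - (Zm p q).ncard) * ∫ w : ℂ, φ (‖w‖ ^ 2) := by
  classical
  have hZ := finite_zeros_of_reg hpq hreg
  set Z : Set ℂ := {z | hp p q z = 0} with hZdef
  have hcont : Continuous (hp p q) := (contDiff_hp p q).continuous
  have hjcont : Continuous (jac p q) := (contDiff_jac p q).continuous
  have hjne : ∀ z ∈ Z, jac p q z ≠ 0 := by
    intro z hz h0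
    have h1 := hreg z hz
    unfold jac at h0
    apply h1
    have h2 : ‖(derivative p).eval z‖ ^ 2 = ‖(derivative q).eval z‖ ^ 2 := by linarith
    exact (sq_eq_sq₀ (norm_nonneg _) (norm_nonneg _)).mp h2
  let sg : ℂ → ℝ := fun z => if z ∈ Zp p q then 1 else -1
  have hsg : ∀ z ∈ Z, jac p q z = sg z * |jac p q z| := by
    intro z hz
    by_cases h : z ∈ Zp p q
    · have h1 : 0 < jac p q z := by
        have := h.2
        unfold jac
        have := pow_lt_pow_left₀ this (norm_nonneg _) (two_ne_zero)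
        linarith
      simp [sg, h, abs_of_pos h1]
    · have h1 : jac p q z < 0 := by
        rcases lt_or_gt_of_ne (hjne z hz) with h2 | h2
        · exact h2
        · exfalso
          apply h
          refine ⟨hz, ?_⟩
          unfold jac at h2
          have h3 : ‖(derivative q).eval z‖ ^ 2 < ‖(derivative p).eval z‖ ^ 2 := by linarith
          exact lt_of_pow_lt_pow_left₀ 2 (norm_nonneg _) h3
      simp [sg, h, abs_of_neg h1]
  have hnb : ∀ z : ℂ, ∃ U : Set ℂ, z ∈ Z → (IsOpen U ∧ z ∈ U ∧ InjOn (hp p q) U ∧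
      (∀ u ∈ U, jac p q u = sg z * |jac p q u|)) := by
    intro z
    by_cases hz : z ∈ Z
    · obtain ⟨U, h1, h2, h3, h4⟩ := dlocal_nbhd (hjne z hz) (sg z) (hsg z hz)
      exact ⟨U, fun _ => ⟨h1, h2, h3, h4⟩⟩
    · exact ⟨∅, fun h => absurd h hz⟩
  choose U0 hU0 using hnb
  obtain ⟨T, hT1, hT2⟩ := hZ.t2_separation
  let U : ℂ → Set ℂ := fun z => U0 z ∩ T z
  have hUo : ∀ z ∈ Z, IsOpen (U z) := fun z hz => (hU0 z hz).1.inter (hT1 z).2
  have hUm : ∀ z ∈ Z, z ∈ U z := fun z hz => ⟨(hU0 z hz).2.1, (hT1 z).1⟩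
  have hρ : ∀ z : ℂ, ∃ ρ : ℝ, 0 < ρ ∧ (z ∈ Z → ball (0 : ℂ) ρ ⊆ hp p q '' (U z)) := by
    intro z
    by_cases hz : z ∈ Z
    · obtain ⟨ρ, h1, h2⟩ := dlocal_image (p := p) (q := q) hz (hjne z hz) (hUo z hz) (hUm z hz)
      exact ⟨ρ, h1, fun _ => h2⟩
    · exact ⟨1, one_pos, fun h => absurd h hz⟩
  choose ρ hρ1 hρ2 using hρ
  -- a common radius
  have hcommon : ∃ r : ℝ, 0 < r ∧ ∀ z ∈ Z, r ≤ ρ z := by
    have : ∀ S : Finset ℂ, ∃ r : ℝ, 0 < r ∧ ∀ z ∈ S, r ≤ ρ z := by
      intro S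
      induction S using Finset.induction_on with
      | empty => exact ⟨1, one_pos, by simp⟩
      | insert a S ha ih =>
        obtain ⟨r, h1, h2⟩ := ih
        refine ⟨min r (ρ a), lt_min h1 (hρ1 a), ?_⟩
        intro z hz
        rcases Finset.mem_insert.mp hz with h | h
        · rw [h]; exact min_le_right _ _
        · exact (min_le_left _ _).trans (h2 z h)
    obtain ⟨r, h1, h2⟩ := this hZ.toFinset
    exact ⟨r, h1, fun z hz => h2 z (by simpa using hz)⟩
  obtain ⟨r, hr, hrρ⟩ := hcommon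
  -- lower bound off the neighbourhoods
  have hoff : ∃ r' : ℝ, 0 < r' ∧ ∀ u : ℂ, (∀ z ∈ Z, u ∉ U z) → r' ≤ ‖hp p q u‖ := by
    have h1 : ∀ᶠ u in cocompact ℂ, (1 : ℝ) ≤ ‖hp p q u‖ :=
      (hp_tendsto hpq).eventually_ge_atTop 1
    obtain ⟨C, hC, hC2⟩ := Filter.mem_cocompact.mp h1
    let K : Set ℂ := C ∩ (⋃ z ∈ Z, U z)ᶜ
    have hKc : IsCompact K := hC.inter_right
      (isOpen_biUnion (fun z hz => hUo z hz)).isClosed_compl
    have hmemK : ∀ u, (∀ z ∈ Z, u ∉ U z) → u ∈ C → u ∈ K := by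
      intro u hu huC
      refine ⟨huC, ?_⟩
      simp only [mem_compl_iff, mem_iUnion, not_exists]
      intro z hz
      exact hu z hz
    by_cases hne : K.Nonempty
    · obtain ⟨u0, hu0, hmin⟩ := hKc.exists_isMinOn hne (hcont.norm.continuousOn)
      have hpos : 0 < ‖hp p q u0‖ := by
        rw [norm_pos_iff]
        intro h0
        have hz0 : u0 ∈ Z := h0
        apply hu0.2
        simp only [mem_iUnion]
        exact ⟨u0, hz0, hUm u0 hz0⟩
      refine ⟨min 1 ‖hp p q u0‖, lt_min one_pos hpos, ?_⟩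
      intro u hu
      by_cases huC : u ∈ C
      · exact (min_le_right _ _).trans (hmin (hmemK u hu huC))
      · exact (min_le_left _ _).trans (hC2 huC)
    · refine ⟨1, one_pos, ?_⟩
      intro u hu
      by_cases huC : u ∈ C
      · exact absurd ⟨u, hmemK u hu huC⟩ hne
      · exact hC2 huC
  obtain ⟨r', hr', hoff⟩ := hoff
  let δ : ℝ := min r r'
  have hδ : 0 < δ := lt_min hr hr'
  refine ⟨δ ^ 2, by positivity, ?_⟩
  intro φ hφ hφ0
  let V : ℂ → Set ℂ := fun z => U z ∩ (hp p q) ⁻¹' (ball 0 δ)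
  have hVo : ∀ z ∈ Z, IsOpen (V z) := fun z hz => (hUo z hz).inter (isOpen_ball.preimage hcont)
  have hVdis : Z.Pairwise (Function.onFun Disjoint V) := by
    intro a ha b hb hab
    have := hT2 ha hb hab
    exact this.mono (fun u hu => hu.1.2) (fun u hu => hu.1.2)
  have hVimg : ∀ z ∈ Z, hp p q '' (V z) = ball 0 δ := by
    intro z hz
    apply Subset.antisymm
    · rintro w ⟨u, hu, rfl⟩
      exact hu.2
    · intro w hw
      have h1 : w ∈ ball (0 : ℂ) (ρ z) :=
        ball_subset_ball ((min_le_left _ _).trans (hrρ z hz)) hw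
      obtain ⟨u, hu, rfl⟩ := hρ2 z hz h1
      exact ⟨u, ⟨hu, hw⟩, rfl⟩
  -- values outside the ball
  have hout : ∀ w : ℂ, w ∉ ball (0 : ℂ) δ → φ (‖w‖ ^ 2) = 0 := by
    intro w hw
    apply hφ0
    have : δ ≤ ‖w‖ := by simpa using hw
    exact pow_le_pow_left₀ hδ.le this 2
  have hF : Continuous (fun z : ℂ => φ (‖hp p q z‖ ^ 2) * jac p q z) :=
    (hφ.comp (hcont.norm.pow 2)).mul hjcont
  have hFsupp : HasCompactSupport (fun z : ℂ => φ (‖hp p q z‖ ^ 2) * jac p q z) := by
    have h1 : ∀ᶠ u in cocompact ℂ, δ ≤ ‖hp p q u‖ :=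
      (hp_tendsto hpq).eventually_ge_atTop δ
    obtain ⟨C, hC, hC2⟩ := Filter.mem_cocompact.mp h1
    refine HasCompactSupport.intro hC ?_
    intro u hu
    have h2 : δ ≤ ‖hp p q u‖ := hC2 hu
    have h3 : φ (‖hp p q u‖ ^ 2) = 0 := hout _ (by simpa using h2)
    simp [h3]
  have hFint : Integrable (fun z : ℂ => φ (‖hp p q z‖ ^ 2) * jac p q z) :=
    hF.integrable_of_hasCompactSupport hFsupp
  -- restrict to the union of the V z
  have hstep1 : ∫ z : ℂ, φ (‖hp p q z‖ ^ 2) * jac p q z =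
      ∫ z in ⋃ i ∈ hZ.toFinset, V i, φ (‖hp p q z‖ ^ 2) * jac p q z := by
    symm
    apply setIntegral_eq_integral_of_forall_compl_eq_zero
    intro u hu
    have h3 : φ (‖hp p q u‖ ^ 2) = 0 := by
      by_cases hball : hp p q u ∈ ball (0 : ℂ) δ
      · exfalso
        have hex : ∃ z ∈ Z, u ∈ U z := by
          by_contra hcon
          push Not at hcon
          have h4 := hoff u hcon
          have h5 : ‖hp p q u‖ < δ := by simpa using hball
          have h6 : δ ≤ r' := min_le_right _ _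
          linarith
        obtain ⟨z, hz, huz⟩ := hex
        apply hu
        simp only [mem_iUnion]
        exact ⟨z, by simpa using hz, huz, hball⟩
      · exact hout _ hball
    simp [h3]
  have hstep2 : ∫ z in ⋃ i ∈ hZ.toFinset, V i, φ (‖hp p q z‖ ^ 2) * jac p q z =
      ∑ i ∈ hZ.toFinset, ∫ z in V i, φ (‖hp p q z‖ ^ 2) * jac p q z := by
    apply integral_biUnion_finset
    · intro i hi
      exact (hVo i (by simpa using hi)).measurableSet
    · intro a ha b hb hab
      exact hVdis (by simpa using ha) (by simpa using hb) hab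
    · intro i hi
      exact hFint.integrableOn
  have hball : ∫ w in ball (0 : ℂ) δ, φ (‖w‖ ^ 2) = ∫ w : ℂ, φ (‖w‖ ^ 2) :=
    setIntegral_eq_integral_of_forall_compl_eq_zero hout
  have hstep3 : ∀ i ∈ hZ.toFinset, ∫ z in V i, φ (‖hp p q z‖ ^ 2) * jac p q z =
      sg i * ∫ w : ℂ, φ (‖w‖ ^ 2) := by
    intro i hi
    have hi' : i ∈ Z := by simpa using hi
    have h1 := integral_image_eq_integral_abs_det_fderiv_smul (μ := (volume : Measure ℂ))
      (s := V i) (f := hp p q) (f' := dh p q) (hVo i hi').measurableSet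
      (fun x _ => (hasStrictFDerivAt_hp p q x).hasFDerivAt.hasFDerivWithinAt)
      (fun a ha b hb hab => (hU0 i hi').2.2.1 ha.1.1 hb.1.1 hab)
      (fun w => φ (‖w‖ ^ 2))
    rw [hVimg i hi', hball] at h1
    rw [h1, ← integral_const_mul]
    apply setIntegral_congr_fun (hVo i hi').measurableSet
    intro u hu
    have h2 := (hU0 i hi').2.2.2 u hu.1.1
    simp only [det_dh, smul_eq_mul]
    rw [h2]
    have hs1 : abs (sg i) = 1 := by
      by_cases h : i ∈ Zp p q <;> simp [sg, h]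
    have hs2 : abs (sg i * abs (jac p q u)) = abs (jac p q u) := by
      rw [abs_mul, hs1, one_mul, abs_abs]
    rw [hs2]
    ring
  rw [hstep1, hstep2, Finset.sum_congr rfl hstep3, ← Finset.sum_mul]
  congr 1
  -- count
  have hZp : Zp p q ⊆ Z := fun z hz => hz.1
  have hZm : Zm p q ⊆ Z := fun z hz => hz.1
  have hfp : (Zp p q).Finite := hZ.subset hZp
  have hfm : (Zm p q).Finite := hZ.subset hZm
  have hdisj : Disjoint hfp.toFinset hfm.toFinset := by
    rw [Finset.disjoint_left]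
    intro z hz hz'
    have h1 : z ∈ Zp p q := by simpa using hz
    have h2 : z ∈ Zm p q := by simpa using hz'
    exact absurd h1.2 (not_lt.mpr h2.2.le)
  have hunion : hZ.toFinset = hfp.toFinset ∪ hfm.toFinset := by
    ext z
    simp only [Finite.mem_toFinset, Finset.mem_union]
    constructor
    · intro hz
      rcases lt_or_gt_of_ne (hreg z hz) with h | h
      · exact Or.inr ⟨hz, h⟩
      · exact Or.inl ⟨hz, h⟩
    · rintro (h | h)
      · exact h.1
      · exact h.1
  rw [hunion, Finset.sum_union hdisj]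
  have hs1 : ∑ i ∈ hfp.toFinset, sg i = ((Zp p q).ncard : ℝ) := by
    rw [Finset.sum_congr rfl (g := fun _ => (1 : ℝ))]
    · simp [Set.ncard_eq_toFinset_card _ hfp]
    · intro i hi
      have : i ∈ Zp p q := by simpa using hi
      simp [sg, this]
  have hs2 : ∑ i ∈ hfm.toFinset, sg i = -((Zm p q).ncard : ℝ) := by
    rw [Finset.sum_congr rfl (g := fun _ => (-1 : ℝ))]
    · simp [Set.ncard_eq_toFinset_card _ hfm]
    · intro i hi
      have h2 : i ∈ Zm p q := by simpa using hi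
      have : i ∉ Zp p q := fun h1 => absurd h1.2 (not_lt.mpr h2.2.le)
      simp [sg, this]
  rw [hs1, hs2]
  ring

end Pool.Agent.HZ
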