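import Mathlib

/-!
MP_cd3d06_an, linear upper bound for the number of zeros of `p(z) + conj (q(z))` (`deg q = m` fixed):
definitions.

`Lin p q x` is the (maximal) Koenigs linearizer at an attracting zero `x`:
`p (ψ t) = - conj (q (ψ (λ conj t)))`, normalised to the unit disc.
-/

open Polynomial Metric Set Filter Topology
open scoped ComplexConjugate

namespace Pool.Agent.HZ

/-- The maximal linearizer at the attracting zero `x` of `p(z) + conj (q(z))`. -/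
structure Lin (p q : ℂ[X]) (x : ℂ) where
  /-- the multiplier -/
  lam : ℝ
  /-- the linearizing function -/
  psi : ℂ → ℂ
  lam_pos : 0 < lam
  lam_lt : lam < 1
  diff : DifferentiableOn ℂ psi (ball 0 1)
  zero : psi 0 = x
  deriv_ne : deriv psi 0 ≠ 0
  fe : ∀ t ∈ ball (0 : ℂ) 1, p.eval (psi t) = - conj (q.eval (psi (lam * conj t)))
  hp : ∀ t ∈ ball (0 : ℂ) 1, (derivative p).eval (psi t) ≠ 0
  hq : ∀ t ∈ ball (0 : ℂ) lam, (derivative q).eval (psi t) ≠ 0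
  bdry : ∃ t₀ : ℂ, ‖t₀‖ = 1 ∧
    ((∃ c₀ : ℂ, (derivative p).eval c₀ = 0 ∧
        p.eval c₀ = - conj (q.eval (psi (lam * conj t₀)))) ∨
      (derivative q).eval (psi (lam * conj t₀)) = 0)

namespace Lin

variable {p q : ℂ[X]} {x : ℂ}

/-- `ω = log (1/λ)` -/
noncomputable def om (X : Lin p q x) : ℝ := - Real.log X.lam

/-- the linearizer in the logarithmic coordinate, on `Re v < 0` -/
noncomputable def f (X : Lin p q x) (v : ℂ) : ℂ := X.psi (Complex.exp v)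

/-- the model map -/
noncomputable def S (X : Lin p q x) (v : ℂ) : ℂ := conj v - X.om

/-- the logarithmic derivative `(log (f - c))'` -/
noncomputable def ld (X : Lin p q x) (c v : ℂ) : ℂ :=
  Complex.exp v * deriv X.psi (Complex.exp v) / (X.psi (Complex.exp v) - c)

/-- `|(log (f - c))'| ≤ G` on `Re v ≤ -y`, for all critical points `c` of `q` -/
def Bound (X : Lin p q x) (y G : ℝ) : Prop :=
  ∀ c : ℂ, (derivative q).eval c = 0 → ∀ v : ℂ, v.re ≤ -y → ‖X.ld c v‖ ≤ G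

/-- from depth `K ω` on, two steps of the orbit are small compared with the distance to the critical
points of `q` -/
def Good (X : Lin p q x) (K : ℕ) : Prop :=
  ∀ v : ℂ, v.re ≤ -(K * X.om) → ∀ c : ℂ, (derivative q).eval c = 0 →
    ‖X.f (v - 2 * X.om) - X.f v‖ ≤ 1 / (2 * q.natDegree) * ‖X.f v - c‖

/-- near `x` the linearizer is almost `c + (x - c) exp (A t)`, for `|A t| ≤ M` -/
def Exc (X : Lin p q x) (c : ℂ) (M ε : ℝ) : Prop :=
  ∃ A : ℂ, A ≠ 0 ∧ M < ‖A‖ * X.lam ∧ ∃ L : ℂ → ℂ, DifferentiableOn ℂ L (ball 0 X.lam) ∧ L 0 = 0 ∧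
    ∀ t : ℂ, ‖A * t‖ ≤ M → X.psi t = c + (x - c) * Complex.exp (L t) ∧
      ‖L t - A * t‖ ≤ ε * ‖A * t‖

end Lin

/-- `P` is almost the monomial `C z^j` on the annulus `exp(-M) r ≤ |z| ≤ exp(M) r` -/
def MonAnn (P : ℂ[X]) (r M ε : ℝ) (j : ℕ) : Prop :=
  ∃ a : ℂ, a ≠ 0 ∧ ∀ z : ℂ, Real.exp (-M) * r ≤ ‖z‖ → ‖z‖ ≤ Real.exp M * r →
    ‖P.eval z - a * z ^ j‖ ≤ ε * ‖a * z ^ j‖

/-- `p(z + c) + conj (q(c))` -/
noncomputable def trP (p q : ℂ[X]) (c : ℂ) : ℂ[X] := p.comp (X + C c) + C (conj (q.eval c))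

/-- `q(z + c) - q(c)` -/
noncomputable def trQ (q : ℂ[X]) (c : ℂ) : ℂ[X] := q.comp (X + C c) - C (q.eval c)

end Pool.Agent.HZ
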