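import Pool.Agent.H.MP_cd3d06_an.L.DIbp
import Pool.Agent.H.MP_cd3d06_an.L.DLocal
import Pool.Agent.H.MP_cd3d06_an.L.DAsymp

/-! MP_cd3d06_an, module Degree: the degree formula -/

open Polynomial Metric Set Filter Topology MeasureTheory
open scoped ComplexConjugate

namespace Pool.Agent.HZ

/-- a bump function on `(ε/8, ε)` and a primitive of it -/
private theorem exists_bump {ε : ℝ} (hε : 0 < ε) : ∃ φ Φ : ℝ → ℝ, Continuous φ ∧ ContDiff ℝ 2 Φ ∧
    (∀ s, 0 ≤ φ s) ∧ (∀ s, ε ≤ s → φ s = 0) ∧ 0 < φ (5 * ε / 8) ∧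
    HasCompactSupport φ ∧
    (∀ s, HasDerivAt Φ (φ s) s) ∧ (∀ s, s ≤ ε / 8 → Φ s = 0) ∧ (∀ s, ε ≤ s → Φ s = Φ ε) := by
  let B : ContDiffBump (5 * ε / 8 : ℝ) := ⟨ε / 8, ε / 4, by positivity, by linarith⟩
  have hBc : Continuous (B : ℝ → ℝ) := B.continuous
  have hz : ∀ s : ℝ, ε / 4 ≤ |s - 5 * ε / 8| → B s = 0 := by
    intro s hs
    exact B.zero_of_le_dist (by simpa [Real.dist_eq, B] using hs)
  have hint : ∀ a b : ℝ, IntervalIntegrable (B : ℝ → ℝ) volume a b :=
    fun a b => hBc.intervalIntegrable a b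
  have hd : ∀ s, HasDerivAt (fun s => ∫ t in (0:ℝ)..s, B t) (B s) s := by
    intro s
    exact intervalIntegral.integral_hasDerivAt_right (hint 0 s)
      (hBc.stronglyMeasurableAtFilter _ _) hBc.continuousAt
  refine ⟨B, fun s => ∫ t in (0:ℝ)..s, B t, hBc, ?_, fun s => B.nonneg, ?_, ?_, B.hasCompactSupport, hd,
    ?_, ?_⟩
  · have h2 : (2 : WithTop ℕ∞) = 1 + 1 := by norm_num
    rw [h2, contDiff_succ_iff_deriv]
    refine ⟨fun s => (hd s).differentiableAt, by simp, ?_⟩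
    have : deriv (fun s => ∫ t in (0:ℝ)..s, B t) = B := funext fun s => (hd s).deriv
    rw [this]
    exact B.contDiff
  · intro s hs
    apply hz
    rw [abs_of_nonneg (by linarith)]
    linarith
  · exact B.pos_of_mem_ball (by simp [B, hε])
  · intro s hs
    apply intervalIntegral.integral_zero_ae
    refine Eventually.of_forall fun t ht => ?_
    apply hz
    have : t ≤ ε / 8 := by
      rcases le_total 0 s with h | h
      · rw [uIoc_of_le h] at ht; exact ht.2.trans hs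
      · rw [uIoc_of_ge h] at ht; exact ht.2.trans (by positivity)
    rw [abs_of_nonpos (by linarith)]
    linarith
  · intro s hs
    have h1 := intervalIntegral.integral_add_adjacent_intervals (hint 0 ε) (hint ε s)
    have h2 : ∫ t in ε..s, B t = 0 := by
      apply intervalIntegral.integral_zero_ae
      refine Eventually.of_forall fun t ht => ?_
      rw [uIoc_of_le hs] at ht
      apply hz
      rw [abs_of_nonneg (by linarith [ht.1])]
      linarith [ht.1]
    show ∫ t in (0:ℝ)..s, B t = ∫ t in (0:ℝ)..ε, B t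
    rw [← h1, h2, add_zero]

private theorem integrable_comp {p q : ℂ[X]} (hpq : q.natDegree < p.natDegree) {φ : ℝ → ℝ}
    (hφ : Continuous φ) {S : ℝ} (hS : ∀ s, S ≤ s → φ s = 0) :
    Integrable (fun z : ℂ => φ (‖hp p q z‖ ^ 2) * jac p q z) := by
  have hc : Continuous (fun z : ℂ => φ (‖hp p q z‖ ^ 2) * jac p q z) := by
    have h1 := (contDiff_hp p q).continuous
    have h2 := (contDiff_jac p q).continuous
    fun_prop
  apply hc.integrable_of_hasCompactSupport
  rw [hasCompactSupport_iff_eventuallyEq, coclosedCompact_eq_cocompact]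
  have h3 := (hp_tendsto hpq).eventually_ge_atTop (|S| + 1)
  filter_upwards [h3] with z hz
  have : S ≤ ‖hp p q z‖ ^ 2 := by
    have h0 := le_abs_self S
    have h1 := abs_nonneg S
    nlinarith
  simp [hS _ this]

private theorem int_eq {p q : ℂ[X]} (hpq : q.natDegree < p.natDegree) {ε : ℝ} (hε : 0 < ε)
    {φ Φ : ℝ → ℝ} (hφ : Continuous φ) (hΦ : ContDiff ℝ 2 Φ) (hφz : ∀ s, ε ≤ s → φ s = 0)
    (hd : ∀ s, HasDerivAt Φ (φ s) s) (hΦ0 : ∀ s, s ≤ ε / 8 → Φ s = 0)
    (hΦ1 : ∀ s, ε ≤ s → Φ s = Φ ε) {R : ℝ} (hR : 1 ≤ R) :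
    (∫ z : ℂ, φ (‖hp p q z‖ ^ 2 / R ^ 2) * jac p q z) / R ^ 2 =
      ∫ z : ℂ, φ (‖hp p q z‖ ^ 2) * jac p q z := by
  have hR2 : 1 ≤ R ^ 2 := by nlinarith
  have hR0 : 0 < R ^ 2 := by positivity
  -- the function chi
  set G : ℝ → ℝ := fun s => Φ (s / R ^ 2) - Φ s with hG
  have hG2 : ContDiff ℝ 2 G := (hΦ.comp (contDiff_id.div_const _)).sub hΦ
  have hGz : ∀ s, s ≤ ε / 8 → G s = 0 := by
    intro s hs
    have : s / R ^ 2 ≤ ε / 8 := by
      rw [div_le_iff₀ hR0]; nlinarith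
    simp [hG, hΦ0 _ hs, hΦ0 _ this]
  have hGS : ∀ s, ε * R ^ 2 ≤ s → G s = 0 := by
    intro s hs
    have h1 : ε ≤ s / R ^ 2 := by rwa [le_div_iff₀ hR0]
    have h2 : ε ≤ s := by nlinarith
    simp [hG, hΦ1 _ h1, hΦ1 _ h2]
  set χ : ℝ → ℝ := fun s => G s / s with hχ
  have hχ0 : ∀ s, s ≤ ε / 8 → χ s = 0 := fun s hs => by simp [hχ, hGz s hs]
  have hχS : ∀ s, ε * R ^ 2 ≤ s → χ s = 0 := fun s hs => by simp [hχ, hGS s hs]
  have hχ2 : ContDiff ℝ 2 χ := by
    rw [contDiff_iff_contDiffAt]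
    intro s
    by_cases hs : s = 0
    · have : χ =ᶠ[𝓝 s] fun _ => 0 := by
        have : Iio (ε / 8) ∈ 𝓝 s := Iio_mem_nhds (by rw [hs]; positivity)
        filter_upwards [this] with t ht
        exact hχ0 t (le_of_lt ht)
      exact contDiffAt_const.congr_of_eventuallyEq this
    · exact hG2.contDiffAt.div contDiffAt_id hs
  have hχc : HasCompactSupport χ := by
    apply HasCompactSupport.intro (isCompact_Icc (a := ε / 8) (b := ε * R ^ 2))
    intro s hs
    rw [mem_Icc, not_and_or, not_le, not_le] at hs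
    rcases hs with hs | hs
    · exact hχ0 s hs.le
    · exact hχS s hs.le
  have hsχ : ∀ s, s * χ s = G s := by
    intro s
    by_cases hs : s = 0
    · rw [hs, zero_mul, hGz 0 (by positivity)]
    · simp only [hχ]; field_simp
  have hkey : ∀ s, χ s + s * deriv χ s = φ (s / R ^ 2) / R ^ 2 - φ s := by
    intro s
    have hχd : HasDerivAt χ (deriv χ s) s :=
      (hχ2.differentiable (by norm_num) s).hasDerivAt
    have h1 : HasDerivAt (fun s => s * χ s) (1 * χ s + s * deriv χ s) s :=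
      (hasDerivAt_id s).mul hχd
    have h2 : HasDerivAt G (φ (s / R ^ 2) * (1 / R ^ 2) - φ s) s := by
      have h3 : HasDerivAt (fun s : ℝ => s / R ^ 2) (1 / R ^ 2) s :=
        (hasDerivAt_id s).div_const _
      exact ((hd (s / R ^ 2)).comp s h3).sub (hd s)
    have h4 : (fun s => s * χ s) = G := funext hsχ
    rw [h4] at h1
    have := h1.unique h2
    rw [one_mul] at this
    rw [this]; ring
  have hI := ibp hpq hχ2 hχc
  have hI1 : Integrable (fun z : ℂ => φ (‖hp p q z‖ ^ 2 / R ^ 2) * jac p q z) := by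
    have := integrable_comp hpq (φ := fun s => φ (s / R ^ 2)) (by fun_prop) (S := ε * R ^ 2)
      (fun s hs => hφz _ (by rwa [le_div_iff₀ hR0]))
    exact this
  have hI2 : Integrable (fun z : ℂ => φ (‖hp p q z‖ ^ 2) * jac p q z) :=
    integrable_comp hpq hφ hφz
  have h5 : ∀ z : ℂ, (χ (‖hp p q z‖ ^ 2) + ‖hp p q z‖ ^ 2 * deriv χ (‖hp p q z‖ ^ 2)) * jac p q z =
      (φ (‖hp p q z‖ ^ 2 / R ^ 2) * jac p q z) / R ^ 2 - φ (‖hp p q z‖ ^ 2) * jac p q z := by
    intro z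
    rw [hkey]; ring
  simp_rw [h5] at hI
  rw [integral_sub (hI1.div_const _) hI2, integral_div] at hI
  linarith

theorem degree_eq {p q : ℂ[X]} (hpq : q.natDegree < p.natDegree) (hreg : Reg p q) :
    (Zp p q).ncard = (Zm p q).ncard + p.natDegree := by
  obtain ⟨ε, hε, hloc⟩ := local_eval hpq hreg
  obtain ⟨φ, Φ, hφ, hΦ, hφn, hφz, hφp, hφs, hd, hΦ0, hΦ1⟩ := exists_bump hε
  have h1 := asymp hpq hφ hφs
  have h2 : Tendsto (fun R : ℝ => (∫ z : ℂ, φ (‖hp p q z‖ ^ 2 / R ^ 2) * jac p q z) / R ^ 2) atTop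
      (𝓝 ((((Zp p q).ncard : ℝ) - (Zm p q).ncard) * ∫ w : ℂ, φ (‖w‖ ^ 2))) := by
    rw [← hloc φ hφ hφz]
    apply tendsto_const_nhds.congr'
    filter_upwards [eventually_ge_atTop (1 : ℝ)] with R hR
    exact (int_eq hpq hε hφ hΦ hφz hd hΦ0 hΦ1 hR).symm
  have h3 := tendsto_nhds_unique h1 h2
  have hI0 : 0 < ∫ w : ℂ, φ (‖w‖ ^ 2) := by
    have hc : Continuous (fun w : ℂ => φ (‖w‖ ^ 2)) := by fun_prop
    apply hc.integral_pos_of_hasCompactSupport_nonneg_nonzero (x := ((Real.sqrt (5 * ε / 8) : ℝ) : ℂ))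
    · rw [hasCompactSupport_iff_eventuallyEq, coclosedCompact_eq_cocompact]
      have h3 := (tendsto_norm_cocompact_atTop (E := ℂ)).eventually_ge_atTop (ε + 1)
      filter_upwards [h3] with z hz
      have : ε ≤ ‖z‖ ^ 2 := by nlinarith
      simp [hφz _ this]
    · intro w
      exact hφn _
    · have : ‖((Real.sqrt (5 * ε / 8) : ℝ) : ℂ)‖ ^ 2 = 5 * ε / 8 := by
        rw [Complex.norm_real, Real.norm_eq_abs, sq_abs, Real.sq_sqrt (by positivity)]
      simp only [this]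
      exact hφp.ne'
  have h4 := mul_right_cancel₀ hI0.ne' h3
  have h5 : ((Zp p q).ncard : ℝ) = (((Zm p q).ncard + p.natDegree : ℕ) : ℝ) := by
    push_cast
    linarith
  exact_mod_cast h5

end Pool.Agent.HZ
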