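import Mathlib

/-! MP_cd3d06_an, module Surj: almost linear functions are surjective -/

open Polynomial Metric Set Filter Topology
open scoped ComplexConjugate

namespace Pool.Agent.HZ

theorem surj_near_linear {L : ℂ → ℂ} {A : ℂ} {M ε : ℝ} (hA : A ≠ 0) (hε : ε ≤ 1 / 4)
    (hL : ∀ t : ℂ, ‖A * t‖ ≤ M → DifferentiableAt ℂ L t)
    (h : ∀ t : ℂ, ‖A * t‖ ≤ M → ‖L t - A * t‖ ≤ ε * ‖A * t‖) {w : ℂ} (hw : ‖w‖ < 3 / 8 * M) :
    ∃ t : ℂ, ‖A * t‖ ≤ 4 / 3 * ‖w‖ ∧ L t = w := by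
  have hM : 0 < M := by linarith [norm_nonneg w]
  have hA0 : 0 < ‖A‖ := norm_pos_iff.2 hA
  have hL0 : L 0 = 0 := by
    have := h 0 (by simpa using hM.le)
    simpa using this
  have hlow : ∀ t : ℂ, ‖A * t‖ ≤ M → 3 / 4 * ‖A * t‖ ≤ ‖L t‖ := by
    intro t ht
    have h1 := h t ht
    have h2 : ‖A * t‖ ≤ ‖L t‖ + ‖L t - A * t‖ := by
      have := norm_sub_le (L t) (L t - A * t)
      simpa using this
    nlinarith [norm_nonneg (A * t)]
  have hr : 0 < M / ‖A‖ := by positivity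
  have hball : ∀ t ∈ closedBall (0 : ℂ) (M / ‖A‖), ‖A * t‖ ≤ M := by
    intro t ht
    rw [mem_closedBall_zero_iff, le_div_iff₀ hA0] at ht
    rw [norm_mul]; linarith
  have hsub := DiffContOnCl.ball_subset_image_closedBall (f := L) (z₀ := 0) (r := M / ‖A‖)
    (ε := 3 / 4 * M) (by
      refine DifferentiableOn.diffContOnCl (fun t ht => ?_)
      rw [closure_ball (0 : ℂ) hr.ne'] at ht
      exact (hL t (hball t ht)).differentiableWithinAt) hr (by
      intro t ht
      rw [mem_sphere_zero_iff_norm] at ht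
      have h1 : ‖A * t‖ = M := by rw [norm_mul, ht]; field_simp
      rw [hL0, sub_zero]
      have := hlow t h1.le
      rwa [h1] at this) (by
      have hev : ∀ᶠ z in 𝓝[≠] (0 : ℂ), L z ≠ L 0 := by
        have h1 : ∀ᶠ z in 𝓝[≠] (0 : ℂ), z ∈ ball (0 : ℂ) (M / ‖A‖) :=
          nhdsWithin_le_nhds (ball_mem_nhds _ hr)
        filter_upwards [h1, self_mem_nhdsWithin] with z hz hz0 hcon
        have h2 := hlow z (hball z (ball_subset_closedBall hz))
        rw [hcon, hL0, norm_zero] at h2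
        have h3 : 0 < ‖A * z‖ := norm_pos_iff.2 (mul_ne_zero hA hz0)
        linarith
      exact hev.frequently.filter_mono nhdsWithin_le_nhds)
  have hmem : w ∈ ball (L 0) (3 / 4 * M / 2) := by
    rw [hL0, mem_ball_zero_iff]; linarith
  obtain ⟨t, ht, htw⟩ := hsub hmem
  refine ⟨t, ?_, htw⟩
  have := hlow t (hball t ht)
  rw [htw] at this
  linarith

end Pool.Agent.HZ
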