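import Pool.Agent.H.MP_cd3d06_an.L.Basic
import Pool.Agent.H.MP_cd3d06_an.L.PolyA
import Pool.Agent.H.MP_cd3d06_an.L.Surj

/-! MP_cd3d06_an, module ExcFacts: first properties of exceptional points, small multipliers -/

open Polynomial Metric Set Filter Topology
open scoped ComplexConjugate

namespace Pool.Agent.HZ

namespace Lin

variable {p q : ℂ[X]} {x : ℂ} {X : Lin p q x}

theorem Exc.mono {c : ℂ} {M M' ε ε' : ℝ} (h : X.Exc c M ε) (hM : M' ≤ M) (hε : ε ≤ ε') :
    X.Exc c M' ε' := by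
  obtain ⟨A, hA, hAM, L, hLd, hL0, hL⟩ := h
  refine ⟨A, hA, lt_of_le_of_lt hM hAM, L, hLd, hL0, fun t ht => ?_⟩
  obtain ⟨h1, h2⟩ := hL t (ht.trans hM)
  exact ⟨h1, h2.trans (mul_le_mul_of_nonneg_right hε (norm_nonneg _))⟩

private theorem ef_mem_ball {A : ℂ} {M lam : ℝ} (hAM : M < ‖A‖ * lam) {t : ℂ}
    (ht : ‖A * t‖ ≤ M) : t ∈ ball (0 : ℂ) lam := by
  rw [mem_ball_zero_iff]
  rw [norm_mul] at ht
  exact lt_of_mul_lt_mul_left (lt_of_le_of_lt ht hAM) (norm_nonneg A)

/-- no critical points of `q` in the annulus -/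
theorem Exc.no_crit {c : ℂ} {M ε : ℝ} (h : X.Exc c M ε) (hM : 20 ≤ M) (hε : ε ≤ 1 / 4) {z : ℂ}
    (h1 : Real.exp (-(M / 8)) * ‖x - c‖ ≤ ‖z - c‖) (h2 : ‖z - c‖ ≤ Real.exp (M / 8) * ‖x - c‖)
    (hc : (derivative q).eval c = 0) : (derivative q).eval z ≠ 0 := by
  obtain ⟨A, hA, hAM, L, hLd, hL0, hL⟩ := h
  have hxc : x - c ≠ 0 := sub_ne_zero.2 (X.x_ne hc)
  have hxn : 0 < ‖x - c‖ := norm_pos_iff.2 hxc
  have hz : z - c ≠ 0 := by
    intro h0
    rw [h0, norm_zero] at h1
    have := mul_pos (Real.exp_pos (-(M / 8))) hxn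
    linarith
  have hζ0 : (z - c) / (x - c) ≠ 0 := div_ne_zero hz hxc
  have hζn : ‖(z - c) / (x - c)‖ = ‖z - c‖ / ‖x - c‖ := norm_div _ _
  have hre : |(Complex.log ((z - c) / (x - c))).re| ≤ M / 8 := by
    rw [Complex.log_re, abs_le]
    constructor
    · rw [Real.le_log_iff_exp_le (norm_pos_iff.2 hζ0), hζn, le_div_iff₀ hxn]
      exact h1
    · rw [Real.log_le_iff_le_exp (norm_pos_iff.2 hζ0), hζn, div_le_iff₀ hxn]
      exact h2
  have him : |(Complex.log ((z - c) / (x - c))).im| ≤ Real.pi := by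
    rw [Complex.log_im]
    exact Complex.abs_arg_le_pi _
  have hw : ‖Complex.log ((z - c) / (x - c))‖ < 3 / 8 * M := by
    have h3 := Complex.norm_le_abs_re_add_abs_im (Complex.log ((z - c) / (x - c)))
    have h4 := Real.pi_lt_four
    linarith
  obtain ⟨t, ht, hLt⟩ := surj_near_linear hA hε
    (fun t ht => (hLd t (ef_mem_ball hAM ht)).differentiableAt
      (isOpen_ball.mem_nhds (ef_mem_ball hAM ht))) (fun t ht => (hL t ht).2) hw
  have htM : ‖A * t‖ ≤ M := by
    refine ht.trans ?_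
    linarith
  have hψ : X.psi t = z := by
    rw [(hL t htM).1, hLt, Complex.exp_log hζ0, mul_div_cancel₀ _ hxc]
    ring
  rw [← hψ]
  exact X.hq t (ef_mem_ball hAM htM)

/-- small multipliers are impossible -/
theorem Exc.small_lam {c : ℂ} {M ε : ℝ} (hm : 1 ≤ q.natDegree) (h : X.Exc c M ε) (hM : 20 ≤ M)
    (hε : ε ≤ 1 / 100) (hc : (derivative q).eval c = 0) : 1 / (100 * q.natDegree) < X.lam := by
  by_contra hlam
  rw [not_lt] at hlam
  have hnc : ∀ c' : ℂ, (derivative q).eval c' = 0 → 7 / 10 * ‖x - c‖ ≤ ‖x - c'‖ := by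
    intro c' hc'
    have hxc : x - c ≠ 0 := sub_ne_zero.2 (X.x_ne hc)
    have hxn : 0 < ‖x - c‖ := norm_pos_iff.2 hxc
    have hE : (7 / 2 : ℝ) ≤ Real.exp (M / 8) := by
      have h3 := Real.add_one_le_exp (M / 8)
      linarith
    have hE' : Real.exp (-(M / 8)) ≤ 2 / 7 := by
      rw [Real.exp_neg]
      rw [inv_le_comm₀ (Real.exp_pos _) (by norm_num)]
      norm_num
      linarith
    by_cases h1 : Real.exp (-(M / 8)) * ‖x - c‖ ≤ ‖c' - c‖
    · by_cases h2 : ‖c' - c‖ ≤ Real.exp (M / 8) * ‖x - c‖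
      · exact absurd hc' (h.no_crit hM (hε.trans (by norm_num)) h1 h2 hc)
      · rw [not_le] at h2
        have h3 : ‖c' - c‖ ≤ ‖x - c'‖ + ‖x - c‖ := by
          have h4 : c' - c = -(x - c') + (x - c) := by ring
          rw [h4]
          refine (norm_add_le _ _).trans ?_
          rw [norm_neg]
        have h5 : 7 / 2 * ‖x - c‖ ≤ Real.exp (M / 8) * ‖x - c‖ :=
          mul_le_mul_of_nonneg_right hE hxn.le
        linarith
    · rw [not_le] at h1
      have h3 : ‖x - c‖ ≤ ‖x - c'‖ + ‖c' - c‖ := by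
        have h4 := norm_add_le (x - c') (c' - c)
        rwa [sub_add_sub_cancel] at h4
      have h5 : Real.exp (-(M / 8)) * ‖x - c‖ ≤ 2 / 7 * ‖x - c‖ :=
        mul_le_mul_of_nonneg_right hE' hxn.le
      linarith
  obtain ⟨A, hA, hAM, L, hLd, hL0, hL⟩ := h
  have hmpos : (0 : ℝ) < q.natDegree := by exact_mod_cast hm
  have hm1 : (1 : ℝ) ≤ q.natDegree := by exact_mod_cast hm
  have hpi := Real.pi_lt_d2
  have hw : ‖(2 * Real.pi * Complex.I : ℂ)‖ < 3 / 8 * M := by
    have h3 : ‖(2 * Real.pi * Complex.I : ℂ)‖ = 2 * Real.pi := by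
      rw [norm_mul, norm_mul, Complex.norm_I, Complex.norm_real, Real.norm_eq_abs,
        abs_of_pos Real.pi_pos]
      simp
    rw [h3]
    linarith
  have hw2 : ‖(2 * Real.pi * Complex.I : ℂ)‖ ≤ 63 / 10 := by
    have h3 : ‖(2 * Real.pi * Complex.I : ℂ)‖ = 2 * Real.pi := by
      rw [norm_mul, norm_mul, Complex.norm_I, Complex.norm_real, Real.norm_eq_abs,
        abs_of_pos Real.pi_pos]
      simp
    rw [h3]
    linarith
  obtain ⟨t, ht, hLt⟩ := surj_near_linear hA (hε.trans (by norm_num : (1 / 100 : ℝ) ≤ 1 / 4))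
    (fun t ht => (hLd t (ef_mem_ball hAM ht)).differentiableAt
      (isOpen_ball.mem_nhds (ef_mem_ball hAM ht))) (fun t ht => (hL t ht).2) hw
  have ht84 : ‖A * t‖ ≤ 84 / 10 := by linarith
  have htM : ‖A * t‖ ≤ M := by linarith
  have ht0 : t ≠ 0 := by
    rintro rfl
    rw [hL0] at hLt
    have h3 : (2 * Real.pi * Complex.I : ℂ) ≠ 0 := Complex.two_pi_I_ne_zero
    exact h3 hLt.symm
  have htlam : ‖t‖ < X.lam := by
    have := ef_mem_ball hAM htM
    rwa [mem_ball_zero_iff] at this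
  -- the orbit
  obtain ⟨s, hs0, hs1⟩ : ∃ s : ℕ → ℂ, s 0 = t ∧ ∀ l, s (l + 1) = (X.lam : ℂ) * conj (s l) :=
    ⟨fun l => Nat.rec t (fun _ z => (X.lam : ℂ) * conj z) l, rfl, fun l => rfl⟩
  have hsn : ∀ l, ‖s l‖ = X.lam ^ l * ‖t‖ := by
    intro l
    induction l with
    | zero => rw [hs0]; simp
    | succ l ih =>
      rw [hs1, norm_mul, Complex.norm_conj, ih, Complex.norm_real, Real.norm_eq_abs,
        abs_of_pos X.lam_pos]
      ring
  have hs1lt : ∀ l, s l ∈ ball (0 : ℂ) 1 := by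
    intro l
    rw [mem_ball_zero_iff, hsn]
    have h3 : X.lam ^ l ≤ 1 := pow_le_one₀ X.lam_pos.le X.lam_lt.le
    have h4 : X.lam ^ l * ‖t‖ ≤ 1 * ‖t‖ := mul_le_mul_of_nonneg_right h3 (norm_nonneg _)
    have h5 := X.lam_lt
    linarith
  have hpx : p.eval x = - conj (q.eval x) := by
    have h3 := X.fe 0 (mem_ball_self one_pos)
    rwa [map_zero, mul_zero, X.zero] at h3
  have hψ : ∀ l, X.psi (s l) = x := by
    intro l
    induction l with
    | zero =>
      rw [hs0, (hL t htM).1, hLt, Complex.exp_two_pi_mul_I]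
      ring
    | succ l ih =>
      have h3 := X.fe (s l) (hs1lt l)
      rw [ih, ← hs1, hpx, neg_inj] at h3
      have h4 : q.eval x = q.eval (X.psi (s (l + 1))) := (starRingEnd ℂ).injective h3
      have hA1 : ‖A * s (l + 1)‖ ≤ 84 / 1000 / q.natDegree := by
        have h5 : X.lam ^ (l + 1) ≤ X.lam := by
          rw [pow_succ]
          have h6 : X.lam ^ l ≤ 1 := pow_le_one₀ X.lam_pos.le X.lam_lt.le
          calc X.lam ^ l * X.lam ≤ 1 * X.lam := mul_le_mul_of_nonneg_right h6 X.lam_pos.le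
            _ = X.lam := one_mul _
        calc ‖A * s (l + 1)‖ = X.lam ^ (l + 1) * ‖A * t‖ := by
              rw [norm_mul, norm_mul, hsn]; ring
          _ ≤ X.lam * (84 / 10) :=
              mul_le_mul h5 ht84 (norm_nonneg _) X.lam_pos.le
          _ ≤ 1 / (100 * q.natDegree) * (84 / 10) :=
              mul_le_mul_of_nonneg_right hlam (by norm_num)
          _ = 84 / 1000 / q.natDegree := by
              field_simp
              ring
      have hA2 : (84 / 1000 : ℝ) / q.natDegree ≤ 84 / 1000 := by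
        rw [div_le_iff₀ hmpos]
        linarith
      have hAM2 : ‖A * s (l + 1)‖ ≤ M := by linarith
      obtain ⟨h7, h8⟩ := hL (s (l + 1)) hAM2
      have h9 : ‖L (s (l + 1))‖ ≤ 85 / 1000 / q.natDegree := by
        have h10 : ‖L (s (l + 1))‖ ≤ ‖A * s (l + 1)‖ + ‖L (s (l + 1)) - A * s (l + 1)‖ := by
          have := norm_add_le (A * s (l + 1)) (L (s (l + 1)) - A * s (l + 1))
          rwa [add_sub_cancel] at this
        have h11 : ε * ‖A * s (l + 1)‖ ≤ 1 / 100 * ‖A * s (l + 1)‖ :=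
          mul_le_mul_of_nonneg_right hε (norm_nonneg _)
        have h12 : ‖L (s (l + 1))‖ ≤ 101 / 100 * (84 / 1000 / q.natDegree) := by linarith
        refine h12.trans ?_
        rw [← mul_div_assoc]
        exact div_le_div_of_nonneg_right (by norm_num) hmpos.le
      have h13 : (85 / 1000 : ℝ) / q.natDegree ≤ 85 / 1000 := by
        rw [div_le_iff₀ hmpos]
        linarith
      have h14 : ‖Complex.exp (L (s (l + 1))) - 1‖ ≤ 2 * ‖L (s (l + 1))‖ :=
        Complex.norm_exp_sub_one_le (by linarith)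
      have h15 : ‖X.psi (s (l + 1)) - x‖ ≤ 17 / 100 / q.natDegree * ‖x - c‖ := by
        have h16 : X.psi (s (l + 1)) - x = (x - c) * (Complex.exp (L (s (l + 1))) - 1) := by
          rw [h7]; ring
        rw [h16, norm_mul, mul_comm]
        refine mul_le_mul_of_nonneg_right ?_ (norm_nonneg _)
        have h17 : (17 / 100 : ℝ) / q.natDegree = 2 * (85 / 1000 / q.natDegree) := by ring
        rw [h17]
        linarith
      symm
      refine lemA (q := q) hm (w := x) (z := x) (z' := X.psi (s (l + 1))) ?_ ?_ h4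
      · intro c' _
        rw [sub_self, norm_zero]
        positivity
      · intro c' hc'
        refine h15.trans ?_
        have h18 := hnc c' hc'
        calc 17 / 100 / (q.natDegree : ℝ) * ‖x - c‖
            ≤ 35 / 100 / (q.natDegree : ℝ) * ‖x - c‖ := by
              refine mul_le_mul_of_nonneg_right ?_ (norm_nonneg _)
              exact div_le_div_of_nonneg_right (by norm_num) hmpos.le
          _ = 1 / (2 * (q.natDegree : ℝ)) * (7 / 10 * ‖x - c‖) := by
              field_simp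
              ring
          _ ≤ 1 / (2 * (q.natDegree : ℝ)) * ‖x - c'‖ :=
              mul_le_mul_of_nonneg_left h18 (by positivity)
  obtain ⟨r, hr, hr1, hinj⟩ := X.psi_inj
  have htn : 0 < ‖t‖ := norm_pos_iff.2 ht0
  obtain ⟨l, hl⟩ := exists_pow_lt_of_lt_one (div_pos hr htn) X.lam_lt
  have hsl : ‖s l‖ < r := by
    rw [hsn]
    rwa [lt_div_iff₀ htn] at hl
  have hs00 : s l = 0 := by
    refine hinj (by rwa [mem_ball_zero_iff]) (mem_ball_self hr) ?_
    rw [hψ, X.zero]
  have h20 : 0 < ‖s l‖ := by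
    rw [hsn]
    exact mul_pos (pow_pos X.lam_pos l) htn
  rw [hs00, norm_zero] at h20
  exact lt_irrefl 0 h20

end Lin

end Pool.Agent.HZ
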