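import Pool.Agent.H.MP_cd3d06_an.L.DBasic

/-! MP_cd3d06_an, module Persist: persistence of zeros -/

open Polynomial Metric Set Filter Topology MeasureTheory
open scoped ComplexConjugate

namespace Pool.Agent.HZ

/-- multiplication by a nonzero complex number as a real continuous linear equivalence -/
private noncomputable def mulE (b : ℂ) (hb : b ≠ 0) : ℂ ≃L[ℝ] ℂ :=
  (LinearEquiv.ofBijective ((b • (LinearMap.id : ℂ →ₗ[ℂ] ℂ)).restrictScalars ℝ) (by
    constructor
    · intro x y hxy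
      exact mul_left_cancel₀ hb (by simpa using hxy)
    · intro y
      exact ⟨b⁻¹ * y, by simp [hb]⟩)).toContinuousLinearEquiv

private theorem mulE_apply (b : ℂ) (hb : b ≠ 0) (v : ℂ) :
    ((mulE b hb : ℂ ≃L[ℝ] ℂ) : ℂ →L[ℝ] ℂ) v = b * v := by
  simp [mulE]

theorem persist {p q : ℂ[X]} {x u : ℂ} (hx : hp p q x = 0) (hiso : ∀ᶠ z in 𝓝[≠] x, hp p q z ≠ 0)
    (hu : ∃ v : ℂ, (conj u * dh p q x v).im ≠ 0) {U : Set ℂ} (hU : U ∈ 𝓝 x) :
    (∃ δ > 0, ∀ ε : ℝ, 0 < ε → ε < δ → ∃ z ∈ U, hp p q z = ε * u) ∨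
      ∃ δ > 0, ∀ ε : ℝ, 0 < ε → ε < δ → ∃ z ∈ U, hp p q z = -(ε * u) := by
  obtain ⟨v, hv⟩ := hu
  have hu0 : u ≠ 0 := by
    rintro rfl
    simp at hv
  set a := (derivative p).eval x with ha
  set b := (derivative q).eval x with hb
  set β : ℂ := conj u * a - u * b with hβ
  have hform : ∀ w : ℂ, (conj u * dh p q x w).im = (β * w).im := by
    intro w
    rw [dh_apply, ← ha, ← hb, hβ]
    simp only [Complex.mul_im, Complex.add_im, Complex.add_re, Complex.conj_re, Complex.conj_im,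
      Complex.mul_re, Complex.sub_re, Complex.sub_im]
    ring
  have hβ0 : β ≠ 0 := by
    intro h0
    rw [hform, h0] at hv
    simp at hv
  -- the chart
  let L1 : ℂ →L[ℝ] ℂ := (Complex.ofRealCLM.comp Complex.imCLM).comp
    (conj u • (ContinuousLinearMap.id ℝ ℂ))
  let L2 : ℂ →L[ℝ] ℂ := (Complex.ofRealCLM.comp Complex.reCLM).comp
    (β • (ContinuousLinearMap.id ℝ ℂ))
  let Ψ : ℂ → ℂ := fun z => Complex.I * L1 (hp p q z) + L2 (z - x)
  have hL1 : ∀ w, L1 w = (((conj u * w).im : ℝ) : ℂ) := fun w => by simp [L1]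
  have hL2 : ∀ w, L2 w = (((β * w).re : ℝ) : ℂ) := fun w => by simp [L2]
  have hder : HasStrictFDerivAt Ψ ((mulE β hβ0 : ℂ ≃L[ℝ] ℂ) : ℂ →L[ℝ] ℂ) x := by
    have h1 : HasStrictFDerivAt (fun z => L1 (hp p q z)) (L1.comp (dh p q x)) x :=
      L1.hasStrictFDerivAt.comp x (hasStrictFDerivAt_hp p q x)
    have h2 : HasStrictFDerivAt (fun z => L2 (z - x)) (L2.comp (ContinuousLinearMap.id ℝ ℂ)) x :=
      L2.hasStrictFDerivAt.comp x ((hasStrictFDerivAt_id x).sub_const x)
    have h3 := (h1.const_mul Complex.I).add h2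
    refine h3.congr_fderiv ?_
    ext1
    · simp only [add_apply, smul_apply,
        ContinuousLinearMap.comp_apply, ContinuousLinearMap.id_apply, mulE_apply, smul_eq_mul,
        hL1, hL2, hform]
      apply Complex.ext <;> simp
  have hΨ0 : Ψ x = 0 := by simp [Ψ, hx]
  let φ := hder.toOpenPartialHomeomorph Ψ
  have hφ : ∀ z, φ z = Ψ z := fun z => rfl
  have hxs : x ∈ φ.source := hder.mem_toOpenPartialHomeomorph_source
  have h0t : (0 : ℂ) ∈ φ.target := by
    have := hder.image_mem_toOpenPartialHomeomorph_target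
    rwa [hΨ0] at this
  have hsym0 : φ.symm 0 = x := by
    have := φ.left_inv hxs
    rwa [hφ, hΨ0] at this
  have hcont : ContinuousOn φ.symm φ.target := φ.continuousOn_symm
  have hcat : ContinuousAt φ.symm 0 := hcont.continuousAt (φ.open_target.mem_nhds h0t)
  have htend : Tendsto φ.symm (𝓝 0) (𝓝 x) := by
    have := hcat.tendsto
    rwa [hsym0] at this
  have hiso' : ∀ᶠ z in 𝓝 x, z ≠ x → hp p q z ≠ 0 := eventually_nhdsWithin_iff.mp hiso
  have hev : ∀ᶠ w in 𝓝 (0 : ℂ), w ∈ φ.target ∧ φ.symm w ∈ U ∧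
      (φ.symm w ≠ x → hp p q (φ.symm w) ≠ 0) :=
    Filter.Eventually.and (φ.open_target.mem_nhds h0t)
      (Filter.Eventually.and (htend.eventually hU) (htend.eventually hiso'))
  obtain ⟨ρ, hρ, hball⟩ := Metric.eventually_nhds_iff_ball.mp hev
  set s1 : ℝ := ρ / 2 with hs1
  have hs1pos : 0 < s1 := by positivity
  have hmem : ∀ s ∈ Icc (0 : ℝ) s1, ((s : ℝ) : ℂ) ∈ ball (0 : ℂ) ρ := by
    intro s hs
    rw [mem_ball_zero_iff, Complex.norm_real, Real.norm_eq_abs, abs_of_nonneg hs.1]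
    have := hs.2
    linarith
  let γ : ℝ → ℂ := fun s => φ.symm (s : ℂ)
  have hγΨ : ∀ s ∈ Icc (0 : ℝ) s1, Ψ (γ s) = (s : ℂ) := fun s hs =>
    φ.right_inv (hball _ (hmem s hs)).1
  have hγim : ∀ s ∈ Icc (0 : ℝ) s1, (conj u * hp p q (γ s)).im = 0 := by
    intro s hs
    have h := congrArg Complex.im (hγΨ s hs)
    simpa [Ψ, hL1, hL2] using h
  have hγre : ∀ s ∈ Icc (0 : ℝ) s1, (β * (γ s - x)).re = s := by
    intro s hs
    have h := congrArg Complex.re (hγΨ s hs)
    simpa [Ψ, hL1, hL2] using h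
  let r : ℝ → ℝ := fun s => (conj u * hp p q (γ s)).re / ‖u‖ ^ 2
  have hu2 : (‖u‖ : ℝ) ^ 2 ≠ 0 := by positivity
  have hr : ∀ s ∈ Icc (0 : ℝ) s1, hp p q (γ s) = (r s : ℂ) * u := by
    intro s hs
    have h1 : conj u * hp p q (γ s) = ((conj u * hp p q (γ s)).re : ℂ) := by
      apply Complex.ext
      · simp
      · rw [hγim s hs]; simp
    have h2 : (((‖u‖ : ℝ) ^ 2 : ℝ) : ℂ) = u * conj u := by
      rw [Complex.mul_conj, Complex.normSq_eq_norm_sq]
    have h3 : (((‖u‖ : ℝ) ^ 2 : ℝ) : ℂ) ≠ 0 := by exact_mod_cast hu2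
    have h4 : (r s : ℂ) * (((‖u‖ : ℝ) ^ 2 : ℝ) : ℂ) = conj u * hp p q (γ s) := by
      rw [h1]
      have : r s * ‖u‖ ^ 2 = (conj u * hp p q (γ s)).re := by
        simp only [r]
        field_simp
      exact_mod_cast this
    have hcu : conj u ≠ 0 := by simpa using hu0
    apply mul_left_cancel₀ hcu
    rw [← h4, h2]
    ring
  have hγcont : ContinuousOn γ (Icc 0 s1) :=
    hcont.comp Complex.continuous_ofReal.continuousOn (fun s hs => (hball _ (hmem s hs)).1)
  have hhc : Continuous (hp p q) := by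
    unfold hp
    fun_prop
  have hrcont : ContinuousOn r (Icc 0 s1) := by
    refine ContinuousOn.div_const ?_ _
    exact Complex.continuous_re.comp_continuousOn
      (continuousOn_const.mul (hhc.comp_continuousOn hγcont))
  have hr0 : r 0 = 0 := by
    simp [r, γ, hsym0, hx]
  have hs1mem : s1 ∈ Icc (0 : ℝ) s1 := ⟨hs1pos.le, le_rfl⟩
  have hr1 : r s1 ≠ 0 := by
    intro h0
    have hne : γ s1 ≠ x := by
      intro h
      have := hγre s1 hs1mem
      rw [h] at this
      simp at this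
      exact hs1pos.ne this
    exact (hball _ (hmem s1 hs1mem)).2.2 hne (by
      have := hr s1 hs1mem
      rw [h0] at this
      simpa using this)
  rcases lt_or_gt_of_ne hr1 with hneg | hpos
  · right
    refine ⟨-r s1, by linarith, fun ε hε hε2 => ?_⟩
    obtain ⟨s, hs, hse⟩ := intermediate_value_Icc' hs1pos.le hrcont
      (show -ε ∈ Icc (r s1) (r 0) by rw [hr0]; constructor <;> linarith)
    refine ⟨γ s, (hball _ (hmem s hs)).2.1, ?_⟩
    rw [hr s hs, hse]
    push_cast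
    ring
  · left
    refine ⟨r s1, hpos, fun ε hε hε2 => ?_⟩
    obtain ⟨s, hs, hse⟩ := intermediate_value_Icc hs1pos.le hrcont
      (show ε ∈ Icc (r 0) (r s1) by rw [hr0]; constructor <;> linarith)
    exact ⟨γ s, (hball _ (hmem s hs)).2.1, by rw [hr s hs, hse]⟩

end Pool.Agent.HZ
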