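import Pool.Agent.H.MP_cd3d06_an.L.Sard
import Pool.Agent.H.MP_cd3d06_an.L.Persist

/-! MP_cd3d06_an, module Reduce: reduction to regular polynomials -/

open Polynomial Metric Set Filter Topology MeasureTheory
open scoped ComplexConjugate

namespace Pool.Agent.HZ

private theorem hp_add_C (p q : ℂ[X]) (c z : ℂ) : hp (p + C c) q z = hp p q z + c := by
  simp only [hp, eval_add, eval_C]
  ring

/-- counting the zeros of one type -/
private theorem count_type {p q : ℂ[X]} (hpq : q.natDegree < p.natDegree) (B : ℕ)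
    (hB : ∀ c : ℂ, Reg (p + C c) q → {z | hp (p + C c) q z = 0}.ncard ≤ B)
    {A : Set ℂ} {U : ℂ → Set ℂ} (hU : A.PairwiseDisjoint U) {w : ℂ}
    (hw : ∀ z : ℂ, hp p q z = w → ‖(derivative p).eval z‖ ≠ ‖(derivative q).eval z‖)
    (hA : ∀ x ∈ A, ∃ z ∈ U x, hp p q z = w) : A.ncard ≤ B := by
  have hz : ∀ z, hp (p + C (-w)) q z = 0 ↔ hp p q z = w := by
    intro z
    rw [hp_add_C, ← sub_eq_add_neg, sub_eq_zero]
  have hreg : Reg (p + C (-w)) q := by
    intro z h0
    rw [derivative_add, derivative_C, add_zero]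
    exact hw z ((hz z).1 h0)
  have hfin : {z | hp (p + C (-w)) q z = 0}.Finite :=
    finite_zeros_of_reg (by rw [natDegree_add_C]; exact hpq) hreg
  choose! f hf1 hf2 using hA
  refine (ncard_le_ncard_of_injOn f ?_ ?_ hfin).trans (hB _ hreg)
  · intro x hx
    exact (hz _).2 (hf2 x hx)
  · intro x hx y hy hxy
    by_contra hne
    have := hU hx hy hne
    exact Set.disjoint_left.1 this (hf1 x hx) (by rw [hxy]; exact hf1 y hy)

theorem reduce {p q : ℂ[X]} (hq : 1 ≤ q.natDegree) (hpq : q.natDegree < p.natDegree)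
    (hfin : {z | hp p q z = 0}.Finite) (B : ℕ)
    (hB : ∀ c : ℂ, Reg (p + C c) q → {z | hp (p + C c) q z = 0}.ncard ≤ B) :
    {z | hp p q z = 0}.ncard ≤ 2 * B + q.natDegree := by
  set Z := {z | hp p q z = 0} with hZ
  have hq' : derivative q ≠ 0 := by
    intro h
    have := derivative_eq_zero.1 h
    omega
  -- zeros which are critical points of `q`
  have hZ0 : (Z ∩ {z | (derivative q).eval z = 0}).ncard ≤ q.natDegree := by
    have h1 : (Z ∩ {z | (derivative q).eval z = 0}) ⊆ ((derivative q).roots.toFinset : Set ℂ) := by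
      intro z hz
      simp only [Finset.mem_coe, Multiset.mem_toFinset]
      exact (mem_roots hq').2 hz.2
    have h2 := ncard_le_ncard h1 (Finset.finite_toSet _)
    rw [ncard_coe_finset] at h2
    have h3 := Multiset.toFinset_card_le (derivative q).roots
    have h4 := card_roots' (derivative q)
    have h5 := natDegree_derivative_le q
    omega
  have hF : ((fun x => dh p q x 1) '' Z ∪ (fun x => dh p q x Complex.I) '' Z).Finite :=
    (hfin.image _).union (hfin.image _)
  obtain ⟨u, hu0, huF, hur⟩ := exists_dir p q hF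
  obtain ⟨U, hU1, hU2⟩ := hfin.t2_separation
  have hiso : ∀ x, ∀ᶠ z in 𝓝[≠] x, hp p q z ≠ 0 := by
    intro x
    have h1 : (Z \ {x})ᶜ ∈ 𝓝 x := (hfin.subset sdiff_subset).isClosed.isOpen_compl.mem_nhds
      (by simp)
    rw [eventually_nhdsWithin_iff]
    filter_upwards [h1] with z hz hne h0
    exact hz ⟨h0, hne⟩
  have hdir : ∀ x ∈ Z, (derivative q).eval x ≠ 0 → ∃ v : ℂ, (conj u * dh p q x v).im ≠ 0 := by
    intro x hx hqx
    have h1 : dh p q x 1 = (derivative p).eval x + conj ((derivative q).eval x) := by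
      rw [dh_apply]; simp
    have h2 : dh p q x Complex.I =
        Complex.I * ((derivative p).eval x - conj ((derivative q).eval x)) := by
      rw [dh_apply, map_mul, Complex.conj_I]; ring
    by_cases h3 : dh p q x 1 = 0
    · refine ⟨Complex.I, huF _ (Or.inr ⟨x, hx, rfl⟩) ?_⟩
      intro h4
      rw [h2] at h4
      rw [h1] at h3
      have h5 : (derivative p).eval x - conj ((derivative q).eval x) = 0 := by
        rcases mul_eq_zero.1 h4 with h | h
        · exact absurd h Complex.I_ne_zero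
        · exact h
      have h6 : conj ((derivative q).eval x) = 0 := by linear_combination (h3 - h5) / 2
      exact hqx ((map_eq_zero _).1 h6)
    · exact ⟨1, huF _ (Or.inl ⟨x, hx, rfl⟩) h3⟩
  set Ap := {x | x ∈ Z ∧ ∃ δ > 0, ∀ ε : ℝ, 0 < ε → ε < δ → ∃ z ∈ U x, hp p q z = ε * u} with hAp
  set Am := {x | x ∈ Z ∧ ∃ δ > 0, ∀ ε : ℝ, 0 < ε → ε < δ → ∃ z ∈ U x, hp p q z = -(ε * u)}
    with hAm
  have hApfin : Ap.Finite := hfin.subset fun x hx => hx.1
  have hAmfin : Am.Finite := hfin.subset fun x hx => hx.1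
  have hcover : Z ⊆ (Z ∩ {z | (derivative q).eval z = 0}) ∪ (Ap ∪ Am) := by
    intro x hx
    by_cases hqx : (derivative q).eval x = 0
    · exact Or.inl ⟨hx, hqx⟩
    · right
      rcases persist hx (hiso x) (hdir x hx hqx) ((hU1 x).2.mem_nhds (hU1 x).1) with h | h
      · exact Or.inl ⟨hx, h⟩
      · exact Or.inr ⟨hx, h⟩
  have hev : ∀ᶠ ε : ℝ in 𝓝[>] 0, (∀ x ∈ Ap, ∃ z ∈ U x, hp p q z = ε * u) ∧
      (∀ x ∈ Am, ∃ z ∈ U x, hp p q z = -(ε * u)) := by
    refine Filter.Eventually.and ?_ ?_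
    · rw [eventually_all_finite hApfin]
      rintro x ⟨_, δ, hδ, h⟩
      filter_upwards [Ioo_mem_nhdsGT hδ] with ε hε
      exact h ε hε.1 hε.2
    · rw [eventually_all_finite hAmfin]
      rintro x ⟨_, δ, hδ, h⟩
      filter_upwards [Ioo_mem_nhdsGT hδ] with ε hε
      exact h ε hε.1 hε.2
  obtain ⟨δ, hδ, hδ'⟩ := mem_nhdsGT_iff_exists_Ioo_subset.1 hev
  obtain ⟨ε, hε0, hε1, hε2⟩ := hur δ hδ
  have hε3 := hδ' ⟨hε0, hε1⟩
  have hp1 : Ap.ncard ≤ B := count_type hpq B hB (hU2.subset fun x hx => hx.1)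
    (fun z hz => hε2 z (Or.inl hz)) hε3.1
  have hm1 : Am.ncard ≤ B := count_type hpq B hB (hU2.subset fun x hx => hx.1)
    (fun z hz => hε2 z (Or.inr hz)) hε3.2
  have hZ0fin : (Z ∩ {z | (derivative q).eval z = 0}).Finite := hfin.subset inter_subset_left
  have h1 := ncard_le_ncard hcover (hZ0fin.union (hApfin.union hAmfin))
  have h2 := ncard_union_le (Z ∩ {z | (derivative q).eval z = 0}) (Ap ∪ Am)
  have h3 := ncard_union_le Ap Am
  omega

end Pool.Agent.HZ
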