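import Pool.Agent.H.MP_cd3d06_an.UpperGeneral
import Pool.Agent.H.MP_cd3d06_an.L.Attract
import Pool.Agent.H.MP_cd3d06_an.L.Degree
import Pool.Agent.H.MP_cd3d06_an.L.Reduce

/-! MP_cd3d06_an, module Final: the linear bound. -/

open Polynomial Metric Set Filter Topology
open scoped ComplexConjugate

namespace Pool.Agent.HZ

theorem linear_bound (m : ℕ) (hm : 1 ≤ m) : ∃ A : ℕ, ∀ p q : ℂ[X], q.natDegree = m →
    m < p.natDegree → {z | hp p q z = 0}.Finite ∧
      {z | hp p q z = 0}.ncard ≤ A * p.natDegree := by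
  obtain ⟨A, hA⟩ := attract m hm
  refine ⟨4 * A + 3, fun p q hq hpq => ?_⟩
  have hfin : ∀ p' : ℂ[X], p'.natDegree = p.natDegree → {z | hp p' q z = 0}.Finite := by
    intro p' hp'
    have := (Pool.Agent.H.MP_cd3d06_an.upper_one (p := p') (q := q) hp' hq hm (by omega)).1
    exact this
  refine ⟨hfin p rfl, ?_⟩
  have hreg : ∀ c : ℂ, Reg (p + C c) q →
      {z | hp (p + C c) q z = 0}.ncard ≤ (2 * A + 1) * p.natDegree := by
    intro c hr
    have hdeg : (p + C c).natDegree = p.natDegree := natDegree_add_C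
    have h1 := degree_eq (p := p + C c) (q := q) (by rw [hdeg, hq]; exact hpq) hr
    have h2 := (hA (p + C c) q hq (by rw [hdeg]; exact hpq)).2
    rw [hdeg] at h1 h2
    have h3 : {z | hp (p + C c) q z = 0} ⊆ Zp (p + C c) q ∪ Zm (p + C c) q := by
      intro z hz
      rcases lt_trichotomy ‖(derivative (p + C c)).eval z‖ ‖(derivative q).eval z‖ with h | h | h
      · exact Or.inr ⟨hz, h⟩
      · exact absurd h (hr z hz)
      · exact Or.inl ⟨hz, h⟩
    have hf := hfin (p + C c) hdeg
    have hfZ : (Zp (p + C c) q ∪ Zm (p + C c) q).Finite := by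
      apply hf.subset
      rintro z (hz | hz) <;> exact hz.1
    have h4 : (Zm (p + C c) q).ncard ≤ A * p.natDegree := h2
    calc {z | hp (p + C c) q z = 0}.ncard ≤ (Zp (p + C c) q ∪ Zm (p + C c) q).ncard :=
          ncard_le_ncard h3 hfZ
      _ ≤ (Zp (p + C c) q).ncard + (Zm (p + C c) q).ncard := ncard_union_le _ _
      _ ≤ (2 * A + 1) * p.natDegree := by rw [h1]; nlinarith
  have h := reduce (by omega) (by omega) (hfin p rfl) _ hreg
  nlinarith
  
end Pool.Agent.HZ
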