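import Pool.Agent.H.MP_cd3d06_an.L.LemB
import Pool.Agent.H.MP_cd3d06_an.L.Bloch

/-! MP_cd3d06_an, module Growth: growth of the logarithmic derivatives -/

open Polynomial Metric Set Filter Topology
open scoped ComplexConjugate

namespace Pool.Agent.HZ

theorem Lin.growth {p q : ℂ[X]} {x : ℂ} (X : Lin p q x) (hm : 1 ≤ q.natDegree) {y G : ℝ}
    (hG : 0 ≤ G) (hy : 2 * X.om < y) (hB : X.Bound y G) :
    X.Bound (y - X.om / 2)
      (96 * Real.pi * (2 / X.om + 8 * q.natDegree * G + 1)) := by
  intro c hc v hv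
  have hom := X.om_pos
  have hm' : (1 : ℝ) ≤ q.natDegree := by exact_mod_cast hm
  set D : ℝ := 2 / X.om + 8 * q.natDegree * G + 1 with hD
  have hD1 : 1 ≤ D := by
    have : 0 ≤ 2 / X.om + 8 * q.natDegree * G := by positivity
    linarith
  have hD0 : 0 < D := by linarith
  set r : ℝ := 1 / D with hr
  have hr0 : 0 < r := by positivity
  have hrD : r * D = 1 := by
    rw [hr]
    field_simp
  have hr1 : r ≤ 1 := by
    rw [hr, div_le_one hD0]
    exact hD1
  have hr2 : r ≤ X.om / 2 := by
    have h1 : 2 / X.om ≤ D := by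
      have : 0 ≤ 8 * (q.natDegree : ℝ) * G := by positivity
      linarith
    have h2 : r * (2 / X.om) ≤ 1 := by
      rw [← hrD]
      exact mul_le_mul_of_nonneg_left h1 hr0.le
    have h3 : r * (2 / X.om) = 2 * r / X.om := by ring
    rw [h3, div_le_one hom] at h2
    linarith
  have hr3 : 8 * q.natDegree * G * r ≤ 1 := by
    have h1 : 8 * q.natDegree * G ≤ D := by
      have : 0 ≤ 2 / X.om := by positivity
      linarith
    calc 8 * q.natDegree * G * r ≤ D * r := mul_le_mul_of_nonneg_right h1 hr0.le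
      _ = 1 := by rw [mul_comm]; exact hrD
  have hre : ∀ u ∈ ball v r, u.re ≤ -(y - X.om) := by
    intro u hu
    rw [mem_ball, dist_eq_norm] at hu
    have h1 : |(u - v).re| ≤ ‖u - v‖ := Complex.abs_re_le_norm _
    have h2 : (u - v).re ≤ r := (le_abs_self _).trans (h1.trans hu.le)
    rw [Complex.sub_re] at h2
    linarith
  have hinj : ∀ u ∈ ball v r, ∀ u' ∈ ball v r, X.f u = X.f u' → u = u' := by
    intro u hu u' hu' h
    have hdist : ‖u - u'‖ < 2 * r := by
      rw [mem_ball, dist_eq_norm] at hu hu'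
      have h1 : u - u' = (u - v) - (u' - v) := by ring
      rw [h1]
      exact lt_of_le_of_lt (norm_sub_le _ _) (by linarith)
    have hd : G * ‖u - u'‖ ≤ 1 / (4 * q.natDegree) := by
      rw [le_div_iff₀ (by positivity)]
      calc G * ‖u - u'‖ * (4 * q.natDegree) ≤ G * (2 * r) * (4 * q.natDegree) := by gcongr
        _ = 8 * q.natDegree * G * r := by ring
        _ ≤ 1 := hr3
    have hB' : X.Bound ((y - X.om) + X.om) G := by
      rw [sub_add_cancel]
      exact hB
    obtain ⟨k, hk⟩ := X.lemB hm (y := y - X.om) (by linarith) hB' (hre u hu) (hre u' hu') hd h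
    have hk0 : k = 0 := by
      by_contra hk0
      have h1 : ‖u - u'‖ = 2 * Real.pi * |(k : ℝ)| := by
        rw [hk]
        have : u - (u + 2 * Real.pi * k * Complex.I) = -(2 * Real.pi * k * Complex.I) := by ring
        rw [this, norm_neg, norm_mul, Complex.norm_I, mul_one, norm_mul, norm_mul,
          Complex.norm_two, Complex.norm_real, Real.norm_of_nonneg Real.pi_pos.le,
          Complex.norm_intCast]
      have h2 : (1 : ℝ) ≤ |(k : ℝ)| := by
        have := Int.one_le_abs hk0
        exact_mod_cast this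
      have h3 : 2 * Real.pi * 1 ≤ 2 * Real.pi * |(k : ℝ)| :=
        mul_le_mul_of_nonneg_left h2 (by positivity)
      have := Real.pi_gt_three
      linarith
    rw [hk, hk0]
    simp
  obtain ⟨F, hF1, hF2, -, -⟩ := X.exists_F hc
  have hre' : ∀ u ∈ ball v r, u.re < -X.om := by
    intro u hu
    have := hre u hu
    linarith
  have hdiff : DifferentiableOn ℂ F (ball v r) := fun u hu =>
    (hF1 u (hre' u hu)).differentiableAt.differentiableWithinAt
  have hderiv : deriv F v = X.ld c v := (hF1 v (hre' v (mem_ball_self hr0))).deriv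
  obtain ⟨w, hw⟩ := bloch hr0 hdiff
  rw [hderiv] at hw
  by_contra hcon
  push Not at hcon
  have hlarge : Real.pi < r * ‖X.ld c v‖ / 96 := by
    have h1 : r * (96 * Real.pi * D) < r * ‖X.ld c v‖ := mul_lt_mul_of_pos_left hcon hr0
    have h2 : r * (96 * Real.pi * D) = 96 * Real.pi := by
      calc r * (96 * Real.pi * D) = 96 * Real.pi * (r * D) := by ring
        _ = 96 * Real.pi := by rw [hrD, mul_one]
    rw [lt_div_iff₀ (by norm_num)]
    linarith
  have hnorm : ‖(Real.pi : ℂ) * Complex.I‖ = Real.pi := by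
    rw [norm_mul, Complex.norm_I, mul_one, Complex.norm_real, Real.norm_of_nonneg Real.pi_pos.le]
  have hw1 : w + Real.pi * Complex.I ∈ F '' ball v r := by
    apply hw
    rw [mem_ball, dist_eq_norm, add_sub_cancel_left, hnorm]
    exact hlarge
  have hw2 : w - Real.pi * Complex.I ∈ F '' ball v r := by
    apply hw
    rw [mem_ball, dist_eq_norm, sub_sub_cancel_left, norm_neg, hnorm]
    exact hlarge
  obtain ⟨u, hu, hFu⟩ := hw1
  obtain ⟨u', hu', hFu'⟩ := hw2
  have hexp : Complex.exp (F u) = Complex.exp (F u') := by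
    rw [hFu, hFu']
    have : w + Real.pi * Complex.I = (w - Real.pi * Complex.I) + 2 * Real.pi * Complex.I := by ring
    rw [this, Complex.exp_periodic]
  rw [hF2 u (hre' u hu), hF2 u' (hre' u' hu')] at hexp
  have huu : u = u' := hinj u hu u' hu' (sub_left_injective hexp)
  rw [huu] at hFu
  have h0 : (Real.pi : ℂ) * Complex.I = 0 := by
    have h1 := hFu.symm.trans hFu'
    have h2 : 2 * ((Real.pi : ℂ) * Complex.I) = 0 := by
      linear_combination h1
    simp at h2
  rw [h0, norm_zero] at hnorm
  exact Real.pi_pos.ne hnorm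

end Pool.Agent.HZ
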