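import Pool.Agent.H.MP_cd3d06_an.L.Defs

/-! MP_cd3d06_an, module Koenigs: local linearization (Koenigs) -/

open Polynomial Metric Set Filter Topology
open scoped ComplexConjugate

namespace Pool.Agent.HZ

/-- local inverse of an analytic function of one variable -/
private lemma exists_inv {f : ℂ → ℂ} {a : ℂ} (hf : AnalyticAt ℂ f a) (hf' : deriv f a ≠ 0) :
    ∃ g : ℂ → ℂ, AnalyticAt ℂ g (f a) ∧ g (f a) = a ∧ (∀ᶠ z in 𝓝 a, g (f z) = z) ∧
      (∀ᶠ w in 𝓝 (f a), f (g w) = w) ∧ HasDerivAt g (deriv f a)⁻¹ (f a) :=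
  ⟨hf.hasStrictDerivAt.localInverse _ _ _ hf', hf.analyticAt_localInverse hf',
    HasStrictFDerivAt.localInverse_apply_image .., HasStrictDerivAt.eventually_left_inverse ..,
    HasStrictDerivAt.eventually_right_inverse ..,
    (hf.hasStrictDerivAt.to_localInverse hf').hasDerivAt⟩

/-- `|H t - H'(0) t| ≤ C |t|²` near `0` -/
private lemma second_order {H : ℂ → ℂ} (hH : AnalyticAt ℂ H 0) (hH0 : H 0 = 0) :
    ∃ C > 0, ∀ᶠ t in 𝓝 (0 : ℂ), ‖H t - deriv H 0 * t‖ ≤ C * ‖t‖ ^ 2 := by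
  obtain ⟨P, hP⟩ := hH
  have hd : DifferentiableAt ℂ (dslope H 0) 0 :=
    (hP.has_fpower_series_dslope_fslope).differentiableAt
  have hO := hd.hasDerivAt.isBigO_sub
  obtain ⟨C, hC, hCb⟩ := hO.exists_pos
  refine ⟨C, hC, ?_⟩
  filter_upwards [hCb.bound] with t ht
  have h1 : H t - deriv H 0 * t = t * (dslope H 0 t - dslope H 0 0) := by
    have h2 := sub_smul_dslope H 0 t
    rw [hH0, sub_zero, sub_zero, smul_eq_mul] at h2
    rw [mul_sub, h2, dslope_same]
    ring
  rw [h1, norm_mul]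
  calc ‖t‖ * ‖dslope H 0 t - dslope H 0 0‖ ≤ ‖t‖ * (C * ‖t - 0‖) := by gcongr
    _ = C * ‖t‖ ^ 2 := by rw [sub_zero]; ring

/-- Koenigs' sequence -/
private noncomputable def kph (lam : ℝ) (H : ℂ → ℂ) : ℕ → ℂ → ℂ
  | 0, t => t
  | k + 1, t => (lam : ℂ)⁻¹ * conj (kph lam H k (conj (H t)))

private lemma koenigs {lam : ℝ} (h0 : 0 < lam) (h1 : lam < 1) {H : ℂ → ℂ}
    (hH : AnalyticAt ℂ H 0) (hH0 : H 0 = 0) (hH1 : deriv H 0 = lam) :
    ∃ phi : ℂ → ℂ, AnalyticAt ℂ phi 0 ∧ phi 0 = 0 ∧ deriv phi 0 = 1 ∧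
      ∀ᶠ t in 𝓝 (0 : ℂ), phi (conj (H t)) = lam * conj (phi t) := by
  obtain ⟨C, hC, hCb⟩ := second_order hH hH0
  rw [hH1] at hCb
  have hsq : lam < Real.sqrt lam := by
    apply Real.lt_sqrt_of_sq_lt
    nlinarith
  obtain ⟨lam', hl1, hl2⟩ := exists_between hsq
  have hl0 : 0 < lam' := h0.trans hl1
  have hl3 : lam' ^ 2 < lam := by
    have h2 := Real.sq_sqrt h0.le
    have h3 := Real.sqrt_nonneg lam
    nlinarith
  have hl4 : lam' < 1 := by nlinarith
  -- the radius
  have hlin : ∀ᶠ t in 𝓝 (0 : ℂ), C * ‖t‖ ≤ lam' - lam := by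
    have h2 : Tendsto (fun t : ℂ => C * ‖t‖) (𝓝 0) (𝓝 (C * ‖(0 : ℂ)‖)) :=
      (continuous_const.mul continuous_norm).tendsto 0
    rw [norm_zero, mul_zero] at h2
    exact (h2.eventually_lt_const (sub_pos.2 hl1)).mono fun t ht => ht.le
  obtain ⟨r, hr, hball⟩ := Metric.eventually_nhds_iff_ball.1
    ((hCb.and hlin).and (hH.eventually_analyticAt))
  have hb1 : ∀ t ∈ ball (0 : ℂ) r, ‖H t - lam * t‖ ≤ C * ‖t‖ ^ 2 := fun t ht => (hball t ht).1.1
  have hb2 : ∀ t ∈ ball (0 : ℂ) r, ‖H t‖ ≤ lam' * ‖t‖ := by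
    intro t ht
    have h2 := (hball t ht).1.2
    have h3 : ‖(lam : ℂ) * t‖ = lam * ‖t‖ := by
      rw [norm_mul, Complex.norm_real, Real.norm_of_nonneg h0.le]
    calc ‖H t‖ = ‖(H t - lam * t) + lam * t‖ := by ring_nf
      _ ≤ ‖H t - lam * t‖ + ‖(lam : ℂ) * t‖ := norm_add_le _ _
      _ ≤ C * ‖t‖ ^ 2 + lam * ‖t‖ := by rw [h3]; gcongr; exact hb1 t ht
      _ ≤ lam' * ‖t‖ := by nlinarith [norm_nonneg t, mul_le_mul_of_nonneg_right h2 (norm_nonneg t)]
  have hmaps : ∀ t ∈ ball (0 : ℂ) r, conj (H t) ∈ ball (0 : ℂ) r := by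
    intro t ht
    rw [mem_ball_zero_iff] at ht ⊢
    rw [Complex.norm_conj]
    have h2 := hb2 t (mem_ball_zero_iff.2 ht)
    nlinarith [norm_nonneg t]
  have hdiffH : ∀ t ∈ ball (0 : ℂ) r, DifferentiableAt ℂ H t := fun t ht =>
    (hball t ht).2.differentiableAt
  -- the sequence
  have hdk : ∀ k, ∀ t ∈ ball (0 : ℂ) r, DifferentiableAt ℂ (kph lam H k) t := by
    intro k
    induction k with
    | zero => intro t _; exact differentiableAt_id
    | succ k ih =>
      intro t ht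
      have h2 : DifferentiableAt ℂ (conj ∘ (kph lam H k) ∘ conj) (H t) := by
        rw [differentiableAt_conj_conj_iff]
        exact ih _ (hmaps t ht)
      exact (DifferentiableAt.comp t h2 (hdiffH t ht)).const_mul _
  set rho : ℝ := lam' ^ 2 / lam with hrho
  have hrho0 : 0 ≤ rho := by positivity
  have hrho1 : rho < 1 := (div_lt_one h0).2 hl3
  have hnl : ‖((lam : ℂ))⁻¹‖ = lam⁻¹ := by
    rw [norm_inv, Complex.norm_real, Real.norm_of_nonneg h0.le]
  have hbk : ∀ k, ∀ t ∈ ball (0 : ℂ) r,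
      ‖kph lam H (k + 1) t - kph lam H k t‖ ≤ (C / lam * ‖t‖ ^ 2) * rho ^ k := by
    intro k
    induction k with
    | zero =>
      intro t ht
      have h2 : kph lam H (0 + 1) t - kph lam H 0 t = (lam : ℂ)⁻¹ * (H t - lam * t) := by
        have h3 : (lam : ℂ) ≠ 0 := by exact_mod_cast h0.ne'
        simp only [kph, Complex.conj_conj]
        field_simp
      rw [h2, norm_mul, hnl, pow_zero, mul_one]
      calc lam⁻¹ * ‖H t - lam * t‖ ≤ lam⁻¹ * (C * ‖t‖ ^ 2) := by gcongr; exact hb1 t ht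
        _ = C / lam * ‖t‖ ^ 2 := by ring
    | succ k ih =>
      intro t ht
      have h2 : kph lam H (k + 1 + 1) t - kph lam H (k + 1) t =
          (lam : ℂ)⁻¹ * conj (kph lam H (k + 1) (conj (H t)) - kph lam H k (conj (H t))) := by
        simp only [kph, map_sub, map_mul]
        ring
      rw [h2, norm_mul, hnl, Complex.norm_conj]
      calc lam⁻¹ * ‖kph lam H (k + 1) (conj (H t)) - kph lam H k (conj (H t))‖
          ≤ lam⁻¹ * ((C / lam * ‖conj (H t)‖ ^ 2) * rho ^ k) := by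
            gcongr; exact ih _ (hmaps t ht)
        _ ≤ lam⁻¹ * ((C / lam * (lam' * ‖t‖) ^ 2) * rho ^ k) := by
            rw [Complex.norm_conj]; gcongr; exact hb2 t ht
        _ = (C / lam * ‖t‖ ^ 2) * rho ^ (k + 1) := by
            have h5 : lam' ^ 2 = rho * lam := by rw [hrho]; field_simp
            rw [mul_pow, h5]; field_simp; ring
  have hsumg : ∀ A : ℝ, HasSum (fun k : ℕ => A * rho ^ k) (A * (1 - rho)⁻¹) := fun A =>
    (hasSum_geometric_of_lt_one hrho0 hrho1).mul_left A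
  set S : ℂ → ℂ := fun t => ∑' k : ℕ, (kph lam H (k + 1) t - kph lam H k t) with hS
  have hSd : DifferentiableOn ℂ S (ball 0 r) := by
    refine Complex.differentiableOn_tsum_of_summable_norm (u := fun k : ℕ => (C / lam * r ^ 2) * rho ^ k)
      (hsumg _).summable ?_ isOpen_ball ?_
    · intro k t ht
      exact ((hdk (k + 1) t ht).sub (hdk k t ht)).differentiableWithinAt
    · intro k t ht
      refine (hbk k t ht).trans ?_
      have h2 : ‖t‖ ≤ r := (mem_ball_zero_iff.1 ht).le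
      gcongr
  have hSb : ∀ t ∈ ball (0 : ℂ) r, ‖S t‖ ≤ (C / lam * (1 - rho)⁻¹) * ‖t‖ ^ 2 := by
    intro t ht
    have h2 := tsum_of_norm_bounded (hsumg (C / lam * ‖t‖ ^ 2)) (fun k => hbk k t ht)
    calc ‖S t‖ ≤ C / lam * ‖t‖ ^ 2 * (1 - rho)⁻¹ := h2
      _ = _ := by ring
  have hlim : ∀ t ∈ ball (0 : ℂ) r,
      Tendsto (fun k => kph lam H k t) atTop (𝓝 (t + S t)) := by
    intro t ht
    have hsm : Summable (fun k : ℕ => kph lam H (k + 1) t - kph lam H k t) :=
      Summable.of_norm_bounded (hsumg (C / lam * ‖t‖ ^ 2)).summable (fun k => hbk k t ht)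
    have h2 := hsm.hasSum.tendsto_sum_nat
    have h3 : ∀ k, ∑ i ∈ Finset.range k, (kph lam H (i + 1) t - kph lam H i t) =
        kph lam H k t - t := fun k => by
      rw [Finset.sum_range_sub (fun i => kph lam H i t)]; rfl
    simp only [h3] at h2
    have h4 := h2.const_add t
    simpa using h4
  refine ⟨fun t => t + S t, ?_, ?_, ?_, ?_⟩
  · have h2 : AnalyticAt ℂ S 0 := hSd.analyticAt (ball_mem_nhds 0 hr)
    exact analyticAt_id.add h2
  · have h2 := hSb 0 (mem_ball_self hr)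
    rw [norm_zero] at h2
    have h3 : S 0 = 0 := by
      rw [← norm_le_zero_iff]; simpa using h2
    simp [h3]
  · have hO : S =O[𝓝 0] fun t => ‖t - 0‖ ^ 2 := by
      refine Asymptotics.IsBigO.of_bound (C / lam * (1 - rho)⁻¹) ?_
      filter_upwards [ball_mem_nhds (0 : ℂ) hr] with t ht
      simpa using hSb t ht
    have h2 : HasFDerivAt S (0 : ℂ →L[ℂ] ℂ) 0 := hO.hasFDerivAt one_lt_two
    have h3 : HasDerivAt S 0 0 := by
      have := h2.hasDerivAt
      simpa using this
    have h4 : HasDerivAt (fun t => t + S t) (1 + 0) 0 := (hasDerivAt_id (0 : ℂ)).add h3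
    rw [h4.deriv, add_zero]
  · filter_upwards [ball_mem_nhds (0 : ℂ) hr] with t ht
    have h2 := (hlim t ht).comp (tendsto_add_atTop_nat 1)
    have h3 := hlim _ (hmaps t ht)
    have h4 : Tendsto (fun k => (lam : ℂ)⁻¹ * conj (kph lam H k (conj (H t)))) atTop
        (𝓝 ((lam : ℂ)⁻¹ * conj (conj (H t) + S (conj (H t))))) :=
      ((Complex.continuous_conj.tendsto _).comp h3).const_mul _
    have h5 : t + S t = (lam : ℂ)⁻¹ * conj (conj (H t) + S (conj (H t))) :=
      tendsto_nhds_unique h2 h4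
    have h6 : (lam : ℂ) ≠ 0 := by exact_mod_cast h0.ne'
    show conj (H t) + S (conj (H t)) = lam * conj (t + S t)
    rw [h5, map_mul, Complex.conj_conj, map_inv₀, Complex.conj_ofReal, ← mul_assoc,
      mul_inv_cancel₀ h6, one_mul]

theorem exists_germ {p q : ℂ[X]} {x : ℂ} (hx : p.eval x = - conj (q.eval x))
    (hp : (derivative p).eval x ≠ 0)
    (hlt : ‖(derivative p).eval x‖ < ‖(derivative q).eval x‖) :
    ∃ lam : ℝ, 0 < lam ∧ lam < 1 ∧ ∃ r > 0, ∃ psi : ℂ → ℂ, DifferentiableOn ℂ psi (ball 0 r) ∧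
      psi 0 = x ∧ deriv psi 0 ≠ 0 ∧
      ∀ t ∈ ball (0 : ℂ) r, p.eval (psi t) = - conj (q.eval (psi (lam * conj t))) := by
  have hq : (derivative q).eval x ≠ 0 := by
    intro h
    rw [h, norm_zero] at hlt
    exact absurd (norm_nonneg _) (not_le.2 hlt)
  obtain ⟨lam, hlam⟩ : ∃ lam : ℝ, lam = ‖(derivative p).eval x‖ / ‖(derivative q).eval x‖ := ⟨_, rfl⟩
  have h0 : 0 < lam := by rw [hlam]; exact div_pos (norm_pos_iff.2 hp) (norm_pos_iff.2 hq)
  have h1 : lam < 1 := by rw [hlam]; exact (div_lt_one (norm_pos_iff.2 hq)).2 hlt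
  obtain ⟨e0, he0⟩ := IsAlgClosed.exists_pow_nat_eq
    (-(lam * conj ((derivative q).eval x) / (derivative p).eval x) : ℂ) (n := 2) two_pos
  have hqn : ‖(derivative q).eval x‖ ≠ 0 := norm_ne_zero_iff.2 hq
  have hpn : ‖(derivative p).eval x‖ ≠ 0 := norm_ne_zero_iff.2 hp
  have hn : ‖e0‖ = 1 := by
    have h2 : ‖e0‖ ^ 2 = 1 := by
      rw [← norm_pow, he0, norm_neg, norm_div, norm_mul, Complex.norm_real,
        Real.norm_of_nonneg h0.le, Complex.norm_conj, hlam]
      field_simp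
    exact (pow_eq_one_iff_of_nonneg (norm_nonneg _) two_ne_zero).1 h2
  have hee : e0 * conj e0 = 1 := by
    rw [Complex.mul_conj, Complex.normSq_eq_norm_sq, hn]; simp
  have he1 : e0 ≠ 0 := by
    intro h; rw [h, norm_zero] at hn; exact zero_ne_one hn
  -- the local inverse of `q`
  have hqa : AnalyticAt ℂ (fun z => q.eval z) x := q.differentiable.analyticAt x
  have hqd : deriv (fun z => q.eval z) x = (derivative q).eval x := q.deriv
  obtain ⟨g, hga, hgx, -, hright, hgd⟩ := exists_inv hqa (by rw [hqd]; exact hq)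
  rw [hqd] at hgd
  have hxc : conj (q.eval x) = - p.eval x := by rw [hx, neg_neg]
  have hxc' : conj (- p.eval x) = q.eval x := by rw [← hxc, Complex.conj_conj]
  have hgs : AnalyticAt ℂ (conj ∘ g ∘ conj) (- p.eval x) := by
    rw [Complex.analyticAt_iff_eventually_differentiableAt] at hga ⊢
    have h2 : Tendsto (fun w : ℂ => conj w) (𝓝 (- p.eval x)) (𝓝 (q.eval x)) := by
      have := Complex.continuous_conj.tendsto (- p.eval x)
      rwa [hxc'] at this
    filter_upwards [h2.eventually hga] with w hw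
    rw [differentiableAt_conj_conj_iff]
    exact hw
  have hgsd : HasDerivAt (conj ∘ g ∘ conj) (conj ((derivative q).eval x)⁻¹) (- p.eval x) := by
    have h2 := hgd.conj_conj
    rwa [hxc] at h2
  -- the germ
  obtain ⟨H, hHdef⟩ : ∃ H : ℂ → ℂ, H = fun t =>
      e0 * ((conj ∘ g ∘ conj) (-(p.eval (x + e0 * t))) - conj x) := ⟨_, rfl⟩
  have hin : AnalyticAt ℂ (fun t : ℂ => -(p.eval (x + e0 * t))) 0 := by
    have h2 : Differentiable ℂ (fun t : ℂ => -(p.eval (x + e0 * t))) :=
      (p.differentiable.comp ((differentiable_const x).add (differentiable_id.const_mul e0))).neg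
    exact h2.analyticAt 0
  have hin0 : -(p.eval (x + e0 * 0)) = - p.eval x := by simp
  have hHa : AnalyticAt ℂ H 0 := by
    rw [hHdef]
    refine AnalyticAt.mul analyticAt_const (AnalyticAt.sub ?_ analyticAt_const)
    have h2 : AnalyticAt ℂ (conj ∘ g ∘ conj) ((fun t : ℂ => -(p.eval (x + e0 * t))) 0) := by
      show AnalyticAt ℂ (conj ∘ g ∘ conj) (-(p.eval (x + e0 * 0)))
      rw [hin0]
      exact hgs
    exact AnalyticAt.fun_comp (f := fun t : ℂ => -(p.eval (x + e0 * t))) h2 hin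
  have hH0 : H 0 = 0 := by
    rw [hHdef]
    show e0 * (conj (g (conj (-(p.eval (x + e0 * 0))))) - conj x) = 0
    rw [hin0, hxc', hgx, sub_self, mul_zero]
  have hH1 : deriv H 0 = lam := by
    have h2 : HasDerivAt (fun t : ℂ => -(p.eval (x + e0 * t))) (-((derivative p).eval x * e0)) 0 := by
      have h3 : HasDerivAt (fun t : ℂ => x + e0 * t) e0 0 := by
        simpa using ((hasDerivAt_id (0 : ℂ)).const_mul e0).const_add x
      have h4 : HasDerivAt (fun z => p.eval z) ((derivative p).eval x) (x + e0 * 0) := by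
        simpa using p.hasDerivAt x
      exact (h4.comp 0 h3).neg
    have h5 : HasDerivAt (conj ∘ g ∘ conj) (conj ((derivative q).eval x)⁻¹)
        (-(p.eval (x + e0 * 0))) := by rw [hin0]; exact hgsd
    have h6 := ((h5.comp (0 : ℂ) h2).sub_const (conj x)).const_mul e0
    have h7 : deriv H 0 = e0 * (conj ((derivative q).eval x)⁻¹ * -((derivative p).eval x * e0)) := by
      rw [hHdef]
      exact h6.deriv
    rw [h7]
    have h8 : conj ((derivative q).eval x) ≠ 0 := by
      rwa [ne_eq, map_eq_zero]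
    rw [map_inv₀]
    have h9 : e0 ^ 2 * (derivative p).eval x = - (lam * conj ((derivative q).eval x)) := by
      rw [he0]; field_simp
    field_simp
    linear_combination -h9
  obtain ⟨phi, hpa, hp0, hp1, hfe⟩ := koenigs h0 h1 hHa hH0 hH1
  obtain ⟨chi, hca, hc0, hleft, hrt, hcd⟩ := exists_inv hpa (by rw [hp1]; exact one_ne_zero)
  rw [hp0] at hca hc0 hrt hcd
  rw [hp1, inv_one] at hcd
  have hct : Tendsto chi (𝓝 0) (𝓝 0) := by
    have := hca.continuousAt.tendsto
    rwa [hc0] at this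
  have hHt : Tendsto (fun t => conj (H t)) (𝓝 0) (𝓝 0) := by
    have h2 : Tendsto H (𝓝 0) (𝓝 0) := by
      have := hHa.continuousAt.tendsto
      rwa [hH0] at this
    have h3 := (Complex.continuous_conj.tendsto 0).comp h2
    rw [map_zero] at h3
    exact h3
  have hpt : Tendsto (fun t => - conj (p.eval (x + e0 * t))) (𝓝 0) (𝓝 (q.eval x)) := by
    have h2 : Continuous (fun t : ℂ => - conj (p.eval (x + e0 * t))) :=
      (Complex.continuous_conj.comp (p.continuous.comp
        (continuous_const.add (continuous_const.mul continuous_id)))).neg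
    have h3 := h2.tendsto 0
    have h4 : - conj (p.eval (x + e0 * 0)) = q.eval x := by
      rw [mul_zero, add_zero, ← hxc', map_neg]
    simpa only [h4] using h3
  have hev : ∀ᶠ t in 𝓝 (0 : ℂ), DifferentiableAt ℂ (fun t => x + e0 * chi t) t ∧
      p.eval (x + e0 * chi t) = - conj (q.eval (x + e0 * chi (lam * conj t))) := by
    have e1 : ∀ᶠ t in 𝓝 (0 : ℂ), DifferentiableAt ℂ (fun t => x + e0 * chi t) t := by
      filter_upwards [hca.eventually_analyticAt] with t ht
      exact (ht.differentiableAt.const_mul e0).const_add x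
    filter_upwards [e1, hrt, hct.eventually hfe, hct.eventually (hHt.eventually hleft),
      hct.eventually (hpt.eventually hright)] with t t1 t2 t3 t4 t5
    refine ⟨t1, ?_⟩
    rw [t2] at t3
    rw [t3] at t4
    rw [t4]
    have h2 : x + e0 * conj (H (chi t)) = g (- conj (p.eval (x + e0 * chi t))) := by
      rw [hHdef]
      simp only [Function.comp_apply, map_mul, map_sub, Complex.conj_conj, map_neg]
      rw [← mul_assoc, hee, one_mul]
      ring
    rw [h2, t5, map_neg, Complex.conj_conj, neg_neg]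
  obtain ⟨r, hr, hball⟩ := Metric.eventually_nhds_iff_ball.1 hev
  refine ⟨lam, h0, h1, r, hr, fun t => x + e0 * chi t, ?_, ?_, ?_, fun t ht => (hball t ht).2⟩
  · exact fun t ht => (hball t ht).1.differentiableWithinAt
  · simp [hc0]
  · have h2 : HasDerivAt (fun t => x + e0 * chi t) (e0 * 1) 0 := (hcd.const_mul e0).const_add x
    rw [h2.deriv, mul_one]
    exact he1

end Pool.Agent.HZ
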