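import Pool.Agent.H.MP_cd3d06_an.L.Basic
import Pool.Agent.H.MP_cd3d06_an.L.PolyA

/-! MP_cd3d06_an, module LemB: Lemma B: collisions are far apart -/

open Polynomial Metric Set Filter Topology
open scoped ComplexConjugate

namespace Pool.Agent.HZ

private theorem lemB_step {p q : ℂ[X]} {x : ℂ} (X : Lin p q x) (hm : 1 ≤ q.natDegree) {y G : ℝ}
    (hy : 0 < y) (hB : X.Bound (y + X.om) G) {u u' : ℂ} (hu : u.re ≤ -y) (hu' : u'.re ≤ -y)
    (hd : G * ‖u - u'‖ ≤ 1 / (4 * q.natDegree)) (h : X.f u = X.f u') :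
    X.f (X.S u) = X.f (X.S u') := by
  have hm' : (1 : ℝ) ≤ q.natDegree := by exact_mod_cast hm
  have h1 := X.fe_f (v := u) (by linarith)
  have h2 := X.fe_f (v := u') (by linarith)
  rw [h] at h1
  have h3 : q.eval (X.f (X.S u)) = q.eval (X.f (X.S u')) := by
    have h4 := h1.symm.trans h2
    exact (starRingEnd ℂ).injective (neg_injective h4)
  refine lemA hm (w := X.f (X.S u)) ?_ ?_ h3
  · intro c _
    rw [sub_self, norm_zero]
    positivity
  · intro c hc
    obtain ⟨F, hF1, hF2, -, -⟩ := X.exists_F hc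
    have hom := X.om_pos
    have hconv : Convex ℝ {v : ℂ | v.re ≤ -(y + X.om)} := convex_halfSpace_re_le _
    have hSu : X.S u ∈ {v : ℂ | v.re ≤ -(y + X.om)} := by
      rw [mem_ofPred_eq, X.S_re]
      linarith
    have hSu' : X.S u' ∈ {v : ℂ | v.re ≤ -(y + X.om)} := by
      rw [mem_ofPred_eq, X.S_re]
      linarith
    have hmv := hconv.norm_image_sub_le_of_norm_hasDerivWithin_le (𝕜 := ℂ) (f := F)
      (f' := fun v => X.ld c v) (C := G)
      (fun v hv => (hF1 v (by
        have hv' : v.re ≤ -(y + X.om) := hv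
        linarith)).hasDerivWithinAt)
      (fun v hv => hB c hc v hv) hSu hSu'
    rw [X.S_sub, RCLike.norm_conj, norm_sub_rev u' u] at hmv
    set d : ℂ := F (X.S u') - F (X.S u) with hddef
    have hd1 : ‖d‖ ≤ 1 / (4 * q.natDegree) := hmv.trans hd
    have hd2 : ‖d‖ ≤ 1 := by
      refine hd1.trans ?_
      rw [div_le_one (by positivity)]
      linarith
    have e1 : X.f (X.S u) - c = Complex.exp (F (X.S u)) := by
      refine (hF2 _ ?_).symm
      rw [X.S_re]
      linarith
    have e2 : X.f (X.S u') - c = Complex.exp (F (X.S u')) := by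
      refine (hF2 _ ?_).symm
      rw [X.S_re]
      linarith
    have e3 : X.f (X.S u') - X.f (X.S u) = (X.f (X.S u) - c) * (Complex.exp d - 1) := by
      have : X.f (X.S u') - X.f (X.S u) = (X.f (X.S u') - c) - (X.f (X.S u) - c) := by ring
      rw [this, e2, e1, hddef, mul_sub, ← Complex.exp_add]
      congr 2
      · ring
      · ring
    rw [e3, norm_mul]
    have h5 : ‖Complex.exp d - 1‖ ≤ 1 / (2 * q.natDegree) := by
      refine (Complex.norm_exp_sub_one_le hd2).trans ?_
      have : 2 * (1 / (4 * (q.natDegree : ℝ))) = 1 / (2 * q.natDegree) := by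
        field_simp
        norm_num
      linarith
    calc ‖X.f (X.S u) - c‖ * ‖Complex.exp d - 1‖
        ≤ ‖X.f (X.S u) - c‖ * (1 / (2 * q.natDegree)) := by gcongr
      _ = 1 / (2 * q.natDegree) * ‖X.f (X.S u) - c‖ := by ring

theorem Lin.lemB {p q : ℂ[X]} {x : ℂ} (X : Lin p q x) (hm : 1 ≤ q.natDegree) {y G : ℝ} (hy : 0 < y)
    (hB : X.Bound (y + X.om) G) {v v' : ℂ} (hv : v.re ≤ -y) (hv' : v'.re ≤ -y)
    (hd : G * ‖v - v'‖ ≤ 1 / (4 * q.natDegree)) (h : X.f v = X.f v') :
    ∃ k : ℤ, v' = v + 2 * Real.pi * k * Complex.I := by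
  have hom := X.om_pos
  have key : ∀ l : ℕ, X.f (v - 2 * l * X.om) = X.f (v' - 2 * l * X.om) := by
    intro l
    induction l with
    | zero => simpa using h
    | succ l ih =>
      have hre : ∀ z : ℂ, z.re ≤ -y → (z - 2 * l * X.om).re ≤ -y := by
        intro z hz
        have : (z - 2 * l * X.om).re = z.re - 2 * l * X.om := by simp
        rw [this]
        have : 0 ≤ 2 * (l : ℝ) * X.om := by positivity
        linarith
      have hsub : (v - 2 * l * X.om) - (v' - 2 * l * X.om) = v - v' := by ring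
      have h1 := lemB_step X hm hy hB (hre v hv) (hre v' hv') (by rw [hsub]; exact hd) ih
      have h2 := lemB_step X hm hy hB (u := X.S (v - 2 * l * X.om)) (u' := X.S (v' - 2 * l * X.om))
        (by rw [X.S_re]; linarith [hre v hv]) (by rw [X.S_re]; linarith [hre v' hv'])
        (by rw [X.S_sub, RCLike.norm_conj, hsub]; exact hd) h1
      rw [X.S_S, X.S_S] at h2
      have e : ∀ z : ℂ, z - 2 * ((l + 1 : ℕ) : ℂ) * X.om = z - 2 * l * X.om - 2 * X.om := by
        intro z
        push_cast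
        ring
      rw [e, e]
      exact h2
  obtain ⟨r, hr, -, hinj⟩ := X.psi_inj
  have hsmall : ∀ z : ℂ, ∀ᶠ l : ℕ in atTop, Complex.exp (z - 2 * l * X.om) ∈ ball (0 : ℂ) r := by
    intro z
    have h1 : ∀ l : ℕ, ‖Complex.exp (z - 2 * l * X.om)‖ = Real.exp z.re * (X.lam ^ 2) ^ l := by
      intro l
      rw [Complex.norm_exp]
      have h2 : (z - 2 * l * X.om).re = z.re + l * (2 * -X.om) := by
        simp
        ring
      rw [h2, Real.exp_add, Real.exp_nat_mul, ← X.exp_neg_om, ← Real.exp_nat_mul (-X.om) 2]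
      norm_num
    have h3 : Tendsto (fun l : ℕ => Real.exp z.re * (X.lam ^ 2) ^ l) atTop (𝓝 0) := by
      have := (tendsto_pow_atTop_nhds_zero_of_lt_one (r := X.lam ^ 2) (by positivity)
        (pow_lt_one₀ X.lam_pos.le X.lam_lt two_ne_zero)).const_mul (Real.exp z.re)
      simpa using this
    filter_upwards [h3.eventually (gt_mem_nhds hr)] with l hl
    rw [mem_ball_zero_iff, h1]
    exact hl
  obtain ⟨l, hl1, hl2⟩ := ((hsmall v).and (hsmall v')).exists
  have h1 : Complex.exp (v' - 2 * l * X.om) = Complex.exp (v - 2 * l * X.om) :=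
    (hinj hl1 hl2 (key l)).symm
  rw [Complex.exp_eq_exp_iff_exists_int] at h1
  obtain ⟨k, hk⟩ := h1
  refine ⟨k, ?_⟩
  have : v' = (v' - 2 * l * X.om) + 2 * l * X.om := by ring
  rw [this, hk]
  ring

end Pool.Agent.HZ
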