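import Pool.Agent.H.MP_cd3d06_an.L.DBasic

/-! MP_cd3d06_an, module Sard: regular values in almost every direction -/

open Polynomial Metric Set Filter Topology MeasureTheory
open scoped ComplexConjugate

namespace Pool.Agent.HZ

/-- the critical values of `hp p q` form a null set -/
private theorem null_crit (p q : ℂ[X]) :
    volume (hp p q '' {z | ‖(derivative p).eval z‖ = ‖(derivative q).eval z‖}) = 0 := by
  apply addHaar_image_eq_zero_of_det_fderivWithin_eq_zero (μ := volume) (f' := dh p q)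
  · intro z _
    exact (hasStrictFDerivAt_hp p q z).hasFDerivAt.hasFDerivWithinAt
  · intro z hz
    rw [det_dh, jac]
    have : ‖(derivative p).eval z‖ = ‖(derivative q).eval z‖ := hz
    rw [this, sub_self]

/-- a null set of `ℂ` meets almost every ray in a null set -/
private theorem ae_ray {N : Set ℂ} (hN : volume N = 0) :
    ∀ᵐ θ : ℝ, ∀ᵐ r : ℝ, (r, θ) ∈ polarCoord.target →
      (r : ℂ) * (Real.cos θ + Real.sin θ * Complex.I) ∉ N := by
  set B := toMeasurable volume N with hB
  have hBm : MeasurableSet B := measurableSet_toMeasurable _ _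
  have hB0 : volume B = 0 := by rw [hB, measure_toMeasurable, hN]
  have h1 : (∫⁻ p in polarCoord.target, ENNReal.ofReal p.1 •
      (B.indicator (fun _ => (1 : ENNReal)) (Complex.polarCoord.symm p))) = 0 := by
    rw [Complex.lintegral_comp_polarCoord_symm, lintegral_indicator hBm]
    simp [hB0]
  have hmeas : Measurable (fun p : ℝ × ℝ => Complex.polarCoord.symm p) := by
    have : (fun p : ℝ × ℝ => Complex.polarCoord.symm p) =
        fun p : ℝ × ℝ => (p.1 : ℂ) * (Real.cos p.2 + Real.sin p.2 * Complex.I) := by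
      funext p; exact Complex.polarCoord_symm_apply p
    rw [this]
    fun_prop
  have h2 : ∀ᵐ p ∂(volume.restrict polarCoord.target), Complex.polarCoord.symm p ∉ B := by
    have hm : Measurable (fun p : ℝ × ℝ => ENNReal.ofReal p.1 •
      (B.indicator (fun _ => (1 : ENNReal)) (Complex.polarCoord.symm p))) := by
      exact Measurable.smul (ENNReal.measurable_ofReal.comp measurable_fst)
        ((measurable_const.indicator hBm).comp hmeas)
    have h3 := (lintegral_eq_zero_iff hm).1 h1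
    have h4 : ∀ᵐ p ∂(volume.restrict polarCoord.target), p ∈ polarCoord.target :=
      ae_restrict_mem polarCoord.open_target.measurableSet
    filter_upwards [h3, h4] with p hp1 hp2 hp3
    have hpos : 0 < p.1 := hp2.1
    have hp1' : ENNReal.ofReal p.1 •
      (B.indicator (fun _ => (1 : ENNReal)) (Complex.polarCoord.symm p)) = 0 := hp1
    rw [indicator_of_mem hp3, smul_eq_mul, mul_one, ENNReal.ofReal_eq_zero] at hp1'
    linarith
  have h5 : ∀ᵐ p : ℝ × ℝ, p ∈ polarCoord.target → Complex.polarCoord.symm p ∉ B :=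
    (ae_restrict_iff' polarCoord.open_target.measurableSet).1 h2
  have h6 : ∀ᵐ p : ℝ × ℝ ∂((volume : Measure ℝ).prod (volume : Measure ℝ)),
      (p.2, p.1) ∈ polarCoord.target → Complex.polarCoord.symm (p.2, p.1) ∉ B := by
    have := (Measure.measurePreserving_swap (μ := (volume : Measure ℝ))
      (ν := (volume : Measure ℝ))).quasiMeasurePreserving.ae (h5 : ∀ᵐ p : ℝ × ℝ ∂((volume : Measure ℝ).prod (volume : Measure ℝ)), _)
    exact this
  have h7 := Measure.ae_ae_of_ae_prod h6
  filter_upwards [h7] with θ hθ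
  filter_upwards [hθ] with r hr ht hc
  apply hr ht
  rw [Complex.polarCoord_symm_apply]
  exact subset_toMeasurable _ _ hc

private theorem countable_dir (l : ℂ) (hl : l ≠ 0) :
    {θ : ℝ | (conj ((Real.cos θ : ℂ) + Real.sin θ * Complex.I) * l).im = 0}.Countable := by
  apply (countable_range (fun n : ℤ => Complex.arg l - n * Real.pi)).mono
  intro θ hθ
  have h1 : (conj ((Real.cos θ : ℂ) + Real.sin θ * Complex.I) * l).im = 0 := hθ
  have h2 : (conj ((Real.cos θ : ℂ) + Real.sin θ * Complex.I) * l).im =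
      Real.cos θ * l.im - Real.sin θ * l.re := by
    rw [map_add, map_mul, Complex.conj_I, Complex.conj_ofReal, Complex.conj_ofReal,
      Complex.mul_im]
    simp only [Complex.add_re, Complex.add_im, Complex.mul_re, Complex.mul_im, Complex.ofReal_re,
      Complex.ofReal_im, Complex.neg_re, Complex.neg_im, Complex.I_re, Complex.I_im]
    ring
  have hre : l.re = ‖l‖ * Real.cos (Complex.arg l) := (Complex.norm_mul_cos_arg l).symm
  have him : l.im = ‖l‖ * Real.sin (Complex.arg l) := (Complex.norm_mul_sin_arg l).symm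
  rw [h2, hre, him] at h1
  have h3 : ‖l‖ * Real.sin (Complex.arg l - θ) = 0 := by
    rw [Real.sin_sub]; linarith
  have h4 : Real.sin (Complex.arg l - θ) = 0 := by
    rcases mul_eq_zero.1 h3 with h | h
    · exact absurd (norm_eq_zero.1 h) hl
    · exact h
  obtain ⟨n, hn⟩ := Real.sin_eq_zero_iff.1 h4
  exact ⟨n, by simp only []; linarith⟩

theorem exists_dir (p q : ℂ[X]) {F : Set ℂ} (hF : F.Finite) : ∃ u : ℂ, u ≠ 0 ∧
    (∀ l ∈ F, l ≠ 0 → (conj u * l).im ≠ 0) ∧ ∀ δ > 0, ∃ ε : ℝ, 0 < ε ∧ ε < δ ∧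
      ∀ z : ℂ, (hp p q z = ε * u ∨ hp p q z = -(ε * u)) →
        ‖(derivative p).eval z‖ ≠ ‖(derivative q).eval z‖ := by
  set N := hp p q '' {z | ‖(derivative p).eval z‖ = ‖(derivative q).eval z‖} with hN
  have hN0 : volume N = 0 := null_crit p q
  have hN1 : volume (N ∪ (-N)) = 0 := by
    apply measure_union_null hN0
    rw [Measure.measure_neg]
    exact hN0
  have h1 := ae_ray hN1
  have h2 : ∀ᵐ θ : ℝ, ∀ l ∈ F, l ≠ 0 →
      (conj ((Real.cos θ : ℂ) + Real.sin θ * Complex.I) * l).im ≠ 0 := by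
    rw [ae_ball_iff hF.countable]
    intro l _
    by_cases hl : l = 0
    · exact Eventually.of_forall fun θ h => absurd hl h
    · have := (countable_dir l hl).ae_notMem (volume : Measure ℝ)
      filter_upwards [this] with θ hθ _
      exact hθ
  have h3 : ∃ θ ∈ Ioo (-Real.pi) Real.pi, (∀ᵐ r : ℝ, (r, θ) ∈ polarCoord.target →
      (r : ℂ) * (Real.cos θ + Real.sin θ * Complex.I) ∉ N ∪ (-N)) ∧ (∀ l ∈ F, l ≠ 0 →
      (conj ((Real.cos θ : ℂ) + Real.sin θ * Complex.I) * l).im ≠ 0) := by
    by_contra hcon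
    push Not at hcon
    have h4 : Ioo (-Real.pi) Real.pi ⊆ {θ | ¬ ((∀ᵐ r : ℝ, (r, θ) ∈ polarCoord.target →
      (r : ℂ) * (Real.cos θ + Real.sin θ * Complex.I) ∉ N ∪ (-N)) ∧ (∀ l ∈ F, l ≠ 0 →
      (conj ((Real.cos θ : ℂ) + Real.sin θ * Complex.I) * l).im ≠ 0))} := by
      intro θ hθ h5
      obtain ⟨l, hl, hl0, hl1⟩ := hcon θ hθ h5.1
      exact h5.2 l hl hl0 hl1
    have h5 := measure_mono_null h4 (ae_iff.1 (h1.and h2))
    rw [Real.volume_Ioo] at h5
    have := Real.pi_pos
    rw [ENNReal.ofReal_eq_zero] at h5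
    linarith
  obtain ⟨θ, hθ, hr, hl⟩ := h3
  refine ⟨(Real.cos θ : ℂ) + Real.sin θ * Complex.I, ?_, hl, ?_⟩
  · intro h0
    have h6 : ‖((Real.cos θ : ℂ) + Real.sin θ * Complex.I)‖ = 1 := by
      rw [Complex.ofReal_cos, Complex.ofReal_sin, Complex.norm_cos_add_sin_mul_I]
    rw [h0] at h6
    simp at h6
  · intro δ hδ
    have h7 : ∃ ε ∈ Ioo 0 δ, (ε, θ) ∈ polarCoord.target →
      (ε : ℂ) * (Real.cos θ + Real.sin θ * Complex.I) ∉ N ∪ (-N) := by
      by_contra hcon
      push Not at hcon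
      have h8 : Ioo 0 δ ⊆ {r : ℝ | ¬ ((r, θ) ∈ polarCoord.target →
        (r : ℂ) * (Real.cos θ + Real.sin θ * Complex.I) ∉ N ∪ (-N))} := by
        intro r hr1 h9
        exact h9 (hcon r hr1).1 (hcon r hr1).2
      have h9 := measure_mono_null h8 (ae_iff.1 hr)
      rw [Real.volume_Ioo, ENNReal.ofReal_eq_zero] at h9
      linarith
    obtain ⟨ε, hε, h8⟩ := h7
    refine ⟨ε, hε.1, hε.2, ?_⟩
    have h9 := h8 ⟨hε.1, hθ⟩
    intro z hz heq
    apply h9
    rcases hz with hz | hz
    · left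
      exact ⟨z, heq, hz⟩
    · right
      rw [Set.mem_neg]
      exact ⟨z, heq, hz⟩

end Pool.Agent.HZ
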