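import Pool.Agent.H.MP_cd3d06_an.L.Defs

/-! MP_cd3d06_an, module XScale: three circles: exceptional zeros of the same type have the same modulus -/

open Polynomial Metric Set Filter Topology
open scoped ComplexConjugate

namespace Pool.Agent.HZ

/-- Hadamard's three circles theorem for a polynomial. -/
theorem three_circles (P : ℂ[X]) {r s a b θ : ℝ} (hr : 0 < r) (hs : 0 < s)
    (ha : ∀ z : ℂ, ‖z‖ = r → ‖P.eval z‖ ≤ a) (hb : ∀ z : ℂ, ‖z‖ = r * Real.exp s → ‖P.eval z‖ ≤ b)
    (h0 : 0 ≤ θ) (h1 : θ ≤ 1) {z : ℂ} (hz : ‖z‖ = r * Real.exp (θ * s)) :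
    ‖P.eval z‖ ≤ a ^ (1 - θ) * b ^ θ := by
  set f : ℂ → ℂ := fun w => P.eval (z * Complex.exp ((w - θ) * s)) with hf
  have hn : ∀ w : ℂ, ‖z * Complex.exp ((w - θ) * s)‖ = r * Real.exp (w.re * s) := by
    intro w
    rw [norm_mul, hz, Complex.norm_exp]
    have : ((w - (θ : ℂ)) * (s : ℂ)).re = (w.re - θ) * s := by
      simp
    rw [this, mul_assoc, ← Real.exp_add]
    congr 2
    ring
  have hdiff : Differentiable ℂ f := by
    intro w
    exact P.differentiableAt.comp w (by fun_prop)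
  have hB : BddAbove ((norm ∘ f) '' Complex.HadamardThreeLines.verticalClosedStrip 0 1) := by
    obtain ⟨C, hC⟩ := (isCompact_closedBall (0 : ℂ) (r * Real.exp s)).exists_bound_of_continuousOn
      (f := fun w => P.eval w) P.continuous.continuousOn
    refine ⟨C, ?_⟩
    rintro _ ⟨w, hw, rfl⟩
    simp only [Function.comp, hf]
    apply hC
    rw [mem_closedBall_zero_iff, hn]
    have hw' : w.re ∈ Set.Icc (0 : ℝ) 1 := hw
    have : w.re * s ≤ s := by nlinarith [hw'.2]
    gcongr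
  have key := Complex.HadamardThreeLines.norm_le_interp_of_mem_verticalClosedStrip₀₁' f
    (z := (θ : ℂ)) (a := a) (b := b)
    (by show ((θ : ℂ)).re ∈ Set.Icc (0 : ℝ) 1; simp [h0, h1]) hdiff.diffContOnCl hB
    (by
      intro w hw
      have hw' : w.re = 0 := hw
      apply ha
      rw [hn, hw']
      simp)
    (by
      intro w hw
      have hw' : w.re = 1 := hw
      apply hb
      rw [hn, hw']
      simp)
  simpa [hf] using key

private lemma mon_bounds {P : ℂ[X]} {r : ℝ} {ε : ℝ} {j : ℕ} {a : ℂ}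
    (h : ∀ z : ℂ, Real.exp (-1) * r ≤ ‖z‖ → ‖z‖ ≤ Real.exp 1 * r →
      ‖P.eval z - a * z ^ j‖ ≤ ε * ‖a * z ^ j‖) {z : ℂ} (hr : 0 < r) {t : ℝ} (ht : -1 ≤ t)
    (ht' : t ≤ 1) (hz : ‖z‖ = r * Real.exp t) :
    (1 - ε) * (‖a‖ * r ^ j * Real.exp (j * t)) ≤ ‖P.eval z‖ ∧
      ‖P.eval z‖ ≤ (1 + ε) * (‖a‖ * r ^ j * Real.exp (j * t)) := by
  have h1 := h z (by rw [hz, mul_comm]; gcongr) (by rw [hz, mul_comm r]; gcongr)
  have h2 : ‖a * z ^ j‖ = ‖a‖ * r ^ j * Real.exp (j * t) := by
    rw [norm_mul, norm_pow, hz, mul_pow, ← Real.exp_nat_mul]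
    ring
  rw [h2] at h1
  have h3 := norm_sub_norm_le (a * z ^ j) (P.eval z)
  have h4 := norm_sub_norm_le (P.eval z) (a * z ^ j)
  rw [norm_sub_rev] at h3
  rw [h2] at h3 h4
  constructor <;> linarith

theorem x_scale (m : ℕ) (δ : ℝ) (hδ : 0 < δ) : ∃ M ε : ℝ, 0 < M ∧ 0 < ε ∧ ∀ (P Q : ℂ[X]) (j k : ℕ),
    1 ≤ j → j < k → k ≤ m → ∀ x y : ℂ, x ≠ 0 → y ≠ 0 →
      P.eval x + conj (Q.eval x) = 0 → P.eval y + conj (Q.eval y) = 0 →
      MonAnn P ‖x‖ M ε j → MonAnn Q ‖x‖ M ε k → MonAnn P ‖y‖ M ε j → MonAnn Q ‖y‖ M ε k →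
      ‖y‖ ≤ Real.exp δ * ‖x‖ := by
  set h : ℝ := min (1 / 8) (δ / 2) with hh
  have hh0 : 0 < h := by positivity
  have hh1 : h ≤ 1 / 8 := min_le_left _ _
  have hh2 : h ≤ δ / 2 := min_le_right _ _
  have he1 : 1 < Real.exp h := by
    have := Real.add_one_lt_exp hh0.ne'
    linarith
  set c : ℝ := 2 / (Real.exp h + 1) with hc
  have hc0 : 0 < c := by positivity
  have hcc : c * (Real.exp h + 1) = 2 := by
    rw [hc]; field_simp
  refine ⟨1, 1 - c, one_pos, ?_, ?_⟩
  · nlinarith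
  intro P Q j k hj hjk hkm x y hx hy hPx hPy hPx' hQx' hPy' hQy'
  have e1 : 1 - (1 - c) = c := by ring
  have e2 : 1 + (1 - c) = c * Real.exp h := by linarith
  obtain ⟨a, ha0, ha⟩ := hPx'
  obtain ⟨b, hb0, hb⟩ := hQx'
  obtain ⟨a', ha'0, ha'⟩ := hPy'
  obtain ⟨b', hb'0, hb'⟩ := hQy'
  by_contra hcon
  push Not at hcon
  set r : ℝ := ‖x‖ with hr
  set R : ℝ := ‖y‖ with hR
  have hr0 : 0 < r := norm_pos_iff.mpr hx
  have hR0 : 0 < R := norm_pos_iff.mpr hy
  set s : ℝ := Real.log (R / r) with hs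
  have hRs : R = r * Real.exp s := by
    rw [hs, Real.exp_log (by positivity)]
    field_simp
  have hrs : r = R * Real.exp (-s) := by
    rw [hRs, mul_assoc, ← Real.exp_add]
    simp
  have hsδ : δ < s := by
    rw [hs, Real.lt_log_iff_exp_lt (by positivity), lt_div_iff₀ hr0]
    exact hcon
  have hs0 : 0 < s := hδ.trans hsδ
  -- moduli at `x` and at `y`
  have hnx : ‖P.eval x‖ = ‖Q.eval x‖ := by
    have : P.eval x = - conj (Q.eval x) := eq_neg_of_add_eq_zero_left hPx
    rw [this, norm_neg, Complex.norm_conj]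
  have hny : ‖P.eval y‖ = ‖Q.eval y‖ := by
    have : P.eval y = - conj (Q.eval y) := eq_neg_of_add_eq_zero_left hPy
    rw [this, norm_neg, Complex.norm_conj]
  have hrx : ‖x‖ = r * Real.exp 0 := by simp [hr]
  have hry : ‖y‖ = R * Real.exp 0 := by simp [hR]
  obtain ⟨pxl, pxu⟩ := mon_bounds ha hr0 (by norm_num) (by norm_num) hrx
  obtain ⟨qxl, qxu⟩ := mon_bounds hb hr0 (by norm_num) (by norm_num) hrx
  obtain ⟨pyl, pyu⟩ := mon_bounds ha' hR0 (by norm_num) (by norm_num) hry
  obtain ⟨qyl, qyu⟩ := mon_bounds hb' hR0 (by norm_num) (by norm_num) hry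
  rw [e1] at pxl qxl pyl qyl
  rw [e2] at pxu qxu pyu qyu
  simp only [mul_zero, Real.exp_zero, mul_one] at pxl pxu qxl qxu pyl pyu qyl qyu
  set α : ℝ := ‖a‖ * r ^ j with hα
  set β : ℝ := ‖b‖ * r ^ k with hβ
  set α' : ℝ := ‖a'‖ * R ^ j with hα'
  set β' : ℝ := ‖b'‖ * R ^ k with hβ'
  have hα0 : 0 < α := by have := norm_pos_iff.mpr ha0; positivity
  have hβ0 : 0 < β := by have := norm_pos_iff.mpr hb0; positivity
  have hα'0 : 0 < α' := by have := norm_pos_iff.mpr ha'0; positivity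
  have hβ'0 : 0 < β' := by have := norm_pos_iff.mpr hb'0; positivity
  have hlog : ∀ u v w : ℝ, 0 < u → 0 < v → c * u ≤ c * Real.exp w * v →
      Real.log u ≤ w + Real.log v := by
    intro u v w hu hv huv
    have h1 : u ≤ Real.exp w * v := by
      have : c * u ≤ c * (Real.exp w * v) := by linarith
      exact le_of_mul_le_mul_left this hc0
    calc Real.log u ≤ Real.log (Real.exp w * v) := Real.log_le_log hu h1
      _ = w + Real.log v := by
        rw [Real.log_mul (Real.exp_pos _).ne' hv.ne', Real.log_exp]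
  have L1 : Real.log α ≤ h + Real.log β := hlog _ _ _ hα0 hβ0 (by linarith)
  have L4 : Real.log β' ≤ h + Real.log α' := hlog _ _ _ hβ'0 hα'0 (by linarith)
  have hkj : (j : ℝ) + 1 ≤ k := by exact_mod_cast hjk
  rcases le_or_gt s 1 with hs1 | hs1
  · -- `y` is in the annulus of `x`
    have hnyx : ‖y‖ = r * Real.exp s := by rw [← hR, hRs]
    obtain ⟨_, pu⟩ := mon_bounds ha hr0 (by linarith) hs1 hnyx
    obtain ⟨ql, _⟩ := mon_bounds hb hr0 (by linarith) hs1 hnyx
    rw [e1] at ql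
    rw [e2] at pu
    have h1 : c * (β * Real.exp (k * s)) ≤ c * Real.exp h * (α * Real.exp (j * s)) := by
      calc c * (β * Real.exp (k * s)) ≤ ‖Q.eval y‖ := ql
        _ = ‖P.eval y‖ := hny.symm
        _ ≤ _ := pu
    have h2 := hlog _ _ _ (by positivity) (by positivity) h1
    rw [Real.log_mul hβ0.ne' (Real.exp_pos _).ne', Real.log_mul hα0.ne' (Real.exp_pos _).ne',
      Real.log_exp, Real.log_exp] at h2
    nlinarith
  · -- three circles
    have hth : s * s⁻¹ = 1 := mul_inv_cancel₀ hs0.ne'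
    have hsi : 0 < s⁻¹ := inv_pos.mpr hs0
    have hsi1 : s⁻¹ ≤ 1 := inv_le_one_of_one_le₀ hs1.le
    -- bounds on the circles
    have PA : ∀ z : ℂ, ‖z‖ = r → ‖P.eval z‖ ≤ c * Real.exp h * α := by
      intro z hz
      have := (mon_bounds ha hr0 (z := z) (t := 0) (by norm_num) (by norm_num) (by simpa using hz)).2
      rw [e2] at this
      simpa using this
    have QA : ∀ z : ℂ, ‖z‖ = r → ‖Q.eval z‖ ≤ c * Real.exp h * β := by
      intro z hz
      have := (mon_bounds hb hr0 (z := z) (t := 0) (by norm_num) (by norm_num) (by simpa using hz)).2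
      rw [e2] at this
      simpa using this
    have PB : ∀ z : ℂ, ‖z‖ = r * Real.exp s → ‖P.eval z‖ ≤ c * Real.exp h * α' := by
      intro z hz
      have := (mon_bounds ha' hR0 (z := z) (t := 0) (by norm_num) (by norm_num)
        (by rw [hz, ← hRs]; simp)).2
      rw [e2] at this
      simpa using this
    have QB : ∀ z : ℂ, ‖z‖ = r * Real.exp s → ‖Q.eval z‖ ≤ c * Real.exp h * β' := by
      intro z hz
      have := (mon_bounds hb' hR0 (z := z) (t := 0) (by norm_num) (by norm_num)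
        (by rw [hz, ← hRs]; simp)).2
      rw [e2] at this
      simpa using this
    have hlog2 : ∀ u v w θ : ℝ, 0 < u → 0 < v → 0 < w →
        c * w ≤ (c * Real.exp h * u) ^ (1 - θ) * (c * Real.exp h * v) ^ θ →
        Real.log w ≤ h + (1 - θ) * Real.log u + θ * Real.log v := by
      intro u v w θ hu hv hw huv
      have h1 := Real.log_le_log (by positivity) huv
      have hce : 0 < c * Real.exp h := by positivity
      have hcu : 0 < c * Real.exp h * u := by positivity
      have hcv : 0 < c * Real.exp h * v := by positivity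
      rw [Real.log_mul hc0.ne' hw.ne', Real.log_mul (Real.rpow_pos_of_pos hcu _).ne'
        (Real.rpow_pos_of_pos hcv _).ne', Real.log_rpow hcu,
        Real.log_rpow hcv, Real.log_mul hce.ne' hu.ne',
        Real.log_mul hce.ne' hv.ne', Real.log_mul hc0.ne' (Real.exp_pos _).ne', Real.log_exp] at h1
      linarith
    -- the polynomial `P`
    have HP : Real.log α' - j ≤ h + s⁻¹ * Real.log α + (1 - s⁻¹) * Real.log α' := by
      have hz : ‖((r * Real.exp ((1 - s⁻¹) * s) : ℝ) : ℂ)‖ = r * Real.exp ((1 - s⁻¹) * s) := by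
        rw [Complex.norm_real, Real.norm_of_nonneg (by positivity)]
      have hz' : ‖((r * Real.exp ((1 - s⁻¹) * s) : ℝ) : ℂ)‖ = R * Real.exp (-1) := by
        rw [hz, hRs, mul_assoc, ← Real.exp_add]
        congr 2
        linear_combination -hth
      have h1 := three_circles P hr0 hs0 PA PB (θ := 1 - s⁻¹) (by linarith) (by linarith) hz
      obtain ⟨h2, _⟩ := mon_bounds ha' hR0 (by norm_num) (by norm_num) hz'
      rw [e1] at h2
      have h3 := hlog2 α α' (α' * Real.exp (j * (-1))) (1 - s⁻¹) hα0 hα'0 (by positivity)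
        (h2.trans h1)
      rw [Real.log_mul hα'0.ne' (Real.exp_pos _).ne', Real.log_exp] at h3
      nlinarith
    have HQ : Real.log β + k ≤ h + (1 - s⁻¹) * Real.log β + s⁻¹ * Real.log β' := by
      have hz : ‖((r * Real.exp (s⁻¹ * s) : ℝ) : ℂ)‖ = r * Real.exp (s⁻¹ * s) := by
        rw [Complex.norm_real, Real.norm_of_nonneg (by positivity)]
      have hz' : ‖((r * Real.exp (s⁻¹ * s) : ℝ) : ℂ)‖ = r * Real.exp 1 := by
        rw [hz]
        congr 2
        linear_combination hth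
      have h1 := three_circles Q hr0 hs0 QA QB (θ := s⁻¹) hsi.le hsi1 hz
      obtain ⟨h2, _⟩ := mon_bounds hb hr0 (by norm_num) (by norm_num) hz'
      rw [e1] at h2
      have h3 := hlog2 β β' (β * Real.exp (k * 1)) s⁻¹ hβ0 hβ'0 (by positivity)
        (h2.trans h1)
      rw [Real.log_mul hβ0.ne' (Real.exp_pos _).ne', Real.log_exp] at h3
      linarith
    -- conclusion
    have HP' : Real.log α' - Real.log α ≤ s * (h + j) := by
      have h1 : s * (s⁻¹ * (Real.log α' - Real.log α)) ≤ s * (h + j) := by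
        apply mul_le_mul_of_nonneg_left _ hs0.le
        linarith
      rwa [← mul_assoc, hth, one_mul] at h1
    have HQ' : s * (k - h) ≤ Real.log β' - Real.log β := by
      have h1 : s * (k - h) ≤ s * (s⁻¹ * (Real.log β' - Real.log β)) := by
        apply mul_le_mul_of_nonneg_left _ hs0.le
        linarith
      rwa [← mul_assoc, hth, one_mul] at h1
    have h5 : s * (k - h) ≤ s * (h + j) + 2 * h := by linarith
    nlinarith [mul_le_mul_of_nonneg_left hkj hs0.le, mul_le_mul_of_nonneg_left hh1 hs0.le]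

end Pool.Agent.HZ
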